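import Pool.Agent.Lib_helper78.RF.F.FNA
import Pool.Agent.Lib_helper78.RF.F.FNB
import Pool.Agent.Lib_helper78.RO.Defs

set_option autoImplicit false

namespace Pool.Agent.RO

open Pool.Agent.CK Pool.Agent.RF Pool.Agent.CKP

variable {O : Lang} {γ : Type} [ToD γ]

theorem enb_cons (t : Tk) (p : List Tk) : encT (t :: p) = encK t ++ encT p := by
  simp [encT]

theorem enb_append (p q : List Tk) : encT (p ++ q) = encT p ++ encT q := by
  simp [encT]

theorem enb_nil : encT [] = [] := rfl

theorem enb_tagU (i : ℕ) : tagU (List.replicate i ()) = tag i := by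
  simp [tagU, tag, List.map_replicate]

theorem enb_var (i : ℕ) : encK (tk 0 i) = tag 0 ++ tag i := by
  simp only [encK, tk, isK, List.length_replicate]
  simp only [enb_tagU]
  simp [tagU, tag]

theorem enb_all (i : ℕ) : encK (tk 16 i) = tag 7 ++ tag i := by
  have h : encK (tk 16 i) = tagU (List.replicate 7 ()) ++ tagU (List.replicate i ()) := rfl
  rw [h, enb_tagU, enb_tagU]

theorem enb_k1 : encK (tk 1 0) = tag 1 := rfl
theorem enb_k2 : encK (tk 2 0) = tag 2 := rfl
theorem enb_k3 : encK (tk 3 0) = tag 3 := rfl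
theorem enb_k4 : encK (tk 4 0) = tag 4 := rfl
theorem enb_k5 : encK (tk 5 0) = tag 5 := rfl
theorem enb_k6 : encK (tk 6 0) = tag 6 := rfl
theorem enb_k7 : encK (tk 7 0) = tag 7 := rfl
theorem enb_k8 : encK (tk 8 0) = tag 8 := rfl
theorem enb_k9 : encK (tk 9 0) = tag 0 := rfl
theorem enb_k10 : encK (tk 10 0) = tag 1 := rfl
theorem enb_k11 : encK (tk 11 0) = tag 2 := rfl
theorem enb_k12 : encK (tk 12 0) = tag 3 := rfl
theorem enb_k13 : encK (tk 13 0) = tag 4 := rfl
theorem enb_k14 : encK (tk 14 0) = tag 5 := rfl
theorem enb_k15 : encK (tk 15 0) = tag 6 := rfl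

theorem encT_tm (t : Tm) : encT (tmT t) = t.enc := by
  induction t with
  | var i => simp only [tmT, enb_cons, enb_nil, enb_var, List.append_nil, Tm.enc]
  | zero => simp only [tmT, enb_cons, enb_nil, enb_k1, List.append_nil, Tm.enc]
  | succ t ih => simp only [tmT, enb_cons, enb_k2, ih, Tm.enc]
  | half t ih => simp only [tmT, enb_cons, enb_k3, ih, Tm.enc]
  | len t ih => simp only [tmT, enb_cons, enb_k4, ih, Tm.enc]
  | add s t ihs iht => simp only [tmT, enb_cons, enb_append, enb_k5, ihs, iht, Tm.enc]
  | mul s t ihs iht => simp only [tmT, enb_cons, enb_append, enb_k6, ihs, iht, Tm.enc]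
  | smash s t ihs iht => simp only [tmT, enb_cons, enb_append, enb_k7, ihs, iht, Tm.enc]
  | sbn r s t ihr ihs iht =>
    simp only [tmT, enb_cons, enb_append, enb_k8, ihr, ihs, iht, Tm.enc]

theorem encT_fm (φ : Fm) : encT (fmT φ) = φ.enc := by
  induction φ with
  | eq s t => simp only [fmT, enb_cons, enb_append, enb_k9, encT_tm, Fm.enc]
  | le s t => simp only [fmT, enb_cons, enb_append, enb_k10, encT_tm, Fm.enc]
  | orc t => simp only [fmT, enb_cons, enb_k11, encT_tm, Fm.enc]
  | tr e x w z => simp only [fmT, enb_cons, enb_append, enb_k12, encT_tm, Fm.enc]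
  | prf p z u v => simp only [fmT, enb_cons, enb_append, enb_k13, encT_tm, Fm.enc]
  | neg φ ih => simp only [fmT, enb_cons, enb_k14, ih, Fm.enc]
  | imp φ ψ ih1 ih2 => simp only [fmT, enb_cons, enb_append, enb_k15, ih1, ih2, Fm.enc]
  | all i φ ih => simp only [fmT, enb_cons, enb_all, ih, Fm.enc, List.append_assoc]

theorem fmT_inj {φ ψ : Fm} (h : fmT φ = fmT ψ) : φ = ψ := by
  have h1 : φ.enc ++ [] = ψ.enc ++ [] := by
    rw [← encT_fm, ← encT_fm, h]
  exact (enc_inj h1).1

theorem enb_encK_len (t : Tk) : (encK t).length ≤ t.1.length + t.2.length + 2 := by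
  unfold encK
  rw [List.length_append]
  have h1 : (tagU (if decide (9 ≤ t.1.length) = true then udrop (List.replicate 9 ()) t.1
      else t.1)).length ≤ t.1.length + 1 := by
    by_cases h : decide (9 ≤ t.1.length) = true
    · rw [if_pos h, udrop_eq]
      simp [tagU]
    · rw [if_neg h]
      simp [tagU]
  have h2 : (if (isK 0 t || isK 16 t) = true then tagU t.2 else []).length ≤ t.2.length + 1 := by
    by_cases h : (isK 0 t || isK 16 t) = true
    · rw [if_pos h]
      simp [tagU]
    · rw [if_neg h]
      simp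
  omega

theorem enb_sz_units (l : List Unit) : sz l = 2 * l.length + 1 := by
  induction l with
  | nil => rfl
  | cons a t ih =>
    rw [sz_cons, ih, List.length_cons]
    have h : sz a = 1 := rfl
    omega

theorem encT_len (p : List Tk) : (encT p).length ≤ sz p := by
  induction p with
  | nil => simp [encT]
  | cons t p ih =>
    rw [enb_cons, List.length_append, sz_cons]
    obtain ⟨a, b⟩ := t
    rw [sz_pair, enb_sz_units, enb_sz_units]
    have h := enb_encK_len (a, b)
    simp only at h
    omega

theorem enb_sz_tk (k i : ℕ) (p : List Tk) : sz (tk k i :: p) = 2 * k + 2 * i + 4 + sz p := by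
  rw [sz_cons, tk, sz_pair, enb_sz_units, enb_sz_units, List.length_replicate, List.length_replicate]
  omega

theorem enb_sz_append (p q : List Tk) : sz (p ++ q) + 1 = sz p + sz q := by
  induction p with
  | nil => simp [Nat.add_comm]
  | cons t p ih =>
    rw [List.cons_append, sz_cons, sz_cons]
    omega

theorem enb_tag_len (k : ℕ) : (tag k).length = k + 1 := by simp [tag]

theorem tmT_sz (t : Tm) : sz (tmT t) ≤ 4 * t.enc.length + 1 := by
  induction t with
  | var i =>
    simp only [tmT, enb_sz_tk, sz_nil, Tm.enc, List.length_append, enb_tag_len]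
    omega
  | zero =>
    simp only [tmT, enb_sz_tk, sz_nil, Tm.enc, enb_tag_len]
    omega
  | succ t ih =>
    simp only [tmT, enb_sz_tk, Tm.enc, List.length_append, enb_tag_len]
    omega
  | half t ih =>
    simp only [tmT, enb_sz_tk, Tm.enc, List.length_append, enb_tag_len]
    omega
  | len t ih =>
    simp only [tmT, enb_sz_tk, Tm.enc, List.length_append, enb_tag_len]
    omega
  | add s t ihs iht =>
    simp only [tmT, enb_sz_tk, Tm.enc, List.length_append, enb_tag_len]
    have h := enb_sz_append (tmT s) (tmT t)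
    omega
  | mul s t ihs iht =>
    simp only [tmT, enb_sz_tk, Tm.enc, List.length_append, enb_tag_len]
    have h := enb_sz_append (tmT s) (tmT t)
    omega
  | smash s t ihs iht =>
    simp only [tmT, enb_sz_tk, Tm.enc, List.length_append, enb_tag_len]
    have h := enb_sz_append (tmT s) (tmT t)
    omega
  | sbn r s t ihr ihs iht =>
    simp only [tmT, enb_sz_tk, Tm.enc, List.length_append, enb_tag_len]
    have h := enb_sz_append (tmT s) (tmT t)
    have h' := enb_sz_append (tmT r) (tmT s ++ tmT t)
    omega

theorem fmT_sz (φ : Fm) : sz (fmT φ) ≤ 24 * φ.enc.length + 1 := by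
  induction φ with
  | eq s t =>
    simp only [fmT, enb_sz_tk, Fm.enc, List.length_append, enb_tag_len]
    have h := enb_sz_append (tmT s) (tmT t)
    have h1 := tmT_sz s
    have h2 := tmT_sz t
    omega
  | le s t =>
    simp only [fmT, enb_sz_tk, Fm.enc, List.length_append, enb_tag_len]
    have h := enb_sz_append (tmT s) (tmT t)
    have h1 := tmT_sz s
    have h2 := tmT_sz t
    omega
  | orc t =>
    simp only [fmT, enb_sz_tk, Fm.enc, List.length_append, enb_tag_len]
    have h1 := tmT_sz t
    omega
  | tr e x w z =>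
    simp only [fmT, enb_sz_tk, Fm.enc, List.length_append, enb_tag_len]
    have h1 := tmT_sz e
    have h2 := tmT_sz x
    have h3 := tmT_sz w
    have h4 := tmT_sz z
    have h5 := enb_sz_append (tmT w) (tmT z)
    have h6 := enb_sz_append (tmT x) (tmT w ++ tmT z)
    have h7 := enb_sz_append (tmT e) (tmT x ++ (tmT w ++ tmT z))
    omega
  | prf e x w z =>
    simp only [fmT, enb_sz_tk, Fm.enc, List.length_append, enb_tag_len]
    have h1 := tmT_sz e
    have h2 := tmT_sz x
    have h3 := tmT_sz w
    have h4 := tmT_sz z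
    have h5 := enb_sz_append (tmT w) (tmT z)
    have h6 := enb_sz_append (tmT x) (tmT w ++ tmT z)
    have h7 := enb_sz_append (tmT e) (tmT x ++ (tmT w ++ tmT z))
    omega
  | neg φ ih =>
    simp only [fmT, enb_sz_tk, Fm.enc, List.length_append, enb_tag_len]
    omega
  | imp φ ψ ih1 ih2 =>
    simp only [fmT, enb_sz_tk, Fm.enc, List.length_append, enb_tag_len]
    have h := enb_sz_append (fmT φ) (fmT ψ)
    omega
  | all i φ ih =>
    simp only [fmT, enb_sz_tk, Fm.enc, List.length_append, enb_tag_len]
    omega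

theorem enb_PTime_isK {t : γ → Tk} (ht : PTime O t) (k : ℕ) : PTime O (fun x => isK k (t x)) :=
  PTime.nat_eq ht.fst.length (PTime.const k)

theorem enb_PTime_tagU {u : γ → List Unit} (hu : PTime O u) : PTime O (fun x => tagU (u x)) :=
  (PTime.map (f := fun _ _ => true) hu (PTime.const _)).append (PTime.const _)

theorem PTime_encT {p : γ → List Tk} (hp : PTime O p) : PTime O (fun x => encT (p x)) := by
  refine PTime.flatMap (f := fun _ t => encK t) hp ?_
  have ht : PTime O (fun q : γ × Tk => q.2) := PTime.id.snd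
  refine PTime.append ?_ ?_
  · refine enb_PTime_tagU ?_
    refine PTime.ite ?_ ?_ ?_
    · exact PTime.nat_le (PTime.const 9) ht.fst.length
    · exact PTime.udrop (PTime.const _) ht.fst
    · exact ht.fst
  · refine PTime.ite ?_ ?_ (PTime.const _)
    · exact (enb_PTime_isK ht 0).or (enb_PTime_isK ht 16)
    · exact enb_PTime_tagU ht.snd

end Pool.Agent.RO

section
open Pool.Agent.RO
example : type_of% @encT_tm := @encT_tm
example : type_of% @encT_fm := @encT_fm
example : type_of% @fmT_inj := @fmT_inj
example : type_of% @encT_len := @encT_len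
example : type_of% @tmT_sz := @tmT_sz
example : type_of% @fmT_sz := @fmT_sz
example : type_of% @PTime_encT := @PTime_encT
end
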