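import Pool.Agent.Lib_helper78.RF.F.FNA
import Pool.Agent.Lib_helper78.RF.F.FNB
import Pool.Agent.Lib_helper78.RO.Defs
set_option autoImplicit false
namespace Pool.Agent.RO

open Pool.Agent.CK Pool.Agent.RF Pool.Agent.CKP

variable {O : Lang} {γ : Type} [ToD γ]

theorem toD_list_inj {α : Type} [ToD α] (h : Function.Injective (toD : α → D)) :
    Function.Injective (toD : List α → D) := by
  intro a
  induction a with
  | nil =>
    intro b hb
    cases b with
    | nil => rfl
    | cons x t => exact absurd hb (by intro h'; exact D.noConfusion h')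
  | cons x t ih =>
    intro b hb
    cases b with
    | nil => exact absurd hb (by intro h'; exact D.noConfusion h')
    | cons y s =>
      have hb' : D.cons (toD x) (toD t) = D.cons (toD y) (toD s) := hb
      injection hb' with h1 h2
      rw [h h1, ih h2]

theorem eqt_unit : Function.Injective (toD : Unit → D) := fun _ _ _ => rfl

theorem eqt_bool : Function.Injective (toD : Bool → D) := by
  intro a b h
  cases a <;> cases b <;> first | rfl | exact absurd h (by intro h'; exact D.noConfusion h')

theorem eqt_pair {α β : Type} [ToD α] [ToD β] (h1 : Function.Injective (toD : α → D))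
    (h2 : Function.Injective (toD : β → D)) : Function.Injective (toD : α × β → D) := by
  intro a b h
  have h' : D.cons (toD a.1) (toD a.2) = D.cons (toD b.1) (toD b.2) := h
  injection h' with h3 h4
  exact Prod.ext (h1 h3) (h2 h4)

theorem eqT_bits (a b : List Bool) : eqT a b = true ↔ a = b := by
  unfold eqT
  rw [decide_eq_true_iff]
  exact ⟨fun h => toD_list_inj eqt_bool h, fun h => by rw [h]⟩

theorem eqT_tks (a b : List Tk) : eqT a b = true ↔ a = b := by
  unfold eqT
  rw [decide_eq_true_iff]
  exact ⟨fun h => toD_list_inj (eqt_pair (toD_list_inj eqt_unit) (toD_list_inj eqt_unit)) h,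
    fun h => by rw [h]⟩

theorem eqt_key (d e : D) : ofBits (d.enc ++ [true]) = ofBits (e.enc ++ [true]) ↔ d = e := by
  constructor
  · intro h
    have h1 := congrArg Nat.bits h
    rw [bits_ofBits_snoc, bits_ofBits_snoc] at h1
    have h2 := List.append_cancel_right h1
    have h3 := congrArg dec h2
    rwa [dec_enc, dec_enc] at h3
  · rintro rfl
    rfl

theorem PTime_eqT {α : Type} [ToD α] {f g : γ → α} (hf : PTime O f) (hg : PTime O g) :
    PTime O (fun x => eqT (f x) (g x)) := by
  have h1 : PTime O (fun x => decide (ofBits ((toD (f x)).enc ++ [true]) =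
      ofBits ((toD (g x)).enc ++ [true]))) :=
    PTime.nat_eq (PTime.ofBits (PTime.append (PTime.enc (PTime.code hf)) (PTime.const [true])))
      (PTime.ofBits (PTime.append (PTime.enc (PTime.code hg)) (PTime.const [true])))
  refine h1.of_eq fun x => ?_
  unfold eqT
  exact decide_eq_decide.2 (eqt_key _ _)

end Pool.Agent.RO
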