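import Pool.Agent.Lib_helper78.RF.F.FNA
import Pool.Agent.Lib_helper78.RF.F.FNB
import Pool.Agent.Lib_helper78.RO.Defs
set_option autoImplicit false
namespace Pool.Agent.RO

open Pool.Agent.CK Pool.Agent.RF Pool.Agent.CKP

variable {O : Lang} {γ : Type} [ToD γ]

theorem PTime_isK {f : γ → Tk} (k : ℕ) (hf : PTime O f) : PTime O (fun x => isK k (f x)) := by
  unfold isK
  exact PTime.nat_eq (PTime.length hf.fst) (PTime.const k)

theorem PTime_idxIs {i : γ → List Unit} {f : γ → Tk} (hi : PTime O i) (hf : PTime O f) :
    PTime O (fun x => idxIs (i x) (f x)) := by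
  unfold idxIs
  exact PTime.nat_eq (PTime.length hf.snd) (PTime.length hi)

theorem PTime_isAll {i : γ → List Unit} {f : γ → Tk} (hi : PTime O i) (hf : PTime O f) :
    PTime O (fun x => isAll (i x) (f x)) :=
  PTime.and (PTime_isK 16 hf) (PTime_idxIs hi hf)

theorem PTime_isVar {i : γ → List Unit} {f : γ → Tk} (hi : PTime O i) (hf : PTime O f) :
    PTime O (fun x => isVar (i x) (f x)) :=
  PTime.and (PTime_isK 0 hf) (PTime_idxIs hi hf)

theorem PTime_arU {f : γ → Tk} (hf : PTime O f) : PTime O (fun x => arU (f x)) := by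
  unfold arU
  have h : PTime O (fun x => arTable.getD ((f x).1).length []) :=
    PTime.getD hf.fst (PTime.const arTable) (PTime.const [])
  exact h

theorem arU_le (t : Tk) : (arU t).length ≤ 4 := by
  unfold arU
  by_cases h : t.1.length < arTable.length
  · have h1 : ∀ l ∈ arTable, l.length ≤ 4 := by decide
    rw [List.getD_eq_getElem _ _ h]
    exact h1 _ (List.getElem_mem h)
  · rw [List.getD_eq_default _ _ (by omega)]
    simp

theorem PTime_atomT {p : γ → List Tk} (hp : PTime O p) : PTime O (fun x => atomT (p x)) := by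
  unfold atomT
  have h : PTime O (fun x => ((p x).headD ([], [])).1.length) :=
    PTime.length (PTime.headD hp (PTime.const ([], []))).fst
  exact PTime.and (PTime.nat_le (PTime.const 9) h) (PTime.nat_le h (PTime.const 13))

theorem PTime_allK {i : γ → List Unit} {p : γ → List Tk} (hi : PTime O i) (hp : PTime O p) :
    PTime O (fun x => allK (i x) (p x)) :=
  PTime.cons (PTime.pair (PTime.const _) hi) hp

theorem PTime_impK {p q : γ → List Tk} (hp : PTime O p) (hq : PTime O q) :
    PTime O (fun x => impK (p x) (q x)) :=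
  PTime.cons (PTime.const _) (PTime.append hp hq)

theorem PTime_negK {p : γ → List Tk} (hp : PTime O p) : PTime O (fun x => negK (p x)) :=
  PTime.cons (PTime.const _) hp

theorem PTime_andK {p q : γ → List Tk} (hp : PTime O p) (hq : PTime O q) :
    PTime O (fun x => andK (p x) (q x)) :=
  PTime_negK (PTime_impK hp (PTime_negK hq))

theorem PTime_eqK {p q : γ → List Tk} (hp : PTime O p) (hq : PTime O q) :
    PTime O (fun x => eqK (p x) (q x)) :=
  PTime.cons (PTime.const _) (PTime.append hp hq)

theorem PTime_leK {p q : γ → List Tk} (hp : PTime O p) (hq : PTime O q) :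
    PTime O (fun x => leK (p x) (q x)) :=
  PTime.cons (PTime.const _) (PTime.append hp hq)

end Pool.Agent.RO
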