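import Pool.Agent.Lib_helper78.RF.F.FNA
import Pool.Agent.Lib_helper78.RF.F.FNB
import Pool.Agent.Lib_helper78.RO.Defs
import Pool.Agent.Lib_helper78.RO.F.TOK

/-!
# Block TDP: closure of the top-down traversals
-/

set_option autoImplicit false

namespace Pool.Agent.RO

open Pool.Agent.CK Pool.Agent.RF Pool.Agent.CKP

variable {O : Lang} {γ : Type} [ToD γ]

theorem tdp_app {α : Type} [ToD α] (l l' : List α) : sz (l ++ l') + 1 = sz l + sz l' := by
  induction l with
  | nil => rw [List.nil_append, sz_nil]; omega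
  | cons a t ih =>
    rw [List.cons_append, sz_cons, sz_cons]
    omega

theorem tdp_copies {α : Type} [ToD α] {B : ℕ} (c : α) (hc : sz c ≤ B) (t : Tk) (r : List α) :
    sz ((arU t).map (fun _ => c) ++ r) ≤ sz r + 4 * (B + 1) := by
  have h1 := tdp_app ((arU t).map (fun _ => c)) r
  have h2 := sz_list_le (s := B) ((arU t).map (fun _ => c)) (by
    intro x hx
    obtain ⟨_, _, rfl⟩ := List.mem_map.1 hx
    exact hc)
  rw [List.length_map] at h2
  have h3 := arU_le t
  have h4 : (arU t).length * (B + 1) ≤ 4 * (B + 1) := Nat.mul_le_mul_right _ h3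
  omega

theorem tdp_fold {α β : Type} [ToD α] [ToD β] {p : γ → List Tk} {upd : γ → α → Tk → α}
    {em : γ → α → Tk → β → β} {d : α} {i : β} {l0 : List α} (hp : PTime O p)
    (hupd : PTime O (fun q : γ × α × Tk => upd q.1 q.2.1 q.2.2))
    (hem : PTime O (fun q : γ × α × Tk × β => em q.1 q.2.1 q.2.2.1 q.2.2.2))
    (B : ℕ) (hB : ∀ x b t, sz (upd x b t) ≤ B) (R : Polynomial ℕ)
    (hR : ∀ x b t o, t ∈ p x → sz (em x b t o) ≤ sz o + R.eval (sz x)) :
    PTime O (fun x => (p x).foldl (tdStep (upd x) (em x) d) (l0, i)) := by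
  have h1 : PTime O (fun q : γ × (List α × β) × Tk => q.1) := PTime.id.fst
  have h2 : PTime O (fun q : γ × (List α × β) × Tk => q.2.1.1) := PTime.id.snd.fst.fst
  have h3 : PTime O (fun q : γ × (List α × β) × Tk => q.2.1.2) := PTime.id.snd.fst.snd
  have h4 : PTime O (fun q : γ × (List α × β) × Tk => q.2.2) := PTime.id.snd.snd
  have hd : PTime O (fun q : γ × (List α × β) × Tk => q.2.1.1.headD d) :=
    PTime.headD h2 (PTime.const d)
  have hu : PTime O (fun q : γ × (List α × β) × Tk => upd q.1 (q.2.1.1.headD d) q.2.2) :=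
    hupd.comp (h1.pair (hd.pair h4))
  have he : PTime O (fun q : γ × (List α × β) × Tk =>
      em q.1 (q.2.1.1.headD d) q.2.2 q.2.1.2) :=
    hem.comp (h1.pair (hd.pair (h4.pair h3)))
  have hm : PTime O (fun q : γ × (List α × β) × Tk =>
      (arU q.2.2).map (fun _ => upd q.1 (q.2.1.1.headD d) q.2.2)) :=
    PTime.map (l := fun q : γ × (List α × β) × Tk => arU q.2.2)
      (f := fun q _ => upd q.1 (q.2.1.1.headD d) q.2.2) (PTime_arU h4) (hu.comp PTime.id.fst)
  refine PTime.foldl_add (l := p) (i := fun _ => (l0, i))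
    (s := fun x q t => tdStep (upd x) (em x) d q t) hp (PTime.const _) ?_
    (R + Polynomial.C (4 * (B + 1))) ?_
  · exact (PTime.append hm (PTime.tail h2)).pair he
  · intro x q t ht
    obtain ⟨L, o⟩ := q
    show sz ((arU t).map (fun _ => upd x (L.headD d) t) ++ L.tail, em x (L.headD d) t o) ≤ _
    rw [sz_pair, sz_pair]
    have g1 := tdp_copies (upd x (L.headD d) t) (hB x _ t) t L.tail
    have g2 := sz_tail_le L
    have g3 := hR x (L.headD d) t o ht
    rw [Polynomial.eval_add, Polynomial.eval_C]
    omega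

theorem tdp_bool (b : Bool) : sz b ≤ 3 := by cases b <;> decide

theorem PTime_sbT {i : γ → List Unit} {a p : γ → List Tk} (hi : PTime O i) (ha : PTime O a)
    (hp : PTime O p) : PTime O (fun x => sbT (i x) (a x) (p x)) := by
  unfold sbT
  obtain ⟨Pa, hPa⟩ := (PTime.reverse ha).size_le
  obtain ⟨Pp, hPp⟩ := hp.size_le
  refine PTime.reverse (PTime.snd (tdp_fold (γ := γ) (p := p)
    (upd := fun x b t => b || isAll (i x) t)
    (em := fun x b t o => (if (isVar (i x) t && !b) = true then (a x).reverse else [t]) ++ o)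
    hp ?_ ?_ 3 ?_ (Pa + Pp + 2) ?_))
  · exact PTime.or PTime.id.snd.fst (PTime_isAll (hi.comp PTime.id.fst) PTime.id.snd.snd)
  · have e1 : PTime O (fun q : γ × Bool × Tk × List Tk => q.1) := PTime.id.fst
    have e2 : PTime O (fun q : γ × Bool × Tk × List Tk => q.2.1) := PTime.id.snd.fst
    have e3 : PTime O (fun q : γ × Bool × Tk × List Tk => q.2.2.1) := PTime.id.snd.snd.fst
    have e4 : PTime O (fun q : γ × Bool × Tk × List Tk => q.2.2.2) := PTime.id.snd.snd.snd
    exact PTime.append (PTime.ite ((PTime_isVar (hi.comp e1) e3).and e2.not)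
      (PTime.reverse (ha.comp e1)) (PTime.cons e3 (PTime.const []))) e4
  · intro x b t
    exact tdp_bool _
  · intro x b t o ht
    have g1 := tdp_app (if (isVar (i x) t && !b) = true then (a x).reverse else [t]) o
    have g2 : sz (if (isVar (i x) t && !b) = true then (a x).reverse else [t]) ≤
        Pa.eval (sz x) + Pp.eval (sz x) + 2 := by
      split
      · have := hPa x
        omega
      · rw [sz_cons, sz_nil]
        have := (sz_le_of_mem ht).trans (hPp x)
        omega
    simp only [Polynomial.eval_add, Polynomial.eval_ofNat]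
    omega

theorem PTime_frT {i : γ → List Unit} {p : γ → List Tk} (hi : PTime O i) (hp : PTime O p) :
    PTime O (fun x => frT (i x) (p x)) := by
  unfold frT
  refine PTime.snd (tdp_fold (γ := γ) (p := p)
    (upd := fun x b t => b || isAll (i x) t)
    (em := fun x b t o => o || (isVar (i x) t && !b))
    hp ?_ ?_ 3 ?_ (Polynomial.C 3) ?_)
  · exact PTime.or PTime.id.snd.fst (PTime_isAll (hi.comp PTime.id.fst) PTime.id.snd.snd)
  · have e1 : PTime O (fun q : γ × Bool × Tk × Bool => q.1) := PTime.id.fst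
    have e2 : PTime O (fun q : γ × Bool × Tk × Bool => q.2.1) := PTime.id.snd.fst
    have e3 : PTime O (fun q : γ × Bool × Tk × Bool => q.2.2.1) := PTime.id.snd.snd.fst
    have e4 : PTime O (fun q : γ × Bool × Tk × Bool => q.2.2.2) := PTime.id.snd.snd.snd
    exact PTime.or e4 ((PTime_isVar (hi.comp e1) e3).and e2.not)
  · intro x b t
    exact tdp_bool _
  · intro x b t o _
    rw [Polynomial.eval_C]
    have := tdp_bool (o || (isVar (i x) t && !b))
    omega

theorem PTime_okT {i : γ → List Unit} {a p : γ → List Tk} (hi : PTime O i) (ha : PTime O a)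
    (hp : PTime O p) : PTime O (fun x => okT (i x) (a x) (p x)) := by
  unfold okT
  refine PTime.snd (tdp_fold (γ := γ) (p := p)
    (upd := fun x (b : Bool × Bool) t =>
      (b.1 || isAll (i x) t, b.2 || (isK 16 t && (a x).any (isVar t.2))))
    (em := fun x b t o => o && !(isVar (i x) t && !b.1 && b.2))
    hp ?_ ?_ 7 ?_ (Polynomial.C 3) ?_)
  · have e1 : PTime O (fun q : γ × (Bool × Bool) × Tk => q.1) := PTime.id.fst
    have e2 : PTime O (fun q : γ × (Bool × Bool) × Tk => q.2.1) := PTime.id.snd.fst
    have e3 : PTime O (fun q : γ × (Bool × Bool) × Tk => q.2.2) := PTime.id.snd.snd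
    refine (PTime.or e2.fst (PTime_isAll (hi.comp e1) e3)).pair
      (PTime.or e2.snd ((PTime_isK 16 e3).and ?_))
    exact PTime.any (l := fun q : γ × (Bool × Bool) × Tk => a q.1)
      (f := fun q t => isVar q.2.2.2 t) (ha.comp e1)
      (PTime_isVar (e3.snd.comp PTime.id.fst) PTime.id.snd)
  · have e1 : PTime O (fun q : γ × (Bool × Bool) × Tk × Bool => q.1) := PTime.id.fst
    have e2 : PTime O (fun q : γ × (Bool × Bool) × Tk × Bool => q.2.1) := PTime.id.snd.fst
    have e3 : PTime O (fun q : γ × (Bool × Bool) × Tk × Bool => q.2.2.1) := PTime.id.snd.snd.fst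
    have e4 : PTime O (fun q : γ × (Bool × Bool) × Tk × Bool => q.2.2.2) := PTime.id.snd.snd.snd
    exact e4.and (((PTime_isVar (hi.comp e1) e3).and e2.fst.not).and e2.snd).not
  · intro x b t
    rw [sz_pair]
    have h1 := tdp_bool (b.1 || isAll (i x) t)
    have h2 := tdp_bool (b.2 || (isK 16 t && (a x).any (isVar t.2)))
    omega
  · intro x b t o _
    rw [Polynomial.eval_C]
    have := tdp_bool (o && !(isVar (i x) t && !b.1 && b.2))
    omega

theorem tdp_proper {b : γ → Bool} {t : γ → Tk} (hb : PTime O b) (ht : PTime O t) :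
    PTime O (fun x => proper (b x) (t x)) := by
  unfold proper
  have hl : PTime O (fun x => (t x).1.length) := PTime.length ht.fst
  refine PTime.and (PTime.ite hb ((PTime.nat_le (PTime.const 9) hl).and
    (PTime.nat_le hl (PTime.const 16))) (PTime.nat_le hl (PTime.const 8))) ?_
  exact PTime.or (PTime.or (PTime.isNil ht.snd) (PTime_isK 0 ht)) (PTime_isK 16 ht)

theorem PTime_validT (b : Bool) {p : γ → List Tk} (hp : PTime O p) :
    PTime O (fun x => validT b (p x)) := by
  have h1 : PTime O (fun q : γ × (List Bool × Bool) × Tk => q.2.1.1) := PTime.id.snd.fst.fst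
  have h2 : PTime O (fun q : γ × (List Bool × Bool) × Tk => q.2.1.2) := PTime.id.snd.fst.snd
  have h3 : PTime O (fun q : γ × (List Bool × Bool) × Tk => q.2.2) := PTime.id.snd.snd
  have hm : PTime O (fun q : γ × (List Bool × Bool) × Tk =>
      (arU q.2.2).map (fun _ => decide (14 ≤ q.2.2.1.length))) :=
    PTime.map (l := fun q : γ × (List Bool × Bool) × Tk => arU q.2.2)
      (f := fun q _ => decide (14 ≤ q.2.2.1.length)) (PTime_arU h3)
      ((PTime.nat_le (PTime.const 14) (PTime.length h3.fst)).comp PTime.id.fst)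
  have hf : PTime O (fun x => (p x).foldl vStep ([b], true)) := by
    refine PTime.foldl_add (l := p) (i := fun _ => ([b], true)) (s := fun _ q t => vStep q t) hp
      (PTime.const _) ?_ (Polynomial.C 19) ?_
    · unfold vStep
      exact (PTime.append hm (PTime.tail h1)).pair (h2.and ((PTime.isNil h1).not.and
        (tdp_proper (PTime.headD h1 (PTime.const false)) h3)))
    · intro x q t _
      obtain ⟨L, o⟩ := q
      show sz ((arU t).map (fun _ => decide (14 ≤ t.1.length)) ++ L.tail,
        o && (!L.isEmpty && proper (L.headD false) t)) ≤ _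
      rw [sz_pair, sz_pair, Polynomial.eval_C]
      have g1 := tdp_copies (decide (14 ≤ t.1.length)) (tdp_bool _) t L.tail
      have g2 := sz_tail_le L
      have g3 := tdp_bool (o && (!L.isEmpty && proper (L.headD false) t))
      omega
  unfold validT
  exact (PTime.isNil hf.fst).and hf.snd

end Pool.Agent.RO
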