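import Pool.Agent.Lib_helper78.RF.F.FNA
import Pool.Agent.Lib_helper78.RF.F.FNB
import Pool.Agent.Lib_helper78.RO.Defs
import Pool.Agent.Lib_helper78.RO.F.ENB
import Pool.Agent.Lib_helper78.RO.F.EQT
import Pool.Agent.Lib_helper78.RO.F.TDP
import Pool.Agent.Lib_helper78.RO.F.TOK

/-!
# Random oracles (MP_5c38ab_lc): block CHP (closure of the proof checker)
-/

set_option autoImplicit false

namespace Pool.Agent.RO

open Pool.Agent.CK Pool.Agent.RF Pool.Agent.CKP

variable {O : Lang} {γ : Type} [ToD γ]

theorem chp_getD {α : Type} [ToD α] {l : γ → List α} {d : γ → α} (k : ℕ) (hl : PTime O l)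
    (hd : PTime O d) : PTime O (fun x => (l x).getD k (d x)) :=
  (PTime.getD (u := fun _ => List.replicate k ()) (PTime.const _) hl hd).of_eq fun x => by
    rw [List.length_replicate]

theorem chp_pc {L : γ → Line} (k : ℕ) (hL : PTime O L) : PTime O (fun x => pc (L x) k) :=
  chp_getD k hL.snd.snd.snd (PTime.const _)

theorem chp_schT {L : γ → Line} (hL : PTime O L) : PTime O (fun x => schT (L x)) := by
  have h0 := chp_pc 0 hL
  have h1 := chp_pc 1 hL
  have h2 := chp_pc 2 hL
  have h3 := chp_pc 3 hL
  have h4 := chp_pc 4 hL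
  have hi : PTime O (fun x => (L x).2.2.1) := hL.snd.snd.fst
  unfold schT
  refine PTime.getD (u := fun x => (L x).1) hL.fst ?_ (PTime.const _)
  exact PTime.cons h0 (PTime.cons h0
    (PTime.cons (PTime_impK h0 (PTime_impK h1 h0))
    (PTime.cons (PTime_impK (PTime_impK h0 (PTime_impK h1 h2))
      (PTime_impK (PTime_impK h0 h1) (PTime_impK h0 h2)))
    (PTime.cons (PTime_impK (PTime_impK (PTime_negK h0) (PTime_negK h1)) (PTime_impK h1 h0))
    (PTime.cons (PTime_impK (PTime_allK hi h0) (PTime_sbT hi h3 h0))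
    (PTime.cons (PTime_impK (PTime_allK hi (PTime_impK h0 h1))
      (PTime_impK (PTime_allK hi h0) (PTime_allK hi h1)))
    (PTime.cons (PTime_impK h0 (PTime_allK hi h0))
    (PTime.cons (PTime_eqK h3 h3)
    (PTime.cons (PTime_impK (PTime_eqK h3 h4) (PTime_impK (PTime_sbT hi h3 h0)
      (PTime_sbT hi h4 h0)))
    (PTime.const []))))))))))

theorem PTime_lineF {L : γ → Line} (hL : PTime O L) : PTime O (fun x => lineF (L x)) := by
  have hlen : PTime O (fun x => decide (2 ≤ (L x).1.length)) :=
    (PTime.const 2).nat_le hL.fst.length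
  have hmap : PTime O (fun x => (L x).2.1.map
      (fun i => ((List.replicate 16 (), i) : Tk))) :=
    PTime.map (f := fun _ i => ((List.replicate 16 (), i) : Tk)) hL.snd.fst
      ((PTime.const _).pair PTime.id.snd)
  exact PTime.ite hlen (hmap.append (chp_schT hL)) (chp_pc 0 hL)

theorem chp_piecesOK {L : γ → Line} (hL : PTime O L) : PTime O (fun x => piecesOK (L x)) :=
  (PTime_validT true (chp_pc 0 hL)).and ((PTime_validT true (chp_pc 1 hL)).and
    ((PTime_validT true (chp_pc 2 hL)).and ((PTime_validT false (chp_pc 3 hL)).and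
      (PTime_validT false (chp_pc 4 hL)))))

theorem PTime_lineOK {c : γ → D} {N : γ → List Unit} {seen : γ → List (List Tk)} {L : γ → Line}
    (hc : PTime O c) (hN : PTime O N) (hs : PTime O seen) (hL : PTime O L) :
    PTime O (fun x => lineOK O (c x) (N x) (seen x) (L x)) := by
  have h0 := chp_pc 0 hL
  have h3 := chp_pc 3 hL
  have hi : PTime O (fun x => (L x).2.2.1) := hL.snd.snd.fst
  have hax : PTime O (fun x => accU O (c x) (encT (pc (L x) 0)) [] (N x)) :=
    PTime.accU hc (PTime_encT h0) (PTime.const []) hN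
  have hin : PTime O (fun p : (γ × List Tk) × List Tk =>
      eqT p.2 (impK p.1.2 (pc (L p.1.1) 0))) :=
    PTime_eqT PTime.id.snd (PTime_impK PTime.id.fst.snd (h0.comp PTime.id.fst.fst))
  have hmp : PTime O (fun x => (seen x).any (fun ψ => (seen x).any
      (fun χ => eqT χ (impK ψ (pc (L x) 0))))) :=
    PTime.any (f := fun x ψ => (seen x).any (fun χ => eqT χ (impK ψ (pc (L x) 0)))) hs
      (PTime.any (l := fun p : γ × List Tk => seen p.1)
        (f := fun p χ => eqT χ (impK p.2 (pc (L p.1) 0))) (hs.comp PTime.id.fst) hin)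
  refine (chp_piecesOK hL).and ?_
  refine PTime.getD (u := fun x => (L x).1) hL.fst ?_ (PTime.const _)
  exact PTime.cons hax (PTime.cons hmp (PTime.cons (PTime.const true)
    (PTime.cons (PTime.const true) (PTime.cons (PTime.const true)
    (PTime.cons (PTime_okT hi h3 h0) (PTime.cons (PTime.const true)
    (PTime.cons (PTime_frT hi h0).not (PTime.cons (PTime.const true)
    (PTime.cons (PTime_atomT h0) (PTime.const []))))))))))

theorem chp_and_sz (a b : Bool) : sz (a && b) ≤ sz a := by
  cases a <;> cases b <;> decide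

theorem PTime_chk {c : γ → D} {N : γ → List Unit} {cert : γ → List Line} {goal : γ → List Tk}
    (hc : PTime O c) (hN : PTime O N) (hs : PTime O cert) (hg : PTime O goal) :
    PTime O (fun x => chk O (c x) (N x) (cert x) (goal x)) := by
  obtain ⟨P, hP⟩ := (PTime_lineF (O := O) (L := fun L : Line => L) PTime.id).size_le
  obtain ⟨Pl, hPl⟩ := hs.size_le
  have hstep : PTime O (fun p : γ × (List (List Tk) × Bool) × Line =>
      chkStep O (c p.1) (N p.1) p.2.1 p.2.2) := by
    have hL : PTime O (fun p : γ × (List (List Tk) × Bool) × Line => p.2.2) := PTime.id.snd.snd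
    have hq1 : PTime O (fun p : γ × (List (List Tk) × Bool) × Line => p.2.1.1) :=
      PTime.id.snd.fst.fst
    have hq2 : PTime O (fun p : γ × (List (List Tk) × Bool) × Line => p.2.1.2) :=
      PTime.id.snd.fst.snd
    have hc' : PTime O (fun p : γ × (List (List Tk) × Bool) × Line => c p.1) :=
      hc.comp PTime.id.fst
    have hN' : PTime O (fun p : γ × (List (List Tk) × Bool) × Line => N p.1) :=
      hN.comp PTime.id.fst
    exact ((PTime_lineF hL).cons hq1).pair (hq2.and (PTime_lineOK hc' hN' hq1 hL))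
  have hfold : PTime O (fun x => (cert x).foldl (chkStep O (c x) (N x)) ([], true)) := by
    refine PTime.foldl_add (l := cert) (i := fun _ => (([], true) : List (List Tk) × Bool))
      (s := fun x => chkStep O (c x) (N x)) hs (PTime.const _) hstep (P.comp Pl + 1) ?_
    intro x b a ha
    have h1 : sz a ≤ Pl.eval (sz x) := (sz_le_of_mem ha).trans (hPl x)
    have h2 : sz (lineF a) ≤ P.eval (Pl.eval (sz x)) := (hP a).trans (poly_mono P h1)
    have h3 : sz (b.2 && lineOK O (c x) (N x) b.1 a) ≤ sz b.2 := chp_and_sz _ _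
    have h4 : sz (chkStep O (c x) (N x) b a) = sz (lineF a) + sz b.1 + 1 +
        sz (b.2 && lineOK O (c x) (N x) b.1 a) + 1 := rfl
    have h5 : sz b = sz b.1 + sz b.2 + 1 := rfl
    rw [h4, h5, Polynomial.eval_add, Polynomial.eval_comp, Polynomial.eval_one]
    omega
  exact hfold.snd.and (PTime_eqT (PTime.headD hfold.fst (PTime.const [])) hg)


end Pool.Agent.RO
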