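import Pool.Agent.Lib_helper78.RF.F.FNA
import Pool.Agent.Lib_helper78.RF.F.FNB
import Pool.Agent.Lib_helper78.RO.Defs

/-! Block DCP: decoding of certificates -/

set_option autoImplicit false

namespace Pool.Agent.RO

open Pool.Agent.CK Pool.Agent.RF Pool.Agent.CKP

variable {O : Lang} {γ : Type} [ToD γ]

theorem PTime_toU {d : γ → D} (hd : PTime O d) : PTime O (fun x => toU (d x)) :=
  PTime.map (f := fun _ _ => ()) hd.toList (PTime.const ())

theorem dcp_toTk {d : γ → D} (hd : PTime O d) : PTime O (fun x => toTk (d x)) :=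
  (PTime_toU hd.car).pair (PTime_toU hd.cdr)

theorem PTime_toTks {d : γ → D} (hd : PTime O d) : PTime O (fun x => toTks (d x)) :=
  PTime.map (f := fun _ a => toTk a) hd.toList (dcp_toTk PTime.id.snd)

theorem dcp_toLine {d : γ → D} (hd : PTime O d) : PTime O (fun x => toLine (d x)) := by
  unfold toLine
  refine (PTime_toU hd.car).pair (PTime.pair ?_ ((PTime_toU hd.cdr.cdr.car).pair ?_))
  · exact PTime.map (f := fun _ a => toU a) hd.cdr.car.toList (PTime_toU PTime.id.snd)
  · exact PTime.map (f := fun _ a => toTks a) hd.cdr.cdr.cdr.toList (PTime_toTks PTime.id.snd)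

theorem PTime_toCert {d : γ → D} (hd : PTime O d) : PTime O (fun x => toCert (d x)) :=
  PTime.map (f := fun _ a => toLine a) hd.toList (dcp_toLine PTime.id.snd)

theorem dcp_map {α : Type} [ToD α] (f : D → α) (h : ∀ a : α, f (toD a) = a) (l : List α) :
    (toList (toD l)).map f = l := by
  rw [toList_toD, List.map_map]
  conv_rhs => rw [← List.map_id l]
  congr 1
  funext a
  exact h a

theorem dcp_toU_toD (l : List Unit) : toU (toD l) = l :=
  dcp_map (fun _ => ()) (fun _ => rfl) l

theorem dcp_toTk_toD (t : Tk) : toTk (toD t) = t := by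
  obtain ⟨a, b⟩ := t
  show (toU (toD a), toU (toD b)) = (a, b)
  rw [dcp_toU_toD, dcp_toU_toD]

theorem toTks_toD (p : List Tk) : toTks (toD p) = p := dcp_map toTk dcp_toTk_toD p

theorem dcp_toLine_toD (L : Line) : toLine (toD L) = L := by
  obtain ⟨k, pre, i, pieces⟩ := L
  show (toU (toD k), (toList (toD pre)).map toU, toU (toD i), (toList (toD pieces)).map toTks) =
    (k, pre, i, pieces)
  rw [dcp_toU_toD, dcp_toU_toD, dcp_map toU dcp_toU_toD, dcp_map toTks toTks_toD]

theorem toCert_toD (cert : List Line) : toCert (toD cert) = cert :=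
  dcp_map toLine dcp_toLine_toD cert

theorem dcp_unit (u : Unit) : sz u = 1 := rfl

theorem dcp_sz_map {α : Type} [ToD α] (f : D → α) (A B : ℕ) (h : ∀ a, sz (f a) ≤ A * a.size + B)
    (hA : 1 ≤ A) (d : D) :
    sz ((toList d).map f) + A + B ≤ A * d.size + (B + 1) * (toList d).length + 1 + B := by
  induction d with
  | nil =>
    simp only [CKP.toList, List.map_nil, sz_nil, D.size, List.length_nil]
    omega
  | cons a b _ ih =>
    simp only [CKP.toList, List.map_cons, sz_cons, D.size, List.length_cons]
    have h1 := h a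
    have e1 : A * (a.size + b.size + 1) = A * a.size + A * b.size + A := by ring
    have e2 : (B + 1) * ((toList b).length + 1) = (B + 1) * (toList b).length + (B + 1) := by ring
    rw [e1, e2]
    omega

theorem dcp_len (d : D) : 2 * (toList d).length + 1 ≤ d.size := by
  induction d with
  | nil => simp [CKP.toList, D.size]
  | cons a b _ ih =>
    simp only [CKP.toList, D.size, List.length_cons]
    have := a.size_pos
    omega

theorem dcp_sz_toU (d : D) : sz (toU d) ≤ d.size := by
  induction d with
  | nil => exact le_rfl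
  | cons a b _ ih =>
    have e : toU (D.cons a b) = () :: toU b := rfl
    rw [e, sz_cons, dcp_unit]
    have := a.size_pos
    simp only [D.size]
    omega

theorem dcp_car (d : D) : d.car.size + d.cdr.size + 1 ≤ d.size + 2 := by
  cases d <;> simp [D.car, D.cdr, D.size]

theorem dcp_cdr (d : D) : d.cdr.size ≤ d.size := by
  cases d <;> simp [D.cdr, D.size]; omega

theorem dcp_sz_toTk (d : D) : sz (toTk d) ≤ 1 * d.size + 2 := by
  have e : sz (toTk d) = sz (toU d.car) + sz (toU d.cdr) + 1 := rfl
  have h1 := dcp_sz_toU d.car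
  have h2 := dcp_sz_toU d.cdr
  have h3 := dcp_car d
  omega

theorem dcp_sz_toTks (d : D) : sz (toTks d) ≤ 3 * d.size := by
  have h := dcp_sz_map toTk 1 2 dcp_sz_toTk le_rfl d
  have h2 := dcp_len d
  have e : sz (toTks d) = sz ((toList d).map toTk) := rfl
  omega

theorem dcp_sz_mapU (d : D) : sz ((toList d).map toU) ≤ 2 * d.size := by
  have h := dcp_sz_map toU 1 0 (fun a => by have := dcp_sz_toU a; omega) le_rfl d
  have h2 := dcp_len d
  omega

theorem dcp_sz_mapTks (d : D) : sz ((toList d).map toTks) ≤ 4 * d.size := by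
  have h := dcp_sz_map toTks 3 0 (fun a => by have := dcp_sz_toTks a; omega) (by norm_num) d
  have h2 := dcp_len d
  omega

theorem dcp_list {α : Type} [ToD α] (f : D → α) (h : ∀ a, sz (f a) ≤ 10 * a.size + 9) :
    ∀ d : D, sz ((toList d).map f) ≤ 10 * d.size
  | .nil => by simp [CKP.toList, D.size]
  | .cons a b => by
    simp only [CKP.toList, List.map_cons, sz_cons, D.size]
    have h1 := h a
    have h2 := dcp_list f h b
    omega

theorem dcp_mapU (d : D) : sz ((toList d).map toU) ≤ d.size := by
  induction d with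
  | nil => exact le_rfl
  | cons a b _ ih =>
    simp only [CKP.toList, List.map_cons, sz_cons, D.size]
    have := dcp_sz_toU a
    omega

theorem sz_toCert (d : D) : sz (toCert d) ≤ 10 * d.size := by
  refine dcp_list toLine (fun a => ?_) d
  have e : sz (toLine a) = sz (toU a.car) + (sz ((toList a.cdr.car).map toU) +
      (sz (toU a.cdr.cdr.car) + sz ((toList a.cdr.cdr.cdr).map toTks) + 1) + 1) + 1 := rfl
  have h1 := dcp_sz_toU a.car
  have h2 := dcp_mapU a.cdr.car
  have h3 := dcp_sz_toU a.cdr.cdr.car
  have h4 := dcp_sz_mapTks a.cdr.cdr.cdr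
  have k1 := dcp_car a
  have k2 := dcp_car a.cdr
  have k3 := dcp_car a.cdr.cdr
  have k4 := dcp_cdr a
  have k5 := dcp_cdr a.cdr
  have k6 := dcp_cdr a.cdr.cdr
  omega

theorem dec_pad (d : D) (n : ℕ) (h : d.size ≤ n) :
    ∃ w : List Bool, w.length = n ∧ dec w = d := by
  refine ⟨d.enc ++ List.replicate (n - d.size) false, ?_, ?_⟩
  · rw [List.length_append, D.enc_length, List.length_replicate]
    omega
  · unfold CKP.dec
    rw [foldr_enc]
    rfl

end Pool.Agent.RO
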