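import Pool.Agent.Lib_helper78.RF.F.FNA
import Pool.Agent.Lib_helper78.RF.F.FNB
import Pool.Agent.Lib_helper78.RO.Defs

/-! MP_5c38ab_lc, random oracle: block STR. -/

set_option autoImplicit false

namespace Pool.Agent.RO

open Pool.Agent.CK Pool.Agent.RF Pool.Agent.CKP

variable {O : Lang} {γ : Type} [ToD γ]

/-- one step of the enumeration -/
def strStep (L : List (List Bool)) (_ : Unit) : List (List Bool) :=
  L.map (fun w => false :: w) ++ L.map (fun w => true :: w)

theorem str_all (u : List Unit) : allStr u = u.foldl strStep [[]] := rfl

theorem str_mem_step {L : List (List Bool)} {k : ℕ} (h : ∀ w, w ∈ L ↔ w.length = k) (a : Unit)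
    (w : List Bool) : w ∈ strStep L a ↔ w.length = k + 1 := by
  unfold strStep
  rw [List.mem_append, List.mem_map, List.mem_map]
  constructor
  · rintro (⟨v, hv, rfl⟩ | ⟨v, hv, rfl⟩)
    · rw [List.length_cons, (h v).1 hv]
    · rw [List.length_cons, (h v).1 hv]
  · intro hw
    cases w with
    | nil => simp at hw
    | cons b v =>
      have hv : v ∈ L := (h v).2 (by simpa using hw)
      cases b
      · exact Or.inl ⟨v, hv, rfl⟩
      · exact Or.inr ⟨v, hv, rfl⟩

theorem str_mem_fold (u : List Unit) : ∀ (L : List (List Bool)) (k : ℕ),
    (∀ w, w ∈ L ↔ w.length = k) → ∀ w, w ∈ u.foldl strStep L ↔ w.length = k + u.length := by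
  induction u with
  | nil => intro L k h w; simpa using h w
  | cons a t ih =>
    intro L k h w
    rw [List.foldl_cons, ih (strStep L a) (k + 1) (str_mem_step h a) w, List.length_cons]
    omega

theorem mem_allStr {u : List Unit} {w : List Bool} :
    w ∈ allStr u ↔ w.length = u.length := by
  rw [str_all, str_mem_fold u [[]] 0 (fun w => by simp) w, zero_add]

theorem str_units (l : List Unit) : l = List.replicate l.length () := by
  induction l with
  | nil => rfl
  | cons a t ih => rw [List.length_cons, List.replicate_succ, ← ih]

theorem str_range (M : List Unit) :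
    rangeU (() :: M) = (List.range (M.length + 1)).map (fun i => List.replicate i ()) := by
  have h : (() :: M) = List.replicate (M.length + 1) () := str_units (() :: M)
  rw [h, rangeU_replicate]

theorem mem_upTo {M : List Unit} {w : List Bool} : w ∈ upTo M ↔ w.length ≤ M.length := by
  unfold upTo
  rw [str_range, List.mem_flatMap]
  constructor
  · rintro ⟨a, ha, hw⟩
    rw [List.mem_map] at ha
    obtain ⟨i, hi, rfl⟩ := ha
    rw [mem_allStr, List.length_replicate] at hw
    rw [List.mem_range] at hi
    omega
  · intro hw
    refine ⟨List.replicate w.length (), ?_, ?_⟩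
    · rw [List.mem_map]
      exact ⟨w.length, List.mem_range.2 (by omega), rfl⟩
    · rw [mem_allStr, List.length_replicate]

theorem str_len_fold (u : List Unit) : ∀ L : List (List Bool),
    (u.foldl strStep L).length = L.length * 2 ^ u.length := by
  induction u with
  | nil => intro L; simp
  | cons a t ih =>
    intro L
    rw [List.foldl_cons, ih, List.length_cons]
    unfold strStep
    rw [List.length_append, List.length_map, List.length_map, pow_succ]
    ring

theorem str_len (u : List Unit) : (allStr u).length = 2 ^ u.length := by
  rw [str_all, str_len_fold, List.length_singleton, one_mul]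

theorem str_sz (u : List Unit) : sz (allStr u) ≤ 2 ^ u.length * (4 * u.length + 2) + 1 := by
  have h := sz_list_le (s := 4 * u.length + 1) (allStr u) (by
    intro c hc
    rw [mem_allStr] at hc
    rw [← hc]
    exact (num_list_sz c).2)
  rw [str_len] at h
  exact h

theorem PTime_allStr {u : γ → List Unit} (hu : PTime O u) (P : Polynomial ℕ)
    (hP : ∀ x, 2 ^ (u x).length ≤ P.eval (sz x)) : PTime O (fun x => allStr (u x)) := by
  obtain ⟨Pu, hPu⟩ := hu.size_le
  have hcons : ∀ b : Bool, PTime O (fun p : γ × List (List Bool) × Unit =>
      p.2.1.map (fun w => b :: w)) := by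
    intro b
    exact PTime.map (f := fun (_ : γ × List (List Bool) × Unit) (w : List Bool) => b :: w)
      PTime.id.snd.fst (PTime.cons (PTime.const b) PTime.id.snd)
  refine PTime.foldl (l := u) (i := fun _ => ([[]] : List (List Bool)))
    (s := fun (_ : γ) (L : List (List Bool)) (a : Unit) => strStep L a) hu (PTime.const _)
    (PTime.append (hcons false) (hcons true)) (P * (4 * Pu + 2) + 1) ?_
  intro x l' hl'
  have h1 : l'.length ≤ (u x).length := hl'.length_le
  have h2 := str_sz l'
  have h3 : l'.length ≤ Pu.eval (sz x) := (h1.trans (length_le_sz _)).trans (hPu x)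
  have h4 : 2 ^ l'.length ≤ P.eval (sz x) :=
    (Nat.pow_le_pow_right (by norm_num) h1).trans (hP x)
  refine h2.trans ?_
  have h5 : (4 : Polynomial ℕ).eval (sz x) = 4 := Polynomial.eval_ofNat _ _
  have h6 : (2 : Polynomial ℕ).eval (sz x) = 2 := Polynomial.eval_ofNat _ _
  simp only [Polynomial.eval_add, Polynomial.eval_mul, eval_one', h5, h6]
  have h7 : 2 ^ l'.length * (4 * l'.length + 2) ≤
      P.eval (sz x) * (4 * Pu.eval (sz x) + 2) := Nat.mul_le_mul h4 (by omega)
  omega

theorem PTime_upTo {u : γ → List Unit} (hu : PTime O u) (P : Polynomial ℕ)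
    (hP : ∀ x, 2 ^ (u x).length ≤ P.eval (sz x)) : PTime O (fun x => upTo (u x)) := by
  have hg : PTime O (fun p : γ × List Unit =>
      if decide (p.2.length ≤ (u p.1).length) = true then p.2 else []) :=
    PTime.ite (PTime.nat_le (PTime.length PTime.id.snd) (PTime.length (hu.comp PTime.id.fst)))
      PTime.id.snd (PTime.const _)
  have h1 := PTime_allStr hg P (by
    rintro ⟨x, v⟩
    have h2 : (if decide (v.length ≤ (u x).length) = true then v else []).length ≤
        (u x).length := by
      by_cases h : v.length ≤ (u x).length
      · rw [if_pos (by simpa using h)]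
        exact h
      · rw [if_neg (by simpa using h)]
        exact Nat.zero_le _
    refine ((Nat.pow_le_pow_right (by norm_num) h2).trans (hP x)).trans ?_
    exact poly_mono P (by rw [sz_pair]; omega))
  refine (PTime.flatMap (l := fun x => rangeU (() :: u x))
    (f := fun x v => allStr (if decide (v.length ≤ (u x).length) = true then v else []))
    (PTime.rangeU (PTime.cons (PTime.const ()) hu)) h1).of_eq fun x => ?_
  unfold upTo
  rw [str_range, List.flatMap_map, List.flatMap_map]
  refine List.flatMap_congr fun i hi => ?_
  rw [List.mem_range] at hi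
  rw [if_pos]
  rw [List.length_replicate]
  simpa using Nat.le_of_lt_succ hi

theorem PTime_cut {s : γ → List Bool} {b : γ → List Unit} (hs : PTime O s) (hb : PTime O b) :
    PTime O (fun x => cut (s x) (b x)) := by
  unfold cut
  exact PTime.ite (PTime.nat_le (PTime.ushl hb (PTime.const 1)) (PTime.length hs)) hb
    (PTime.const _)

theorem cut_pow (s : List Bool) (b : List Unit) : 2 ^ (cut s b).length ≤ s.length + 1 := by
  unfold cut
  by_cases h : ushl b 1 ≤ s.length
  · rw [if_pos (by simpa using h)]
    rw [ushl_eq, one_mul] at h
    omega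
  · rw [if_neg (by simpa using h)]
    simp

theorem cut_eq {s : List Bool} {b : List Unit} (h : 2 ^ b.length ≤ s.length) :
    cut s b = b := by
  unfold cut
  rw [if_pos]
  rw [ushl_eq, one_mul]
  simpa using h

theorem upTo_length (M : List Unit) : (upTo M).length = 2 ^ (M.length + 1) - 1 := by
  unfold upTo
  rw [str_range, List.flatMap_map]
  generalize M.length + 1 = n
  have h1 := Nat.one_le_two_pow (n := n)
  induction n with
  | zero => rfl
  | succ n ih =>
    rw [List.range_succ, List.flatMap_append, List.length_append, ih Nat.one_le_two_pow]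
    simp only [List.flatMap_cons, List.flatMap_nil, List.append_nil, str_len,
      List.length_replicate]
    have h2 := Nat.one_le_two_pow (n := n)
    rw [pow_succ]
    omega

end Pool.Agent.RO
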