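import Pool.Agent.Lib_helper78.RF.F.FNA
import Pool.Agent.Lib_helper78.RF.F.FNB
import Pool.Agent.Lib_helper78.RO.Defs
import Pool.Agent.Lib_helper78.RO.F.STR
import Pool.Agent.Lib_helper78.RO.F.TOK

/-!
# Block RFP (MP_5c38ab_lc, random oracles)
-/

set_option autoImplicit false

namespace Pool.Agent.RO

open Pool.Agent.CK Pool.Agent.RF Pool.Agent.CKP

variable {O : Lang} {γ : Type} [ToD γ]

theorem rfp_sz_append {α : Type} [ToD α] (l l' : List α) : sz (l ++ l') + 1 = sz l + sz l' := by
  induction l with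
  | nil => rw [List.nil_append, sz_nil]; omega
  | cons a t ih => rw [List.cons_append, sz_cons, sz_cons]; omega

theorem PTime_numT {y : γ → List Bool} (hy : PTime O y) : PTime O (fun x => numT (y x)) := by
  unfold numT
  exact PTime.append (PTime.flatMap (f := fun _ b => if b = true then
    [tk 2 0, tk 2 0, tk 6 0, tk 2 0, tk 2 0, tk 1 0] else [tk 2 0, tk 6 0, tk 2 0, tk 2 0, tk 1 0]) hy
    (PTime.ite PTime.id.snd (PTime.const _) (PTime.const _))) (PTime.const _)

theorem PTime_muT {e x z : γ → List Tk} (he : PTime O e) (hx : PTime O x) (hz : PTime O z) :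
    PTime O (fun a => muT (e a) (x a) (z a)) := by
  unfold muT
  exact PTime_negK (PTime_allK (PTime.const _) (PTime_negK (PTime_andK
    (PTime_leK (PTime.const _) hz) (PTime.cons (PTime.const _) (PTime.append he
      (PTime.append hx (PTime.append (PTime.const _) hz)))))))

theorem rfp_clkT {kk : γ → List Unit} {t : γ → List Tk} (hk : PTime O kk) (ht : PTime O t) :
    PTime O (fun x => clkT (kk x) (t x)) := by
  unfold clkT
  obtain ⟨P, hP⟩ := ht.size_le
  refine PTime.foldl_add (l := kk) (i := fun _ => [tk 2 0, tk 1 0])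
    (s := fun x c _ => tk 7 0 :: (c ++ ([tk 2 0, tk 6 0, tk 2 0, tk 2 0, tk 1 0, tk 2 0, tk 6 0,
    tk 2 0, tk 2 0, tk 1 0] ++ t x))) hk (PTime.const _)
    (PTime.cons (PTime.const _) (PTime.append PTime.id.snd.fst (PTime.append (PTime.const _)
      (ht.comp PTime.id.fst)))) (P + Polynomial.C (sz (tk 7 0) + sz [tk 2 0, tk 6 0, tk 2 0, tk 2 0,
        tk 1 0, tk 2 0, tk 6 0, tk 2 0, tk 2 0, tk 1 0] + 1)) ?_
  intro x b a _
  rw [sz_cons, Polynomial.eval_add, Polynomial.eval_C]
  have h1 := rfp_sz_append b ([tk 2 0, tk 6 0, tk 2 0, tk 2 0, tk 1 0, tk 2 0, tk 6 0,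
    tk 2 0, tk 2 0, tk 1 0] ++ t x)
  have h2 := rfp_sz_append [tk 2 0, tk 6 0, tk 2 0, tk 2 0, tk 1 0, tk 2 0, tk 6 0,
    tk 2 0, tk 2 0, tk 1 0] (t x)
  have h3 := hP x
  omega

theorem rfp_prT {own : γ → List Bool} {kk : γ → List Unit} {u v : γ → List Tk}
    (ho : PTime O own) (hk : PTime O kk) (hu : PTime O u) (hv : PTime O v) :
    PTime O (fun x => prT (own x) (kk x) (u x) (v x)) := by
  unfold prT
  exact PTime.cons (PTime.const _) (PTime.append (PTime_numT ho)
    (PTime.append (rfp_clkT hk hu) (PTime.append hu hv)))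

theorem rfp_lenLe (i : ℕ) {nn : γ → List Bool} (hn : PTime O nn) :
    PTime O (fun x => lenLe i (nn x)) := by
  unfold lenLe
  exact PTime_leK (PTime.const _) (PTime_numT hn)

theorem PTime_rfnT {own : γ → List Bool} {kk : γ → List Unit} {nn : γ → List Bool}
    (ho : PTime O own) (hk : PTime O kk) (hn : PTime O nn) :
    PTime O (fun x => rfnT (own x) (kk x) (nn x)) := by
  unfold rfnT
  exact PTime_allK (PTime.const _) (PTime_allK (PTime.const _) (PTime_allK (PTime.const _)
    (PTime_allK (PTime.const _) (PTime_impK (PTime_andK (rfp_lenLe 0 hn) (PTime_andK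
      (rfp_lenLe 1 hn) (PTime_andK (rfp_lenLe 2 hn) (PTime_andK (rfp_lenLe 3 hn)
        (rfp_prT ho hk (PTime.const _) (PTime.const _)))))) (PTime.const _)))))

theorem PTime_conT {own : γ → List Bool} {kk : γ → List Unit} {nn : γ → List Bool}
    (ho : PTime O own) (hk : PTime O kk) (hn : PTime O nn) :
    PTime O (fun x => conT (own x) (kk x) (nn x)) := by
  unfold conT
  exact PTime_allK (PTime.const _) (PTime_impK (rfp_lenLe 1 hn)
    (PTime_negK (rfp_prT ho hk (PTime.const _) (PTime.const _))))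

theorem PTime_nnS {a : γ → List Unit} (ha : PTime O a) : PTime O (fun x => nnS (a x)) := by
  unfold nnS
  exact PTime.map (f := fun _ _ => true) (PTime.append ha (PTime.append ha (PTime.append ha
    (PTime.const _)))) (PTime.const _)

theorem rfp_twT {w : γ → List Bool} {p : γ → List Tk} (hw : PTime O w) (hp : PTime O p) :
    PTime O (fun x => twT (w x) (p x)) := by
  unfold twT
  exact PTime.append (PTime.flatMap (f := fun _ b => if b = true then
    [tk 2 0, tk 2 0, tk 6 0, tk 2 0, tk 2 0, tk 1 0] else [tk 2 0, tk 6 0, tk 2 0, tk 2 0, tk 1 0]) hw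
    (PTime.ite PTime.id.snd (PTime.const _) (PTime.const _))) hp

theorem rfp_chT {W : γ → List (List Bool)} (hW : PTime O W) : PTime O (fun x => chT (W x)) := by
  unfold chT
  have hg : PTime O (fun w : List Bool => tk 11 0 :: twT (true :: w) [tk 0 5]) :=
    PTime.cons (PTime.const _) (rfp_twT (PTime.cons (PTime.const _) PTime.id) (PTime.const _))
  obtain ⟨P, hP⟩ := hg.size_le
  obtain ⟨Q, hQ⟩ := hW.size_le
  refine PTime.foldr_add (l := W) (i := fun _ => fmT falsum)
    (s := fun _ w p => impK (tk 11 0 :: twT (true :: w) [tk 0 5]) p) hW (PTime.const _)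
    (PTime_impK (hg.comp PTime.id.snd.fst) PTime.id.snd.snd)
    (P.comp Q + Polynomial.C (sz (tk 15 0) + 1)) ?_
  intro x b a ha
  have h1 := hP a
  have h2 := poly_mono P ((sz_le_of_mem ha).trans (hQ x))
  have h3 := rfp_sz_append (tk 11 0 :: twT (true :: a) [tk 0 5]) b
  rw [impK, sz_cons, Polynomial.eval_add, Polynomial.eval_comp, Polynomial.eval_C]
  omega

theorem PTime_thT {s : γ → List Bool} {l j : γ → List Unit} (hs : PTime O s) (hl : PTime O l)
    (hj : PTime O j) : PTime O (fun x => thT (cut (s x) (l x)) (j x)) := by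
  obtain ⟨P, hP⟩ := hs.size_le
  have hU : PTime O (fun x => upTo (cut (s x) (l x))) := by
    refine PTime_upTo (PTime_cut hs hl) (P + 1) (fun x => ?_)
    have h1 := cut_pow (s x) (l x)
    have h2 := length_le_sz (s x)
    have h3 := hP x
    rw [Polynomial.eval_add, Polynomial.eval_one]
    omega
  have hD : PTime O (fun x => udrop (j x) (upTo (cut (s x) (l x)))) := PTime.udrop hj hU
  unfold thT
  exact PTime_allK (PTime.const _) (PTime_impK (PTime_leK (PTime_numT
    (PTime.map (f := fun _ _ => false) hD (PTime.const _))) (PTime.const _))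
    (PTime_impK (PTime_leK (PTime.const _) (PTime_numT
      (PTime.map (f := fun _ _ => true) hD (PTime.const _)))) (rfp_chT hU)))

end Pool.Agent.RO
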