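import Pool.Agent.Lib_helper78.RF.F.FNA
import Pool.Agent.Lib_helper78.RF.F.FNB
import Pool.Agent.Lib_helper78.RO.Defs

/-!
# Random oracles (MP_5c38ab_lc): block SGP
-/

set_option autoImplicit false
set_option linter.unusedVariables false

namespace Pool.Agent.RO

open Pool.Agent.CK Pool.Agent.RF Pool.Agent.CKP

variable {O : Lang} {γ : Type} [ToD γ]

theorem PTime_nxt {a b : γ → List Unit} (ha : PTime O a) (hb : PTime O b) :
    PTime O (fun x => nxt (a x) (b x)) := by
  unfold nxt
  have h1 : PTime O (fun p : γ × List Unit => p.2) := PTime.id.snd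
  have ha' : PTime O (fun p : γ × List Unit => a p.1) := ha.comp PTime.id.fst
  have hb' : PTime O (fun p : γ × List Unit => b p.1) := hb.comp PTime.id.fst
  have h2 : PTime O (fun p : γ × List Unit => (b p.1).length.bits.tail) :=
    hb'.length.bits.tail
  have h3 : PTime O (fun p : γ × List Unit => ushl (ulen (b p.1).length.bits.tail) 1) :=
    PTime.ushl h2.ulen (PTime.const 1)
  have h4 : PTime O (fun p : γ × List Unit => ushl p.2 1) := PTime.ushl h1 (PTime.const 1)
  exact PTime.any ha.rangeU (((h1.length.nat_add h1.length).nat_eq ha'.length).and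
    ((h3.nat_eq hb'.length).and (h2.length.nat_eq h4)))

theorem PTime_stgs {l : γ → List Unit} (hl : PTime O l) : PTime O (fun x => stgs (l x)) := by
  have hr : PTime O (fun x => rangeU (() :: l x)) := ((PTime.const ()).cons hl).rangeU
  obtain ⟨P, hP⟩ := hr.size_le
  have hq : PTime O (fun p : γ × List (List Unit) × List Unit => p.2.1) := PTime.id.snd.fst
  have hm : PTime O (fun p : γ × List (List Unit) × List Unit => p.2.2) := PTime.id.snd.snd
  have h8 : PTime O (fun p : γ × List (List Unit) × List Unit => decide (p.2.2.length = 8)) :=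
    hm.length.nat_eq (PTime.const 8)
  unfold stgs
  refine PTime.foldl_add (l := fun x => rangeU (() :: l x)) (i := fun _ => ([] : List (List Unit)))
    (s := fun _ q m => if q.isEmpty = true then (if decide (m.length = 8) = true then [m] else [])
      else if nxt (q.headD []) m = true then m :: q else q) hr (PTime.const _) ?_ (P + 2) ?_
  · exact PTime.ite hq.isNil (PTime.ite h8 (hm.cons (PTime.const _)) (PTime.const _))
      (PTime.ite (PTime_nxt (hq.headD (PTime.const _)) hm) (hm.cons hq) hq)
  · intro x q m hmem
    have h5 := (sz_le_of_mem hmem).trans (hP x)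
    have h6 : (2 : Polynomial ℕ).eval (sz x) = 2 := by
      have : (2 : Polynomial ℕ) = Polynomial.C 2 := rfl
      rw [this, Polynomial.eval_C]
    rw [Polynomial.eval_add, h6]
    have h7 : 1 ≤ sz q := sz_pos q
    have h9 : sz ([] : List (List Unit)) = 1 := sz_nil
    have h10 : sz ([m] : List (List Unit)) = sz m + sz ([] : List (List Unit)) + 1 := sz_cons _ _
    have h11 : sz (m :: q) = sz m + sz q + 1 := sz_cons _ _
    split_ifs <;> omega

theorem PTime_pairsL {α : Type} [ToD α] {l : γ → List α} (hl : PTime O l) :
    PTime O (fun x => pairsL (l x)) := by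
  obtain ⟨P, hP⟩ := hl.size_le
  have h1 : PTime O (fun p : γ × α × List α × List (α × α) => p.2.1) := PTime.id.snd.fst
  have h2 : PTime O (fun p : γ × α × List α × List (α × α) => p.2.2.1) := PTime.id.snd.snd.fst
  have h3 : PTime O (fun p : γ × α × List α × List (α × α) => p.2.2.2) := PTime.id.snd.snd.snd
  have h4 : PTime O (fun p : (γ × α × List α × List (α × α)) × α × List α => p.1.2.1) :=
    PTime.id.fst.snd.fst
  have h5 : PTime O (fun p : (γ × α × List α × List (α × α)) × α × List α => p.2.1) :=
    PTime.id.snd.fst
  have h6 : PTime O (fun p : (γ × α × List α × List (α × α)) × α × List α => p.1.2.2.2) :=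
    PTime.id.fst.snd.snd.snd
  unfold pairsL
  refine PTime.listRec_add (l := l) (n := fun _ => ([] : List (α × α)))
    (c := fun _ a t r => lcase t [] (fun b _ => (a, b) :: r)) hl (PTime.const _) ?_
    (P + 2) ?_
  · exact PTime.lcase h2 (PTime.const _) ((h4.pair h5).cons h6)
  · intro x r a t ht
    have h7 := (sz_le_of_suffix ht).trans (hP x)
    have h8 : (2 : Polynomial ℕ).eval (sz x) = 2 := by
      have : (2 : Polynomial ℕ) = Polynomial.C 2 := rfl
      rw [this, Polynomial.eval_C]
    rw [Polynomial.eval_add, h8]
    have h9 : 1 ≤ sz r := sz_pos r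
    cases t with
    | nil =>
      show sz ([] : List (α × α)) ≤ _
      rw [sz_nil]
      omega
    | cons b t =>
      show sz ((a, b) :: r) ≤ _
      rw [sz_cons, sz_pair]
      rw [sz_cons, sz_cons] at h7
      omega

end Pool.Agent.RO
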