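import Pool.Agent.Lib_helper78.RF.F.FNA
import Pool.Agent.Lib_helper78.RF.F.FNB
import Pool.Agent.Lib_helper78.RO.Defs
import Pool.Agent.Lib_helper78.RO.F.CHP
import Pool.Agent.Lib_helper78.RO.F.DCP
import Pool.Agent.Lib_helper78.RO.F.ENB
import Pool.Agent.Lib_helper78.RO.F.EQT
import Pool.Agent.Lib_helper78.RO.F.RFP
import Pool.Agent.Lib_helper78.RO.F.SGP
import Pool.Agent.Lib_helper78.RO.F.STR

/-!
# Random oracles (MP_5c38ab_lc): block ACP (helper37), closure of acc, gameB, decB
-/

set_option autoImplicit false

namespace Pool.Agent.RO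

open Pool.Agent.CK Pool.Agent.RF Pool.Agent.CKP

variable {O : Lang} {γ : Type} [ToD γ]

theorem acp_tick (k : ℕ) {b : γ → List Unit} (hb : PTime O b) :
    PTime O (fun x => tick k (b x)) := by
  unfold tick tb
  exact UPoly.comp (g := fun n => (32 * n + 32) ^ k)
    ((((UPoly.const 32).mul UPoly.id).add (UPoly.const 32)).pow k) hb

theorem PTime_acc (S : Th) {own : γ → List Bool} {kk a : γ → List Unit} {s : γ → List Bool}
    {b : γ → List Unit} (ho : PTime O own) (hk : PTime O kk) (ha : PTime O a) (hs : PTime O s)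
    (hb : PTime O b) : PTime O (fun x => acc O S (own x) (kk x) (a x) (cut (s x) (b x))) := by
  obtain ⟨P, hP⟩ := hs.size_le
  have hc : PTime O (fun x => cut (s x) (b x)) := PTime_cut hs hb
  have hA : PTime O (fun x => allStr (cut (s x) (b x))) := by
    refine PTime_allStr hc (P + 1) ?_
    intro x
    have h1 := cut_pow (s x) (b x)
    have h2 := length_le_sz (s x)
    have h3 := hP x
    rw [Polynomial.eval_add, eval_one']
    omega
  unfold acc
  refine PTime.any (f := fun x w =>
    chk O (cmdD S.1) (tick S.2 (cut (s x) (b x))) (toCert (dec w)) (rfnT (own x) (kk x) (nnS (a x)))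
    || chk O (cmdD S.1) (tick S.2 (cut (s x) (b x))) (toCert (dec w))
      (conT (own x) (kk x) (nnS (a x)))) hA ?_
  have f1 : PTime O (fun p : γ × List Bool => p.1) := PTime.id.fst
  have f2 : PTime O (fun p : γ × List Bool => p.2) := PTime.id.snd
  have hcert : PTime O (fun p : γ × List Bool => toCert (dec p.2)) := PTime_toCert f2.dec
  have htick : PTime O (fun p : γ × List Bool => tick S.2 (cut (s p.1) (b p.1))) :=
    acp_tick S.2 (hc.comp f1)
  have ho' : PTime O (fun p : γ × List Bool => own p.1) := ho.comp f1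
  have hk' : PTime O (fun p : γ × List Bool => kk p.1) := hk.comp f1
  have hn' : PTime O (fun p : γ × List Bool => nnS (a p.1)) := PTime_nnS (ha.comp f1)
  exact (PTime_chk (PTime.const _) htick hcert (PTime_rfnT ho' hk' hn')).or
    (PTime_chk (PTime.const _) htick hcert (PTime_conT ho' hk' hn'))

theorem acp_play (S : Th) (J : ℕ) {own : γ → List Bool} {kk : γ → List Unit}
    {s : γ → List Bool} {l j : γ → List Unit} (ho : PTime O own) (hk : PTime O kk)
    (hs : PTime O s) (hl : PTime O l) (hj : PTime O j) :
    PTime O (fun x => play O S J (own x) (kk x) (s x) (l x) (j x)) := by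
  have hst : PTime O (fun x => stgs (l x)) := PTime_stgs hl
  have hpp : PTime O (fun x => pairsL (stgs (l x)).reverse) := PTime_pairsL hst.reverse
  unfold play
  refine PTime.and (PTime.and ?_ (PTime.and ?_ ?_)) (PTime.and ?_ ?_)
  · exact (((PTime.const J).nat_add (ho.length.nat_add ho.length)).nat_add hk.length).nat_le
      hj.length
  · exact (PTime.length (PTime.headD hst (PTime.const []))).nat_eq hl.length
  · exact (PTime.const 8).nat_le hl.length
  · exact hj.length.nat_le hpp.length
  · refine PTime.all (f := fun x (p : List Unit × List Unit) =>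
      acc O S (own x) (kk x) p.1 (cut (s x) p.2)) (PTime.udrop hj hpp) ?_
    have f1 : PTime O (fun p : γ × (List Unit × List Unit) => p.1) := PTime.id.fst
    exact PTime_acc S (ho.comp f1) (hk.comp f1) PTime.id.snd.fst (hs.comp f1) PTime.id.snd.snd

theorem acp_gameB (S : Th) (J : ℕ) {own : γ → List Bool} {kk : γ → List Unit}
    {s : γ → List Bool} (ho : PTime O own) (hk : PTime O kk) (hs : PTime O s) :
    PTime O (fun x => gameB O S J (own x) (kk x) (s x)) := by
  unfold gameB
  refine PTime.any (f := fun x l => (rangeU l).any (fun j =>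
    eqT (s x) (encT (thT (cut (s x) l) j)) && play O S J (own x) (kk x) (s x) l j))
    (PTime.rangeU (PTime.ulen (PTime.bits hs.length))) ?_
  refine PTime.any (f := fun (p : γ × List Unit) j =>
    eqT (s p.1) (encT (thT (cut (s p.1) p.2) j)) &&
      play O S J (own p.1) (kk p.1) (s p.1) p.2 j) (PTime.rangeU PTime.id.snd) ?_
  have f1 : PTime O (fun p : (γ × List Unit) × List Unit => p.1.1) := PTime.id.fst.fst
  have f2 : PTime O (fun p : (γ × List Unit) × List Unit => p.1.2) := PTime.id.fst.snd
  have f3 : PTime O (fun p : (γ × List Unit) × List Unit => p.2) := PTime.id.snd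
  exact (PTime_eqT (hs.comp f1) (PTime_encT (PTime_thT (hs.comp f1) f2 f3))).and
    (acp_play S J (ho.comp f1) (hk.comp f1) (hs.comp f1) f2 f3)

theorem PTime_decB (b S : Th) (J : ℕ) : PTime O (decB O b S J) := by
  have f0 : PTime O (fun x : (List Bool × List Unit) × List Bool => x) := PTime.id
  have hN : PTime O (fun x : (List Bool × List Unit) × List Bool =>
      List.replicate ((x.2.length + 2) ^ b.2) ()) :=
    UPoly.comp (g := fun n => (n + 2) ^ b.2) (UPoly.tb b.2) f0.snd
  have h1 : PTime O (fun x : (List Bool × List Unit) × List Bool =>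
      accU O (cmdD b.1) x.2 [] (List.replicate ((x.2.length + 2) ^ b.2) ())) :=
    PTime.accU (PTime.const _) f0.snd (PTime.const []) hN
  have h2 : PTime O (fun x : (List Bool × List Unit) × List Bool =>
      gameB O S J x.1.1 x.1.2 x.2) := acp_gameB S J f0.fst.fst f0.fst.snd f0.snd
  exact (h1.or h2).of_eq fun x => rfl

end Pool.Agent.RO
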