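import Pool.Agent.Lib_helper78.RF.F.FNA
import Pool.Agent.Lib_helper78.RF.F.FNB
import Pool.Agent.Lib_helper78.RO.Defs

/-! MP_5c38ab_lc, random oracle: block LGA. -/

set_option autoImplicit false

namespace Pool.Agent.RO

open Pool.Agent.CK Pool.Agent.RF Pool.Agent.CKP

theorem lga_tag (k : ℕ) : (tag k).length = k + 1 := by simp [tag]

theorem lga_tm_has {i : ℕ} {a : Tm} : ∀ {t : Tm}, t.has i → a.enc.length ≤ (t.sb i a).enc.length
  | .var j, h => by
    simp only [Tm.has] at h
    simp [Tm.sb, h]
  | .zero, h => by simp [Tm.has] at h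
  | .succ t, h => by
    have := lga_tm_has (i := i) (a := a) (t := t) h
    simp only [Tm.sb, Tm.enc, List.length_append]
    omega
  | .half t, h => by
    have := lga_tm_has (i := i) (a := a) (t := t) h
    simp only [Tm.sb, Tm.enc, List.length_append]
    omega
  | .len t, h => by
    have := lga_tm_has (i := i) (a := a) (t := t) h
    simp only [Tm.sb, Tm.enc, List.length_append]
    omega
  | .add s t, h => by
    simp only [Tm.sb, Tm.enc, List.length_append]
    rcases h with h | h
    · have := lga_tm_has (i := i) (a := a) (t := s) h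
      omega
    · have := lga_tm_has (i := i) (a := a) (t := t) h
      omega
  | .mul s t, h => by
    simp only [Tm.sb, Tm.enc, List.length_append]
    rcases h with h | h
    · have := lga_tm_has (i := i) (a := a) (t := s) h
      omega
    · have := lga_tm_has (i := i) (a := a) (t := t) h
      omega
  | .smash s t, h => by
    simp only [Tm.sb, Tm.enc, List.length_append]
    rcases h with h | h
    · have := lga_tm_has (i := i) (a := a) (t := s) h
      omega
    · have := lga_tm_has (i := i) (a := a) (t := t) h
      omega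
  | .sbn r s t, h => by
    simp only [Tm.sb, Tm.enc, List.length_append]
    rcases h with h | h | h
    · have := lga_tm_has (i := i) (a := a) (t := r) h
      omega
    · have := lga_tm_has (i := i) (a := a) (t := s) h
      omega
    · have := lga_tm_has (i := i) (a := a) (t := t) h
      omega

theorem lga_fm_free {i : ℕ} {a : Tm} : ∀ {φ : Fm}, φ.free i →
    a.enc.length ≤ (φ.sb i a).enc.length
  | .eq s t, h => by
    simp only [Fm.sb, Fm.enc, List.length_append]
    rcases h with h | h
    · have := lga_tm_has (i := i) (a := a) (t := s) h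
      omega
    · have := lga_tm_has (i := i) (a := a) (t := t) h
      omega
  | .le s t, h => by
    simp only [Fm.sb, Fm.enc, List.length_append]
    rcases h with h | h
    · have := lga_tm_has (i := i) (a := a) (t := s) h
      omega
    · have := lga_tm_has (i := i) (a := a) (t := t) h
      omega
  | .orc t, h => by
    simp only [Fm.sb, Fm.enc, List.length_append]
    have := lga_tm_has (i := i) (a := a) (t := t) h
    omega
  | .tr e x w z, h => by
    simp only [Fm.sb, Fm.enc, List.length_append]
    rcases h with h | h | h | h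
    · have := lga_tm_has (i := i) (a := a) (t := e) h
      omega
    · have := lga_tm_has (i := i) (a := a) (t := x) h
      omega
    · have := lga_tm_has (i := i) (a := a) (t := w) h
      omega
    · have := lga_tm_has (i := i) (a := a) (t := z) h
      omega
  | .prf e x w z, h => by
    simp only [Fm.sb, Fm.enc, List.length_append]
    rcases h with h | h | h | h
    · have := lga_tm_has (i := i) (a := a) (t := e) h
      omega
    · have := lga_tm_has (i := i) (a := a) (t := x) h
      omega
    · have := lga_tm_has (i := i) (a := a) (t := w) h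
      omega
    · have := lga_tm_has (i := i) (a := a) (t := z) h
      omega
  | .neg φ, h => by
    simp only [Fm.sb, Fm.enc, List.length_append]
    have := lga_fm_free (i := i) (a := a) (φ := φ) h
    omega
  | .imp φ ψ, h => by
    simp only [Fm.sb, Fm.enc, List.length_append]
    rcases h with h | h
    · have := lga_fm_free (i := i) (a := a) (φ := φ) h
      omega
    · have := lga_fm_free (i := i) (a := a) (φ := ψ) h
      omega
  | .all j φ, h => by
    obtain ⟨h1, h2⟩ := h
    simp only [Fm.sb, if_neg h1, Fm.enc, List.length_append]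
    have := lga_fm_free (i := i) (a := a) (φ := φ) h2
    omega

theorem lga_tm_not {i : ℕ} {a : Tm} : ∀ {t : Tm}, ¬ t.has i → t.sb i a = t
  | .var j, h => by
    simp only [Tm.has] at h
    simp [Tm.sb, h]
  | .zero, _ => rfl
  | .succ t, h => by
    simp only [Tm.sb]
    rw [lga_tm_not (t := t) h]
  | .half t, h => by
    simp only [Tm.sb]
    rw [lga_tm_not (t := t) h]
  | .len t, h => by
    simp only [Tm.sb]
    rw [lga_tm_not (t := t) h]
  | .add s t, h => by
    simp only [Tm.has, not_or] at h
    simp only [Tm.sb]
    rw [lga_tm_not (t := s) h.1, lga_tm_not (t := t) h.2]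
  | .mul s t, h => by
    simp only [Tm.has, not_or] at h
    simp only [Tm.sb]
    rw [lga_tm_not (t := s) h.1, lga_tm_not (t := t) h.2]
  | .smash s t, h => by
    simp only [Tm.has, not_or] at h
    simp only [Tm.sb]
    rw [lga_tm_not (t := s) h.1, lga_tm_not (t := t) h.2]
  | .sbn r s t, h => by
    simp only [Tm.has, not_or] at h
    simp only [Tm.sb]
    rw [lga_tm_not (t := r) h.1, lga_tm_not (t := s) h.2.1, lga_tm_not (t := t) h.2.2]

theorem lga_fm_not {i : ℕ} {a : Tm} : ∀ {φ : Fm}, ¬ φ.free i → φ.sb i a = φ
  | .eq s t, h => by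
    simp only [Fm.free, not_or] at h
    simp only [Fm.sb]
    rw [lga_tm_not (t := s) h.1, lga_tm_not (t := t) h.2]
  | .le s t, h => by
    simp only [Fm.free, not_or] at h
    simp only [Fm.sb]
    rw [lga_tm_not (t := s) h.1, lga_tm_not (t := t) h.2]
  | .orc t, h => by
    simp only [Fm.free] at h
    simp only [Fm.sb]
    rw [lga_tm_not (t := t) h]
  | .tr e x w z, h => by
    simp only [Fm.free, not_or] at h
    simp only [Fm.sb]
    rw [lga_tm_not (t := e) h.1, lga_tm_not (t := x) h.2.1, lga_tm_not (t := w) h.2.2.1,
      lga_tm_not (t := z) h.2.2.2]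
  | .prf e x w z, h => by
    simp only [Fm.free, not_or] at h
    simp only [Fm.sb]
    rw [lga_tm_not (t := e) h.1, lga_tm_not (t := x) h.2.1, lga_tm_not (t := w) h.2.2.1,
      lga_tm_not (t := z) h.2.2.2]
  | .neg φ, h => by
    simp only [Fm.sb]
    rw [lga_fm_not (φ := φ) h]
  | .imp φ ψ, h => by
    simp only [Fm.free, not_or] at h
    simp only [Fm.sb]
    rw [lga_fm_not (φ := φ) h.1, lga_fm_not (φ := ψ) h.2]
  | .all j φ, h => by
    simp only [Fm.sb]
    by_cases hj : j = i
    · rw [if_pos hj]
    · rw [if_neg hj, lga_fm_not (φ := φ) (fun h2 => h ⟨hj, h2⟩)]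

theorem lga_ok_zero (i : ℕ) : ∀ φ : Fm, φ.Ok i Tm.zero
  | .eq _ _ => trivial
  | .le _ _ => trivial
  | .orc _ => trivial
  | .tr _ _ _ _ => trivial
  | .prf _ _ _ _ => trivial
  | .neg φ => lga_ok_zero i φ
  | .imp φ ψ => ⟨lga_ok_zero i φ, lga_ok_zero i ψ⟩
  | .all _ φ => Or.inr (Or.inr ⟨fun h => h, lga_ok_zero i φ⟩)

theorem inst_small {i : ℕ} {φ : Fm} {a : Tm} (h : φ.Ok i a) :
    ∃ a' : Tm, φ.Ok i a' ∧ φ.sb i a' = φ.sb i a ∧
      a'.enc.length ≤ (φ.sb i a).enc.length + 2 := by
  by_cases hf : φ.free i
  · exact ⟨a, h, rfl, (lga_fm_free hf).trans (Nat.le_add_right _ _)⟩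
  · refine ⟨Tm.zero, lga_ok_zero i φ, ?_, ?_⟩
    · rw [lga_fm_not hf, lga_fm_not hf]
    · simp only [Tm.enc, lga_tag]
      omega

/-! ### Leibniz -/

theorem lga_var_len {i j : ℕ} (hj : j ≠ i) {s : Tm} : ∀ {t : Tm}, t.has j →
    j + 2 ≤ (t.sb i s).enc.length
  | .var k, h => by
    simp only [Tm.has] at h
    subst h
    simp only [Tm.sb, if_neg hj, Tm.enc, List.length_append, lga_tag]
    omega
  | .zero, h => by simp [Tm.has] at h
  | .succ t, h => by
    have := lga_var_len hj (s := s) (t := t) h
    simp only [Tm.sb, Tm.enc, List.length_append]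
    omega
  | .half t, h => by
    have := lga_var_len hj (s := s) (t := t) h
    simp only [Tm.sb, Tm.enc, List.length_append]
    omega
  | .len t, h => by
    have := lga_var_len hj (s := s) (t := t) h
    simp only [Tm.sb, Tm.enc, List.length_append]
    omega
  | .add u t, h => by
    simp only [Tm.sb, Tm.enc, List.length_append]
    rcases h with h | h
    · have := lga_var_len hj (s := s) (t := u) h
      omega
    · have := lga_var_len hj (s := s) (t := t) h
      omega
  | .mul u t, h => by
    simp only [Tm.sb, Tm.enc, List.length_append]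
    rcases h with h | h
    · have := lga_var_len hj (s := s) (t := u) h
      omega
    · have := lga_var_len hj (s := s) (t := t) h
      omega
  | .smash u t, h => by
    simp only [Tm.sb, Tm.enc, List.length_append]
    rcases h with h | h
    · have := lga_var_len hj (s := s) (t := u) h
      omega
    · have := lga_var_len hj (s := s) (t := t) h
      omega
  | .sbn r u t, h => by
    simp only [Tm.sb, Tm.enc, List.length_append]
    rcases h with h | h | h
    · have := lga_var_len hj (s := s) (t := r) h
      omega
    · have := lga_var_len hj (s := s) (t := u) h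
      omega
    · have := lga_var_len hj (s := s) (t := t) h
      omega

/-- substitution through a new variable -/
theorem lga_sb_sb {i i' : ℕ} {s : Tm} : ∀ {t : Tm}, (∀ j, t.has j → j ≠ i → j ≠ i') →
    (t.sb i (.var i')).sb i' s = t.sb i s
  | .var k, h => by
    by_cases hk : k = i
    · simp [Tm.sb, hk]
    · have := h k rfl hk
      simp [Tm.sb, hk, this]
  | .zero, _ => rfl
  | .succ t, h => by
    simp only [Tm.sb]
    rw [lga_sb_sb (t := t) h]
  | .half t, h => by
    simp only [Tm.sb]
    rw [lga_sb_sb (t := t) h]
  | .len t, h => by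
    simp only [Tm.sb]
    rw [lga_sb_sb (t := t) h]
  | .add u t, h => by
    simp only [Tm.sb]
    rw [lga_sb_sb (t := u) (fun j hj => h j (Or.inl hj)),
      lga_sb_sb (t := t) (fun j hj => h j (Or.inr hj))]
  | .mul u t, h => by
    simp only [Tm.sb]
    rw [lga_sb_sb (t := u) (fun j hj => h j (Or.inl hj)),
      lga_sb_sb (t := t) (fun j hj => h j (Or.inr hj))]
  | .smash u t, h => by
    simp only [Tm.sb]
    rw [lga_sb_sb (t := u) (fun j hj => h j (Or.inl hj)),
      lga_sb_sb (t := t) (fun j hj => h j (Or.inr hj))]
  | .sbn r u t, h => by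
    simp only [Tm.sb]
    rw [lga_sb_sb (t := r) (fun j hj => h j (Or.inl hj)),
      lga_sb_sb (t := u) (fun j hj => h j (Or.inr (Or.inl hj))),
      lga_sb_sb (t := t) (fun j hj => h j (Or.inr (Or.inr hj)))]

theorem lga_enc_pos : ∀ t : Tm, 1 ≤ t.enc.length
  | .var _ => by simp only [Tm.enc, List.length_append, lga_tag]; omega
  | .zero => by simp only [Tm.enc, lga_tag]; omega
  | .succ _ => by simp only [Tm.enc, List.length_append, lga_tag]; omega
  | .half _ => by simp only [Tm.enc, List.length_append, lga_tag]; omega
  | .len _ => by simp only [Tm.enc, List.length_append, lga_tag]; omega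
  | .add _ _ => by simp only [Tm.enc, List.length_append, lga_tag]; omega
  | .mul _ _ => by simp only [Tm.enc, List.length_append, lga_tag]; omega
  | .smash _ _ => by simp only [Tm.enc, List.length_append, lga_tag]; omega
  | .sbn _ _ _ => by simp only [Tm.enc, List.length_append, lga_tag]; omega

/-- the length after the substitution of a variable -/
theorem lga_len {i i' : ℕ} {s : Tm} : ∀ t : Tm,
    (t.sb i (.var i')).enc.length ≤ (t.sb i s).enc.length * (i' + 3)
  | .var k => by
    by_cases hk : k = i
    · have h1 := lga_enc_pos s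
      have h2 := Nat.mul_le_mul_right (i' + 3) h1
      simp only [Tm.sb, if_pos hk, Tm.enc, List.length_append, lga_tag]
      omega
    · simp only [Tm.sb, if_neg hk]
      exact Nat.le_mul_of_pos_right _ (by omega)
  | .zero => by
    simp only [Tm.sb]
    exact Nat.le_mul_of_pos_right _ (by omega)
  | .succ t => by
    have h1 := lga_len (i := i) (i' := i') (s := s) t
    simp only [Tm.sb, Tm.enc, List.length_append, lga_tag]
    nlinarith
  | .half t => by
    have h1 := lga_len (i := i) (i' := i') (s := s) t
    simp only [Tm.sb, Tm.enc, List.length_append, lga_tag]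
    nlinarith
  | .len t => by
    have h1 := lga_len (i := i) (i' := i') (s := s) t
    simp only [Tm.sb, Tm.enc, List.length_append, lga_tag]
    nlinarith
  | .add u t => by
    have h1 := lga_len (i := i) (i' := i') (s := s) t
    have h2 := lga_len (i := i) (i' := i') (s := s) u
    simp only [Tm.sb, Tm.enc, List.length_append, lga_tag]
    nlinarith
  | .mul u t => by
    have h1 := lga_len (i := i) (i' := i') (s := s) t
    have h2 := lga_len (i := i) (i' := i') (s := s) u
    simp only [Tm.sb, Tm.enc, List.length_append, lga_tag]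
    nlinarith
  | .smash u t => by
    have h1 := lga_len (i := i) (i' := i') (s := s) t
    have h2 := lga_len (i := i) (i' := i') (s := s) u
    simp only [Tm.sb, Tm.enc, List.length_append, lga_tag]
    nlinarith
  | .sbn r u t => by
    have h1 := lga_len (i := i) (i' := i') (s := s) t
    have h2 := lga_len (i := i) (i' := i') (s := s) u
    have h3 := lga_len (i := i) (i' := i') (s := s) r
    simp only [Tm.sb, Tm.enc, List.length_append, lga_tag]
    nlinarith

theorem lga_fm_var {i j : ℕ} (hj : j ≠ i) {s : Tm} {φ : Fm} (h : φ.Atomic) (hf : φ.free j) :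
    j + 2 ≤ (φ.sb i s).enc.length := by
  cases φ with
  | eq u t =>
    simp only [Fm.sb, Fm.enc, List.length_append]
    rcases hf with hf | hf
    · have := lga_var_len hj (s := s) hf
      omega
    · have := lga_var_len hj (s := s) hf
      omega
  | le u t =>
    simp only [Fm.sb, Fm.enc, List.length_append]
    rcases hf with hf | hf
    · have := lga_var_len hj (s := s) hf
      omega
    · have := lga_var_len hj (s := s) hf
      omega
  | orc t =>
    simp only [Fm.sb, Fm.enc, List.length_append]
    have := lga_var_len hj (s := s) (t := t) hf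
    omega
  | tr e x w z =>
    simp only [Fm.sb, Fm.enc, List.length_append]
    rcases hf with hf | hf | hf | hf
    all_goals
      have := lga_var_len hj (s := s) hf
      omega
  | prf e x w z =>
    simp only [Fm.sb, Fm.enc, List.length_append]
    rcases hf with hf | hf | hf | hf
    all_goals
      have := lga_var_len hj (s := s) hf
      omega
  | neg φ => exact absurd h id
  | imp φ ψ => exact absurd h id
  | all k φ => exact absurd h id

theorem lga_fm_sb_sb {i i' : ℕ} {s : Tm} {φ : Fm} (h : φ.Atomic)
    (hf : ∀ j, φ.free j → j ≠ i → j ≠ i') : (φ.sb i (.var i')).sb i' s = φ.sb i s := by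
  cases φ with
  | eq u t =>
    simp only [Fm.sb]
    rw [lga_sb_sb (t := u) (fun j hj => hf j (Or.inl hj)),
      lga_sb_sb (t := t) (fun j hj => hf j (Or.inr hj))]
  | le u t =>
    simp only [Fm.sb]
    rw [lga_sb_sb (t := u) (fun j hj => hf j (Or.inl hj)),
      lga_sb_sb (t := t) (fun j hj => hf j (Or.inr hj))]
  | orc t =>
    simp only [Fm.sb]
    rw [lga_sb_sb (t := t) (fun j hj => hf j hj)]
  | tr e x w z =>
    simp only [Fm.sb]
    rw [lga_sb_sb (t := e) (fun j hj => hf j (Or.inl hj)),
      lga_sb_sb (t := x) (fun j hj => hf j (Or.inr (Or.inl hj))),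
      lga_sb_sb (t := w) (fun j hj => hf j (Or.inr (Or.inr (Or.inl hj)))),
      lga_sb_sb (t := z) (fun j hj => hf j (Or.inr (Or.inr (Or.inr hj))))]
  | prf e x w z =>
    simp only [Fm.sb]
    rw [lga_sb_sb (t := e) (fun j hj => hf j (Or.inl hj)),
      lga_sb_sb (t := x) (fun j hj => hf j (Or.inr (Or.inl hj))),
      lga_sb_sb (t := w) (fun j hj => hf j (Or.inr (Or.inr (Or.inl hj)))),
      lga_sb_sb (t := z) (fun j hj => hf j (Or.inr (Or.inr (Or.inr hj))))]
  | neg φ => exact absurd h id
  | imp φ ψ => exact absurd h id
  | all k φ => exact absurd h id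

theorem lga_fm_len {i i' : ℕ} {s : Tm} {φ : Fm} (h : φ.Atomic) :
    (φ.sb i (.var i')).enc.length ≤ (φ.sb i s).enc.length * (i' + 3) := by
  cases φ with
  | eq u t =>
    have h1 := lga_len (i := i) (i' := i') (s := s) t
    have h2 := lga_len (i := i) (i' := i') (s := s) u
    simp only [Fm.sb, Fm.enc, List.length_append, lga_tag]
    nlinarith
  | le u t =>
    have h1 := lga_len (i := i) (i' := i') (s := s) t
    have h2 := lga_len (i := i) (i' := i') (s := s) u
    simp only [Fm.sb, Fm.enc, List.length_append, lga_tag]
    nlinarith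
  | orc t =>
    have h1 := lga_len (i := i) (i' := i') (s := s) t
    simp only [Fm.sb, Fm.enc, List.length_append, lga_tag]
    nlinarith
  | tr e x w z =>
    have h1 := lga_len (i := i) (i' := i') (s := s) e
    have h2 := lga_len (i := i) (i' := i') (s := s) x
    have h3 := lga_len (i := i) (i' := i') (s := s) w
    have h4 := lga_len (i := i) (i' := i') (s := s) z
    simp only [Fm.sb, Fm.enc, List.length_append, lga_tag]
    nlinarith
  | prf e x w z =>
    have h1 := lga_len (i := i) (i' := i') (s := s) e
    have h2 := lga_len (i := i) (i' := i') (s := s) x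
    have h3 := lga_len (i := i) (i' := i') (s := s) w
    have h4 := lga_len (i := i) (i' := i') (s := s) z
    simp only [Fm.sb, Fm.enc, List.length_append, lga_tag]
    nlinarith
  | neg φ => exact absurd h id
  | imp φ ψ => exact absurd h id
  | all k φ => exact absurd h id

theorem lga_atomic {i : ℕ} {s : Tm} {φ : Fm} (h : φ.Atomic) : (φ.sb i s).Atomic := by
  cases φ with
  | eq u t => trivial
  | le u t => trivial
  | orc t => trivial
  | tr e x w z => trivial
  | prf e x w z => trivial
  | neg φ => exact absurd h id
  | imp φ ψ => exact absurd h id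
  | all k φ => exact absurd h id

theorem leib_small (i : ℕ) {φ : Fm} (s t : Tm) (h : φ.Atomic) :
    ∃ (i' : ℕ) (φ' : Fm), φ'.Atomic ∧ φ'.sb i' s = φ.sb i s ∧ φ'.sb i' t = φ.sb i t ∧
      i' ≤ (φ.sb i s).enc.length + 1 ∧
      φ'.enc.length ≤ ((φ.sb i s).enc.length + 1) * ((φ.sb i s).enc.length + 4) := by
  have hf : ∀ j, φ.free j → j ≠ i → j ≠ (φ.sb i s).enc.length + 1 := by
    intro j hj hji
    have := lga_fm_var hji (s := s) h hj
    omega
  refine ⟨(φ.sb i s).enc.length + 1, φ.sb i (.var ((φ.sb i s).enc.length + 1)), lga_atomic h,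
    lga_fm_sb_sb h hf, lga_fm_sb_sb h hf, le_refl _, ?_⟩
  refine (lga_fm_len (s := s) h).trans ?_
  exact Nat.mul_le_mul (Nat.le_succ _) (by omega)

end Pool.Agent.RO
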