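import Pool.Agent.Lib_helper78.RF.F.FNA
import Pool.Agent.Lib_helper78.RF.F.FNB
import Pool.Agent.Lib_helper78.RO.Defs

/-!
# Block TDC: correctness of the top-down traversals (MP_5c38ab_lc)
-/

set_option autoImplicit false

namespace Pool.Agent.RO

open Pool.Agent.CK Pool.Agent.RF Pool.Agent.CKP

/-! ## Tokens -/

theorem tdc_isK (m k j : ℕ) : isK m (tk k j) = decide (k = m) := by
  simp [isK, tk]

theorem tdc_idxIs (i k j : ℕ) : idxIs (List.replicate i ()) (tk k j) = decide (j = i) := by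
  simp [idxIs, tk]

theorem tdc_isVar (i k j : ℕ) :
    isVar (List.replicate i ()) (tk k j) = (decide (k = 0) && decide (j = i)) := by
  simp [isVar, tdc_isK, tdc_idxIs]

theorem tdc_isAll (i k j : ℕ) :
    isAll (List.replicate i ()) (tk k j) = (decide (k = 16) && decide (j = i)) := by
  simp [isAll, tdc_isK, tdc_idxIs]

theorem tdc_isAll_lt (i : List Unit) {k : ℕ} (j : ℕ) (hk : k < 16) :
    isAll i (tk k j) = false := by
  have : k ≠ 16 := by omega
  simp [isAll, tdc_isK, this]

theorem tdc_isK_lt {k : ℕ} (j : ℕ) (hk : k < 16) : isK 16 (tk k j) = false := by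
  have : k ≠ 16 := by omega
  simp [tdc_isK, this]

/-! ## The general traversal -/

section gen

variable {α β : Type} (upd : α → Tk → α) (em : α → Tk → β → β) (d : α)

theorem tdc_s0 (b : α) (k j : ℕ) (r : List α) (o : β) (hk : k ≤ 1) :
    tdStep upd em d (b :: r, o) (tk k j) = (r, em b (tk k j) o) := by
  rcases Nat.le_one_iff_eq_zero_or_eq_one.1 hk with rfl | rfl <;>
    simp [tdStep, arU, arTable, tk]

theorem tdc_s1 (b : α) (k j : ℕ) (r : List α) (o : β)
    (hk : k = 2 ∨ k = 3 ∨ k = 4 ∨ k = 11 ∨ k = 14 ∨ k = 16) :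
    tdStep upd em d (b :: r, o) (tk k j) = (upd b (tk k j) :: r, em b (tk k j) o) := by
  rcases hk with rfl | rfl | rfl | rfl | rfl | rfl <;> simp [tdStep, arU, arTable, tk]

theorem tdc_s2 (b : α) (k j : ℕ) (r : List α) (o : β)
    (hk : k = 5 ∨ k = 6 ∨ k = 7 ∨ k = 9 ∨ k = 10 ∨ k = 15) :
    tdStep upd em d (b :: r, o) (tk k j) =
      (upd b (tk k j) :: upd b (tk k j) :: r, em b (tk k j) o) := by
  rcases hk with rfl | rfl | rfl | rfl | rfl | rfl <;> simp [tdStep, arU, arTable, tk]

theorem tdc_s3 (b : α) (j : ℕ) (r : List α) (o : β) :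
    tdStep upd em d (b :: r, o) (tk 8 j) =
      (upd b (tk 8 j) :: upd b (tk 8 j) :: upd b (tk 8 j) :: r, em b (tk 8 j) o) := by
  simp [tdStep, arU, arTable, tk]

theorem tdc_s4 (b : α) (k j : ℕ) (r : List α) (o : β) (hk : k = 12 ∨ k = 13) :
    tdStep upd em d (b :: r, o) (tk k j) =
      (upd b (tk k j) :: upd b (tk k j) :: upd b (tk k j) :: upd b (tk k j) :: r,
        em b (tk k j) o) := by
  rcases hk with rfl | rfl <;> simp [tdStep, arU, arTable, tk]

variable {upd} {b : α} (h : ∀ k j : ℕ, k < 16 → upd b (tk k j) = b)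

include h

/-- below a term the attribute is constant -/
theorem tdc_tm (t : Tm) : ∀ (r : List α) (o : β),
    (tmT t).foldl (tdStep upd em d) (b :: r, o) =
      (r, (tmT t).foldl (fun o x => em b x o) o) := by
  induction t with
  | var i => intro r o; simp [tmT, tdc_s0]
  | zero => intro r o; simp [tmT, tdc_s0]
  | succ t ih => intro r o; simp [tmT, tdc_s1, h, ih]
  | half t ih => intro r o; simp [tmT, tdc_s1, h, ih]
  | len t ih => intro r o; simp [tmT, tdc_s1, h, ih]
  | add s t ih1 ih2 => intro r o; simp [tmT, tdc_s2, h, ih1, ih2]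
  | mul s t ih1 ih2 => intro r o; simp [tmT, tdc_s2, h, ih1, ih2]
  | smash s t ih1 ih2 => intro r o; simp [tmT, tdc_s2, h, ih1, ih2]
  | sbn r' s t ih1 ih2 ih3 => intro r o; simp [tmT, tdc_s3, h, ih1, ih2, ih3]

/-- below an atomic formula the attribute is constant -/
theorem tdc_at (φ : Fm) (hφ : φ.Atomic) : ∀ (r : List α) (o : β),
    (fmT φ).foldl (tdStep upd em d) (b :: r, o) =
      (r, (fmT φ).foldl (fun o x => em b x o) o) := by
  cases φ with
  | eq s t => intro r o; simp [fmT, tdc_s2, h, tdc_tm em d h]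
  | le s t => intro r o; simp [fmT, tdc_s2, h, tdc_tm em d h]
  | orc t => intro r o; simp [fmT, tdc_s1, h, tdc_tm em d h]
  | tr e x w z => intro r o; simp [fmT, tdc_s4, h, tdc_tm em d h]
  | prf p z u v => intro r o; simp [fmT, tdc_s4, h, tdc_tm em d h]
  | neg φ => exact absurd hφ (by simp [Fm.Atomic])
  | imp φ ψ => exact absurd hφ (by simp [Fm.Atomic])
  | all i φ => exact absurd hφ (by simp [Fm.Atomic])

end gen

/-! ## Substitution -/

section sb

variable (i : ℕ) (a : Tm)

/-- the attribute for substitution -/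
def tdcU (i : List Unit) : Bool → Tk → Bool := fun b t => b || isAll i t

/-- the emitter for substitution -/
def tdcE (i : List Unit) (a : List Tk) : Bool → Tk → List Tk → List Tk :=
  fun b t o => (if (isVar i t && !b) = true then a.reverse else [t]) ++ o

theorem tdcU_lt (i : List Unit) (b : Bool) (k j : ℕ) (hk : k < 16) : tdcU i b (tk k j) = b := by
  simp [tdcU, tdc_isAll_lt i j hk]

theorem tdcE_ne (b : Bool) (k j : ℕ) (o : List Tk) (hk : k ≠ 0) :
    tdcE (List.replicate i ()) (tmT a) b (tk k j) o = tk k j :: o := by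
  simp [tdcE, tdc_isVar, hk]

theorem tdc_E_true (p : List Tk) : ∀ o : List Tk,
    p.foldl (fun o x => tdcE (List.replicate i ()) (tmT a) true x o) o = p.reverse ++ o := by
  induction p with
  | nil => intro o; rfl
  | cons x p ih =>
    intro o
    rw [List.foldl_cons, ih]
    simp [tdcE]

theorem tdc_E_tm (t : Tm) : ∀ o : List Tk,
    (tmT t).foldl (fun o x => tdcE (List.replicate i ()) (tmT a) false x o) o =
      (tmT (t.sb i a)).reverse ++ o := by
  induction t with
  | var j =>
    intro o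
    by_cases hj : j = i
    · simp [tmT, Tm.sb, tdcE, tdc_isVar, hj]
    · simp [tmT, Tm.sb, tdcE, tdc_isVar, hj]
  | zero => intro o; simp [tmT, Tm.sb, tdcE_ne]
  | succ t ih => intro o; simp [tmT, Tm.sb, tdcE_ne, ih]
  | half t ih => intro o; simp [tmT, Tm.sb, tdcE_ne, ih]
  | len t ih => intro o; simp [tmT, Tm.sb, tdcE_ne, ih]
  | add s t ih1 ih2 => intro o; simp [tmT, Tm.sb, tdcE_ne, ih1, ih2]
  | mul s t ih1 ih2 => intro o; simp [tmT, Tm.sb, tdcE_ne, ih1, ih2]
  | smash s t ih1 ih2 => intro o; simp [tmT, Tm.sb, tdcE_ne, ih1, ih2]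
  | sbn r s t ih1 ih2 ih3 => intro o; simp [tmT, Tm.sb, tdcE_ne, ih1, ih2, ih3]

theorem tdc_E_at (φ : Fm) (hφ : φ.Atomic) (o : List Tk) :
    (fmT φ).foldl (fun o x => tdcE (List.replicate i ()) (tmT a) false x o) o =
      (fmT (φ.sb i a)).reverse ++ o := by
  cases φ with
  | eq s t => simp [fmT, Fm.sb, tdcE_ne, tdc_E_tm]
  | le s t => simp [fmT, Fm.sb, tdcE_ne, tdc_E_tm]
  | orc t => simp [fmT, Fm.sb, tdcE_ne, tdc_E_tm]
  | tr e x w z => simp [fmT, Fm.sb, tdcE_ne, tdc_E_tm]
  | prf p z u v => simp [fmT, Fm.sb, tdcE_ne, tdc_E_tm]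
  | neg φ => exact absurd hφ (by simp [Fm.Atomic])
  | imp φ ψ => exact absurd hφ (by simp [Fm.Atomic])
  | all i φ => exact absurd hφ (by simp [Fm.Atomic])

/-- below a bound occurrence nothing is substituted -/
theorem tdc_S_true (φ : Fm) : ∀ (r : List Bool) (o : List Tk),
    (fmT φ).foldl (tdStep (tdcU (List.replicate i ())) (tdcE (List.replicate i ()) (tmT a)) false)
      (true :: r, o) = (r, (fmT φ).reverse ++ o) := by
  have hat : ∀ (φ : Fm), φ.Atomic → ∀ (r : List Bool) (o : List Tk),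
    (fmT φ).foldl (tdStep (tdcU (List.replicate i ())) (tdcE (List.replicate i ()) (tmT a)) false)
      (true :: r, o) = (r, (fmT φ).reverse ++ o) := by
    intro φ hφ r o
    rw [tdc_at _ _ (fun k j hk => tdcU_lt _ true k j hk) φ hφ, tdc_E_true]
  induction φ with
  | eq s t => exact hat _ (by simp [Fm.Atomic])
  | le s t => exact hat _ (by simp [Fm.Atomic])
  | orc t => exact hat _ (by simp [Fm.Atomic])
  | tr e x w z => exact hat _ (by simp [Fm.Atomic])
  | prf p z u v => exact hat _ (by simp [Fm.Atomic])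
  | neg φ ih => intro r o; simp [fmT, tdc_s1, tdcU_lt, tdcE_ne, ih]
  | imp φ ψ ih1 ih2 => intro r o; simp [fmT, tdc_s2, tdcU_lt, tdcE_ne, ih1, ih2]
  | all j φ ih =>
    intro r o
    have : tdcU (List.replicate i ()) true (tk 16 j) = true := by simp [tdcU]
    simp [fmT, tdc_s1, this, tdcE_ne, ih]

/-- substitution into a formula -/
theorem tdc_S_false (φ : Fm) : ∀ (r : List Bool) (o : List Tk),
    (fmT φ).foldl (tdStep (tdcU (List.replicate i ())) (tdcE (List.replicate i ()) (tmT a)) false)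
      (false :: r, o) = (r, (fmT (φ.sb i a)).reverse ++ o) := by
  have hat : ∀ (φ : Fm), φ.Atomic → ∀ (r : List Bool) (o : List Tk),
    (fmT φ).foldl (tdStep (tdcU (List.replicate i ())) (tdcE (List.replicate i ()) (tmT a)) false)
      (false :: r, o) = (r, (fmT (φ.sb i a)).reverse ++ o) := by
    intro φ hφ r o
    rw [tdc_at _ _ (fun k j hk => tdcU_lt _ false k j hk) φ hφ, tdc_E_at _ _ _ hφ]
  induction φ with
  | eq s t => exact hat _ (by simp [Fm.Atomic])
  | le s t => exact hat _ (by simp [Fm.Atomic])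
  | orc t => exact hat _ (by simp [Fm.Atomic])
  | tr e x w z => exact hat _ (by simp [Fm.Atomic])
  | prf p z u v => exact hat _ (by simp [Fm.Atomic])
  | neg φ ih => intro r o; simp [fmT, Fm.sb, tdc_s1, tdcU_lt, tdcE_ne, ih]
  | imp φ ψ ih1 ih2 => intro r o; simp [fmT, Fm.sb, tdc_s2, tdcU_lt, tdcE_ne, ih1, ih2]
  | all j φ ih =>
    intro r o
    by_cases hj : j = i
    · subst hj
      have : tdcU (List.replicate j ()) false (tk 16 j) = true := by
        simp [tdcU, tdc_isAll]
      simp [fmT, Fm.sb, tdc_s1, this, tdcE_ne, tdc_S_true]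
    · have : tdcU (List.replicate i ()) false (tk 16 j) = false := by
        simp [tdcU, tdc_isAll, hj]
      simp [fmT, Fm.sb, tdc_s1, this, tdcE_ne, ih, hj]

end sb

theorem sbT_tm (i : ℕ) (a t : Tm) :
    sbT (List.replicate i ()) (tmT a) (tmT t) = tmT (t.sb i a) := by
  change ((tmT t).foldl (tdStep (tdcU (List.replicate i ()))
    (tdcE (List.replicate i ()) (tmT a)) false) ([false], [])).2.reverse = _
  rw [tdc_tm _ _ (fun k j hk => tdcU_lt _ false k j hk), tdc_E_tm]
  simp

theorem sbT_fm (i : ℕ) (a : Tm) (φ : Fm) :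
    sbT (List.replicate i ()) (tmT a) (fmT φ) = fmT (φ.sb i a) := by
  change ((fmT φ).foldl (tdStep (tdcU (List.replicate i ()))
    (tdcE (List.replicate i ()) (tmT a)) false) ([false], [])).2.reverse = _
  rw [tdc_S_false]
  simp

/-! ## Free variables -/

/-- the emitter for free variables -/
def tdcF (i : List Unit) : Bool → Tk → Bool → Bool := fun b t o => o || (isVar i t && !b)

theorem tdcF_ne (i : ℕ) (b : Bool) (k j : ℕ) (o : Bool) (hk : k ≠ 0) :
    tdcF (List.replicate i ()) b (tk k j) o = o := by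
  simp [tdcF, tdc_isVar, hk]

theorem tdc_F_true (i : ℕ) (p : List Tk) : ∀ o : Bool,
    p.foldl (fun o x => tdcF (List.replicate i ()) true x o) o = o := by
  induction p with
  | nil => intro o; rfl
  | cons x p ih => intro o; rw [List.foldl_cons, ih]; simp [tdcF]

theorem tdc_F_tm (i : ℕ) (t : Tm) : ∀ o : Bool,
    ((tmT t).foldl (fun o x => tdcF (List.replicate i ()) false x o) o = true ↔
      (o = true ∨ t.has i)) := by
  induction t with
  | var j => intro o; simp [tmT, Tm.has, tdcF, tdc_isVar]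
  | zero => intro o; simp [tmT, Tm.has, tdcF_ne]
  | succ t ih => intro o; simp [tmT, Tm.has, tdcF_ne, ih]
  | half t ih => intro o; simp [tmT, Tm.has, tdcF_ne, ih]
  | len t ih => intro o; simp [tmT, Tm.has, tdcF_ne, ih]
  | add s t ih1 ih2 => intro o; simp [tmT, Tm.has, tdcF_ne, ih1, ih2, or_assoc]
  | mul s t ih1 ih2 => intro o; simp [tmT, Tm.has, tdcF_ne, ih1, ih2, or_assoc]
  | smash s t ih1 ih2 => intro o; simp [tmT, Tm.has, tdcF_ne, ih1, ih2, or_assoc]
  | sbn r s t ih1 ih2 ih3 => intro o; simp [tmT, Tm.has, tdcF_ne, ih1, ih2, ih3, or_assoc]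

theorem tdc_F_at (i : ℕ) (φ : Fm) (hφ : φ.Atomic) (o : Bool) :
    ((fmT φ).foldl (fun o x => tdcF (List.replicate i ()) false x o) o = true ↔
      (o = true ∨ φ.free i)) := by
  cases φ with
  | eq s t => simp [fmT, Fm.free, tdcF_ne, tdc_F_tm, or_assoc]
  | le s t => simp [fmT, Fm.free, tdcF_ne, tdc_F_tm, or_assoc]
  | orc t => simp [fmT, Fm.free, tdcF_ne, tdc_F_tm]
  | tr e x w z => simp [fmT, Fm.free, tdcF_ne, tdc_F_tm, or_assoc]
  | prf p z u v => simp [fmT, Fm.free, tdcF_ne, tdc_F_tm, or_assoc]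
  | neg φ => exact absurd hφ (by simp [Fm.Atomic])
  | imp φ ψ => exact absurd hφ (by simp [Fm.Atomic])
  | all i φ => exact absurd hφ (by simp [Fm.Atomic])

theorem tdc_FS_true (i : ℕ) (φ : Fm) : ∀ (r : List Bool) (o : Bool),
    (fmT φ).foldl (tdStep (tdcU (List.replicate i ())) (tdcF (List.replicate i ())) false)
      (true :: r, o) = (r, o) := by
  have hat : ∀ (φ : Fm), φ.Atomic → ∀ (r : List Bool) (o : Bool),
    (fmT φ).foldl (tdStep (tdcU (List.replicate i ())) (tdcF (List.replicate i ())) false)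
      (true :: r, o) = (r, o) := by
    intro φ hφ r o
    rw [tdc_at _ _ (fun k j hk => tdcU_lt _ true k j hk) φ hφ, tdc_F_true]
  induction φ with
  | eq s t => exact hat _ (by simp [Fm.Atomic])
  | le s t => exact hat _ (by simp [Fm.Atomic])
  | orc t => exact hat _ (by simp [Fm.Atomic])
  | tr e x w z => exact hat _ (by simp [Fm.Atomic])
  | prf p z u v => exact hat _ (by simp [Fm.Atomic])
  | neg φ ih => intro r o; simp [fmT, tdc_s1, tdcU_lt, tdcF_ne, ih]
  | imp φ ψ ih1 ih2 => intro r o; simp [fmT, tdc_s2, tdcU_lt, tdcF_ne, ih1, ih2]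
  | all j φ ih =>
    intro r o
    have : tdcU (List.replicate i ()) true (tk 16 j) = true := by simp [tdcU]
    simp [fmT, tdc_s1, this, tdcF_ne, ih]

theorem tdc_FS_false (i : ℕ) (φ : Fm) : ∀ (r : List Bool) (o : Bool), ∃ o' : Bool,
    (fmT φ).foldl (tdStep (tdcU (List.replicate i ())) (tdcF (List.replicate i ())) false)
      (false :: r, o) = (r, o') ∧ (o' = true ↔ (o = true ∨ φ.free i)) := by
  have hat : ∀ (φ : Fm), φ.Atomic → ∀ (r : List Bool) (o : Bool), ∃ o' : Bool,
    (fmT φ).foldl (tdStep (tdcU (List.replicate i ())) (tdcF (List.replicate i ())) false)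
      (false :: r, o) = (r, o') ∧ (o' = true ↔ (o = true ∨ φ.free i)) := by
    intro φ hφ r o
    rw [tdc_at _ _ (fun k j hk => tdcU_lt _ false k j hk) φ hφ]
    exact ⟨_, rfl, tdc_F_at i φ hφ o⟩
  induction φ with
  | eq s t => exact hat _ (by simp [Fm.Atomic])
  | le s t => exact hat _ (by simp [Fm.Atomic])
  | orc t => exact hat _ (by simp [Fm.Atomic])
  | tr e x w z => exact hat _ (by simp [Fm.Atomic])
  | prf p z u v => exact hat _ (by simp [Fm.Atomic])
  | neg φ ih =>
    intro r o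
    obtain ⟨o', h1, h2⟩ := ih r o
    exact ⟨o', by simp [fmT, tdc_s1, tdcU_lt, tdcF_ne, h1], by simpa [Fm.free] using h2⟩
  | imp φ ψ ih1 ih2 =>
    intro r o
    obtain ⟨o1, h1, h2⟩ := ih1 (false :: r) o
    obtain ⟨o2, h3, h4⟩ := ih2 r o1
    refine ⟨o2, by simp [fmT, tdc_s2, tdcU_lt, tdcF_ne, h1, h3], ?_⟩
    rw [h4, h2, Fm.free, or_assoc]
  | all j φ ih =>
    intro r o
    by_cases hj : j = i
    · have : tdcU (List.replicate i ()) false (tk 16 j) = true := by
        simp [tdcU, tdc_isAll, hj]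
      exact ⟨o, by simp [fmT, tdc_s1, this, tdcF_ne, tdc_FS_true], by simp [Fm.free, hj]⟩
    · have : tdcU (List.replicate i ()) false (tk 16 j) = false := by
        simp [tdcU, tdc_isAll, hj]
      obtain ⟨o', h1, h2⟩ := ih r o
      exact ⟨o', by simp [fmT, tdc_s1, this, tdcF_ne, h1], by simpa [Fm.free, hj] using h2⟩

theorem frT_fm (i : ℕ) (φ : Fm) :
    frT (List.replicate i ()) (fmT φ) = true ↔ φ.free i := by
  change ((fmT φ).foldl (tdStep (tdcU (List.replicate i ()))
    (tdcF (List.replicate i ())) false) ([false], false)).2 = true ↔ _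
  obtain ⟨o', h1, h2⟩ := tdc_FS_false i φ [] false
  rw [h1]
  simpa using h2

/-! ## Substitutability -/

/-- the attribute for substitutability -/
def tdcV (i : List Unit) (a : List Tk) : Bool × Bool → Tk → Bool × Bool :=
  fun b t => (b.1 || isAll i t, b.2 || (isK 16 t && a.any (isVar t.2)))

/-- the emitter for substitutability -/
def tdcG (i : List Unit) : Bool × Bool → Tk → Bool → Bool :=
  fun b t o => o && !(isVar i t && !b.1 && b.2)

theorem tdcV_lt (i : List Unit) (a : List Tk) (b : Bool × Bool) (k j : ℕ) (hk : k < 16) :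
    tdcV i a b (tk k j) = b := by
  simp [tdcV, tdc_isAll_lt i j hk, tdc_isK_lt j hk]

theorem tdcG_ne (i : ℕ) (b : Bool × Bool) (k j : ℕ) (o : Bool) (hk : k ≠ 0) :
    tdcG (List.replicate i ()) b (tk k j) o = o := by
  simp [tdcG, tdc_isVar, hk]

theorem tdc_any (j : ℕ) (a : Tm) : (tmT a).any (isVar (List.replicate j ())) = true ↔ a.has j := by
  induction a with
  | var i => simp [tmT, Tm.has, tdc_isVar]
  | zero => simp [tmT, Tm.has, tdc_isVar]
  | succ t ih => simpa [tmT, Tm.has, tdc_isVar] using ih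
  | half t ih => simpa [tmT, Tm.has, tdc_isVar] using ih
  | len t ih => simpa [tmT, Tm.has, tdc_isVar] using ih
  | add s t ih1 ih2 =>
    rw [tmT, List.any_cons, List.any_append, Tm.has, Bool.or_eq_true, Bool.or_eq_true, ih1, ih2]
    simp [tdc_isVar]
  | mul s t ih1 ih2 =>
    rw [tmT, List.any_cons, List.any_append, Tm.has, Bool.or_eq_true, Bool.or_eq_true, ih1, ih2]
    simp [tdc_isVar]
  | smash s t ih1 ih2 =>
    rw [tmT, List.any_cons, List.any_append, Tm.has, Bool.or_eq_true, Bool.or_eq_true, ih1, ih2]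
    simp [tdc_isVar]
  | sbn r s t ih1 ih2 ih3 =>
    rw [tmT, List.any_cons, List.any_append, List.any_append, Tm.has, Bool.or_eq_true,
      Bool.or_eq_true, Bool.or_eq_true, ih1, ih2, ih3]
    simp [tdc_isVar]

/-- nothing is checked at bound occurrences and at occurrences that are not captured -/
theorem tdc_G_const (i : ℕ) (b : Bool × Bool) (hb : b.1 = true ∨ b.2 = false) (p : List Tk) :
    ∀ o : Bool, p.foldl (fun o x => tdcG (List.replicate i ()) b x o) o = o := by
  induction p with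
  | nil => intro o; rfl
  | cons x p ih =>
    intro o
    rw [List.foldl_cons, ih]
    rcases hb with hb | hb <;> simp [tdcG, hb]

theorem tdc_G_tm (i : ℕ) (t : Tm) : ∀ o : Bool,
    ((tmT t).foldl (fun o x => tdcG (List.replicate i ()) (false, true) x o) o = true ↔
      (o = true ∧ ¬ t.has i)) := by
  induction t with
  | var j => intro o; simp [tmT, Tm.has, tdcG, tdc_isVar]
  | zero => intro o; simp [tmT, Tm.has, tdcG_ne]
  | succ t ih => intro o; simp [tmT, Tm.has, tdcG_ne, ih]
  | half t ih => intro o; simp [tmT, Tm.has, tdcG_ne, ih]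
  | len t ih => intro o; simp [tmT, Tm.has, tdcG_ne, ih]
  | add s t ih1 ih2 => intro o; simp [tmT, Tm.has, tdcG_ne, ih1, ih2, and_assoc]
  | mul s t ih1 ih2 => intro o; simp [tmT, Tm.has, tdcG_ne, ih1, ih2, and_assoc]
  | smash s t ih1 ih2 => intro o; simp [tmT, Tm.has, tdcG_ne, ih1, ih2, and_assoc]
  | sbn r s t ih1 ih2 ih3 => intro o; simp [tmT, Tm.has, tdcG_ne, ih1, ih2, ih3, and_assoc]

theorem tdc_G_at (i : ℕ) (φ : Fm) (hφ : φ.Atomic) (o : Bool) :
    ((fmT φ).foldl (fun o x => tdcG (List.replicate i ()) (false, true) x o) o = true ↔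
      (o = true ∧ ¬ φ.free i)) := by
  cases φ with
  | eq s t => simp [fmT, Fm.free, tdcG_ne, tdc_G_tm, and_assoc]
  | le s t => simp [fmT, Fm.free, tdcG_ne, tdc_G_tm, and_assoc]
  | orc t => simp [fmT, Fm.free, tdcG_ne, tdc_G_tm]
  | tr e x w z => simp [fmT, Fm.free, tdcG_ne, tdc_G_tm, and_assoc]
  | prf p z u v => simp [fmT, Fm.free, tdcG_ne, tdc_G_tm, and_assoc]
  | neg φ => exact absurd hφ (by simp [Fm.Atomic])
  | imp φ ψ => exact absurd hφ (by simp [Fm.Atomic])
  | all i φ => exact absurd hφ (by simp [Fm.Atomic])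

/-- below a quantifier over the variable everything is in order -/
theorem tdc_GS_bound (i : ℕ) (a : Tm) (φ : Fm) : ∀ (c : Bool) (r : List (Bool × Bool)) (o : Bool),
    (fmT φ).foldl (tdStep (tdcV (List.replicate i ()) (tmT a)) (tdcG (List.replicate i ()))
      (false, false)) ((true, c) :: r, o) = (r, o) := by
  have hat : ∀ (φ : Fm), φ.Atomic → ∀ (c : Bool) (r : List (Bool × Bool)) (o : Bool),
    (fmT φ).foldl (tdStep (tdcV (List.replicate i ()) (tmT a)) (tdcG (List.replicate i ()))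
      (false, false)) ((true, c) :: r, o) = (r, o) := by
    intro φ hφ c r o
    rw [tdc_at _ _ (fun k j hk => tdcV_lt _ _ (true, c) k j hk) φ hφ,
      tdc_G_const i _ (Or.inl rfl)]
  induction φ with
  | eq s t => exact hat _ (by simp [Fm.Atomic])
  | le s t => exact hat _ (by simp [Fm.Atomic])
  | orc t => exact hat _ (by simp [Fm.Atomic])
  | tr e x w z => exact hat _ (by simp [Fm.Atomic])
  | prf p z u v => exact hat _ (by simp [Fm.Atomic])
  | neg φ ih => intro c r o; simp [fmT, tdc_s1, tdcV_lt, tdcG_ne, ih]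
  | imp φ ψ ih1 ih2 => intro c r o; simp [fmT, tdc_s2, tdcV_lt, tdcG_ne, ih1, ih2]
  | all j φ ih =>
    intro c r o
    have : ∃ c', tdcV (List.replicate i ()) (tmT a) (true, c) (tk 16 j) = (true, c') :=
      ⟨_, by simp [tdcV]; rfl⟩
    obtain ⟨c', hc'⟩ := this
    simp [fmT, tdc_s1, hc', tdcG_ne, ih]

/-- below a capturing quantifier the variable must not be free -/
theorem tdc_GS_capt (i : ℕ) (a : Tm) (φ : Fm) : ∀ (r : List (Bool × Bool)) (o : Bool),
    ∃ o' : Bool,
    (fmT φ).foldl (tdStep (tdcV (List.replicate i ()) (tmT a)) (tdcG (List.replicate i ()))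
      (false, false)) ((false, true) :: r, o) = (r, o') ∧ (o' = true ↔ (o = true ∧ ¬ φ.free i)) := by
  have hat : ∀ (φ : Fm), φ.Atomic → ∀ (r : List (Bool × Bool)) (o : Bool), ∃ o' : Bool,
    (fmT φ).foldl (tdStep (tdcV (List.replicate i ()) (tmT a)) (tdcG (List.replicate i ()))
      (false, false)) ((false, true) :: r, o) = (r, o') ∧
        (o' = true ↔ (o = true ∧ ¬ φ.free i)) := by
    intro φ hφ r o
    rw [tdc_at _ _ (fun k j hk => tdcV_lt _ _ (false, true) k j hk) φ hφ]
    exact ⟨_, rfl, tdc_G_at i φ hφ o⟩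
  induction φ with
  | eq s t => exact hat _ (by simp [Fm.Atomic])
  | le s t => exact hat _ (by simp [Fm.Atomic])
  | orc t => exact hat _ (by simp [Fm.Atomic])
  | tr e x w z => exact hat _ (by simp [Fm.Atomic])
  | prf p z u v => exact hat _ (by simp [Fm.Atomic])
  | neg φ ih =>
    intro r o
    obtain ⟨o', h1, h2⟩ := ih r o
    exact ⟨o', by simp [fmT, tdc_s1, tdcV_lt, tdcG_ne, h1], by simpa [Fm.free] using h2⟩
  | imp φ ψ ih1 ih2 =>
    intro r o
    obtain ⟨o1, h1, h2⟩ := ih1 ((false, true) :: r) o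
    obtain ⟨o2, h3, h4⟩ := ih2 r o1
    refine ⟨o2, by simp [fmT, tdc_s2, tdcV_lt, tdcG_ne, h1, h3], ?_⟩
    rw [h4, h2, Fm.free, not_or, and_assoc]
  | all j φ ih =>
    intro r o
    by_cases hj : j = i
    · have : tdcV (List.replicate i ()) (tmT a) (false, true) (tk 16 j) = (true, true) := by
        simp [tdcV, tdc_isAll, hj]
      exact ⟨o, by simp [fmT, tdc_s1, this, tdcG_ne, tdc_GS_bound], by simp [Fm.free, hj]⟩
    · have : tdcV (List.replicate i ()) (tmT a) (false, true) (tk 16 j) = (false, true) := by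
        simp [tdcV, tdc_isAll, hj]
      obtain ⟨o', h1, h2⟩ := ih r o
      exact ⟨o', by simp [fmT, tdc_s1, this, tdcG_ne, h1], by simpa [Fm.free, hj] using h2⟩

theorem tdc_ok_of_not_free (i : ℕ) (a : Tm) (φ : Fm) (h : ¬ φ.free i) : φ.Ok i a := by
  induction φ with
  | eq s t => trivial
  | le s t => trivial
  | orc t => trivial
  | tr e x w z => trivial
  | prf p z u v => trivial
  | neg φ ih => exact ih h
  | imp φ ψ ih1 ih2 =>
    rw [Fm.free, not_or] at h
    exact ⟨ih1 h.1, ih2 h.2⟩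
  | all j φ ih =>
    rw [Fm.free, not_and_or, not_not] at h
    rcases h with h | h
    · exact Or.inl h
    · exact Or.inr (Or.inl h)

theorem tdc_GS (i : ℕ) (a : Tm) (φ : Fm) : ∀ (r : List (Bool × Bool)) (o : Bool),
    ∃ o' : Bool,
    (fmT φ).foldl (tdStep (tdcV (List.replicate i ()) (tmT a)) (tdcG (List.replicate i ()))
      (false, false)) ((false, false) :: r, o) = (r, o') ∧ (o' = true ↔ (o = true ∧ φ.Ok i a)) := by
  have hat : ∀ (φ : Fm), φ.Atomic → ∀ (r : List (Bool × Bool)) (o : Bool), ∃ o' : Bool,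
    (fmT φ).foldl (tdStep (tdcV (List.replicate i ()) (tmT a)) (tdcG (List.replicate i ()))
      (false, false)) ((false, false) :: r, o) = (r, o') ∧
        (o' = true ↔ (o = true ∧ φ.Ok i a)) := by
    intro φ hφ r o
    rw [tdc_at _ _ (fun k j hk => tdcV_lt _ _ (false, false) k j hk) φ hφ,
      tdc_G_const i _ (Or.inr rfl)]
    refine ⟨o, rfl, ?_⟩
    cases φ with
    | eq s t => simp [Fm.Ok]
    | le s t => simp [Fm.Ok]
    | orc t => simp [Fm.Ok]
    | tr e x w z => simp [Fm.Ok]
    | prf p z u v => simp [Fm.Ok]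
    | neg φ => exact absurd hφ (by simp [Fm.Atomic])
    | imp φ ψ => exact absurd hφ (by simp [Fm.Atomic])
    | all i φ => exact absurd hφ (by simp [Fm.Atomic])
  induction φ with
  | eq s t => exact hat _ (by simp [Fm.Atomic])
  | le s t => exact hat _ (by simp [Fm.Atomic])
  | orc t => exact hat _ (by simp [Fm.Atomic])
  | tr e x w z => exact hat _ (by simp [Fm.Atomic])
  | prf p z u v => exact hat _ (by simp [Fm.Atomic])
  | neg φ ih =>
    intro r o
    obtain ⟨o', h1, h2⟩ := ih r o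
    exact ⟨o', by simp [fmT, tdc_s1, tdcV_lt, tdcG_ne, h1], by simpa [Fm.Ok] using h2⟩
  | imp φ ψ ih1 ih2 =>
    intro r o
    obtain ⟨o1, h1, h2⟩ := ih1 ((false, false) :: r) o
    obtain ⟨o2, h3, h4⟩ := ih2 r o1
    refine ⟨o2, by simp [fmT, tdc_s2, tdcV_lt, tdcG_ne, h1, h3], ?_⟩
    rw [h4, h2, Fm.Ok, and_assoc]
  | all j φ ih =>
    intro r o
    by_cases hj : j = i
    · have : ∃ c', tdcV (List.replicate i ()) (tmT a) (false, false) (tk 16 j) = (true, c') :=
        ⟨_, by simp [tdcV, tdc_isAll, hj]; rfl⟩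
      obtain ⟨c', hc'⟩ := this
      exact ⟨o, by simp [fmT, tdc_s1, hc', tdcG_ne, tdc_GS_bound], by simp [Fm.Ok, hj]⟩
    · have h2 : (tk 16 j).2 = List.replicate j () := rfl
      by_cases hc : a.has j
      · have : tdcV (List.replicate i ()) (tmT a) (false, false) (tk 16 j) = (false, true) := by
          simp only [tdcV, tdc_isAll, h2, tdc_isK, (tdc_any j a).2 hc]
          simp [hj]
        obtain ⟨o', h3, h4⟩ := tdc_GS_capt i a φ r o
        refine ⟨o', by simp [fmT, tdc_s1, this, tdcG_ne, h3], ?_⟩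
        rw [h4, Fm.Ok]
        simp [hj, hc]
      · have hc' : (tmT a).any (isVar (List.replicate j ())) = false := by
          rw [← Bool.not_eq_true, tdc_any]
          exact hc
        have : tdcV (List.replicate i ()) (tmT a) (false, false) (tk 16 j) = (false, false) := by
          simp only [tdcV, tdc_isAll, h2, tdc_isK, hc']
          simp [hj]
        obtain ⟨o', h3, h4⟩ := ih r o
        refine ⟨o', by simp [fmT, tdc_s1, this, tdcG_ne, h3], ?_⟩
        rw [h4, Fm.Ok]
        constructor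
        · rintro ⟨h5, h6⟩
          exact ⟨h5, Or.inr (Or.inr ⟨hc, h6⟩)⟩
        · rintro ⟨h5, h6⟩
          refine ⟨h5, ?_⟩
          rcases h6 with h6 | h6 | h6
          · exact absurd h6 hj
          · exact tdc_ok_of_not_free i a φ h6
          · exact h6.2

theorem okT_fm (i : ℕ) (a : Tm) (φ : Fm) :
    okT (List.replicate i ()) (tmT a) (fmT φ) = true ↔ φ.Ok i a := by
  change ((fmT φ).foldl (tdStep (tdcV (List.replicate i ()) (tmT a)) (tdcG (List.replicate i ()))
    (false, false)) ([(false, false)], true)).2 = true ↔ _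
  obtain ⟨o', h1, h2⟩ := tdc_GS i a φ [] true
  rw [h1]
  simpa using h2

theorem atomT_fm (φ : Fm) : atomT (fmT φ) = true ↔ φ.Atomic := by
  cases φ <;> simp [atomT, fmT, tk, Fm.Atomic]

end Pool.Agent.RO
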