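import Pool.Agent.Lib_helper78.RF.F.FNA
import Pool.Agent.Lib_helper78.RF.F.FNB
import Pool.Agent.Lib_helper78.RO.Defs

/-!
# Block VLD: the syntax check of token lists
-/

set_option autoImplicit false

namespace Pool.Agent.RO

open Pool.Agent.CK Pool.Agent.RF Pool.Agent.CKP

theorem vld_unit_list (l : List Unit) : l = List.replicate l.length () := by
  induction l with
  | nil => rfl
  | cons a t ih =>
    rw [List.length_cons, List.replicate_succ, ← ih]

theorem vld_tk_eta (t : Tk) : t = tk t.1.length t.2.length := by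
  rcases t with ⟨a, b⟩
  unfold tk
  rw [← vld_unit_list, ← vld_unit_list]

/-- the number of arguments of kind `k` -/
def vldAr (k : ℕ) : ℕ := (arTable.getD k []).length

theorem vld_map_unit {α : Type} (l : List Unit) (c : α) :
    l.map (fun _ => c) = List.replicate l.length c := by
  rw [List.map_const']

theorem vld_step (k i : ℕ) (b : Bool) (r : List Bool) (ok : Bool) :
    vStep (b :: r, ok) (tk k i) =
      (List.replicate (vldAr k) (decide (14 ≤ k)) ++ r, ok && proper b (tk k i)) := by
  unfold vStep arU tk vldAr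
  simp

theorem vld_proper_tm (k i : ℕ) (h : k ≤ 8) (hi : i = 0 ∨ k = 0) :
    proper false (tk k i) = true := by
  unfold proper tk isK
  rcases hi with rfl | rfl
  · simp [h]
  · simp

theorem vld_proper_fm (k i : ℕ) (h : 9 ≤ k) (h' : k ≤ 16) (hi : i = 0 ∨ k = 16) :
    proper true (tk k i) = true := by
  unfold proper tk isK
  rcases hi with rfl | rfl
  · simp [h, h']
  · simp

theorem vld_proper_inv (b : Bool) (k i : ℕ) (h : proper b (tk k i) = true) :
    (b = true ∧ 9 ≤ k ∧ k ≤ 16 ∧ (i = 0 ∨ k = 16)) ∨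
      (b = false ∧ k ≤ 8 ∧ (i = 0 ∨ k = 0)) := by
  unfold proper tk isK at h
  cases b
  · right
    simp only [Bool.false_eq_true, if_false, List.length_replicate, Bool.and_eq_true,
      Bool.or_eq_true, decide_eq_true_eq, List.isEmpty_iff, List.replicate_eq_nil_iff] at h
    refine ⟨rfl, h.1, ?_⟩
    omega
  · left
    simp only [if_true, List.length_replicate, Bool.and_eq_true,
      Bool.or_eq_true, decide_eq_true_eq, List.isEmpty_iff, List.replicate_eq_nil_iff] at h
    refine ⟨rfl, h.1.1, h.1.2, ?_⟩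
    omega

/-! ## From syntax to the check -/

theorem vld_tm_fold (t : Tm) : ∀ (r : List Bool) (ok : Bool),
    (tmT t).foldl vStep (false :: r, ok) = (r, ok) := by
  induction t with
  | var i =>
    intro r ok
    rw [tmT, List.foldl_cons, List.foldl_nil, vld_step, vld_proper_tm _ _ (by omega) (Or.inr rfl)]
    simp [vldAr, arTable]
  | zero =>
    intro r ok
    rw [tmT, List.foldl_cons, List.foldl_nil, vld_step, vld_proper_tm _ _ (by omega) (Or.inl rfl)]
    simp [vldAr, arTable]
  | succ t ih =>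
    intro r ok
    rw [tmT, List.foldl_cons, vld_step, vld_proper_tm _ _ (by omega) (Or.inl rfl)]
    simp [vldAr, arTable, ih]
  | half t ih =>
    intro r ok
    rw [tmT, List.foldl_cons, vld_step, vld_proper_tm _ _ (by omega) (Or.inl rfl)]
    simp [vldAr, arTable, ih]
  | len t ih =>
    intro r ok
    rw [tmT, List.foldl_cons, vld_step, vld_proper_tm _ _ (by omega) (Or.inl rfl)]
    simp [vldAr, arTable, ih]
  | add s t ihs iht =>
    intro r ok
    rw [tmT, List.foldl_cons, vld_step, vld_proper_tm _ _ (by omega) (Or.inl rfl)]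
    simp [vldAr, arTable, ihs, iht, List.replicate_succ]
  | mul s t ihs iht =>
    intro r ok
    rw [tmT, List.foldl_cons, vld_step, vld_proper_tm _ _ (by omega) (Or.inl rfl)]
    simp [vldAr, arTable, ihs, iht, List.replicate_succ]
  | smash s t ihs iht =>
    intro r ok
    rw [tmT, List.foldl_cons, vld_step, vld_proper_tm _ _ (by omega) (Or.inl rfl)]
    simp [vldAr, arTable, ihs, iht, List.replicate_succ]
  | sbn q s t ihq ihs iht =>
    intro r ok
    rw [tmT, List.foldl_cons, vld_step, vld_proper_tm _ _ (by omega) (Or.inl rfl)]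
    simp [vldAr, arTable, ihq, ihs, iht, List.replicate_succ]

theorem vld_fm_fold (φ : Fm) : ∀ (r : List Bool) (ok : Bool),
    (fmT φ).foldl vStep (true :: r, ok) = (r, ok) := by
  induction φ with
  | eq s t =>
    intro r ok
    rw [fmT, List.foldl_cons, vld_step, vld_proper_fm _ _ (by omega) (by omega) (Or.inl rfl)]
    simp [vldAr, arTable, vld_tm_fold, List.replicate_succ]
  | le s t =>
    intro r ok
    rw [fmT, List.foldl_cons, vld_step, vld_proper_fm _ _ (by omega) (by omega) (Or.inl rfl)]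
    simp [vldAr, arTable, vld_tm_fold, List.replicate_succ]
  | orc t =>
    intro r ok
    rw [fmT, List.foldl_cons, vld_step, vld_proper_fm _ _ (by omega) (by omega) (Or.inl rfl)]
    simp [vldAr, arTable, vld_tm_fold]
  | tr e x w z =>
    intro r ok
    rw [fmT, List.foldl_cons, vld_step, vld_proper_fm _ _ (by omega) (by omega) (Or.inl rfl)]
    simp [vldAr, arTable, vld_tm_fold, List.replicate_succ]
  | prf p z u v =>
    intro r ok
    rw [fmT, List.foldl_cons, vld_step, vld_proper_fm _ _ (by omega) (by omega) (Or.inl rfl)]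
    simp [vldAr, arTable, vld_tm_fold, List.replicate_succ]
  | neg φ ih =>
    intro r ok
    rw [fmT, List.foldl_cons, vld_step, vld_proper_fm _ _ (by omega) (by omega) (Or.inl rfl)]
    simp [vldAr, arTable, ih]
  | imp φ ψ ih1 ih2 =>
    intro r ok
    rw [fmT, List.foldl_cons, vld_step, vld_proper_fm _ _ (by omega) (by omega) (Or.inl rfl)]
    simp [vldAr, arTable, ih1, ih2, List.replicate_succ]
  | all i φ ih =>
    intro r ok
    rw [fmT, List.foldl_cons, vld_step, vld_proper_fm _ _ (by omega) (by omega) (Or.inr rfl)]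
    simp [vldAr, arTable, ih]

/-! ## From the check to syntax -/

theorem vld_flag (p : List Tk) : ∀ q : List Bool × Bool,
    (p.foldl vStep q).2 = true → q.2 = true := by
  induction p with
  | nil => intro q h; exact h
  | cons t p ih =>
    intro q h
    rw [List.foldl_cons] at h
    have h1 := ih _ h
    unfold vStep at h1
    simp only [Bool.and_eq_true] at h1
    exact h1.1

/-- the token list is a term (`false`) or a formula (`true`) -/
def vldC (b : Bool) (q : List Tk) : Prop :=
  (b = true ∧ ∃ φ : Fm, q = fmT φ) ∨ (b = false ∧ ∃ t : Tm, q = tmT t)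

/-- the statement of the parsing lemma for token lists of length at most `n` -/
def vldP (n : ℕ) : Prop := ∀ (p : List Tk), p.length ≤ n → ∀ (b : Bool) (r : List Bool),
  p.foldl vStep (b :: r, true) = ([], true) →
    ∃ q p' : List Tk, p = q ++ p' ∧ vldC b q ∧ p'.length < p.length ∧
      p'.foldl vStep (r, true) = ([], true)

theorem vld_tm {q : List Tk} (h : vldC false q) : ∃ t : Tm, q = tmT t := by
  rcases h with ⟨h, _⟩ | ⟨_, h⟩
  · exact absurd h (by decide)
  · exact h

theorem vld_fm {q : List Tk} (h : vldC true q) : ∃ φ : Fm, q = fmT φ := by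
  rcases h with ⟨_, h⟩ | ⟨h, _⟩
  · exact h
  · exact absurd h (by decide)

theorem vld_one {n : ℕ} (ih : vldP n) {p : List Tk} (hp : p.length ≤ n) {c : Bool}
    {r : List Bool} (h : p.foldl vStep (List.replicate 1 c ++ r, true) = ([], true)) :
    ∃ q1 p' : List Tk, p = q1 ++ p' ∧ vldC c q1 ∧ p'.length ≤ p.length ∧
      p'.foldl vStep (r, true) = ([], true) := by
  obtain ⟨q, p', h1, h2, h3, h4⟩ := ih p hp c r h
  exact ⟨q, p', h1, h2, h3.le, h4⟩

theorem vld_two {n : ℕ} (ih : vldP n) {p : List Tk} (hp : p.length ≤ n) {c : Bool}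
    {r : List Bool} (h : p.foldl vStep (List.replicate 2 c ++ r, true) = ([], true)) :
    ∃ q1 q2 p' : List Tk, p = (q1 ++ q2) ++ p' ∧ vldC c q1 ∧ vldC c q2 ∧ p'.length ≤ p.length ∧
      p'.foldl vStep (r, true) = ([], true) := by
  obtain ⟨q, p', h1, h2, h3, h4⟩ := ih p hp c (List.replicate 1 c ++ r) h
  obtain ⟨q', p'', h1', h2', h3', h4'⟩ := vld_one ih (by omega) h4
  refine ⟨q, q', p'', ?_, h2, h2', by omega, h4'⟩
  rw [h1, h1', List.append_assoc]

theorem vld_three {n : ℕ} (ih : vldP n) {p : List Tk} (hp : p.length ≤ n) {c : Bool}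
    {r : List Bool} (h : p.foldl vStep (List.replicate 3 c ++ r, true) = ([], true)) :
    ∃ q1 q2 q3 p' : List Tk, p = (q1 ++ (q2 ++ q3)) ++ p' ∧ vldC c q1 ∧ vldC c q2 ∧ vldC c q3 ∧
      p'.length ≤ p.length ∧ p'.foldl vStep (r, true) = ([], true) := by
  obtain ⟨q, p', h1, h2, h3, h4⟩ := ih p hp c (List.replicate 2 c ++ r) h
  obtain ⟨q', q'', p'', h1', h2', h2'', h3', h4'⟩ := vld_two ih (by omega) h4
  refine ⟨q, q', q'', p'', ?_, h2, h2', h2'', by omega, h4'⟩
  rw [h1, h1', List.append_assoc, List.append_assoc, List.append_assoc]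

theorem vld_four {n : ℕ} (ih : vldP n) {p : List Tk} (hp : p.length ≤ n) {c : Bool}
    {r : List Bool} (h : p.foldl vStep (List.replicate 4 c ++ r, true) = ([], true)) :
    ∃ q1 q2 q3 q4 p' : List Tk, p = (q1 ++ (q2 ++ (q3 ++ q4))) ++ p' ∧ vldC c q1 ∧ vldC c q2 ∧
      vldC c q3 ∧ vldC c q4 ∧ p'.length ≤ p.length ∧
      p'.foldl vStep (r, true) = ([], true) := by
  obtain ⟨q, p', h1, h2, h3, h4⟩ := ih p hp c (List.replicate 3 c ++ r) h
  obtain ⟨q', q'', q3, p'', h1', h2', h2'', h2c, h3', h4'⟩ := vld_three ih (by omega) h4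
  refine ⟨q, q', q'', q3, p'', ?_, h2, h2', h2'', h2c, by omega, h4'⟩
  rw [h1, h1']
  simp only [List.append_assoc]

theorem vld_parse (n : ℕ) : vldP n := by
  induction n with
  | zero =>
    intro p hp b r h
    have : p = [] := List.eq_nil_of_length_eq_zero (by omega)
    subst this
    simp at h
  | succ n ih =>
    intro p hp b r h
    rcases p with _ | ⟨t, p⟩
    · simp at h
    rw [vld_tk_eta t] at h ⊢
    generalize t.1.length = k at h ⊢
    generalize t.2.length = i at h ⊢
    rw [List.length_cons] at hp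
    rw [List.foldl_cons, vld_step, Bool.true_and] at h
    have hpr : proper b (tk k i) = true := by
      have := vld_flag p _ (by rw [h])
      exact this
    rw [hpr] at h
    have hn : p.length ≤ n := by omega
    rcases vld_proper_inv b k i hpr with ⟨rfl, h9, h16, hi⟩ | ⟨rfl, h8, hi⟩
    · interval_cases k
      · -- eq
        obtain rfl : i = 0 := by omega
        obtain ⟨q1, q2, p', e, c1, c2, hl, hf⟩ := vld_two (c := false) ih hn h
        obtain ⟨t1, rfl⟩ := vld_tm c1
        obtain ⟨t2, rfl⟩ := vld_tm c2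
        exact ⟨fmT (.eq t1 t2), p', by rw [e]; rfl, Or.inl ⟨rfl, _, rfl⟩,
          by rw [List.length_cons]; omega, hf⟩
      · obtain rfl : i = 0 := by omega
        obtain ⟨q1, q2, p', e, c1, c2, hl, hf⟩ := vld_two (c := false) ih hn h
        obtain ⟨t1, rfl⟩ := vld_tm c1
        obtain ⟨t2, rfl⟩ := vld_tm c2
        exact ⟨fmT (.le t1 t2), p', by rw [e]; rfl, Or.inl ⟨rfl, _, rfl⟩,
          by rw [List.length_cons]; omega, hf⟩
      · obtain rfl : i = 0 := by omega
        obtain ⟨q1, p', e, c1, hl, hf⟩ := vld_one (c := false) ih hn h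
        obtain ⟨t1, rfl⟩ := vld_tm c1
        exact ⟨fmT (.orc t1), p', by rw [e]; rfl, Or.inl ⟨rfl, _, rfl⟩,
          by rw [List.length_cons]; omega, hf⟩
      · obtain rfl : i = 0 := by omega
        obtain ⟨q1, q2, q3, q4, p', e, c1, c2, c3, c4, hl, hf⟩ := vld_four (c := false) ih hn h
        obtain ⟨t1, rfl⟩ := vld_tm c1
        obtain ⟨t2, rfl⟩ := vld_tm c2
        obtain ⟨t3, rfl⟩ := vld_tm c3
        obtain ⟨t4, rfl⟩ := vld_tm c4
        exact ⟨fmT (.tr t1 t2 t3 t4), p', by rw [e]; rfl, Or.inl ⟨rfl, _, rfl⟩,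
          by rw [List.length_cons]; omega, hf⟩
      · obtain rfl : i = 0 := by omega
        obtain ⟨q1, q2, q3, q4, p', e, c1, c2, c3, c4, hl, hf⟩ := vld_four (c := false) ih hn h
        obtain ⟨t1, rfl⟩ := vld_tm c1
        obtain ⟨t2, rfl⟩ := vld_tm c2
        obtain ⟨t3, rfl⟩ := vld_tm c3
        obtain ⟨t4, rfl⟩ := vld_tm c4
        exact ⟨fmT (.prf t1 t2 t3 t4), p', by rw [e]; rfl, Or.inl ⟨rfl, _, rfl⟩,
          by rw [List.length_cons]; omega, hf⟩
      · obtain rfl : i = 0 := by omega
        obtain ⟨q1, p', e, c1, hl, hf⟩ := vld_one (c := true) ih hn h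
        obtain ⟨t1, rfl⟩ := vld_fm c1
        exact ⟨fmT (.neg t1), p', by rw [e]; rfl, Or.inl ⟨rfl, _, rfl⟩,
          by rw [List.length_cons]; omega, hf⟩
      · obtain rfl : i = 0 := by omega
        obtain ⟨q1, q2, p', e, c1, c2, hl, hf⟩ := vld_two (c := true) ih hn h
        obtain ⟨t1, rfl⟩ := vld_fm c1
        obtain ⟨t2, rfl⟩ := vld_fm c2
        exact ⟨fmT (.imp t1 t2), p', by rw [e]; rfl, Or.inl ⟨rfl, _, rfl⟩,
          by rw [List.length_cons]; omega, hf⟩
      · obtain ⟨q1, p', e, c1, hl, hf⟩ := vld_one (c := true) ih hn h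
        obtain ⟨t1, rfl⟩ := vld_fm c1
        exact ⟨fmT (.all i t1), p', by rw [e]; rfl, Or.inl ⟨rfl, _, rfl⟩,
          by rw [List.length_cons]; omega, hf⟩
    · interval_cases k
      · exact ⟨tmT (.var i), p, rfl, Or.inr ⟨rfl, _, rfl⟩,
          by rw [List.length_cons]; omega, h⟩
      · obtain rfl : i = 0 := by omega
        exact ⟨tmT .zero, p, rfl, Or.inr ⟨rfl, _, rfl⟩,
          by rw [List.length_cons]; omega, h⟩
      · obtain rfl : i = 0 := by omega
        obtain ⟨q1, p', e, c1, hl, hf⟩ := vld_one (c := false) ih hn h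
        obtain ⟨t1, rfl⟩ := vld_tm c1
        exact ⟨tmT (.succ t1), p', by rw [e]; rfl, Or.inr ⟨rfl, _, rfl⟩,
          by rw [List.length_cons]; omega, hf⟩
      · obtain rfl : i = 0 := by omega
        obtain ⟨q1, p', e, c1, hl, hf⟩ := vld_one (c := false) ih hn h
        obtain ⟨t1, rfl⟩ := vld_tm c1
        exact ⟨tmT (.half t1), p', by rw [e]; rfl, Or.inr ⟨rfl, _, rfl⟩,
          by rw [List.length_cons]; omega, hf⟩
      · obtain rfl : i = 0 := by omega
        obtain ⟨q1, p', e, c1, hl, hf⟩ := vld_one (c := false) ih hn h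
        obtain ⟨t1, rfl⟩ := vld_tm c1
        exact ⟨tmT (.len t1), p', by rw [e]; rfl, Or.inr ⟨rfl, _, rfl⟩,
          by rw [List.length_cons]; omega, hf⟩
      · obtain rfl : i = 0 := by omega
        obtain ⟨q1, q2, p', e, c1, c2, hl, hf⟩ := vld_two (c := false) ih hn h
        obtain ⟨t1, rfl⟩ := vld_tm c1
        obtain ⟨t2, rfl⟩ := vld_tm c2
        exact ⟨tmT (.add t1 t2), p', by rw [e]; rfl, Or.inr ⟨rfl, _, rfl⟩,
          by rw [List.length_cons]; omega, hf⟩
      · obtain rfl : i = 0 := by omega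
        obtain ⟨q1, q2, p', e, c1, c2, hl, hf⟩ := vld_two (c := false) ih hn h
        obtain ⟨t1, rfl⟩ := vld_tm c1
        obtain ⟨t2, rfl⟩ := vld_tm c2
        exact ⟨tmT (.mul t1 t2), p', by rw [e]; rfl, Or.inr ⟨rfl, _, rfl⟩,
          by rw [List.length_cons]; omega, hf⟩
      · obtain rfl : i = 0 := by omega
        obtain ⟨q1, q2, p', e, c1, c2, hl, hf⟩ := vld_two (c := false) ih hn h
        obtain ⟨t1, rfl⟩ := vld_tm c1
        obtain ⟨t2, rfl⟩ := vld_tm c2
        exact ⟨tmT (.smash t1 t2), p', by rw [e]; rfl, Or.inr ⟨rfl, _, rfl⟩,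
          by rw [List.length_cons]; omega, hf⟩
      · obtain rfl : i = 0 := by omega
        obtain ⟨q1, q2, q3, p', e, c1, c2, c3, hl, hf⟩ := vld_three (c := false) ih hn h
        obtain ⟨t1, rfl⟩ := vld_tm c1
        obtain ⟨t2, rfl⟩ := vld_tm c2
        obtain ⟨t3, rfl⟩ := vld_tm c3
        exact ⟨tmT (.sbn t1 t2 t3), p', by rw [e]; rfl, Or.inr ⟨rfl, _, rfl⟩,
          by rw [List.length_cons]; omega, hf⟩

/-- an empty stack stays empty only for the empty list -/
theorem vld_nil {p : List Tk} (h : p.foldl vStep ([], true) = ([], true)) : p = [] := by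
  rcases p with _ | ⟨t, p⟩
  · rfl
  · exfalso
    rw [List.foldl_cons] at h
    have := vld_flag p (vStep ([], true) t) (by rw [h])
    simp [vStep] at this

theorem vld_main (b : Bool) (p : List Tk) : validT b p = true ↔ vldC b p := by
  constructor
  · intro h
    unfold validT at h
    rw [Bool.and_eq_true, List.isEmpty_iff] at h
    have hf : p.foldl vStep ([b], true) = ([], true) := Prod.ext h.1 h.2
    obtain ⟨q, p', e, c, -, hf'⟩ := vld_parse p.length p le_rfl b [] hf
    rw [vld_nil hf', List.append_nil] at e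
    rw [e]
    exact c
  · rintro (⟨rfl, φ, rfl⟩ | ⟨rfl, t, rfl⟩)
    · unfold validT
      rw [vld_fm_fold]
      rfl
    · unfold validT
      rw [vld_tm_fold]
      rfl

theorem validT_fm (p : List Tk) : validT true p = true ↔ ∃ φ : Fm, p = fmT φ := by
  rw [vld_main]
  constructor
  · exact vld_fm
  · intro h
    exact Or.inl ⟨rfl, h⟩

theorem validT_tm (p : List Tk) : validT false p = true ↔ ∃ t : Tm, p = tmT t := by
  rw [vld_main]
  constructor
  · exact vld_tm
  · intro h
    exact Or.inr ⟨rfl, h⟩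

end Pool.Agent.RO
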