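import Pool.Agent.Lib_helper78.RF.F.FNA
import Pool.Agent.Lib_helper78.RF.F.FNB
import Pool.Agent.Lib_helper78.RO.Defs
import Pool.Agent.Lib_helper78.RO.F.ENB
import Pool.Agent.Lib_helper78.RO.F.LGA
import Pool.Agent.Lib_helper78.RO.F.TDC
import Pool.Agent.Lib_helper78.RO.F.VLD

/-!
# Random oracles (MP_5c38ab_lc): block LGB (certificate lines of the logical axioms)
-/

set_option autoImplicit false

namespace Pool.Agent.RO

open Pool.Agent.CK Pool.Agent.RF Pool.Agent.CKP

/-- the line of an instance of a schema -/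
def lgbL (k i : ℕ) (α β δ : Fm) (a b : Tm) : Line :=
  (List.replicate k (), [], List.replicate i (), [fmT α, fmT β, fmT δ, tmT a, tmT b])

theorem lgb_units (n : ℕ) : sz (List.replicate n ()) = 2 * n + 1 := size_units n

theorem lgb_sz (k i : ℕ) (α β δ : Fm) (a b : Tm) : sz (lgbL k i α β δ a b) ≤
    2 * k + 2 * i + 24 * (α.enc.length + β.enc.length + δ.enc.length) +
      4 * (a.enc.length + b.enc.length) + 30 := by
  have h1 := fmT_sz α
  have h2 := fmT_sz β
  have h3 := fmT_sz δ
  have h4 := tmT_sz a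
  have h5 := tmT_sz b
  have h6 := lgb_units k
  have h7 := lgb_units i
  unfold lgbL
  simp only [sz_pair, sz_cons, sz_nil]
  omega

theorem lgb_pieces (k i : ℕ) (α β δ : Fm) (a b : Tm) : piecesOK (lgbL k i α β δ a b) = true := by
  have h1 : validT true (fmT α) = true := (validT_fm _).mpr ⟨α, rfl⟩
  have h2 : validT true (fmT β) = true := (validT_fm _).mpr ⟨β, rfl⟩
  have h3 : validT true (fmT δ) = true := (validT_fm _).mpr ⟨δ, rfl⟩
  have h4 : validT false (tmT a) = true := (validT_tm _).mpr ⟨a, rfl⟩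
  have h5 : validT false (tmT b) = true := (validT_tm _).mpr ⟨b, rfl⟩
  show (validT true (fmT α) && (validT true (fmT β) && (validT true (fmT δ) &&
    (validT false (tmT a) && validT false (tmT b))))) = true
  rw [h1, h2, h3, h4, h5]
  rfl

/-- default formula -/
def lgbF : Fm := .eq .zero .zero

theorem lgbF_len : lgbF.enc.length = 5 := rfl
theorem lgb_zero_len : Tm.zero.enc.length = 2 := rfl

theorem lgb_imp_len (φ ψ : Fm) : (Fm.imp φ ψ).enc.length = 7 + φ.enc.length + ψ.enc.length := by
  simp only [Fm.enc, tag, List.length_append, List.length_replicate, List.length_singleton]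
  omega

theorem lgb_all_len (i : ℕ) (φ : Fm) : (Fm.all i φ).enc.length = 9 + i + φ.enc.length := by
  simp only [Fm.enc, tag, List.length_append, List.length_replicate, List.length_singleton]
  omega

theorem lgb_eq_len (s t : Tm) : (Fm.eq s t).enc.length = 1 + s.enc.length + t.enc.length := by
  simp only [Fm.enc, tag, List.length_append, List.length_replicate, List.length_singleton]
  omega

theorem lgb_neg_len (φ : Fm) : (Fm.neg φ).enc.length = 6 + φ.enc.length := by
  simp only [Fm.enc, tag, List.length_append, List.length_replicate, List.length_singleton]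

theorem lgb_k {k : ℕ} (hk : 2 ≤ k) (i : ℕ) (α β δ : Fm) (a b : Tm) :
    2 ≤ (lgbL k i α β δ a b).1.length := by
  show 2 ≤ (List.replicate k ()).length
  rw [List.length_replicate]
  exact hk

/-- the size bound for the Leibniz axioms -/
theorem lgb_arith (n r A : ℕ) (hr : 16 ≤ r) (hA : n + r ≤ A) : n * n + 32 * n + 16 * r ≤ A ^ 2 := by
  have h1 : (n + r) ^ 2 ≤ A ^ 2 := Nat.pow_le_pow_left hA 2
  have h2 : (n + r) ^ 2 = n * n + 2 * (n * r) + r * r := by ring
  have h3 : n * 16 ≤ n * r := Nat.mul_le_mul_left n hr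
  have h4 : 16 * r ≤ r * r := Nat.mul_le_mul_right r hr
  omega

theorem lgb_strong {χ : Fm} (h : Logical χ) :
    ∃ L : Line, 2 ≤ L.1.length ∧ lineF L = fmT χ ∧ sz L ≤ 900 * (χ.enc.length + 1) ^ 2 ∧
      ∀ (O : Lang) (c : D) (N : List Unit) (seen : List (List Tk)),
        lineOK O c N seen L = true := by
  have hz := lgb_zero_len
  have hF := lgbF_len
  induction h with
  | k φ ψ =>
    refine ⟨lgbL 2 0 φ ψ lgbF .zero .zero, lgb_k le_rfl .., rfl, ?_, fun O c N seen => ?_⟩
    · have h1 := lgb_sz 2 0 φ ψ lgbF .zero .zero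
      rw [lgb_imp_len, lgb_imp_len]
      nlinarith
    · unfold lineOK
      rw [lgb_pieces]
      rfl
  | s φ ψ χ =>
    refine ⟨lgbL 3 0 φ ψ χ .zero .zero, lgb_k (by decide) .., rfl, ?_, fun O c N seen => ?_⟩
    · have h1 := lgb_sz 3 0 φ ψ χ .zero .zero
      simp only [lgb_imp_len]
      nlinarith
    · unfold lineOK
      rw [lgb_pieces]
      rfl
  | c φ ψ =>
    refine ⟨lgbL 4 0 φ ψ lgbF .zero .zero, lgb_k (by decide) .., rfl, ?_, fun O c N seen => ?_⟩
    · have h1 := lgb_sz 4 0 φ ψ lgbF .zero .zero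
      simp only [lgb_imp_len, lgb_neg_len]
      nlinarith
    · unfold lineOK
      rw [lgb_pieces]
      rfl
  | inst i φ a h =>
    obtain ⟨a', h1, h2, h3⟩ := inst_small h
    refine ⟨lgbL 5 i φ lgbF lgbF a' .zero, lgb_k (by decide) .., ?_, ?_, fun O c N seen => ?_⟩
    · show impK (allK (List.replicate i ()) (fmT φ)) (sbT (List.replicate i ()) (tmT a') (fmT φ))
        = _
      rw [sbT_fm, h2]
      rfl
    · have h4 := lgb_sz 5 i φ lgbF lgbF a' .zero
      simp only [lgb_imp_len, lgb_all_len]
      nlinarith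
    · unfold lineOK
      rw [lgb_pieces]
      exact (okT_fm i a' φ).mpr h1
  | dist i φ ψ =>
    refine ⟨lgbL 6 i φ ψ lgbF .zero .zero, lgb_k (by decide) .., rfl, ?_, fun O c N seen => ?_⟩
    · have h1 := lgb_sz 6 i φ ψ lgbF .zero .zero
      simp only [lgb_imp_len, lgb_all_len]
      nlinarith
    · unfold lineOK
      rw [lgb_pieces]
      rfl
  | vac i φ h =>
    refine ⟨lgbL 7 i φ lgbF lgbF .zero .zero, lgb_k (by decide) .., rfl, ?_, fun O c N seen => ?_⟩
    · have h1 := lgb_sz 7 i φ lgbF lgbF .zero .zero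
      simp only [lgb_imp_len, lgb_all_len]
      nlinarith
    · unfold lineOK
      rw [lgb_pieces]
      have h2 : frT (List.replicate i ()) (fmT φ) = false := by
        rw [← Bool.not_eq_true, frT_fm]
        exact h
      show (true && !frT (List.replicate i ()) (fmT φ)) = true
      rw [h2]
      rfl
  | refl t =>
    refine ⟨lgbL 8 0 lgbF lgbF lgbF t .zero, lgb_k (by decide) .., rfl, ?_, fun O c N seen => ?_⟩
    · have h1 := lgb_sz 8 0 lgbF lgbF lgbF t .zero
      simp only [lgb_eq_len]
      nlinarith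
    · unfold lineOK
      rw [lgb_pieces]
      rfl
  | leib i φ s t h =>
    obtain ⟨i', φ', h1, h2, h3, h4, h5⟩ := leib_small i s t h
    refine ⟨lgbL 9 i' φ' lgbF lgbF s t, lgb_k (by decide) .., ?_, ?_, fun O c N seen => ?_⟩
    · show impK (eqK (tmT s) (tmT t)) (impK (sbT (List.replicate i' ()) (tmT s) (fmT φ'))
        (sbT (List.replicate i' ()) (tmT t) (fmT φ'))) = _
      rw [sbT_fm, sbT_fm, h2, h3]
      rfl
    · have h6 := lgb_sz 9 i' φ' lgbF lgbF s t
      simp only [lgb_imp_len, lgb_eq_len]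
      have h7 := lgb_arith (φ.sb i s).enc.length (s.enc.length + t.enc.length + 16)
        (7 + (1 + s.enc.length + t.enc.length) +
          (7 + (φ.sb i s).enc.length + (φ.sb i t).enc.length) + 1) (by omega) (by omega)
      have h8 : ((φ.sb i s).enc.length + 1) * ((φ.sb i s).enc.length + 4) =
        (φ.sb i s).enc.length * (φ.sb i s).enc.length + 5 * (φ.sb i s).enc.length + 4 := by ring
      omega
    · unfold lineOK
      rw [lgb_pieces]
      exact (atomT_fm φ').mpr h1
  | gen i φ h ih =>
    obtain ⟨L, h1, h2, h3, h4⟩ := ih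
    refine ⟨(L.1, List.replicate i () :: L.2.1, L.2.2), h1, ?_, ?_, fun O c N seen => ?_⟩
    · have h5 : decide (2 ≤ L.1.length) = true := decide_eq_true h1
      have h6 : L.2.1.map (fun i => (List.replicate 16 (), i)) ++ schT L = fmT φ := by
        rw [← h2]
        unfold lineF
        rw [if_pos h5]
      show (if decide (2 ≤ L.1.length) = true then
        (List.replicate i () :: L.2.1).map (fun i => (List.replicate 16 (), i)) ++ schT L
          else pc L 0) = _
      rw [if_pos h5, List.map_cons, List.cons_append, h6]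
      rfl
    · have h5 := lgb_units i
      have h6 : sz ((L.1, List.replicate i () :: L.2.1, L.2.2) : Line) =
          sz L.1 + ((sz (List.replicate i ()) + sz L.2.1 + 1) + sz L.2.2 + 1) + 1 := rfl
      have h7 : sz L = sz L.1 + (sz L.2.1 + sz L.2.2 + 1) + 1 := rfl
      rw [lgb_all_len]
      have h8 : (9 + i + φ.enc.length + 1) ^ 2 = (φ.enc.length + 1) ^ 2 +
        (i + 9) * (2 * (φ.enc.length + 1) + (i + 9)) := by ring
      have h9 : (i + 9) * 1 ≤ (i + 9) * (2 * (φ.enc.length + 1) + (i + 9)) :=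
        Nat.mul_le_mul_left _ (by omega)
      omega
    · exact h4 O c N seen

theorem logical_line {χ : Fm} (h : Logical χ) :
    ∃ L : Line, lineF L = fmT χ ∧ sz L ≤ 900 * (χ.enc.length + 1) ^ 2 ∧
      ∀ (O : Lang) (c : D) (N : List Unit) (seen : List (List Tk)),
        lineOK O c N seen L = true := by
  obtain ⟨L, -, h2, h3, h4⟩ := lgb_strong h
  exact ⟨L, h2, h3, h4⟩


end Pool.Agent.RO
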