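import Pool.Agent.Lib_helper78.RF.F.FNA
import Pool.Agent.Lib_helper78.RF.F.FNB
import Pool.Agent.Lib_helper78.RO.Defs
import Pool.Agent.Lib_helper78.RO.F.ENB
import Pool.Agent.Lib_helper78.RO.F.EQT
import Pool.Agent.Lib_helper78.RO.F.LGB
import Pool.Agent.Lib_helper78.RO.F.VLD

set_option autoImplicit false

namespace Pool.Agent.RO

open Pool.Agent.CK Pool.Agent.RF Pool.Agent.CKP

variable {O : Lang} {γ : Type} [ToD γ]

/-- the formulas seen by the checker -/
theorem cmp_fold (c : D) (N : List Unit) (cert : List Line) :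
    (cert.foldl (chkStep O c N) ([], true)).1 = (cert.map lineF).reverse := by
  induction cert using List.reverseRecOn with
  | nil => rfl
  | append_singleton l a ih =>
    rw [List.foldl_append]
    show lineF a :: (l.foldl (chkStep O c N) ([], true)).1 = _
    rw [ih]
    simp

theorem cmp_sz_snoc {α : Type} [ToD α] (l : List α) (a : α) :
    sz (l ++ [a]) = sz l + sz a + 1 := by
  induction l with
  | nil => simp; omega
  | cons b l ih => rw [List.cons_append, sz_cons, sz_cons, ih]; omega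

theorem cmp_tag_pos (k : ℕ) : 1 ≤ (tag k).length := by
  unfold tag
  simp

theorem cmp_enc_pos (φ : Fm) : 1 ≤ φ.enc.length := by
  cases φ <;> simp only [Fm.enc, List.length_append] <;> have := cmp_tag_pos
  · have := cmp_tag_pos 0; omega
  · have := cmp_tag_pos 1; omega
  · have := cmp_tag_pos 2; omega
  · have := cmp_tag_pos 3; omega
  · have := cmp_tag_pos 4; omega
  · have := cmp_tag_pos 5; omega
  · have := cmp_tag_pos 6; omega
  · have := cmp_tag_pos 7; omega

theorem cmp_proof_snoc {A : Fm → Prop} {l : List Fm} {φ : Fm} (h : IsProof A (l ++ [φ])) :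
    IsProof A l ∧ (Logical φ ∨ A φ ∨ ∃ ψ ∈ l, Fm.imp ψ φ ∈ l) := by
  constructor
  · intro i χ hi
    have hlt : i < l.length := (List.getElem?_eq_some_iff.mp hi).1
    rcases h i χ (by rw [List.getElem?_append_left hlt]; exact hi) with h1 | h1 |
      ⟨j, k, ψ, hj, hk, h2, h3⟩
    · exact Or.inl h1
    · exact Or.inr (Or.inl h1)
    · refine Or.inr (Or.inr ⟨j, k, ψ, hj, hk, ?_, ?_⟩)
      · rw [List.getElem?_append_left (by omega)] at h2
        exact h2
      · rw [List.getElem?_append_left (by omega)] at h3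
        exact h3
  · rcases h l.length φ (by simp) with h1 | h1 | ⟨j, k, ψ, hj, hk, h2, h3⟩
    · exact Or.inl h1
    · exact Or.inr (Or.inl h1)
    · rw [List.getElem?_append_left (by omega)] at h2 h3
      exact Or.inr (Or.inr ⟨ψ, List.mem_of_getElem? h2, List.mem_of_getElem? h3⟩)

/-- the line of an axiom or of a modus ponens -/
def cmpL (k : ℕ) (φ : Fm) : Line :=
  (List.replicate k (), [], [], [fmT φ, fmT (.eq .zero .zero), fmT (.eq .zero .zero),
    tmT .zero, tmT .zero])

theorem cmpL_pieces (k : ℕ) (φ : Fm) : piecesOK (cmpL k φ) = true := by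
  unfold piecesOK
  simp only [Bool.and_eq_true]
  exact ⟨(validT_fm _).2 ⟨_, rfl⟩, (validT_fm _).2 ⟨_, rfl⟩, (validT_fm _).2 ⟨_, rfl⟩,
    (validT_tm _).2 ⟨_, rfl⟩, (validT_tm _).2 ⟨_, rfl⟩⟩

theorem cmpL_F {k : ℕ} (hk : k < 2) (φ : Fm) : lineF (cmpL k φ) = fmT φ := by
  unfold lineF
  rw [if_neg]
  · rfl
  · simp [cmpL]
    omega

theorem cmpL_sz {k : ℕ} (hk : k < 2) (φ : Fm) :
    sz (cmpL k φ) ≤ 900 * (φ.enc.length + 1) ^ 2 := by
  have h1 := fmT_sz φ
  have h2 := fmT_sz (.eq .zero .zero)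
  have h3 := tmT_sz .zero
  have h4 : (Fm.eq .zero .zero).enc.length = 5 := by decide
  have h5 : (Tm.zero).enc.length = 2 := by decide
  have h6 : sz (List.replicate k ()) ≤ 3 := by
    interval_cases k <;> simp [sz, toD, listD, D.size]
  rw [h4] at h2
  rw [h5] at h3
  have h7 : sz (cmpL k φ) = sz (List.replicate k ()) + (1 + (1 + (sz (fmT φ) +
      (sz (fmT (.eq .zero .zero)) + (sz (fmT (.eq .zero .zero)) + (sz (tmT .zero) +
        (sz (tmT .zero) + 1 + 1) + 1) + 1) + 1) + 1) + 1) + 1) + 1 := by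
    unfold cmpL
    simp only [sz_pair, sz_cons, sz_nil]
  rw [h7]
  have h8 := cmp_enc_pos φ
  have h9 : 900 * (φ.enc.length + 1) ^ 2 ≥ 900 * (2 * (φ.enc.length + 1)) := by
    apply Nat.mul_le_mul_left
    nlinarith
  omega

theorem cmp_line {c : Cmd} {N : List Unit} {l : List Fm} {φ : Fm}
    (h : Logical φ ∨ Accepts O c φ.enc [] N.length ∨ ∃ ψ ∈ l, Fm.imp ψ φ ∈ l) :
    ∃ L : Line, lineF L = fmT φ ∧ sz L ≤ 900 * (φ.enc.length + 1) ^ 2 ∧
      lineOK O (cmdD c) N (l.map fmT).reverse L = true := by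
  rcases h with h | h | ⟨ψ, h1, h2⟩
  · obtain ⟨L, h1, h2, h3⟩ := logical_line h
    exact ⟨L, h1, h2, h3 _ _ _ _⟩
  · refine ⟨cmpL 0 φ, cmpL_F (by omega) φ, cmpL_sz (by omega) φ, ?_⟩
    unfold lineOK
    rw [cmpL_pieces, Bool.true_and]
    show accU O (cmdD c) (encT (fmT φ)) [] N = true
    rw [accU_iff, encT_fm]
    exact h
  · refine ⟨cmpL 1 φ, cmpL_F (by omega) φ, cmpL_sz (by omega) φ, ?_⟩
    unfold lineOK
    rw [cmpL_pieces, Bool.true_and]
    show ((l.map fmT).reverse.any fun ψ' => (l.map fmT).reverse.any fun χ =>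
      eqT χ (impK ψ' (fmT φ))) = true
    simp only [List.any_eq_true, List.mem_reverse, List.mem_map]
    exact ⟨_, ⟨ψ, h1, rfl⟩, _, ⟨_, h2, rfl⟩, (eqT_tks _ _).2 rfl⟩

theorem cmp_list {c : Cmd} {N : List Unit} (l : List Fm)
    (h : IsProof (fun σ => Accepts O c σ.enc [] N.length) l) :
    ∃ cert : List Line, cert.map lineF = l.map fmT ∧
      (cert.foldl (chkStep O (cmdD c) N) ([], true)).2 = true ∧
      sz cert ≤ 1 + 3601 * (pEnc l).length ^ 2 := by
  induction l using List.reverseRecOn with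
  | nil => exact ⟨[], rfl, rfl, by simp⟩
  | append_singleton l φ ih =>
    obtain ⟨h1, h2⟩ := cmp_proof_snoc h
    obtain ⟨cert, h3, h4, h5⟩ := ih h1
    obtain ⟨L, h6, h7, h8⟩ := cmp_line h2
    refine ⟨cert ++ [L], ?_, ?_, ?_⟩
    · rw [List.map_append, List.map_append, h3, List.map_singleton, List.map_singleton, h6]
    · rw [List.foldl_append]
      show ((cert.foldl (chkStep O (cmdD c) N) ([], true)).2 &&
        lineOK O (cmdD c) N (cert.foldl (chkStep O (cmdD c) N) ([], true)).1 L) = true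
      rw [h4, cmp_fold, h3, h8]
      rfl
    · rw [cmp_sz_snoc]
      have h9 : (pEnc (l ++ [φ])).length = (pEnc l).length + φ.enc.length := by
        unfold pEnc
        simp
      rw [h9]
      have h10 := cmp_enc_pos φ
      nlinarith [Nat.zero_le ((pEnc l).length * φ.enc.length), h5, h7, h10]

theorem chk_complete {c : Cmd} {N : List Unit} {l : List Fm} {φ : Fm}
    (h : IsProof (fun σ => Accepts O c σ.enc [] N.length) (l ++ [φ])) :
    ∃ cert : List Line, cert.map lineF = (l ++ [φ]).map fmT ∧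
      chk O (cmdD c) N cert (fmT φ) = true ∧
      sz cert ≤ 1000 * ((pEnc (l ++ [φ])).length + 1) ^ 3 := by
  obtain ⟨cert, h1, h2, h3⟩ := cmp_list (l ++ [φ]) h
  refine ⟨cert, h1, ?_, ?_⟩
  · unfold chk
    rw [h2, Bool.true_and, eqT_tks, cmp_fold, h1]
    simp
  · refine h3.trans ?_
    obtain ⟨P, hP⟩ : ∃ P, P = (pEnc (l ++ [φ])).length := ⟨_, rfl⟩
    rw [← hP]
    clear hP h3 h2 h1 h
    have h5 : 3601 * P ^ 2 ≤ 1000 * P ^ 3 + 3000 * P ^ 2 + 3000 * P := by
      rcases P with _ | P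
      · decide
      · nlinarith [Nat.zero_le (P ^ 3), Nat.zero_le (P ^ 2), Nat.zero_le P]
    nlinarith [h5]

end Pool.Agent.RO
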