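import Pool.Agent.Lib_helper78.RF.F.FNA
import Pool.Agent.Lib_helper78.RF.F.FNB
import Pool.Agent.Lib_helper78.RO.Defs
import Pool.Agent.Lib_helper78.RO.F.STR

/-! Block RFT: special formulas as token lists -/

set_option autoImplicit false

namespace Pool.Agent.RO

open Pool.Agent.CK Pool.Agent.RF Pool.Agent.CKP

theorem rft_num_odd (v : ℕ) : num (2 * v + 1) =
    Tm.succ (Tm.mul (Tm.succ (Tm.succ Tm.zero)) (num v)) := by
  rw [num]
  rw [if_pos (by omega), show 2 * v / 2 = v by omega]

theorem rft_num_even (v : ℕ) : num (2 * v + 2) =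
    Tm.succ (Tm.succ (Tm.mul (Tm.succ (Tm.succ Tm.zero)) (num v))) := by
  rw [show 2 * v + 2 = (2 * v + 1) + 1 by ring, num]
  rw [if_neg (by omega), show (2 * v + 1) / 2 = v by omega]

theorem numT_eq (y : List Bool) : numT y = tmT (num (val y)) := by
  induction y with
  | nil =>
    unfold numT val
    rw [num]
    rfl
  | cons b l ih =>
    have h : numT (b :: l) = (if b = true then [tk 2 0, tk 2 0, tk 6 0, tk 2 0, tk 2 0, tk 1 0]
      else [tk 2 0, tk 6 0, tk 2 0, tk 2 0, tk 1 0]) ++ numT l := by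
      unfold numT
      rw [List.flatMap_cons, List.append_assoc]
    rw [h, ih]
    cases b
    · have e : val (false :: l) = 2 * val l + 1 := rfl
      rw [e, rft_num_odd]
      rfl
    · have e : val (true :: l) = 2 * val l + 2 := rfl
      rw [e, rft_num_even]
      rfl

theorem muT_eq (e x z : Tm) : muT (tmT e) (tmT x) (tmT z) = fmT (mu e x z) := rfl

theorem clkT_eq (k : ℕ) (t : Tm) : clkT (List.replicate k ()) (tmT t) = tmT (clk k t) := by
  induction k with
  | zero => rfl
  | succ k ih =>
    have h : clkT (List.replicate (k + 1) ()) (tmT t) =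
        tk 7 0 :: (clkT (List.replicate k ()) (tmT t) ++ ([tk 2 0, tk 6 0, tk 2 0, tk 2 0, tk 1 0,
          tk 2 0, tk 6 0, tk 2 0, tk 2 0, tk 1 0] ++ tmT t)) := by
      unfold clkT
      rw [List.replicate_succ', List.foldl_append]
      rfl
    rw [h, ih]
    rfl

theorem rft_prT (T : Th) (u v : Tm) : prT (cEnc T.1) (List.replicate T.2 ()) (tmT u) (tmT v) =
    fmT (Pr T u v) := by
  unfold prT RF.Pr
  rw [numT_eq, clkT_eq]
  rfl

theorem rft_lenLe (i : ℕ) (nn : List Bool) : lenLe i nn =
    fmT (Fm.le (Tm.len (Tm.var i)) (num (val nn))) := by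
  unfold lenLe
  rw [numT_eq]
  rfl

theorem rfnT_eq (T : Th) (nn : List Bool) :
    rfnT (cEnc T.1) (List.replicate T.2 ()) nn = fmT (RFN T (val nn)) := by
  unfold rfnT RFN
  have h1 := rft_prT T (Tm.var 1) (Tm.sbn (Tm.var 0) (Tm.var 2) (Tm.var 3))
  have h2 : prT (cEnc T.1) (List.replicate T.2 ()) [tk 0 1] [tk 8 0, tk 0 0, tk 0 2, tk 0 3] =
      fmT (Pr T (Tm.var 1) (Tm.sbn (Tm.var 0) (Tm.var 2) (Tm.var 3))) := h1
  have h3 : muT [tk 0 0] [tk 0 2] [tk 0 3] = fmT (mu (Tm.var 0) (Tm.var 2) (Tm.var 3)) := rfl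
  rw [h2, h3, rft_lenLe, rft_lenLe, rft_lenLe, rft_lenLe]
  rfl

theorem conT_eq (T : Th) (nn : List Bool) :
    conT (cEnc T.1) (List.replicate T.2 ()) nn = fmT (Con T (val nn)) := by
  unfold conT RF.Con
  have h1 := rft_prT T (Tm.var 1) (num (val falsum.enc))
  rw [← numT_eq] at h1
  have h2 : prT (cEnc T.1) (List.replicate T.2 ()) [tk 0 1] (numT falsum.enc) =
      fmT (Pr T (Tm.var 1) (num (val falsum.enc))) := h1
  rw [h2, rft_lenLe]
  rfl

theorem rft_val (n : ℕ) : val (List.replicate n true) + 2 = 2 ^ (n + 1) := by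
  induction n with
  | zero => rfl
  | succ n ih =>
    rw [List.replicate_succ]
    have e : val (true :: List.replicate n true) = 2 * val (List.replicate n true) + 2 := rfl
    rw [e, pow_succ]
    omega

theorem rft_map {α : Type} (l : List α) (b : Bool) :
    l.map (fun _ => b) = List.replicate l.length b := List.map_const'

theorem nnS_val (a : List Unit) : val (nnS a) = 2 ^ (3 * a.length + 13) - 2 := by
  unfold nnS
  rw [rft_map]
  have h := rft_val (a ++ (a ++ (a ++ List.replicate 12 ()))).length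
  have h2 : (a ++ (a ++ (a ++ List.replicate 12 ()))).length = 3 * a.length + 12 := by
    simp only [List.length_append, List.length_replicate]
    omega
  rw [h2] at h ⊢
  rw [show 3 * a.length + 13 = 3 * a.length + 12 + 1 by ring]
  omega

theorem twT_eq (w : List Bool) (t : Tm) : twT w (tmT t) = tmT (twF w t) := by
  induction w with
  | nil => rfl
  | cons b l ih =>
    have h : twT (b :: l) (tmT t) = (if b = true then [tk 2 0, tk 2 0, tk 6 0, tk 2 0, tk 2 0, tk 1 0]
      else [tk 2 0, tk 6 0, tk 2 0, tk 2 0, tk 1 0]) ++ twT l (tmT t) := by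
      unfold twT
      rw [List.flatMap_cons, List.append_assoc]
    rw [h, ih]
    cases b <;> rfl

theorem rft_chT (W : List (List Bool)) : chT W = fmT (chF W) := by
  induction W with
  | nil => rfl
  | cons w W ih =>
    have h : chT (w :: W) = impK (tk 11 0 :: twT (true :: w) [tk 0 5]) (chT W) := rfl
    have h2 : twT (true :: w) [tk 0 5] = tmT (twF (true :: w) (.var 5)) :=
      twT_eq (true :: w) (.var 5)
    rw [h, ih, h2]
    rfl

theorem rft_cutlen (l j : ℕ) (b : Bool) :
    (udrop (List.replicate j ()) (upTo (List.replicate l ()))).map (fun _ => b) =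
      List.replicate (2 ^ (l + 1) - 1 - j) b := by
  rw [rft_map, udrop_eq, List.length_drop, upTo_length, List.length_replicate,
    List.length_replicate]

theorem thT_eq {l j : ℕ} : thT (List.replicate l ()) (List.replicate j ()) = fmT (thF l j) := by
  unfold thT thF
  rw [rft_cutlen, rft_cutlen, numT_eq, numT_eq, rft_chT]
  rfl

end Pool.Agent.RO
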