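import Pool.Agent.Lib_helper78.RF.F.FNA
import Pool.Agent.Lib_helper78.RF.F.FNB
import Pool.Agent.Lib_helper78.RO.Defs
import Pool.Agent.Lib_helper78.RO.F.ENB
import Pool.Agent.Lib_helper78.RO.F.EQT
import Pool.Agent.Lib_helper78.RO.F.TDC
import Pool.Agent.Lib_helper78.RO.F.VLD

set_option autoImplicit false

namespace Pool.Agent.RO

open Pool.Agent.CK Pool.Agent.RF Pool.Agent.CKP

variable {O : Lang} {γ : Type} [ToD γ]

theorem snd_unit (i : List Unit) : i = List.replicate i.length () := by
  rw [List.eq_replicate_iff]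
  exact ⟨rfl, fun _ _ => rfl⟩

/-- the formulas seen by the checker -/
theorem snd_fold (c : D) (N : List Unit) (cert : List Line) :
    (cert.foldl (chkStep O c N) ([], true)).1 = (cert.map lineF).reverse := by
  induction cert using List.reverseRecOn with
  | nil => rfl
  | append_singleton l a ih =>
    rw [List.foldl_append]
    show lineF a :: (l.foldl (chkStep O c N) ([], true)).1 = _
    rw [ih]
    simp

/-- generalizations -/
theorem snd_gen (pre : List (List Unit)) {p : List Tk} {φ : Fm} (hp : p = fmT φ)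
    (hφ : Logical φ) : ∃ φ' : Fm, pre.map (fun i => (List.replicate 16 (), i)) ++ p = fmT φ' ∧
      Logical φ' := by
  induction pre with
  | nil => exact ⟨φ, by simpa using hp, hφ⟩
  | cons i pre ih =>
    obtain ⟨φ', h1, h2⟩ := ih
    refine ⟨.all i.length φ', ?_, Logical.gen _ _ h2⟩
    rw [List.map_cons, List.cons_append, h1]
    show _ = tk 16 i.length :: fmT φ'
    unfold tk
    rw [← snd_unit i]

/-- the formula of a correct line -/
theorem snd_line {c : Cmd} {N : List Unit} {l : List Fm} {L : Line}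
    (h : lineOK O (cmdD c) N (l.map fmT).reverse L = true) :
    ∃ φ : Fm, lineF L = fmT φ ∧ (Logical φ ∨ Accepts O c φ.enc [] N.length ∨
      ∃ ψ ∈ l, Fm.imp ψ φ ∈ l) := by
  obtain ⟨k, pre, iu, ps⟩ := L
  unfold lineOK at h
  rw [Bool.and_eq_true] at h
  obtain ⟨hp, h⟩ := h
  unfold piecesOK at hp
  simp only [Bool.and_eq_true] at hp
  obtain ⟨h0, h1, h2, h3, h4⟩ := hp
  obtain ⟨α, hα⟩ := (validT_fm _).1 h0
  obtain ⟨β, hβ⟩ := (validT_fm _).1 h1
  obtain ⟨ζ, hζ⟩ := (validT_fm _).1 h2
  obtain ⟨a, ha⟩ := (validT_tm _).1 h3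
  obtain ⟨b, hb⟩ := (validT_tm _).1 h4
  obtain ⟨i, rfl⟩ : ∃ i : ℕ, iu = List.replicate i () := ⟨iu.length, snd_unit iu⟩
  rw [hα, ha] at h
  have hF : ∀ {φ : Fm}, 2 ≤ k.length → schT (k, pre, List.replicate i (), ps) = fmT φ →
      Logical φ → ∃ φ : Fm, lineF (k, pre, List.replicate i (), ps) = fmT φ ∧ (Logical φ ∨ Accepts O c φ.enc [] N.length ∨
        ∃ ψ ∈ l, Fm.imp ψ φ ∈ l) := by
    intro φ hk hs hφ
    obtain ⟨φ', h5, h6⟩ := snd_gen pre hs hφ
    refine ⟨φ', ?_, Or.inl h6⟩
    unfold lineF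
    rw [if_pos (by simpa using hk)]
    exact h5
  unfold schT at hF
  rw [hα, hβ, hζ, ha, hb] at hF
  obtain ⟨n, hn⟩ : ∃ n, n = k.length := ⟨_, rfl⟩
  simp only [← hn] at h hF
  rcases n with _ | _ | _ | _ | _ | _ | _ | _ | _ | _ | n
  · -- axiom
    refine ⟨α, ?_, Or.inr (Or.inl ?_)⟩
    · unfold lineF
      rw [if_neg (by simp [← hn])]
      exact hα
    · simp only [List.getD_cons_zero] at h
      rw [accU_iff, encT_fm] at h
      exact h
  · -- modus ponens
    refine ⟨α, ?_, Or.inr (Or.inr ?_)⟩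
    · unfold lineF
      rw [if_neg (by simp [← hn])]
      exact hα
    · simp only [zero_add, List.getD_cons_succ, List.getD_cons_zero, List.any_eq_true,
        List.mem_reverse, List.mem_map] at h
      obtain ⟨_, ⟨ψ, hψ, rfl⟩, _, ⟨χ, hχ, rfl⟩, h5⟩ := h
      rw [eqT_tks] at h5
      have h6 : χ = Fm.imp ψ α := fmT_inj h5
      subst h6
      exact ⟨ψ, hψ, hχ⟩
  · exact hF (by omega) (φ := .imp α (.imp β α)) rfl (Logical.k _ _)
  · exact hF (by omega) (φ := .imp (.imp α (.imp β ζ)) (.imp (.imp α β) (.imp α ζ))) rfl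
      (Logical.s _ _ _)
  · exact hF (by omega) (φ := .imp (.imp (.neg α) (.neg β)) (.imp β α)) rfl (Logical.c _ _)
  · refine hF (by omega) (φ := .imp (.all i α) (α.sb i a)) ?_ (Logical.inst _ _ _ ?_)
    · show impK (allK (List.replicate i ()) (fmT α)) (sbT (List.replicate i ()) (tmT a) (fmT α)) = _
      rw [sbT_fm]
      rfl
    · exact (okT_fm i a α).1 h
  · exact hF (by omega) (φ := .imp (.all i (.imp α β)) (.imp (.all i α) (.all i β))) rfl
      (Logical.dist _ _ _)
  · refine hF (by omega) (φ := .imp α (.all i α)) rfl (Logical.vac _ _ ?_)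
    intro h7
    have h8 : (!frT (List.replicate i ()) (fmT α)) = true := h
    rw [(frT_fm i α).2 h7] at h8
    cases h8
  · exact hF (by omega) (φ := .eq a a) rfl (Logical.refl _)
  · refine hF (by omega) (φ := .imp (.eq a b) (.imp (α.sb i a) (α.sb i b))) ?_
      (Logical.leib _ _ _ _ ?_)
    · show impK (eqK (tmT a) (tmT b)) (impK (sbT (List.replicate i ()) (tmT a) (fmT α))
        (sbT (List.replicate i ()) (tmT b) (fmT α))) = _
      rw [sbT_fm, sbT_fm]
      rfl
    · exact (atomT_fm α).1 h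
  · exfalso
    simp at h

theorem snd_cert {c : Cmd} {N : List Unit} (cert : List Line)
    (h : (cert.foldl (chkStep O (cmdD c) N) ([], true)).2 = true) :
    ∃ l : List Fm, cert.map lineF = l.map fmT ∧
      IsProof (fun σ => Accepts O c σ.enc [] N.length) l := by
  induction cert using List.reverseRecOn with
  | nil => exact ⟨[], rfl, prv_nil _⟩
  | append_singleton cert L ih =>
    rw [List.foldl_append] at h
    have h' : ((cert.foldl (chkStep O (cmdD c) N) ([], true)).2 &&
      lineOK O (cmdD c) N (cert.foldl (chkStep O (cmdD c) N) ([], true)).1 L) = true := h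
    rw [Bool.and_eq_true] at h'
    obtain ⟨l, h1, h2⟩ := ih h'.1
    have h3 := h'.2
    rw [snd_fold, h1] at h3
    obtain ⟨φ, h4, h5⟩ := snd_line h3
    refine ⟨l ++ [φ], ?_, prv_snoc h2 h5⟩
    rw [List.map_append, List.map_append, h1, List.map_singleton, List.map_singleton, h4]

theorem chk_sound {c : Cmd} {N : List Unit} {cert : List Line} {φ : Fm}
    (h : chk O (cmdD c) N cert (fmT φ) = true) :
    ∃ l : List Fm, cert.map lineF = (l ++ [φ]).map fmT ∧
      IsProof (fun σ => Accepts O c σ.enc [] N.length) (l ++ [φ]) := by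
  unfold chk at h
  rw [Bool.and_eq_true, eqT_tks, snd_fold] at h
  obtain ⟨h1, h2⟩ := h
  obtain ⟨l, h3, h4⟩ := snd_cert cert h1
  rw [h3] at h2
  have hne : fmT φ ≠ [] := by
    cases φ <;> simp [fmT]
  rcases List.eq_nil_or_concat l with rfl | ⟨l', χ, rfl⟩
  · exact absurd h2.symm hne
  · simp only [List.concat_eq_append, List.map_append, List.map_cons, List.map_nil,
      List.reverse_append, List.reverse_cons, List.reverse_nil, List.nil_append,
      List.cons_append, List.headD_cons] at h2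
    have h5 : χ = φ := fmT_inj h2
    subst h5
    rw [List.concat_eq_append] at h3 h4
    exact ⟨l', h3, h4⟩

end Pool.Agent.RO
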