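import Pool.Agent.Lib_helper78.RF.F.FNA
import Pool.Agent.Lib_helper78.RF.F.FNB
import Pool.Agent.Lib_helper78.RO.Defs
import Pool.Agent.Lib_helper78.RO.F.CMP
import Pool.Agent.Lib_helper78.RO.F.DCP
import Pool.Agent.Lib_helper78.RO.F.RFT
import Pool.Agent.Lib_helper78.RO.F.SND
import Pool.Agent.Lib_helper78.RO.F.STR

/-!
# Random oracles (MP_5c38ab_lc): block ACS (helper37), correctness of acc
-/

set_option autoImplicit false

namespace Pool.Agent.RO

open Pool.Agent.CK Pool.Agent.RF Pool.Agent.CKP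

variable {O : Lang} {γ : Type} [ToD γ]

theorem acs_nn (s : ℕ) : val (nnS (List.replicate (st s) ())) = 2 ^ (3 * st s + 13) - 2 := by
  rw [nnS_val, List.length_replicate]

theorem acs_sound {S : Th} {N : List Unit} {cert : List Line} {φ : Fm}
    (hS : ∀ x, Halts O S.1 x [] ((x.length + 2) ^ S.2))
    (h : chk O (cmdD S.1) N cert (fmT φ) = true) : Provable (Ax O S) φ := by
  obtain ⟨l, _, hl⟩ := chk_sound h
  exact ⟨l, isProof_mono (fun σ _ hA => accepts_of_halts (hS σ.enc) hA) hl⟩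

theorem acc_proof {S T : Th} {s : ℕ} (hS : ∀ x, Halts O S.1 x [] ((x.length + 2) ^ S.2))
    (h : AccS O S T s) :
    Provable (Ax O S) (RFN T (2 ^ (3 * st s + 13) - 2)) ∨
      Provable (Ax O S) (Con T (2 ^ (3 * st s + 13) - 2)) := by
  unfold AccS acc at h
  rw [List.any_eq_true] at h
  obtain ⟨w, _, hw⟩ := h
  rw [rfnT_eq, conT_eq, acs_nn, Bool.or_eq_true] at hw
  rcases hw with hw | hw
  · exact Or.inl (acs_sound hS hw)
  · exact Or.inr (acs_sound hS hw)

theorem acs_len {σ : Fm} : ∀ {l : List Fm}, σ ∈ l → σ.enc.length ≤ (pEnc l).length := by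
  intro l
  induction l with
  | nil => intro h; simp at h
  | cons a t ih =>
    intro h
    have e : (pEnc (a :: t)).length = a.enc.length + (pEnc t).length := by
      simp [pEnc]
    rw [e]
    rcases List.mem_cons.mp h with rfl | h
    · exact Nat.le_add_right _ _
    · exact (ih h).trans (Nat.le_add_left _ _)

theorem proof_acc {S T : Th} {s : ℕ} {Φ : Fm}
    (hΦ : Φ = RFN T (2 ^ (3 * st s + 13) - 2) ∨ Φ = Con T (2 ^ (3 * st s + 13) - 2)) {l : List Fm}
    (hl : IsProof (Ax O S) (l ++ [Φ]))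
    (hlen : 1000 * ((pEnc (l ++ [Φ])).length + 1) ^ 3 ≤ st (s + 1)) : AccS O S T s := by
  have hb : (pEnc (l ++ [Φ])).length ≤ st (s + 1) := by
    have h1 : (pEnc (l ++ [Φ])).length + 1 ≤ ((pEnc (l ++ [Φ])).length + 1) ^ 3 :=
      Nat.le_self_pow (by norm_num) _
    omega
  have h2 : IsProof (fun σ => Accepts O S.1 σ.enc []
      (tick S.2 (List.replicate (st (s + 1)) ())).length) (l ++ [Φ]) := by
    refine isProof_mono (fun σ hσ hA => ?_) hl
    refine accepts_mono ?_ hA
    unfold tick tb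
    rw [List.length_replicate, List.length_replicate]
    refine Nat.pow_le_pow_left ?_ _
    have h3 := (acs_len hσ).trans hb
    omega
  obtain ⟨cert, _, hc, hsz⟩ := chk_complete h2
  obtain ⟨w, hw, hd⟩ := dec_pad (toD cert) (st (s + 1)) (hsz.trans hlen)
  unfold AccS acc
  rw [List.any_eq_true]
  refine ⟨w, mem_allStr.mpr (by rw [hw, List.length_replicate]), ?_⟩
  rw [rfnT_eq, conT_eq, acs_nn, hd, toCert_toD, Bool.or_eq_true]
  rcases hΦ with rfl | rfl
  · exact Or.inl hc
  · exact Or.inr hc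

end Pool.Agent.RO
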