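import Pool.Agent.Lib_helper78.RF.F.FNA
import Pool.Agent.Lib_helper78.RF.F.FNB
import Pool.Agent.Lib_helper78.RO.Defs

/-!
# Block EXP: ex falso
-/

set_option autoImplicit false

namespace Pool.Agent.RO

open Pool.Agent.CK Pool.Agent.RF Pool.Agent.CKP

/-- everything follows from falsum, shortly -/
theorem falsum_proof {A : Fm → Prop} {l : List Fm} (h : IsProof A (l ++ [falsum])) (φ : Fm) :
    ∃ l', IsProof A (l' ++ [φ]) ∧
      (pEnc (l' ++ [φ])).length ≤ (pEnc (l ++ [falsum])).length + 6 * φ.enc.length + 200 := by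
  set z : Fm := .eq .zero .zero with hz
  have h1 : IsProof A ((l ++ [falsum]) ++ [Fm.imp falsum (.imp (.neg φ) falsum)]) :=
    prv_snoc h (Or.inl (Logical.k falsum (.neg φ)))
  have h2 : IsProof A (((l ++ [falsum]) ++ [Fm.imp falsum (.imp (.neg φ) falsum)]) ++
      [Fm.imp (.neg φ) falsum]) :=
    prv_snoc h1 (Or.inr (Or.inr ⟨falsum, by simp, by simp⟩))
  have h3 : IsProof A ((((l ++ [falsum]) ++ [Fm.imp falsum (.imp (.neg φ) falsum)]) ++
      [Fm.imp (.neg φ) falsum]) ++ [Fm.imp (.imp (.neg φ) falsum) (.imp z φ)]) :=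
    prv_snoc h2 (Or.inl (Logical.c φ z))
  have h4 : IsProof A (((((l ++ [falsum]) ++ [Fm.imp falsum (.imp (.neg φ) falsum)]) ++
      [Fm.imp (.neg φ) falsum]) ++ [Fm.imp (.imp (.neg φ) falsum) (.imp z φ)]) ++
      [Fm.imp z φ]) :=
    prv_snoc h3 (Or.inr (Or.inr ⟨Fm.imp (.neg φ) falsum, by simp, by simp⟩))
  have h5 : IsProof A ((((((l ++ [falsum]) ++ [Fm.imp falsum (.imp (.neg φ) falsum)]) ++
      [Fm.imp (.neg φ) falsum]) ++ [Fm.imp (.imp (.neg φ) falsum) (.imp z φ)]) ++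
      [Fm.imp z φ]) ++ [z]) :=
    prv_snoc h4 (Or.inl (Logical.refl .zero))
  refine ⟨_, prv_snoc h5 (φ := φ) (Or.inr (Or.inr ⟨z, by simp, by simp⟩)), ?_⟩
  unfold pEnc
  simp only [List.map_append, List.flatten_append, List.length_append, List.map_cons,
    List.map_nil, List.flatten_cons, List.flatten_nil, List.append_nil, falsum, hz, Fm.enc,
    Tm.enc, tag, List.length_replicate, List.length_cons, List.length_nil]
  omega

end Pool.Agent.RO
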