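import Pool.Agent.Lib_helper78.RF.F.FNA
import Pool.Agent.Lib_helper78.RF.F.FNB
import Pool.Agent.Lib_helper78.RO.Defs
import Pool.Agent.Lib_helper78.RO.F.EXP

/-!
# Block FAL (MP_5c38ab_lc, random oracles)
-/

set_option autoImplicit false

namespace Pool.Agent.RO

open Pool.Agent.CK Pool.Agent.RF Pool.Agent.CKP

theorem fal_mem_len {σ : Fm} {l : List Fm} (h : σ ∈ l) : σ.enc.length ≤ (pEnc l).length := by
  induction l with
  | nil => simp at h
  | cons a t ih =>
    have e : (pEnc (a :: t)).length = a.enc.length + (pEnc t).length := by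
      simp [pEnc]
    rw [e]
    rcases List.mem_cons.mp h with h | h
    · rw [h]; omega
    · have := ih h
      omega

theorem fal_TProof {O : Lang} {T : Th} {l : List Fm} (h : IsProof (Ax O T) l) : TProof O T l := by
  refine isProof_mono (fun σ hσ hA => ?_) h
  have h1 := fal_mem_len hσ
  have h2 := (size_val (pEnc l)).1
  refine accepts_mono ?_ hA
  refine le_trans ?_ (clkS_ge T.2 (Nat.size (val (pEnc l))))
  exact Nat.pow_le_pow_left (by omega) _

theorem fal_cEnc (c : Cmd) : cEnc c ≠ [] := by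
  cases c <;> simp [cEnc, tag]

theorem fal_mu (O : Lang) : ¬ MuT O 0 0 0 := by
  rintro ⟨w, _, c, a, b, hc, _⟩
  have h : val (cEnc c) = val [] := hc
  exact fal_cEnc c (val_inj h)

theorem fal_len : (mu (num 0) (num 0) (num 0)).enc.length ≤ 100 := by
  have h : num 0 = Tm.zero := by rw [num]
  rw [h]
  simp [mu, Fm.and, Fm.enc, Tm.enc, tag]

theorem proof_false {O : Lang} {T : Th} {l : List Fm} {n : ℕ}
    (h : IsProof (Ax O T) (l ++ [falsum]))
    (hn : (pEnc (l ++ [falsum])).length + 4000 ≤ n) : ¬ ConT O T n ∧ ¬ RfnT O T n := by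
  constructor
  · intro hC
    refine hC l ?_ (fal_TProof h)
    have := (size_val (pEnc (l ++ [falsum]))).2
    omega
  · intro hR
    obtain ⟨l', h1, h2⟩ := falsum_proof h (mu (num 0) (num 0) (num 0))
    refine fal_mu O (hR 0 0 0 l' ?_ ?_ ?_ ?_ (fal_TProof h1))
    · simp
    · simp
    · simp
    · have h3 := (size_val (pEnc (l' ++ [mu (num 0) (num 0) (num 0)]))).2
      have h4 := fal_len
      omega

end Pool.Agent.RO
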