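import Pool.Agent.Lib_helper78.RF.F.FNA
import Pool.Agent.Lib_helper78.RF.F.FNB
import Pool.Agent.Lib_helper78.RO.Defs

/-!
# Block STG: stages (MP_5c38ab_lc)
-/

set_option autoImplicit false

namespace Pool.Agent.RO

open Pool.Agent.CK Pool.Agent.RF Pool.Agent.CKP

/-! ## The sequence of the stages -/

theorem stg_succ (s : ℕ) : st (s + 1) = 2 ^ 2 ^ (st s / 2) := rfl

theorem st_even (s : ℕ) : 2 * (st s / 2) = st s := by
  cases s with
  | zero => rfl
  | succ s =>
    have h : 2 ∣ st (s + 1) := by
      rw [stg_succ]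
      exact dvd_pow_self 2 (by positivity)
    exact Nat.mul_div_cancel' h

theorem stg_two_mul_le (m : ℕ) (hm : 1 ≤ m) : 2 * m ≤ 2 ^ m := by
  induction m, hm using Nat.le_induction with
  | base => norm_num
  | succ m hm ih =>
    rw [pow_succ]
    have : 1 ≤ m := hm
    omega

theorem stg_pos (s : ℕ) : 8 ≤ st s := by
  induction s with
  | zero => exact le_refl _
  | succ s ih =>
    rw [stg_succ]
    have h1 : 4 ≤ st s / 2 := by omega
    have h2 : 2 ^ 4 ≤ 2 ^ (st s / 2) := Nat.pow_le_pow_right (by norm_num) h1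
    calc 8 ≤ 2 ^ 16 := by norm_num
      _ ≤ 2 ^ 2 ^ (st s / 2) := Nat.pow_le_pow_right (by norm_num) (by simpa using h2)

theorem st_lt (s : ℕ) : st s < st (s + 1) := by
  have h0 := stg_pos s
  have h1 := st_even s
  have h2 := stg_two_mul_le (st s / 2) (by omega)
  rw [stg_succ]
  calc st s = 2 * (st s / 2) := h1.symm
    _ ≤ 2 ^ (st s / 2) := h2
    _ < 2 ^ 2 ^ (st s / 2) := Nat.lt_two_pow_self

theorem st_mono : StrictMono st := strictMono_nat_of_lt_succ st_lt

theorem lt_st (s : ℕ) : s + 8 ≤ st s := by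
  induction s with
  | zero => exact le_refl _
  | succ s ih =>
    have := st_lt s
    omega

/-! ## The successor relation -/

theorem stg_bits (n : ℕ) : (2 ^ n).bits.tail.length = n := by
  rw [List.length_tail, Nat.size_eq_bits_len, Nat.size_pow, Nat.add_sub_cancel]

theorem nxt_iff (s : ℕ) (b : List Unit) :
    nxt (List.replicate (st s) ()) b = true ↔ b.length = st (s + 1) := by
  have h0 := stg_pos s
  have h1 := st_even s
  unfold nxt
  rw [rangeU_replicate, List.any_eq_true]
  constructor
  · rintro ⟨m, hm, h⟩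
    rw [List.mem_map] at hm
    obtain ⟨i, hi, rfl⟩ := hm
    simp only [Bool.and_eq_true, decide_eq_true_eq, List.length_replicate, ushl_eq, ulen_eq,
      one_mul] at h
    obtain ⟨h2, h3, h4⟩ := h
    have h5 : i = st s / 2 := by omega
    rw [stg_succ, ← h3, h4, h5]
  · intro h
    refine ⟨List.replicate (st s / 2) (), ?_, ?_⟩
    · rw [List.mem_map]
      exact ⟨st s / 2, by rw [List.mem_range]; omega, rfl⟩
    · simp only [Bool.and_eq_true, decide_eq_true_eq, List.length_replicate, ushl_eq, ulen_eq,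
        one_mul]
      rw [h, stg_succ, stg_bits]
      exact ⟨by omega, rfl, rfl⟩

/-! ## The list of the stages -/

/-- one step of the search for stages -/
def stgStep (q : List (List Unit)) (m : List Unit) : List (List Unit) :=
  if q.isEmpty = true then (if decide (m.length = 8) = true then [m] else [])
    else if nxt (q.headD []) m = true then m :: q else q

theorem stg_rec (n : ℕ) : stgs (List.replicate n ()) =
    ((List.range (n + 1)).map (fun i => List.replicate i ())).foldl stgStep [] := by
  unfold stgs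
  rw [← List.replicate_succ, rangeU_replicate]
  rfl

theorem stg_zero : stgs (List.replicate 0 ()) = [] := by
  rw [stg_rec]
  simp [stgStep]

theorem stg_next (n : ℕ) : stgs (List.replicate (n + 1) ()) =
    stgStep (stgs (List.replicate n ())) (List.replicate (n + 1) ()) := by
  rw [stg_rec, stg_rec, List.range_succ (n := n + 1), List.map_append, List.foldl_append]
  rfl

theorem stgs_small {n : ℕ} (h : n < 8) : stgs (List.replicate n ()) = [] := by
  induction n with
  | zero => exact stg_zero
  | succ n ih =>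
    rw [stg_next, ih (by omega)]
    have : n + 1 ≠ 8 := by omega
    simp [stgStep, this]

theorem stg_head (s : ℕ) :
    ((List.range (s + 1)).map (fun i => List.replicate (st i) ())).reverse =
      List.replicate (st s) () ::
        ((List.range s).map (fun i => List.replicate (st i) ())).reverse := by
  rw [List.range_succ, List.map_append, List.reverse_append]
  rfl

theorem stgs_eq {n s : ℕ} (h1 : st s ≤ n) (h2 : n < st (s + 1)) :
    stgs (List.replicate n ()) =
      ((List.range (s + 1)).map (fun i => List.replicate (st i) ())).reverse := by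
  induction n generalizing s with
  | zero =>
    have := stg_pos s
    omega
  | succ n ih =>
    rw [stg_next]
    rcases Nat.lt_or_ge n (st s) with h3 | h3
    · have h4 : st s = n + 1 := by omega
      cases s with
      | zero =>
        have h5 : n = 7 := by
          have : st 0 = 8 := rfl
          omega
        subst h5
        rw [stgs_small (by norm_num)]
        simp [stgStep, st]
      | succ s =>
        have h5 : st s ≤ n := by
          have := st_lt s
          omega
        rw [ih h5 (by omega), stg_head (s + 1), ← h4]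
        unfold stgStep
        have h6 : nxt (List.replicate (st s) ()) (List.replicate (st (s + 1)) ()) = true := by
          rw [nxt_iff, List.length_replicate]
        rw [stg_head s]
        simp [h6]
    · rw [ih h3 (by omega)]
      unfold stgStep
      have h6 : ¬ nxt (List.replicate (st s) ()) (List.replicate (n + 1) ()) = true := by
        rw [nxt_iff, List.length_replicate]
        omega
      rw [stg_head s]
      simp [h6]

/-! ## Consecutive pairs -/

theorem stg_pairs_cons {α : Type} (a : α) (t : List α) :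
    pairsL (a :: t) = lcase t [] (fun b _ => (a, b) :: pairsL t) := rfl

theorem pairsL_range {α : Type} (f : ℕ → α) (s : ℕ) :
    pairsL ((List.range (s + 1)).map f) = (List.range s).map (fun i => (f i, f (i + 1))) := by
  induction s generalizing f with
  | zero => rfl
  | succ s ih =>
    have h1 : (List.range (s + 1 + 1)).map f =
        f 0 :: (List.range (s + 1)).map (fun i => f (i + 1)) := by
      rw [List.range_succ_eq_map (n := s + 1), List.map_cons, List.map_map]
      rfl
    have h2 : (List.range (s + 1)).map (fun i => f (i + 1)) =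
        f 1 :: (List.range s).map (fun i => f (i + 1 + 1)) := by
      rw [List.range_succ_eq_map (n := s), List.map_cons, List.map_map]
      rfl
    rw [h1, stg_pairs_cons, ih (fun i => f (i + 1)), h2, lcase_cons,
      List.range_succ_eq_map (n := s), List.map_cons, List.map_map]
    rfl

/-! ## Large stages -/

theorem stg_poly (k : ℕ) : ∃ A : ℕ, ∀ a : ℕ, A ≤ a → tb a + tb a ^ k + 4 < 2 ^ a := by
  have h := tendsto_pow_const_div_const_pow_of_one_lt (k + 1) (r := (2 : ℝ)) (by norm_num)
  have hc : (0 : ℝ) < 1 / (2 * 68 ^ (k + 1)) := by positivity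
  have h2 := (h.eventually (gt_mem_nhds hc)).and (Filter.eventually_ge_atTop 1)
  obtain ⟨A, hA⟩ := Filter.eventually_atTop.1 h2
  refine ⟨A, fun a ha => ?_⟩
  obtain ⟨h3, h4⟩ := hA a ha
  have h5 : (a : ℝ) ^ (k + 1) * (2 * 68 ^ (k + 1)) < 2 ^ a := by
    rw [div_lt_div_iff₀ (by positivity) (by positivity)] at h3
    linarith
  have h6 : a ^ (k + 1) * (2 * 68 ^ (k + 1)) < 2 ^ a := by exact_mod_cast h5
  have h7 : tb a + 4 ≤ (68 * a) ^ (k + 1) := by
    calc tb a + 4 ≤ 68 * a := by unfold tb; omega
      _ ≤ (68 * a) ^ (k + 1) := Nat.le_self_pow (by omega) _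
  have h8 : tb a ^ k ≤ (68 * a) ^ (k + 1) := by
    calc tb a ^ k ≤ (68 * a) ^ k := Nat.pow_le_pow_left (by unfold tb; omega) _
      _ ≤ (68 * a) ^ (k + 1) := Nat.pow_le_pow_right (by omega) (by omega)
  calc tb a + tb a ^ k + 4 ≤ (68 * a) ^ (k + 1) + (68 * a) ^ (k + 1) := by omega
    _ = a ^ (k + 1) * (2 * 68 ^ (k + 1)) := by rw [mul_pow]; ring
    _ < 2 ^ a := h6

theorem stg_big (k m s : ℕ) (h3 : 3 ≤ m) (hm : 2 * k + 3 ≤ m) (hs : s + 2 ≤ 2 * m) :
    tb (2 ^ 2 ^ m) ^ (k + 1) * 2 ^ (s + 2) ≤ 2 ^ 2 ^ (2 * m) := by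
  have h1 : tb (2 ^ 2 ^ m) ≤ 2 ^ (2 ^ m + 6) := by
    unfold tb
    have : 1 ≤ 2 ^ 2 ^ m := Nat.one_le_two_pow
    rw [pow_add]
    omega
  have h2 : (2 ^ m + 6) * (k + 1) + (s + 2) ≤ 2 ^ (2 * m) := by
    have h4 : 2 ^ 3 ≤ 2 ^ m := Nat.pow_le_pow_right (by norm_num) h3
    have h5 : 2 ^ m + 6 ≤ 2 * 2 ^ m := by omega
    have h6 : s + 2 ≤ 2 ^ m := le_trans hs (stg_two_mul_le m (by omega))
    have h7 : 2 * k + 3 ≤ 2 ^ m := le_trans hm (le_of_lt Nat.lt_two_pow_self)
    calc (2 ^ m + 6) * (k + 1) + (s + 2) ≤ (2 * 2 ^ m) * (k + 1) + 2 ^ m := by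
          exact Nat.add_le_add (Nat.mul_le_mul_right _ h5) h6
      _ = (2 * k + 3) * 2 ^ m := by ring
      _ ≤ 2 ^ m * 2 ^ m := Nat.mul_le_mul_right _ h7
      _ = 2 ^ (2 * m) := by rw [← pow_add]; congr 1; omega
  calc tb (2 ^ 2 ^ m) ^ (k + 1) * 2 ^ (s + 2)
      ≤ (2 ^ (2 ^ m + 6)) ^ (k + 1) * 2 ^ (s + 2) :=
        Nat.mul_le_mul_right _ (Nat.pow_le_pow_left h1 _)
    _ = 2 ^ ((2 ^ m + 6) * (k + 1) + (s + 2)) := by rw [← pow_mul, ← pow_add]
    _ ≤ 2 ^ 2 ^ (2 * m) := Nat.pow_le_pow_right (by norm_num) h2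

theorem large_ev (k : ℕ) : ∃ J0, ∀ J, J0 ≤ J → Large k J := by
  obtain ⟨A, hA⟩ := stg_poly k
  refine ⟨A + 4 * k + 6, fun J hJ s hs => ?_⟩
  have h1 := lt_st s
  have h2 := st_even s
  refine ⟨hA _ (by omega), ?_⟩
  have h3 := stg_big k (st s / 2) s (by omega) (by omega) (by omega)
  rw [h2] at h3
  rw [stg_succ]
  exact h3

end Pool.Agent.RO
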