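import Pool.Agent.Lib_helper78.RF.F.FNA
import Pool.Agent.Lib_helper78.RF.F.FNB
import Pool.Agent.Lib_helper78.RO.Defs
import Pool.Agent.Lib_helper78.RO.F.STR

/-!
# Random oracles (MP_5c38ab_lc): block THA (the sentences of the game)
-/

set_option autoImplicit false

namespace Pool.Agent.RO

open Pool.Agent.CK Pool.Agent.RF Pool.Agent.CKP

variable {O : Lang}

/-- the number of a string, in terms of the number of its tail -/
theorem twF_num (w y : List Bool) : twF w (num (val y)) = num (val (w ++ y)) := by
  induction w with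
  | nil => rfl
  | cons b w ih =>
    cases b with
    | true =>
      have e : 2 * val (w ++ y) + 2 = (2 * val (w ++ y) + 1) + 1 := rfl
      have e2 : (2 * val (w ++ y) + 1) / 2 = val (w ++ y) := by omega
      rw [List.cons_append, VAL_true, e, VAL_num_odd (by omega), e2, ← ih]
      rfl
    | false =>
      have e2 : (2 * val (w ++ y)) / 2 = val (w ++ y) := by omega
      rw [List.cons_append, VAL_false, VAL_num_even (by omega), e2, ← ih]
      rfl

theorem tha_has {i : ℕ} {w : List Bool} {t : Tm} (h : (twF w t).has i) : t.has i := by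
  induction w with
  | nil => exact h
  | cons b w ih =>
    cases b with
    | true =>
      simp only [twF, Tm.has, false_or] at h
      exact ih h
    | false =>
      simp only [twF, Tm.has, false_or] at h
      exact ih h

theorem tha_free {i : ℕ} {W : List (List Bool)} (h : (chF W).free i) : 5 = i := by
  induction W with
  | nil =>
    simp only [chF, List.foldr_nil, falsum, Fm.free, Tm.has, or_self] at h
  | cons w W ih =>
    rcases h with h | h
    · exact tha_has (w := true :: w) (t := Tm.var 5) h
    · exact ih h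

theorem thF_closed (l j : ℕ) : (thF l j).Closed := by
  intro i h
  simp only [thF, Fm.free, Tm.has, num_has, false_or, or_false] at h
  obtain ⟨h1, h2⟩ := h
  rcases h2 with h2 | h2 | h2
  · exact h1 h2
  · exact h1 h2
  · exact h1 (tha_free h2)

theorem tha_tw_len (w : List Bool) (t : Tm) :
    (twF w t).enc.length ≤ 21 * w.length + t.enc.length := by
  induction w with
  | nil => simp [twF]
  | cons b w ih =>
    cases b with
    | true =>
      simp only [twF, Tm.enc, List.length_append, VAL_tag_len, List.length_cons]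
      omega
    | false =>
      simp only [twF, Tm.enc, List.length_append, VAL_tag_len, List.length_cons]
      omega

theorem tha_num_len (y : List Bool) : (num (val y)).enc.length ≤ 21 * y.length + 2 := by
  have h := twF_num y []
  rw [List.append_nil] at h
  rw [← h]
  have h2 := tha_tw_len y (num (val []))
  have h3 : (num (val [])).enc.length = 2 := by
    show (num 0).enc.length = 2
    rw [VAL_num_zero]
    rfl
  omega

theorem tha_ch_len {l : ℕ} (W : List (List Bool)) (h : ∀ w ∈ W, w.length ≤ l) :
    10 * W.length ≤ (chF W).enc.length ∧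
      (chF W).enc.length ≤ W.length * (21 * l + 38) + 11 := by
  induction W with
  | nil => exact ⟨Nat.zero_le _, by simp [chF, falsum, Fm.enc, Tm.enc, VAL_tag_len]⟩
  | cons w W ih =>
    obtain ⟨i1, i2⟩ := ih (fun w' hw' => h w' (List.mem_cons_of_mem _ hw'))
    have h1 := tha_tw_len (true :: w) (Tm.var 5)
    have h2 : (Tm.var 5).enc.length = 7 := by simp [Tm.enc, VAL_tag_len]
    have h3 := h w List.mem_cons_self
    have e : (chF (w :: W)).enc.length =
        10 + (twF (true :: w) (Tm.var 5)).enc.length + (chF W).enc.length := by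
      show (tag 6 ++ ((tag 2 ++ (twF (true :: w) (Tm.var 5)).enc) ++ (chF W).enc)).length = _
      simp only [List.length_append, VAL_tag_len]
      omega
    rw [e]
    simp only [List.length_cons] at h1 ⊢
    constructor
    · omega
    · have : (W.length + 1) * (21 * l + 38) = W.length * (21 * l + 38) + (21 * l + 38) := by ring
      rw [this]
      omega

theorem tha_thF_len {l j : ℕ} (h8 : 8 ≤ l) : 2 ^ l ≤ (thF l j).enc.length ∧
    (thF l j).enc.length ≤ 2 ^ (2 * l + 8) := by
  obtain ⟨h1, h2⟩ := tha_ch_len (l := l) (upTo (List.replicate l ())) (fun w hw => by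
    have := mem_upTo.1 hw
    rwa [List.length_replicate] at this)
  rw [upTo_length, List.length_replicate] at h1 h2
  have h3 := tha_num_len (List.replicate (2 ^ (l + 1) - 1 - j) false)
  have h4 := tha_num_len (List.replicate (2 ^ (l + 1) - 1 - j) true)
  rw [List.length_replicate] at h3 h4
  have e : (thF l j).enc.length = 46 +
      (num (val (List.replicate (2 ^ (l + 1) - 1 - j) false))).enc.length +
      (num (val (List.replicate (2 ^ (l + 1) - 1 - j) true))).enc.length +
      (chF (upTo (List.replicate l ()))).enc.length := by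
    simp only [thF, Fm.enc, Tm.enc, List.length_append, VAL_tag_len]
    omega
  rw [e]
  have hp : 2 ^ (l + 1) = 2 * 2 ^ l := by ring
  have hl : l < 2 ^ l := Nat.lt_two_pow_self
  have hl8 : 256 ≤ 2 ^ l := by
    calc 256 = 2 ^ 8 := by norm_num
      _ ≤ 2 ^ l := Nat.pow_le_pow_right (by norm_num) h8
  have hq : 2 ^ (2 * l + 8) = 256 * (2 ^ l * 2 ^ l) := by
    rw [← pow_add]
    have : 2 * l + 8 = 8 + (l + l) := by ring
    rw [this, pow_add]
    norm_num
  rw [hp] at h1 h2 h3 h4
  rw [hq, hp]
  generalize 2 ^ l = q at *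
  constructor
  · omega
  · have h5 : (2 * q - 1) * (21 * l + 38) ≤ 2 * q * (21 * q + 38) := by
      apply Nat.mul_le_mul
      · omega
      · omega
    have h6 : 2 * q * (21 * q + 38) = 42 * (q * q) + 76 * q := by ring
    have h7 : 256 * q ≤ q * q := Nat.mul_le_mul_right _ hl8
    rw [h6] at h5
    generalize (2 * q - 1) * (21 * l + 38) = y at *
    generalize q * q = q2 at *
    omega

theorem thF_len {l j : ℕ} (h : j ≤ l) (h8 : 8 ≤ l) : 2 ^ l ≤ (thF l j).enc.length ∧
    (thF l j).enc.length ≤ 2 ^ (2 * l + 8) :=
  have _ := h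
  tha_thF_len h8

theorem tha_val_false (n : ℕ) : val (List.replicate n false) + 1 = 2 ^ n := by
  induction n with
  | zero => rfl
  | succ n ih =>
    rw [List.replicate_succ, VAL_false, pow_succ]
    omega

theorem tha_val_true (n : ℕ) : val (List.replicate n true) + 2 = 2 ^ (n + 1) := by
  induction n with
  | zero => rfl
  | succ n ih =>
    rw [List.replicate_succ, VAL_true, pow_succ]
    omega

theorem tha_len {y : List Bool} {n : ℕ} (h1 : val (List.replicate n false) ≤ val y)
    (h2 : val y ≤ val (List.replicate n true)) : y.length = n := by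
  have h3 := tha_val_false n
  have h4 := tha_val_true n
  obtain ⟨h5, h6⟩ := VAL_bounds y
  have h7 : 2 ^ n < 2 ^ (y.length + 1) := by omega
  have h8 : 2 ^ y.length < 2 ^ (n + 1) := by omega
  have h9 := (Nat.pow_lt_pow_iff_right (by norm_num : 1 < 2)).1 h7
  have h10 := (Nat.pow_lt_pow_iff_right (by norm_num : 1 < 2)).1 h8
  omega

theorem tha_ev (w y : List Bool) (t : Tm) (v : ℕ → ℕ) (h : t.ev v = val y) :
    (twF w t).ev v = val (w ++ y) := by
  induction w with
  | nil => exact h
  | cons b w ih =>
    cases b with
    | true =>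
      rw [List.cons_append, VAL_true, ← ih]
      show (0 + 1 + 1) * (twF w t).ev v + 1 + 1 = _
      ring
    | false =>
      rw [List.cons_append, VAL_false, ← ih]
      show (0 + 1 + 1) * (twF w t).ev v + 1 = _
      ring

theorem tha_ch {W : List (List Bool)} {v : ℕ → ℕ}
    (h : ∃ w ∈ W, ¬ (Fm.orc (twF (true :: w) (Tm.var 5))).Holds O v) : (chF W).Holds O v := by
  induction W with
  | nil =>
    obtain ⟨w, hw, -⟩ := h
    simp at hw
  | cons w0 W ih =>
    obtain ⟨w, hw, h2⟩ := h
    intro h3
    rcases List.mem_cons.1 hw with rfl | hw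
    · exact absurd h3 h2
    · exact ih ⟨w, hw, h2⟩

theorem tha_true {l j : ℕ} (hj : j < 2 ^ (l + 1))
    (h : ∀ y : List Bool, y.length + 1 + j = 2 ^ (l + 1) → ¬ Bad O l y) : (thF l j).True O := by
  intro v a h1 h2
  obtain ⟨y, rfl⟩ := val_surj a
  simp only [Fm.Holds, Tm.ev, ev_num, Function.update_self] at h1 h2
  have h3 := tha_len h1 h2
  have h4 := h y (by omega)
  unfold Bad at h4
  push Not at h4
  obtain ⟨w, hw, hO⟩ := h4
  apply tha_ch
  refine ⟨w, mem_upTo.2 (by rw [List.length_replicate]; exact hw), ?_⟩
  rintro ⟨x, hx, hx2⟩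
  rw [tha_ev (true :: w) y (Tm.var 5) _ (by simp [Tm.ev])] at hx
  have := val_inj hx
  rw [this] at hx2
  exact hO hx2

theorem thF_true {l j : ℕ} (hj : j ≤ l)
    (h : ∀ y : List Bool, y.length + 1 + j = 2 ^ (l + 1) → ¬ Bad O l y) : (thF l j).True O :=
  tha_true (lt_of_le_of_lt hj (lt_trans (Nat.lt_two_pow_self) (Nat.pow_lt_pow_right (by norm_num)
    (Nat.lt_succ_self l)))) h

end Pool.Agent.RO
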