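import Pool.Agent.Lib_helper78.RF.F.FNA
import Pool.Agent.Lib_helper78.RF.F.FNB
import Pool.Agent.Lib_helper78.RO.Defs
import Pool.Agent.Lib_helper78.RO.F.ENB
import Pool.Agent.Lib_helper78.RO.F.EQT
import Pool.Agent.Lib_helper78.RO.F.RFT
import Pool.Agent.Lib_helper78.RO.F.STG
import Pool.Agent.Lib_helper78.RO.F.STR
import Pool.Agent.Lib_helper78.RO.F.THA

/-!
# Block GAM: the sentences of the game
-/

set_option autoImplicit false

namespace Pool.Agent.RO

open Pool.Agent.CK Pool.Agent.RF Pool.Agent.CKP

variable {O : Lang} {γ : Type} [ToD γ]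

theorem gam_stage {l : ℕ} (h : 8 ≤ l) : ∃ s, st s ≤ l ∧ l < st (s + 1) := by
  have hex : ∃ s, l < st s := ⟨l, by have := lt_st l; omega⟩
  have hf := Nat.find_spec hex
  have hmin : ∀ m, m < Nat.find hex → ¬ l < st m := fun m hm => Nat.find_min hex hm
  rcases hk : Nat.find hex with _ | k
  · rw [hk] at hf
    have : st 0 = 8 := rfl
    omega
  · rw [hk] at hf hmin
    exact ⟨k, not_lt.mp (hmin k (by omega)), hf⟩

theorem gam_head (f : ℕ → List Unit) (s : ℕ) :
    ((List.range (s + 1)).map f).reverse.headD [] = f s := by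
  rw [List.range_succ, List.map_append, List.reverse_append]
  rfl

theorem gam_drop_all {α : Type} (g : ℕ → α) (P : α → Bool) (s j : ℕ) :
    ((((List.range s).map g).drop j).all P = true) ↔ ∀ i, j ≤ i → i < s → P (g i) = true := by
  rw [List.all_eq_true]
  constructor
  · intro h i hj hi
    apply h
    rw [List.mem_drop_iff_getElem]
    refine ⟨i - j, ?_, ?_⟩
    · simp only [List.length_map, List.length_range]
      omega
    · simp only [List.getElem_map, List.getElem_range]
      congr 1
      omega
  · intro h x hx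
    rw [List.mem_drop_iff_getElem] at hx
    obtain ⟨i, hi, rfl⟩ := hx
    simp only [List.length_map, List.length_range] at hi
    simp only [List.getElem_map, List.getElem_range]
    exact h _ (by omega) (by omega)

theorem gam_play {S : Th} {J : ℕ} {own : List Bool} {kk : List Unit} {x : List Bool} {l j : ℕ}
    (hx : 2 ^ l ≤ x.length) :
    play O S J own kk x (List.replicate l ()) (List.replicate j ()) = true ↔
      ∃ s, l = st s ∧ J + (own.length + own.length) + kk.length ≤ j ∧ j ≤ s ∧
        ∀ i, j ≤ i → i < s → acc O S own kk (List.replicate (st i) ())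
          (List.replicate (st (i + 1)) ()) = true := by
  unfold play
  simp only [Bool.and_eq_true, decide_eq_true_eq, List.length_replicate]
  by_cases h8 : 8 ≤ l
  · obtain ⟨s, h1, h2⟩ := gam_stage h8
    rw [stgs_eq h1 h2, List.reverse_reverse, gam_head, pairsL_range, List.length_map,
      List.length_range, List.length_replicate, udrop_eq, List.length_replicate, gam_drop_all]
    constructor
    · rintro ⟨⟨a1, a2, -⟩, a3, a4⟩
      refine ⟨s, a2.symm, a1, a3, ?_⟩
      intro i hj hi
      have := a4 i hj hi
      have hc : cut x (List.replicate (st (i + 1)) ()) = List.replicate (st (i + 1)) () := by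
        apply cut_eq
        rw [List.length_replicate]
        refine le_trans (Nat.pow_le_pow_right (by omega) ?_) hx
        rw [← a2]
        exact st_mono.monotone (by omega)
      rw [← hc]
      exact this
    · rintro ⟨s', rfl, a1, a3, a4⟩
      have hs : s' = s := by
        have b1 : s ≤ s' := st_mono.le_iff_le.mp h1
        have b2 : s' < s + 1 := st_mono.lt_iff_lt.mp h2
        omega
      subst hs
      refine ⟨⟨a1, rfl, h8⟩, a3, ?_⟩
      intro i hj hi
      have hc : cut x (List.replicate (st (i + 1)) ()) = List.replicate (st (i + 1)) () := by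
        apply cut_eq
        rw [List.length_replicate]
        refine le_trans (Nat.pow_le_pow_right (by omega) ?_) hx
        exact st_mono.monotone (by omega)
      show acc O S own kk (List.replicate (st i) ()) (cut x (List.replicate (st (i + 1)) ())) = true
      rw [hc]
      exact a4 i hj hi
  · constructor
    · rintro ⟨⟨-, -, a⟩, -⟩
      exact absurd a h8
    · rintro ⟨s, rfl, -⟩
      exact absurd (by have := lt_st s; omega) h8

theorem gam_any_range (n : ℕ) (P : List Unit → Bool) :
    (rangeU (List.replicate n ())).any P = true ↔ ∃ i, i < n ∧ P (List.replicate i ()) = true := by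
  rw [rangeU_replicate, List.any_eq_true]
  constructor
  · rintro ⟨x, hx, hP⟩
    obtain ⟨i, hi, rfl⟩ := List.mem_map.mp hx
    exact ⟨i, List.mem_range.mp hi, hP⟩
  · rintro ⟨i, hi, hP⟩
    exact ⟨_, List.mem_map.mpr ⟨i, List.mem_range.mpr hi, rfl⟩, hP⟩

theorem gam_eqT {σ : Fm} {l j : ℕ} (hx : 2 ^ l ≤ σ.enc.length) :
    eqT σ.enc (encT (thT (cut σ.enc (List.replicate l ())) (List.replicate j ()))) = true ↔
      σ = thF l j := by
  rw [cut_eq (by rw [List.length_replicate]; exact hx), eqT_bits, thT_eq, encT_fm]
  constructor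
  · intro h
    exact (enc_inj (a := []) (b := []) (by rw [List.append_nil, List.append_nil, h])).1
  · rintro rfl
    rfl

theorem gam_wt {T : Th} {J j : ℕ} :
    J + ((cEnc T.1).length + (cEnc T.1).length) + (List.replicate T.2 ()).length ≤ j ↔
      J + wt T ≤ j := by
  rw [List.length_replicate]
  unfold wt
  omega

theorem gameB_iff {S T : Th} {J : ℕ} {σ : Fm} :
    gameB O S J (cEnc T.1) (List.replicate T.2 ()) σ.enc = true ↔
      ∃ s j : ℕ, J + wt T ≤ j ∧ j ≤ s ∧ σ = thF (st s) j ∧ Played O S T j s := by
  unfold gameB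
  rw [ulen_eq, gam_any_range, Nat.size_eq_bits_len]
  constructor
  · rintro ⟨l, hl, h⟩
    rw [gam_any_range] at h
    obtain ⟨j, hj, h⟩ := h
    rw [Nat.lt_size] at hl
    rw [Bool.and_eq_true, gam_eqT hl, gam_play hl] at h
    obtain ⟨h1, s, rfl, h2, h3, h4⟩ := h
    exact ⟨s, j, gam_wt.mp h2, h3, h1, h4⟩
  · rintro ⟨s, j, h1, h2, h3, h4⟩
    have hs := lt_st s
    have hl : 2 ^ st s ≤ σ.enc.length := by
      rw [h3]
      exact (thF_len (by omega) (by omega)).1
    refine ⟨st s, Nat.lt_size.mpr hl, ?_⟩
    rw [gam_any_range]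
    refine ⟨j, by omega, ?_⟩
    rw [Bool.and_eq_true, gam_eqT hl, gam_play hl]
    exact ⟨h3, s, rfl, gam_wt.mpr h1, h2, h4⟩

end Pool.Agent.RO
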