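import Pool.Agent.Lib_helper78.RF.F.FNA
import Pool.Agent.Lib_helper78.RF.F.FNB
import Pool.Agent.Lib_helper78.RO.Defs
import Pool.Agent.Lib_helper78.RO.F.STG

set_option autoImplicit false

namespace Pool.Agent.RO

open Pool.Agent.CK Pool.Agent.RF Pool.Agent.CKP

variable {O : Lang}

theorem growth_st : ∃ s0, ∀ s, s0 ≤ s → ∀ L : ℕ, (Nat.size L) ^ 7 ≤ 2 ^ (3 * st s + 13) - 2 →
    1000 * (L + 1) ^ 3 ≤ st (s + 1) := by
  refine ⟨60, fun s hs L hL => ?_⟩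
  obtain ⟨k, hk⟩ : ∃ k, k = st s / 2 := ⟨_, rfl⟩
  have he := st_even s
  have hl := lt_st s
  have hk2 : st s = 2 * k := by omega
  have hk30 : 30 ≤ k := by omega
  have hst : st (s + 1) = 2 ^ 2 ^ k := by rw [hk]; rfl
  rw [hk2] at hL
  -- size bound
  have hsz : 3 * Nat.size L + 10 ≤ 2 ^ k := by
    by_contra hcon
    push Not at hcon
    have h1 : 2 ^ (k - 2) ≤ Nat.size L := by
      have h2 : 2 ^ k = 4 * 2 ^ (k - 2) := by
        rw [show (4 : ℕ) = 2 ^ 2 by norm_num, ← pow_add]; congr 1; omega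
      have h3 : 2 ^ 5 ≤ 2 ^ (k - 2) := Nat.pow_le_pow_right (by norm_num) (by omega)
      norm_num at h3
      omega
    have h4 : (2 ^ (k - 2)) ^ 7 ≤ (Nat.size L) ^ 7 := Nat.pow_le_pow_left h1 7
    rw [← pow_mul] at h4
    have h5 : 2 ^ (3 * (2 * k) + 13) ≤ 2 ^ ((k - 2) * 7) :=
      Nat.pow_le_pow_right (by norm_num) (by omega)
    have h6 : 2 ≤ 2 ^ (3 * (2 * k) + 13) := by
      calc 2 = 2 ^ 1 := by norm_num
        _ ≤ _ := Nat.pow_le_pow_right (by norm_num) (by omega)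
    omega
  have hLs : L + 1 ≤ 2 ^ Nat.size L := Nat.lt_size_self L
  have h7 : (L + 1) ^ 3 ≤ (2 ^ Nat.size L) ^ 3 := Nat.pow_le_pow_left hLs 3
  rw [← pow_mul] at h7
  rw [hst]
  calc 1000 * (L + 1) ^ 3 ≤ 2 ^ 10 * 2 ^ (Nat.size L * 3) :=
        Nat.mul_le_mul (by norm_num) h7
    _ = 2 ^ (10 + Nat.size L * 3) := by rw [pow_add]
    _ ≤ 2 ^ 2 ^ k := Nat.pow_le_pow_right (by norm_num) (by omega)

theorem gro_pow (c : ℕ) : ∃ t0 : ℕ, ∀ t, t0 ≤ t → (c * t + c + 1) ^ 7 ≤ 2 ^ (t - 1) := by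
  have h := tendsto_pow_const_div_const_pow_of_one_lt 7 (r := (2 : ℝ)) (by norm_num)
  have h2 : (0 : ℝ) < 1 / (2 * (2 * c + 1) ^ 7) := by positivity
  obtain ⟨t0, ht0⟩ := (h.eventually (gt_mem_nhds h2)).exists_forall_of_atTop
  refine ⟨t0 + 1, fun t ht => ?_⟩
  have h3 := ht0 t (by omega)
  rw [div_lt_div_iff₀ (by positivity) (by positivity)] at h3
  have h4 : (c * t + c + 1 : ℕ) ≤ (2 * c + 1) * t := by nlinarith [Nat.zero_le c, ht]
  have h5 : ((c * t + c + 1 : ℕ) : ℝ) ^ 7 ≤ ((2 * c + 1) * t : ℝ) ^ 7 := by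
    apply pow_le_pow_left₀ (by positivity)
    exact_mod_cast h4
  have h6 : ((2 : ℝ) ^ t) = 2 * 2 ^ (t - 1) := by
    rw [← pow_succ']; congr 1; omega
  rw [h6] at h3
  have h7 : ((c * t + c + 1 : ℕ) : ℝ) ^ 7 ≤ 2 ^ (t - 1) := by
    rw [mul_pow] at h5
    nlinarith [h5, h3]
  exact_mod_cast h7

theorem not_bounded {S : Th} {Φ : ℕ → Fm}
    (h : ∀ m, ∃ n, m ≤ n ∧ ∀ l : List Fm, IsProof (Ax O S) (l ++ [Φ n]) →
      n < (Nat.size (pEnc (l ++ [Φ n])).length) ^ 7) : ¬ PolyBounded O S Φ := by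
  rintro ⟨c, hc⟩
  obtain ⟨t0, ht0⟩ := gro_pow c
  obtain ⟨n, hn, hl⟩ := h (2 ^ t0)
  obtain ⟨l, hl1, hl2⟩ := hc n
  have h1 := hl l hl1
  have hn0 : 0 < n := lt_of_lt_of_le (by positivity) hn
  -- t = size n
  have ht : t0 < Nat.size n := Nat.lt_size.mpr hn
  have h2 : 2 ^ (Nat.size n - 1) ≤ n := Nat.lt_size.mp (by omega)
  have h3 : n < 2 ^ Nat.size n := Nat.lt_size_self n
  have h4 : Nat.size (pEnc (l ++ [Φ n])).length ≤ c * Nat.size n + c + 1 := by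
    rw [Nat.size_le]
    have h5 : n ^ c ≤ 2 ^ (c * Nat.size n) := by
      calc n ^ c ≤ (2 ^ Nat.size n) ^ c := Nat.pow_le_pow_left h3.le c
        _ = _ := by rw [← pow_mul, mul_comm]
    have h6 : c < 2 ^ c := Nat.lt_two_pow_self
    have h7 : 2 ^ (c * Nat.size n) ≤ 2 ^ (c * Nat.size n + c) :=
      Nat.pow_le_pow_right (by norm_num) (by omega)
    have h8 : 2 ^ c ≤ 2 ^ (c * Nat.size n + c) :=
      Nat.pow_le_pow_right (by norm_num) (by omega)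
    rw [pow_succ]
    omega
  have h5 := Nat.pow_le_pow_left h4 7
  have h6 := ht0 (Nat.size n) (by omega)
  omega

end Pool.Agent.RO
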