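import Pool.Agent.Lib_helper78.RF.F.FNA
import Pool.Agent.Lib_helper78.RF.F.FNB
import Pool.Agent.Lib_helper78.RO.Defs

/-!
# Random oracles (MP_5c38ab_lc), block QUI: the recursion theorem
-/

set_option autoImplicit false
set_option linter.unusedVariables false

namespace Pool.Agent.RO

open Pool.Agent.CK Pool.Agent.RF Pool.Agent.CKP

variable {O : Lang} {γ : Type} [ToD γ]

/-- the code of `pushAll 0 w` -/
def qui_pq (w : List Bool) : List Bool :=
  w.flatMap (fun _ => tag 3) ++ (false :: w.reverse.flatMap (fun b => [true, false, false, b]))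

theorem qui_pq_eq : ∀ w : List Bool, cEnc (pushAll 0 w) = qui_pq w
  | [] => rfl
  | b :: w => by
    have h : cEnc (pushAll 0 (b :: w)) =
        tag 3 ++ (cEnc (pushAll 0 w) ++ (tag 1 ++ (tag 0 ++ [b]))) := rfl
    rw [h, qui_pq_eq w]
    unfold qui_pq
    simp [tag]

/-- the code of the program with the advice `a` -/
def qui_code (a : List Bool × List Unit) : List Bool :=
  tag 3 ++ (cEnc toDP ++ (tag 3 ++ (qui_pq (true :: (toD a).enc) ++ a.1)))

theorem qui_code_ptime : PTime O qui_code := by
  have h1 : PTime O (fun a : List Bool × List Unit => true :: (toD a).enc) :=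
    PTime.cons (PTime.const true) (PTime.enc (PTime.code PTime.id))
  have h2 : PTime O (fun a : List Bool × List Unit =>
      (true :: (toD a).enc).flatMap (fun _ => tag 3)) :=
    PTime.flatMap (f := fun _ _ => tag 3) h1 (PTime.const _)
  have h3 : PTime O (fun a : List Bool × List Unit =>
      (true :: (toD a).enc).reverse.flatMap (fun b => [true, false, false, b])) :=
    PTime.flatMap (f := fun _ b => [true, false, false, b]) (PTime.reverse h1)
      (PTime.cons (PTime.const _) (PTime.cons (PTime.const _) (PTime.cons (PTime.const _)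
        (PTime.cons PTime.id.snd (PTime.const _)))))
  exact PTime.append (PTime.const _) (PTime.append (PTime.const _) (PTime.append (PTime.const _)
    (PTime.append (PTime.append h2 (PTime.cons (PTime.const _) h3)) PTime.id.fst)))

/-- the program with the advice `a` -/
def qui_prog (p : Cmd) (k : ℕ) : Cmd :=
  .seq toDP (.seq (pushAll 0 (true :: (toD (cEnc p, List.replicate k ())).enc)) p)

theorem qui_prog_code (p : Cmd) (k : ℕ) :
    cEnc (qui_prog p k) = qui_code (cEnc p, List.replicate k ()) := by
  have h : cEnc (qui_prog p k) = tag 3 ++ (cEnc toDP ++ (tag 3 ++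
    (cEnc (pushAll 0 (true :: (toD (cEnc p, List.replicate k ())).enc)) ++ cEnc p))) := rfl
  rw [h, qui_pq_eq]
  rfl

theorem qui_exists_k (e : ℕ) : ∃ k : ℕ, ∀ n : ℕ, (n + k + 2) ^ e ≤ (n + 2) ^ k := by
  set j : ℕ := 2 * e + 4 with hj
  have h1 : e + 1 ≤ 2 ^ e := Nat.lt_two_pow_self
  have h2 : 2 ^ j = 2 ^ e * 2 ^ e * 16 := by
    rw [hj, pow_add, two_mul, pow_add]
    norm_num
  have h3 : e * (j + 1) + 1 ≤ 2 ^ j := by
    rw [h2, hj]
    nlinarith [Nat.mul_le_mul h1 h1]
  refine ⟨2 ^ j - 1, fun n => ?_⟩
  set k : ℕ := 2 ^ j - 1 with hk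
  have h4 : k + 1 = 2 ^ j := by
    have : 0 < 2 ^ j := by positivity
    omega
  have h5 : e * (j + 1) ≤ k := by omega
  have h6 : e ≤ k := by nlinarith
  have h7 : n + k + 2 ≤ (n + 2) * (k + 1) := by nlinarith
  calc (n + k + 2) ^ e ≤ ((n + 2) * (k + 1)) ^ e := Nat.pow_le_pow_left h7 e
    _ = (n + 2) ^ e * (k + 1) ^ e := mul_pow _ _ _
    _ ≤ (n + 2) ^ e * (n + 2) ^ (k - e) := by
        apply Nat.mul_le_mul_left
        rw [h4, ← pow_mul]
        calc 2 ^ (j * e) ≤ 2 ^ (k - e) := by
              apply Nat.pow_le_pow_right (by norm_num)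
              have : j * e + e = e * (j + 1) := by ring
              omega
          _ ≤ (n + 2) ^ (k - e) := Nat.pow_le_pow_left (by omega) _
    _ = (n + 2) ^ k := by
        rw [← pow_add]
        congr 1
        omega

theorem quine {V : (List Bool × List Unit) × List Bool → Bool} (hV : PTime O V) :
    ∃ T : Th, ∀ x : List Bool, Halts O T.1 x [] ((x.length + 2) ^ T.2) ∧
      (Accepts O T.1 x [] ((x.length + 2) ^ T.2) ↔
        V ((cEnc T.1, List.replicate T.2 ()), x) = true) := by
  have hV' : PTime O (fun q : (List Bool × List Unit) × List Bool =>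
      V ((qui_code q.1, q.1.2), q.2)) :=
    hV.comp (((qui_code_ptime.comp PTime.id.fst).pair (PTime.id.fst.snd)).pair PTime.id.snd)
  obtain ⟨F, ⟨p, m, P, hp, hm, h⟩, hF⟩ := hV'
  set c0 : ℕ := (toD (cEnc p)).size with hc0
  obtain ⟨e, he⟩ := exists_pow (20 * Polynomial.X + Polynomial.C (2 * c0 + 25) +
    P.comp (4 * Polynomial.X + Polynomial.C (c0 + 5)))
  obtain ⟨k, hk⟩ := qui_exists_k e
  refine ⟨(qui_prog p k, k), fun x => ?_⟩
  simp only
  set a : List Bool × List Unit := (cEnc p, List.replicate k ()) with ha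
  have hsa : (toD a).size = c0 + (2 * k + 1) + 1 := by
    rw [ha]
    show (toD (cEnc p)).size + (toD (List.replicate k ())).size + 1 = _
    rw [size_units]
  have e1 := toDP_ex (O := O) x (init x []) rfl rfl
  have e2 := pushAll_ex (O := O) 0 (true :: (toD a).enc)
    (Function.update (init x []) 0 (toD x).enc)
  set σ2 : Store := Function.update (Function.update (init x []) 0 (toD x).enc) 0
    (true :: (toD a).enc ++ Function.update (init x []) 0 (toD x).enc 0) with hσ2
  have h20 : σ2 0 = (toD (a, x)).enc := by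
    rw [hσ2]
    simp only [Function.update_self]
    rfl
  have e3 : Ex O p σ2 (Function.update σ2 0 (F (toD (a, x))).enc) (P.eval (toD (a, x)).size) :=
    h (toD (a, x)) σ2 ⟨(a, x), rfl⟩ h20 (fun r hr _ => by
      rw [hσ2, Function.update_of_ne (by omega), Function.update_of_ne (by omega), init_nil x r hr])
  obtain ⟨t, ht, hex⟩ := e1.seq (e2.seq e3)
  have hT : t ≤ (x.length + 2) ^ k := by
    refine ht.trans (le_trans ?_ (hk x.length))
    refine le_trans ?_ (he (x.length + k))
    have g1 : (true :: (toD a).enc).length = c0 + 2 * k + 3 := by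
      rw [List.length_cons, D.enc_length, hsa]
      ring
    have g2 : (toD (a, x)).size ≤ 4 * (x.length + k) + (c0 + 5) := by
      have g3 : (toD (a, x)).size = (toD a).size + (toD x).size + 1 := rfl
      have g4 := size_bits x
      omega
    have g3 := poly_mono P g2
    simp only [Polynomial.eval_comp, Polynomial.eval_add, Polynomial.eval_mul,
      Polynomial.eval_ofNat, Polynomial.eval_X, Polynomial.eval_C]
    rw [g1]
    omega
  have hrun := hex.run hT
  have hrun' : run O (qui_prog p k) x [] ((x.length + 2) ^ k) =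
      ([], Function.update σ2 0 (F (toD (a, x))).enc) := hrun
  unfold Halts Accepts
  rw [hrun']
  refine ⟨rfl, ?_⟩
  simp only [true_and, Function.update_self]
  rw [hF]
  rw [qui_prog_code p k, ← ha]
  simp only
  have ha2 : a.2 = List.replicate k () := rfl
  rw [← ha2]
  cases V ((qui_code a, a.2), x) <;> simp [ToD.toD, D.enc]

end Pool.Agent.RO

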