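import Pool.Agent.Lib_helper78.RF.F.FNA
import Pool.Agent.Lib_helper78.RF.F.FNB
import Pool.Agent.Lib_helper78.RO.Defs
import Pool.Agent.Lib_helper78.RO.F.STR
import Pool.Agent.Lib_helper78.RO.F.THA

/-!
# Random oracles (MP_5c38ab_lc): block THB (short refutations of the false sentences of the game)
-/

set_option autoImplicit false

namespace Pool.Agent.RO

open Pool.Agent.CK Pool.Agent.RF Pool.Agent.CKP

variable {O : Lang}

/-- the bits of `y` have the right length if and only if the number is between the bounds -/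
theorem len_val {y : List Bool} {n : ℕ} (h : y.length = n) :
    val (List.replicate n false) ≤ val y ∧ val y ≤ val (List.replicate n true) := by
  have h3 := tha_val_false n
  have h4 := tha_val_true n
  obtain ⟨h5, h6⟩ := VAL_bounds y
  rw [h] at h5 h6
  constructor <;> omega

/-- the instance of `chF` at the number of `y` -/
def thb_ch (y : List Bool) (W : List (List Bool)) : Fm :=
  W.foldr (fun w φ => .imp (.orc (num (val (true :: (w ++ y))))) φ) falsum

theorem thb_tw_sb (w : List Bool) (t : Tm) : (twF w (Tm.var 5)).sb 5 t = twF w t := by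
  induction w with
  | nil => simp [twF, Tm.sb]
  | cons b w ih =>
    cases b with
    | true => simp only [twF, Tm.sb, ih]
    | false => simp only [twF, Tm.sb, ih]

theorem thb_ch_sb (y : List Bool) (W : List (List Bool)) :
    (chF W).sb 5 (num (val y)) = thb_ch y W := by
  induction W with
  | nil => rfl
  | cons w W ih =>
    show Fm.imp (Fm.orc ((twF (true :: w) (Tm.var 5)).sb 5 (num (val y))))
      ((chF W).sb 5 (num (val y))) = _
    rw [ih, thb_tw_sb, twF_num]
    rfl

theorem thb_ch_ok (t : Tm) (W : List (List Bool)) : (chF W).Ok 5 t := by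
  induction W with
  | nil => exact trivial
  | cons w W ih => exact ⟨trivial, ih⟩

theorem thb_ch_len {l : ℕ} (y : List Bool) (W : List (List Bool)) (h : ∀ w ∈ W, w.length ≤ l) :
    (thb_ch y W).enc.length ≤ W.length * (21 * (l + y.length) + 33) + 11 := by
  induction W with
  | nil => simp [thb_ch, falsum, Fm.enc, Tm.enc, VAL_tag_len]
  | cons w W ih =>
    have i1 := ih (fun w' hw' => h w' (List.mem_cons_of_mem _ hw'))
    have h1 := tha_num_len (true :: (w ++ y))
    have h3 := h w List.mem_cons_self
    have e : (thb_ch y (w :: W)).enc.length =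
        10 + (num (val (true :: (w ++ y)))).enc.length + (thb_ch y W).enc.length := by
      show (tag 6 ++ ((tag 2 ++ (num (val (true :: (w ++ y)))).enc) ++ (thb_ch y W).enc)).length = _
      simp only [List.length_append, VAL_tag_len]
      omega
    rw [e]
    simp only [List.length_cons, List.length_append] at h1 ⊢
    have : (W.length + 1) * (21 * (l + y.length) + 33) =
        W.length * (21 * (l + y.length) + 33) + (21 * (l + y.length) + 33) := by ring
    rw [this]
    omega

theorem thb_penc (l : List Fm) (φ : Fm) :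
    (pEnc (l ++ [φ])).length = (pEnc l).length + φ.enc.length := by
  simp [pEnc]

theorem thb_chain {A : Fm → Prop} {y : List Bool} {C : ℕ}
    (horc : ∀ x : List Bool, O x = true → A (.orc (num (val x)))) (W : List (List Bool))
    (hW : ∀ w ∈ W, O (true :: (w ++ y)) = true) (hC : (thb_ch y W).enc.length ≤ C)
    (l0 : List Fm) (hl : IsProof A (l0 ++ [thb_ch y W])) :
    ∃ l', IsProof A (l' ++ [falsum]) ∧ (pEnc (l' ++ [falsum])).length ≤
      (pEnc (l0 ++ [thb_ch y W])).length + W.length * C := by
  induction W generalizing l0 with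
  | nil => exact ⟨l0, hl, by simp [thb_ch]⟩
  | cons w W ih =>
    have e : (thb_ch y (w :: W)).enc.length =
        10 + (num (val (true :: (w ++ y)))).enc.length + (thb_ch y W).enc.length := by
      show (tag 6 ++ ((tag 2 ++ (num (val (true :: (w ++ y)))).enc) ++ (thb_ch y W).enc)).length = _
      simp only [List.length_append, VAL_tag_len]
      omega
    have e2 : (Fm.orc (num (val (true :: (w ++ y))))).enc.length =
        3 + (num (val (true :: (w ++ y)))).enc.length := by
      simp only [Fm.enc, List.length_append, VAL_tag_len]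
    have h1 : IsProof A ((l0 ++ [thb_ch y (w :: W)]) ++
        [Fm.orc (num (val (true :: (w ++ y))))]) :=
      prv_snoc hl (Or.inr (Or.inl (horc _ (hW w List.mem_cons_self))))
    have h2 : IsProof A (((l0 ++ [thb_ch y (w :: W)]) ++
        [Fm.orc (num (val (true :: (w ++ y))))]) ++ [thb_ch y W]) := by
      refine prv_snoc h1 (Or.inr (Or.inr ⟨Fm.orc (num (val (true :: (w ++ y)))), ?_, ?_⟩))
      · simp
      · have : Fm.imp (Fm.orc (num (val (true :: (w ++ y))))) (thb_ch y W) =
            thb_ch y (w :: W) := rfl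
        rw [this]
        simp
    obtain ⟨l', h3, h4⟩ := ih (fun w' hw' => hW w' (List.mem_cons_of_mem _ hw')) (by omega) _ h2
    refine ⟨l', h3, h4.trans ?_⟩
    rw [thb_penc, thb_penc, e2, List.length_cons]
    have : (W.length + 1) * C = W.length * C + C := by ring
    rw [this]
    omega

/-- a false sentence of the game is refuted shortly from the diagram -/
theorem thF_refute {A : Fm → Prop} {l j : ℕ} {y : List Bool} (hA : A (thF l j))
    (hle : ∀ a b : ℕ, a ≤ b → A (.le (num a) (num b)))
    (horc : ∀ x : List Bool, O x = true → A (.orc (num (val x)))) (h8 : 8 ≤ l)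
    (hy : y.length + 1 + j = 2 ^ (l + 1)) (hb : Bad O l y) :
    ∃ l', IsProof A (l' ++ [falsum]) ∧ (pEnc (l' ++ [falsum])).length ≤ 2 ^ (3 * l + 12) := by
  have hn : y.length = 2 ^ (l + 1) - 1 - j := by omega
  obtain ⟨v1, v2⟩ := len_val hn
  set a := num (val (List.replicate (2 ^ (l + 1) - 1 - j) false)) with ha
  set b := num (val (List.replicate (2 ^ (l + 1) - 1 - j) true)) with hb'
  set t := num (val y) with ht
  set W := upTo (List.replicate l ()) with hWdef
  have hW : ∀ w ∈ W, w.length ≤ l := fun w hw => by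
    have := mem_upTo.1 hw
    rwa [List.length_replicate] at this
  set body : Fm := .imp (.le a (.var 5)) (.imp (.le (.var 5) b) (chF W)) with hbody
  have hthF : thF l j = .all 5 body := rfl
  have hsb : body.sb 5 t = .imp (.le a t) (.imp (.le t b) (thb_ch y W)) := by
    have s1 : a.sb 5 t = a := SUB_tm_sb (num_has _ _)
    have s2 : b.sb 5 t = b := SUB_tm_sb (num_has _ _)
    have s3 : (Tm.var 5).sb 5 t = t := by simp [Tm.sb]
    show Fm.imp (.le (a.sb 5 t) ((Tm.var 5).sb 5 t))
      (.imp (.le ((Tm.var 5).sb 5 t) (b.sb 5 t)) ((chF W).sb 5 t)) = _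
    rw [s1, s2, s3, ht, thb_ch_sb]
  have hok : body.Ok 5 t := ⟨trivial, trivial, thb_ch_ok t W⟩
  -- the proof
  have p1 : IsProof A ([] ++ [Fm.all 5 body]) :=
    prv_snoc (prv_nil A) (Or.inr (Or.inl (hthF ▸ hA)))
  have p2 : IsProof A (([] ++ [Fm.all 5 body]) ++ [Fm.imp (Fm.all 5 body) (body.sb 5 t)]) :=
    prv_snoc p1 (Or.inl (Logical.inst 5 body t hok))
  rw [hsb] at p2
  have p3 := prv_snoc (φ := .imp (.le a t) (.imp (.le t b) (thb_ch y W))) p2
    (Or.inr (Or.inr ⟨Fm.all 5 body, by simp, by simp⟩))
  have p4 := prv_snoc (φ := .le a t) p3 (Or.inr (Or.inl (hle _ _ v1)))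
  have p5 := prv_snoc (φ := .imp (.le t b) (thb_ch y W)) p4
    (Or.inr (Or.inr ⟨Fm.le a t, by simp, by simp⟩))
  have p6 := prv_snoc (φ := .le t b) p5 (Or.inr (Or.inl (hle _ _ v2)))
  have p7 := prv_snoc (φ := thb_ch y W) p6
    (Or.inr (Or.inr ⟨Fm.le t b, by simp, by simp⟩))
  obtain ⟨l', h1, h2⟩ := thb_chain horc W (fun w hw => hb w (hW w hw)) le_rfl _ p7
  refine ⟨l', h1, h2.trans ?_⟩
  -- lengths
  have c1 := (tha_thF_len (l := l) (j := j) h8).2
  rw [hthF] at c1
  have c2 := thb_ch_len y W hW
  have c3 : W.length = 2 ^ (l + 1) - 1 := by rw [hWdef, upTo_length, List.length_replicate]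
  have c4 := tha_num_len (List.replicate (2 ^ (l + 1) - 1 - j) false)
  have c5 := tha_num_len (List.replicate (2 ^ (l + 1) - 1 - j) true)
  have c6 := tha_num_len y
  rw [List.length_replicate, ← ha] at c4
  rw [List.length_replicate, ← hb'] at c5
  rw [← ht] at c6
  have d1 : (Fm.imp (Fm.all 5 body) (.imp (.le a t) (.imp (.le t b) (thb_ch y W)))).enc.length =
      7 + (Fm.all 5 body).enc.length +
        (Fm.imp (.le a t) (.imp (.le t b) (thb_ch y W))).enc.length := by
    simp only [Fm.enc, List.length_append, VAL_tag_len]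
    omega
  have d2 : (Fm.imp (.le a t) (.imp (.le t b) (thb_ch y W))).enc.length =
      9 + a.enc.length + t.enc.length + (Fm.imp (.le t b) (thb_ch y W)).enc.length := by
    simp only [Fm.enc, List.length_append, VAL_tag_len]
    omega
  have d3 : (Fm.imp (.le t b) (thb_ch y W)).enc.length =
      9 + t.enc.length + b.enc.length + (thb_ch y W).enc.length := by
    simp only [Fm.enc, List.length_append, VAL_tag_len]
    omega
  have d4 : (Fm.le a t).enc.length = 2 + a.enc.length + t.enc.length := by
    simp only [Fm.enc, List.length_append, VAL_tag_len]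
    omega
  have d5 : (Fm.le t b).enc.length = 2 + t.enc.length + b.enc.length := by
    simp only [Fm.enc, List.length_append, VAL_tag_len]
    omega
  have d0 : (pEnc ([] ++ [Fm.all 5 body])).length = (Fm.all 5 body).enc.length := by
    rw [thb_penc]
    simp [pEnc]
  rw [thb_penc, thb_penc, thb_penc, thb_penc, thb_penc, thb_penc, d0]
  generalize (Fm.imp (Fm.all 5 body) (.imp (.le a t) (.imp (.le t b) (thb_ch y W)))).enc.length
    = z1 at *
  generalize (Fm.imp (.le a t) (.imp (.le t b) (thb_ch y W))).enc.length = z2 at *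
  generalize (Fm.imp (.le t b) (thb_ch y W)).enc.length = z3 at *
  generalize (Fm.le a t).enc.length = z4 at *
  generalize (Fm.le t b).enc.length = z5 at *
  generalize (Fm.all 5 body).enc.length = F at *
  generalize (thb_ch y W).enc.length = X at *
  generalize a.enc.length = la at *
  generalize b.enc.length = lb at *
  generalize t.enc.length = lt at *
  rw [c3] at c2 ⊢
  have hl : l < 2 ^ l := Nat.lt_two_pow_self
  have hl8 : 256 ≤ 2 ^ l := by
    calc 256 = 2 ^ 8 := by norm_num
      _ ≤ 2 ^ l := Nat.pow_le_pow_right (by norm_num) h8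
  have hq : 2 ^ (2 * l + 8) = 256 * (2 ^ l * 2 ^ l) := by
    rw [← pow_add]
    have : 2 * l + 8 = 8 + (l + l) := by ring
    rw [this, pow_add]
    norm_num
  have hq3 : 2 ^ (3 * l + 12) = 4096 * (2 ^ l * (2 ^ l * 2 ^ l)) := by
    rw [← pow_add, ← pow_add]
    have : 3 * l + 12 = 12 + (l + (l + l)) := by ring
    rw [this, pow_add]
    norm_num
  have hp : 2 ^ (l + 1) = 2 * 2 ^ l := by ring
  rw [hq] at c1
  rw [hq3]
  rw [hp] at hy c2 c4 c5 ⊢
  generalize 2 ^ l = r at *
  have e1 : X ≤ 128 * (r * r) := by
    have f1 : (2 * r - 1) * (21 * (l + y.length) + 33) ≤ 2 * r * (63 * r + 33) := by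
      apply Nat.mul_le_mul
      · omega
      · omega
    have f2 : 2 * r * (63 * r + 33) = 126 * (r * r) + 66 * r := by ring
    have f3 : 256 * r ≤ r * r := Nat.mul_le_mul_right _ hl8
    rw [f2] at f1
    generalize (2 * r - 1) * (21 * (l + y.length) + 33) = f4 at *
    generalize r * r = r2 at *
    omega
  have e2 : (2 * r - 1) * X ≤ 2 * r * (128 * (r * r)) := Nat.mul_le_mul (by omega) e1
  have e3 : r * r ≤ r * (r * r) := by
    have : 1 * (r * r) ≤ r * (r * r) := Nat.mul_le_mul_right _ (by omega)
    omega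
  have e4 : 256 * r ≤ r * r := Nat.mul_le_mul_right _ hl8
  have e5 : 2 * r * (128 * (r * r)) = 256 * (r * (r * r)) := by ring
  rw [e5] at e2
  generalize (2 * r - 1) * X = Y at *
  generalize r * (r * r) = r3 at *
  generalize r * r = r2 at *
  omega

end Pool.Agent.RO
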