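import Pool.Agent.Lib_helper78.RF.F.FNA
import Pool.Agent.Lib_helper78.RF.F.FNB
import Pool.Agent.Lib_helper78.RO.Defs
import Pool.Agent.Lib_helper78.RO.F.ACP
import Pool.Agent.Lib_helper78.RO.F.ACS
import Pool.Agent.Lib_helper78.RO.F.FAL
import Pool.Agent.Lib_helper78.RO.F.GAM
import Pool.Agent.Lib_helper78.RO.F.GRO
import Pool.Agent.Lib_helper78.RO.F.QUI
import Pool.Agent.Lib_helper78.RO.F.STG
import Pool.Agent.Lib_helper78.RO.F.THA
import Pool.Agent.Lib_helper78.RO.F.THB

set_option autoImplicit false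
set_option linter.unusedVariables false

namespace Pool.Agent.RO

open Pool.Agent.CK Pool.Agent.RF Pool.Agent.CKP

variable {O : Lang}

/-- a theory that has a false sentence of the game as an axiom -/
theorem fin_false {B : Fm → Prop} (hB : BaseD O B) {S T : Th} (hS : InT O B S)
    (hT : ∀ σ, B σ → Ax O T σ) {s j : ℕ} {y : List Bool}
    (hax : Ax O T (thF (st s) j)) (hy : y.length + 1 + j = 2 ^ (st s + 1)) (hb : Bad O (st s) y)
    (hacc : AccS O S T s) : False := by
  have h8 : 8 ≤ st s := by have := lt_st s; omega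
  obtain ⟨l', hl', hlen⟩ := thF_refute (O := O) (A := Ax O T) hax
    (fun a b hab => hT _ (hB.leD a b hab)) (fun x hx => hT _ (hB.orcD x hx)) h8 hy hb
  have hn : (pEnc (l' ++ [falsum])).length + 4000 ≤ 2 ^ (3 * st s + 13) - 2 := by
    have h1 : 2 ^ (3 * st s + 13) = 2 * 2 ^ (3 * st s + 12) := by
      rw [show 3 * st s + 13 = (3 * st s + 12) + 1 from rfl, pow_succ]; ring
    have h2 : 2 ^ 13 ≤ 2 ^ (3 * st s + 12) := Nat.pow_le_pow_right (by norm_num) (by omega)
    rw [h1]
    norm_num at h2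
    omega
  obtain ⟨hc, hr⟩ := proof_false hl' hn
  rcases acc_proof hS.halts hacc with h | h
  · have h1 : ¬ (RFN T (2 ^ (3 * st s + 13) - 2)).True O := fun hh =>
      hr ((holds_RFN O (fun _ => 0) T _).mp (hh _))
    exact hS.cons (prv_bot h (prv_mono hS.ext (hB.refRFN T _ h1)))
  · have h1 : ¬ (Con T (2 ^ (3 * st s + 13) - 2)).True O := fun hh =>
      hc ((holds_Con O (fun _ => 0) T _).mp (hh _))
    exact hS.cons (prv_bot h (prv_mono hS.ext (hB.refCon T _ h1)))

theorem good_main (hO : Good O) {B : Fm → Prop} (hB : BaseD O B) {S : Th} (hS : InT O B S) :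
    ∃ T, InT O B T ∧ ∀ m, ∃ n, m ≤ n ∧ ∀ l : List Fm,
      (IsProof (Ax O S) (l ++ [RFN T n]) →
        n < (Nat.size (pEnc (l ++ [RFN T n])).length) ^ 7) ∧
      (IsProof (Ax O S) (l ++ [Con T n]) →
        n < (Nat.size (pEnc (l ++ [Con T n])).length) ^ 7) := by
  obtain ⟨b, hbh, hb⟩ := hB.dec
  obtain ⟨J, -, hJ⟩ := hO.ev S 0
  obtain ⟨T, hT⟩ := quine (PTime_decB (O := O) b S J)
  have hax : ∀ σ, Ax O T σ ↔ B σ ∨ ∃ s j : ℕ, J + wt T ≤ j ∧ j ≤ s ∧ σ = thF (st s) j ∧
      Played O S T j s := by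
    intro σ
    unfold Ax
    rw [(hT σ.enc).2]
    unfold decB
    rw [Bool.or_eq_true, gameB_iff, accU_iff, List.length_replicate]
    exact or_congr (hb σ) Iff.rfl
  have hext : ∀ σ, B σ → Ax O T σ := fun σ hσ => (hax σ).mpr (Or.inl hσ)
  have htrue : ∀ σ, Ax O T σ → σ.True O := by
    intro σ hσ
    rcases (hax σ).mp hσ with h | ⟨s, j, hj, hjs, rfl, hp⟩
    · exact hB.isTrue σ h
    · apply thF_true (by have := lt_st s; omega)
      intro y hy hbad
      by_cases hacc : AccS O S T s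
      · exact fin_false hB hS hext hσ hy hbad hacc
      · exact hJ T ⟨s, j, y, hj, hjs, hy, hbad, hp, hacc⟩
  refine ⟨T, ⟨fun x => (hT x).1, hext, ?_, ?_⟩, ?_⟩
  · intro σ hσ
    rcases (hax σ).mp hσ with h | ⟨s, j, hj, hjs, rfl, hp⟩
    · exact hB.closed σ h
    · exact thF_closed _ _
  · intro h
    have h1 := sound htrue h (fun _ => 0)
    exact h1 rfl
  · by_contra hcon
    push Not at hcon
    obtain ⟨m, hm⟩ := hcon
    obtain ⟨s0, hs0⟩ := growth_st
    have hacc : ∀ s, max s0 m ≤ s → AccS O S T s := by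
      intro s hs
      have hs1 : s0 ≤ s := le_trans (le_max_left _ _) hs
      have hs2 : m ≤ s := le_trans (le_max_right _ _) hs
      have hN : m ≤ 2 ^ (3 * st s + 13) - 2 := by
        have h1 := lt_st s
        have h2 : 3 * st s + 13 < 2 ^ (3 * st s + 13) := Nat.lt_two_pow_self
        omega
      obtain ⟨l, hl⟩ := hm _ hN
      by_cases hp : IsProof (Ax O S) (l ++ [RFN T (2 ^ (3 * st s + 13) - 2)]) ∧
        (Nat.size (pEnc (l ++ [RFN T (2 ^ (3 * st s + 13) - 2)])).length) ^ 7 ≤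
          2 ^ (3 * st s + 13) - 2
      · exact proof_acc (Or.inl rfl) hp.1 (hs0 s hs1 _ hp.2)
      · have hq := hl (fun h1 => by
          by_contra h2
          exact hp ⟨h1, not_lt.mp h2⟩)
        exact proof_acc (Or.inr rfl) hq.1 (hs0 s hs1 _ hq.2)
    obtain ⟨s, hs, y, hy, hbad⟩ := hO.bad (max (J + wt T) (max s0 m)) (max (J + wt T) (max s0 m))
    have hplay : Played O S T (max (J + wt T) (max s0 m)) s := fun s' h1 _ =>
      hacc s' (le_trans (le_max_right _ _) h1)
    have hA : Ax O T (thF (st s) (max (J + wt T) (max s0 m))) :=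
      (hax _).mpr (Or.inr ⟨s, _, le_max_left _ _, hs, rfl, hplay⟩)
    exact fin_false hB hS hext hA hy hbad (hacc s (le_trans (le_max_right _ _) hs))

end Pool.Agent.RO
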