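import Pool.Agent.Lib_helper78.RF.F.FNA
import Pool.Agent.Lib_helper78.RF.F.FNB
import Pool.Agent.Lib_helper78.RO.DefsB
import Pool.Agent.Lib_helper78.RO.F.ENB
import Pool.Agent.Lib_helper78.RO.F.EQT
import Pool.Agent.Lib_helper78.RO.F.TDC
import Pool.Agent.Lib_helper78.RO.F.VLD

/-!
# Block IND: the axioms of arithmetic
-/

set_option autoImplicit false

namespace Pool.Agent.RO

open Pool.Agent.CK Pool.Agent.RF Pool.Agent.CKP

variable {O : Lang} {γ : Type} [ToD γ]

theorem ind_has {i : ℕ} : ∀ {t : Tm}, t.has i → tk 0 i ∈ tmT t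
  | .var j, h => by
    have h' : j = i := h
    subst h'
    exact List.mem_singleton.mpr rfl
  | .zero, h => False.elim h
  | .succ t, h => List.mem_cons_of_mem _ (ind_has (t := t) h)
  | .half t, h => List.mem_cons_of_mem _ (ind_has (t := t) h)
  | .len t, h => List.mem_cons_of_mem _ (ind_has (t := t) h)
  | .add s t, h => by
    refine List.mem_cons_of_mem _ (List.mem_append.mpr ?_)
    rcases h with h | h
    · exact Or.inl (ind_has h)
    · exact Or.inr (ind_has h)
  | .mul s t, h => by
    refine List.mem_cons_of_mem _ (List.mem_append.mpr ?_)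
    rcases h with h | h
    · exact Or.inl (ind_has h)
    · exact Or.inr (ind_has h)
  | .smash s t, h => by
    refine List.mem_cons_of_mem _ (List.mem_append.mpr ?_)
    rcases h with h | h
    · exact Or.inl (ind_has h)
    · exact Or.inr (ind_has h)
  | .sbn r s t, h => by
    refine List.mem_cons_of_mem _ (List.mem_append.mpr ?_)
    rcases h with h | h | h
    · exact Or.inl (ind_has h)
    · exact Or.inr (List.mem_append.mpr (Or.inl (ind_has h)))
    · exact Or.inr (List.mem_append.mpr (Or.inr (ind_has h)))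

theorem ind_free {i : ℕ} : ∀ {φ : Fm}, φ.free i → tk 0 i ∈ fmT φ
  | .eq s t, h => by
    refine List.mem_cons_of_mem _ (List.mem_append.mpr ?_)
    rcases h with h | h
    · exact Or.inl (ind_has h)
    · exact Or.inr (ind_has h)
  | .le s t, h => by
    refine List.mem_cons_of_mem _ (List.mem_append.mpr ?_)
    rcases h with h | h
    · exact Or.inl (ind_has h)
    · exact Or.inr (ind_has h)
  | .orc t, h => List.mem_cons_of_mem _ (ind_has (t := t) h)
  | .tr e x w z, h => by
    refine List.mem_cons_of_mem _ (List.mem_append.mpr ?_)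
    rcases h with h | h | h | h
    · exact Or.inl (ind_has h)
    · exact Or.inr (List.mem_append.mpr (Or.inl (ind_has h)))
    · exact Or.inr (List.mem_append.mpr (Or.inr (List.mem_append.mpr (Or.inl (ind_has h)))))
    · exact Or.inr (List.mem_append.mpr (Or.inr (List.mem_append.mpr (Or.inr (ind_has h)))))
  | .prf p z u v, h => by
    refine List.mem_cons_of_mem _ (List.mem_append.mpr ?_)
    rcases h with h | h | h | h
    · exact Or.inl (ind_has h)
    · exact Or.inr (List.mem_append.mpr (Or.inl (ind_has h)))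
    · exact Or.inr (List.mem_append.mpr (Or.inr (List.mem_append.mpr (Or.inl (ind_has h)))))
    · exact Or.inr (List.mem_append.mpr (Or.inr (List.mem_append.mpr (Or.inr (ind_has h)))))
  | .neg φ, h => List.mem_cons_of_mem _ (ind_free (φ := φ) h)
  | .imp φ ψ, h => by
    refine List.mem_cons_of_mem _ (List.mem_append.mpr ?_)
    rcases h with h | h
    · exact Or.inl (ind_free h)
    · exact Or.inr (ind_free h)
  | .all j φ, h => List.mem_cons_of_mem _ (ind_free (φ := φ) h.2)

theorem ind_unit_list (l : List Unit) : l = List.replicate l.length () := by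
  induction l with
  | nil => rfl
  | cons a t ih =>
    rw [List.length_cons, List.replicate_succ, ← ih]

theorem closedQ_fm (φ : Fm) : closedQ (fmT φ) = true ↔ φ.Closed := by
  unfold closedQ
  rw [Bool.not_eq_true', List.any_eq_false]
  constructor
  · intro h i hi
    apply h (tk 0 i) (ind_free hi)
    rw [Bool.and_eq_true]
    refine ⟨rfl, ?_⟩
    exact (frT_fm i φ).mpr hi
  · intro h t _ ht
    rw [Bool.and_eq_true] at ht
    rw [ind_unit_list t.2] at ht
    exact h _ ((frT_fm _ φ).mp ht.2)

theorem pindK_fm (i : ℕ) (ψ : Fm) :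
    pindK (List.replicate i ()) (fmT ψ) = fmT (pind i ψ) := by
  unfold pindK
  have h1 : sbT (List.replicate i ()) [tk 1 0] (fmT ψ) = fmT (ψ.sb i .zero) := sbT_fm i .zero ψ
  have h2 : sbT (List.replicate i ()) [tk 3 0, ([], List.replicate i ())] (fmT ψ) =
      fmT (ψ.sb i (.half (.var i))) := sbT_fm i (.half (.var i)) ψ
  rw [h1, h2]
  rfl

theorem ind_rec_or (F : Tk → List Tk → Bool) (p : List Tk) :
    (List.rec (motive := fun _ => Bool) false (fun a t r => F a t || r) p : Bool) = true ↔
      ∃ a t, (a :: t) <:+ p ∧ F a t = true := by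
  induction p with
  | nil =>
    constructor
    · intro h
      exact absurd h (by simp)
    · rintro ⟨a, t, h, _⟩
      have := h.length_le
      simp at this
  | cons b p ih =>
    constructor
    · intro h
      have h' : (F b p || (List.rec (motive := fun _ => Bool) false
        (fun a t r => F a t || r) p : Bool)) = true := h
      rw [Bool.or_eq_true] at h'
      rcases h' with h' | h'
      · exact ⟨b, p, List.suffix_refl _, h'⟩
      · obtain ⟨a, t, h1, h2⟩ := ih.mp h'
        exact ⟨a, t, h1.trans (List.suffix_cons b p), h2⟩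
    · rintro ⟨a, t, h1, h2⟩
      show (F b p || (List.rec (motive := fun _ => Bool) false
        (fun a t r => F a t || r) p : Bool)) = true
      rw [Bool.or_eq_true]
      rcases List.suffix_cons_iff.mp h1 with h3 | h3
      · rw [List.cons.injEq] at h3
        rw [h3.1, h3.2] at h2
        exact Or.inl h2
      · exact Or.inr (ih.mpr ⟨a, t, h3, h2⟩)

theorem pindQ_fm (φ : Fm) :
    pindQ (fmT φ) = true ↔ ∃ (i : ℕ) (ψ : Fm), φ = pind i ψ := by
  unfold pindQ
  rw [ind_rec_or (fun a t => isK 16 a && (validT true t && eqT (fmT φ) (pindK a.2 t)))]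
  constructor
  · rintro ⟨a, t, _, h⟩
    rw [Bool.and_eq_true, Bool.and_eq_true, validT_fm, eqT_tks] at h
    obtain ⟨-, ⟨ψ, rfl⟩, h⟩ := h
    rw [ind_unit_list a.2, pindK_fm] at h
    exact ⟨_, ψ, fmT_inj h⟩
  · rintro ⟨i, ψ, rfl⟩
    refine ⟨tk 16 i, fmT ψ, ?_, ?_⟩
    · refine List.IsSuffix.trans ?_ (List.suffix_cons (tk 15 0) _)
      refine List.IsSuffix.trans ?_ (List.suffix_append _ _)
      refine List.IsSuffix.trans ?_ (List.suffix_cons (tk 15 0) _)
      refine List.IsSuffix.trans ?_ (List.suffix_append _ _)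
      exact List.suffix_refl _
    · rw [Bool.and_eq_true, Bool.and_eq_true, validT_fm, eqT_tks]
      refine ⟨rfl, ⟨ψ, rfl⟩, ?_⟩
      exact (pindK_fm i ψ).symm

theorem ind_base (φ : Fm) : baseQ (fmT φ) = true ↔
    (φ ∈ basicAxioms ∨ ∃ (i : ℕ) (ψ : Fm), φ = pind i ψ) := by
  unfold baseQ basicTs
  rw [Bool.or_eq_true, pindQ_fm, List.any_eq_true]
  constructor
  · rintro (⟨x, hx, h⟩ | h)
    · left
      obtain ⟨ψ, hψ, rfl⟩ := List.mem_map.mp hx
      rw [eqT_tks] at h
      rw [fmT_inj h]
      exact hψ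
    · exact Or.inr h
  · rintro (h | h)
    · exact Or.inl ⟨fmT φ, List.mem_map.mpr ⟨φ, h, rfl⟩, (eqT_tks _ _).mpr rfl⟩
    · exact Or.inr h

theorem ind_gen_cons (a : Tk) (t : List Tk) :
    genQ (a :: t) = (baseQ (a :: t) || (isK 16 a && genQ t)) := rfl

theorem ind_gen_all {φ ψ : Fm} {i : ℕ} : Gen φ (.all i ψ) ↔ φ = .all i ψ ∨ Gen φ ψ := by
  constructor
  · intro h
    cases h with
    | refl => exact Or.inl rfl
    | all i ψ h => exact Or.inr h
  · rintro (rfl | h)
    · exact Gen.refl
    · exact Gen.all i ψ h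

/-- the formula starts with a quantifier -/
def indAll : Fm → Prop
  | .all _ _ => True
  | _ => False

theorem ind_gen_other {φ σ : Fm} (hσ : ¬ indAll σ) : Gen φ σ ↔ φ = σ := by
  constructor
  · intro h
    cases h with
    | refl => rfl
    | all i ψ h => exact absurd trivial hσ
  · rintro rfl
    exact Gen.refl

theorem ind_head {σ : Fm} (hσ : ¬ indAll σ) : genQ (fmT σ) = baseQ (fmT σ) := by
  cases σ with
  | all i ψ => exact absurd trivial hσ
  | eq s t => exact (ind_gen_cons _ _).trans (by rw [show isK 16 (tk 9 0) = false from rfl]; simp; rfl)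
  | le s t => exact (ind_gen_cons _ _).trans (by rw [show isK 16 (tk 10 0) = false from rfl]; simp; rfl)
  | orc t => exact (ind_gen_cons _ _).trans (by rw [show isK 16 (tk 11 0) = false from rfl]; simp; rfl)
  | tr e x w z => exact (ind_gen_cons _ _).trans (by rw [show isK 16 (tk 12 0) = false from rfl]; simp; rfl)
  | prf e x w z => exact (ind_gen_cons _ _).trans (by rw [show isK 16 (tk 13 0) = false from rfl]; simp; rfl)
  | neg t => exact (ind_gen_cons _ _).trans (by rw [show isK 16 (tk 14 0) = false from rfl]; simp; rfl)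
  | imp s t => exact (ind_gen_cons _ _).trans (by rw [show isK 16 (tk 15 0) = false from rfl]; simp; rfl)

theorem ind_other {σ : Fm} (hσ : ¬ indAll σ) : genQ (fmT σ) = true ↔
    ∃ φ, Gen φ σ ∧ (φ ∈ basicAxioms ∨ ∃ (i : ℕ) (ψ : Fm), φ = pind i ψ) := by
  rw [ind_head hσ, ind_base]
  constructor
  · intro h
    exact ⟨σ, Gen.refl, h⟩
  · rintro ⟨φ, h1, h2⟩
    rw [ind_gen_other hσ] at h1
    rw [← h1]
    exact h2

theorem genQ_fm (σ : Fm) : genQ (fmT σ) = true ↔
    ∃ φ, Gen φ σ ∧ (φ ∈ basicAxioms ∨ ∃ (i : ℕ) (ψ : Fm), φ = pind i ψ) := by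
  induction σ with
  | all i ψ ih =>
    have e : genQ (fmT (.all i ψ)) = (baseQ (fmT (.all i ψ)) || genQ (fmT ψ)) := by
      show genQ (tk 16 i :: fmT ψ) = _
      rw [ind_gen_cons]
      rw [show isK 16 (tk 16 i) = true from rfl, Bool.true_and]
      rfl
    rw [e, Bool.or_eq_true, ind_base, ih]
    constructor
    · rintro (h | ⟨φ, h1, h2⟩)
      · exact ⟨_, Gen.refl, h⟩
      · exact ⟨φ, ind_gen_all.mpr (Or.inr h1), h2⟩
    · rintro ⟨φ, h1, h2⟩
      rcases ind_gen_all.mp h1 with rfl | h1
      · exact Or.inl h2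
      · exact Or.inr ⟨φ, h1, h2⟩
  | eq s t => exact ind_other (fun h => h)
  | le s t => exact ind_other (fun h => h)
  | orc t => exact ind_other (fun h => h)
  | tr e x w z => exact ind_other (fun h => h)
  | prf e x w z => exact ind_other (fun h => h)
  | neg t _ => exact ind_other (fun h => h)
  | imp s t _ _ => exact ind_other (fun h => h)

theorem indQ_fm (σ : Fm) : indQ (fmT σ) = true ↔ Ind σ := by
  unfold indQ Ind
  rw [Bool.and_eq_true, closedQ_fm, genQ_fm]

theorem Ind_true {σ : Fm} (h : Ind σ) : σ.True O := by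
  obtain ⟨-, φ, hg, hφ⟩ := h
  rcases hφ with hφ | ⟨i, ψ, rfl⟩
  · exact S12_gen hg (basic_true O φ hφ)
  · exact S12_gen hg (S12_pind O i ψ)

theorem S12_Ind {σ : Fm} (h : S12 σ) : Ind σ := by
  obtain ⟨hc, φ, hg, hφ⟩ := h
  refine ⟨hc, φ, hg, ?_⟩
  rcases hφ with hφ | ⟨i, ψ, _, h⟩
  · exact Or.inl hφ
  · exact Or.inr ⟨i, ψ, h⟩

example : type_of% @closedQ_fm := @closedQ_fm
example : type_of% @pindK_fm := @pindK_fm
example : type_of% @pindQ_fm := @pindQ_fm
example : type_of% @genQ_fm := @genQ_fm
example : type_of% @indQ_fm := @indQ_fm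
example : type_of% @Ind_true := @Ind_true
example : type_of% @S12_Ind := @S12_Ind

end Pool.Agent.RO
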