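import Pool.Agent.Lib_helper78.RF.F.FNA
import Pool.Agent.Lib_helper78.RF.F.FNB
import Pool.Agent.Lib_helper78.RO.DefsB
import Pool.Agent.Lib_helper78.RO.F.EQT
import Pool.Agent.Lib_helper78.RO.F.TDP
import Pool.Agent.Lib_helper78.RO.F.TOK

/-! Random oracles (MP_5c38ab_lc), part B: block INP. -/

set_option autoImplicit false

namespace Pool.Agent.RO

open Pool.Agent.CK Pool.Agent.RF Pool.Agent.CKP

variable {O : Lang} {γ : Type} [ToD γ]

theorem PTime_closedQ {p : γ → List Tk} (hp : PTime O p) :
    PTime O (fun x => closedQ (p x)) := by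
  refine PTime.not ?_
  refine PTime.any (f := fun x t => isK 0 t && frT t.2 (p x)) hp ?_
  exact (PTime_isK 0 PTime.id.snd).and
    (PTime_frT (p := fun q : γ × Tk => p q.1) PTime.id.snd.snd (hp.comp PTime.id.fst))

theorem PTime_pindK {i : γ → List Unit} {p : γ → List Tk} (hi : PTime O i) (hp : PTime O p) :
    PTime O (fun x => pindK (i x) (p x)) := by
  have h0 : PTime O (fun x => sbT (i x) [tk 1 0] (p x)) := PTime_sbT hi (PTime.const _) hp
  have h1 : PTime O (fun x => ([tk 3 0, ([], i x)] : List Tk)) :=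
    (PTime.const (tk 3 0)).cons (((PTime.const ([] : List Unit)).pair hi).cons (PTime.const []))
  have h2 : PTime O (fun x => sbT (i x) [tk 3 0, ([], i x)] (p x)) := PTime_sbT hi h1 hp
  exact PTime_impK h0 (PTime_impK (PTime_allK hi (PTime_impK h2 hp)) (PTime_allK hi hp))

theorem PTime_pindQ {p : γ → List Tk} (hp : PTime O p) : PTime O (fun x => pindQ (p x)) := by
  refine PTime.listRec_add (l := p) (n := fun _ => false)
    (c := fun x a t r => (isK 16 a && (validT true t && eqT (p x) (pindK a.2 t))) || r)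
    hp (PTime.const _) ?_ (Polynomial.C 4) ?_
  · have ht : PTime O (fun q : γ × Tk × List Tk × Bool => q.2.2.1) := PTime.id.snd.snd.fst
    have ha : PTime O (fun q : γ × Tk × List Tk × Bool => q.2.1) := PTime.id.snd.fst
    have hq : PTime O (fun q : γ × Tk × List Tk × Bool => p q.1) := hp.comp PTime.id.fst
    exact ((PTime_isK 16 ha).and ((PTime_validT true ht).and
      (PTime_eqT hq (PTime_pindK ha.snd ht)))).or PTime.id.snd.snd.snd
  · intro x b a t _
    rw [Polynomial.eval_C]
    generalize ((isK 16 a && (validT true t && eqT (p x) (pindK a.2 t))) || b) = c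
    cases c
    · rw [sz_false]; omega
    · rw [sz_true]; omega

theorem PTime_baseQ {p : γ → List Tk} (hp : PTime O p) : PTime O (fun x => baseQ (p x)) := by
  refine PTime.or ?_ (PTime_pindQ hp)
  refine PTime.any (l := fun _ => basicTs) (f := fun x r => eqT (p x) r) (PTime.const _) ?_
  exact PTime_eqT (hp.comp PTime.id.fst) PTime.id.snd

theorem PTime_genQ {p : γ → List Tk} (hp : PTime O p) : PTime O (fun x => genQ (p x)) := by
  refine PTime.listRec_add (l := p) (n := fun _ => false)
    (c := fun x a t r => baseQ (a :: t) || (isK 16 a && r))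
    hp (PTime.const _) ?_ (Polynomial.C 4) ?_
  · have ht : PTime O (fun q : γ × Tk × List Tk × Bool => q.2.2.1) := PTime.id.snd.snd.fst
    have ha : PTime O (fun q : γ × Tk × List Tk × Bool => q.2.1) := PTime.id.snd.fst
    exact (PTime_baseQ (ha.cons ht)).or ((PTime_isK 16 ha).and PTime.id.snd.snd.snd)
  · intro x b a t _
    rw [Polynomial.eval_C]
    generalize (baseQ (a :: t) || (isK 16 a && b)) = c
    cases c
    · rw [sz_false]; omega
    · rw [sz_true]; omega

theorem PTime_indQ {p : γ → List Tk} (hp : PTime O p) : PTime O (fun x => indQ (p x)) :=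
  (PTime_closedQ hp).and (PTime_genQ hp)

end Pool.Agent.RO

example : type_of% @Pool.Agent.RO.PTime_closedQ := @Pool.Agent.RO.PTime_closedQ
example : type_of% @Pool.Agent.RO.PTime_pindK := @Pool.Agent.RO.PTime_pindK
example : type_of% @Pool.Agent.RO.PTime_pindQ := @Pool.Agent.RO.PTime_pindQ
example : type_of% @Pool.Agent.RO.PTime_genQ := @Pool.Agent.RO.PTime_genQ
example : type_of% @Pool.Agent.RO.PTime_indQ := @Pool.Agent.RO.PTime_indQ
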