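import Pool.Agent.Lib_helper78.RF.F.FNA
import Pool.Agent.Lib_helper78.RF.F.FNB
import Pool.Agent.Lib_helper78.RO.DefsB
import Pool.Agent.Lib_helper78.RO.F.TOK

/-!
# Random oracles (MP_5c38ab_lc), part B: block CCL (helper37), closure for program tokens
-/

set_option autoImplicit false

namespace Pool.Agent.RO

open Pool.Agent.CK Pool.Agent.RF Pool.Agent.CKP

variable {O : Lang} {γ : Type} [ToD γ]

theorem ccl_arC {f : γ → Tk} (hf : PTime O f) : PTime O (fun x => arC (f x)) :=
  PTime.getD hf.fst (PTime.const ([[], [], [], [], [(), ()], [(), (), ()], [()], [(), ()]] :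
    List (List Unit))) (PTime.const [])

theorem ccl_tagU {u : γ → List Unit} (hu : PTime O u) : PTime O (fun x => tagU (u x)) :=
  (PTime.map (f := fun _ _ => true) hu (PTime.const _)).append (PTime.const [false])

theorem ccl_encCK {f : γ → Tk} (hf : PTime O f) : PTime O (fun x => encCK (f x)) := by
  have h := ccl_tagU hf.snd
  refine PTime.getD hf.fst ?_ (PTime.const [])
  exact PTime.cons (PTime.const _) (PTime.cons ((PTime.const _).append (h.append (PTime.const _)))
    (PTime.cons ((PTime.const _).append (h.append (PTime.const _)))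
    (PTime.cons ((PTime.const _).append h) (PTime.cons (PTime.const _)
    (PTime.cons ((PTime.const _).append h) (PTime.cons ((PTime.const _).append h)
    (PTime.cons ((PTime.const _).append h) (PTime.const []))))))))

theorem PTime_encC {p : γ → List Tk} (hp : PTime O p) : PTime O (fun x => encC (p x)) :=
  PTime.flatMap (f := fun _ t => encCK t) hp (ccl_encCK PTime.id.snd)

theorem ccl_trStep {f : γ → Tk} {q : γ → List D} (hf : PTime O f) (hq : PTime O q) :
    PTime O (fun x => trStep (f x) (q x)) := by
  have hr : PTime O (fun x => toD (f x).2) := hf.snd.code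
  have h0 : PTime O (fun x => (q x).headD D.nil) := PTime.headD hq (PTime.const _)
  have h1 : PTime O (fun x => (q x).tail.headD D.nil) := PTime.headD hq.tail (PTime.const _)
  have h2 : PTime O (fun x => (q x).tail.tail.headD D.nil) :=
    PTime.headD hq.tail.tail (PTime.const _)
  refine PTime.cons (PTime.getD hf.fst ?_ (PTime.const _)) (PTime.udrop (ccl_arC hf) hq)
  exact PTime.cons (PTime.consD (PTime.const _) (PTime.const _))
    (PTime.cons (PTime.consD (PTime.const _) (PTime.consD hr (PTime.const _)))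
    (PTime.cons (PTime.consD (PTime.const _) (PTime.consD hr (PTime.const _)))
    (PTime.cons (PTime.consD (PTime.const _) (PTime.consD hr (PTime.const _)))
    (PTime.cons (PTime.consD (PTime.const _) (PTime.consD h0 h1))
    (PTime.cons (PTime.consD (PTime.const _) (PTime.consD hr (PTime.consD h0 (PTime.consD h1 h2))))
    (PTime.cons (PTime.consD (PTime.const _) (PTime.consD hr h0))
    (PTime.cons (PTime.consD (PTime.const _) (PTime.consD hr (PTime.consD h0 h1)))
      (PTime.const []))))))))

theorem ccl_sz (t : Tk) (q : List D) : sz (trStep t q) ≤ sz q + (sz t + 40) := by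
  obtain ⟨k, i⟩ := t
  have hi : (toD i).size ≤ sz ((k, i) : Tk) := by
    rw [sz_pair]
    show sz i ≤ _
    omega
  have hd : ∀ d : D, sz d = d.size := fun _ => rfl
  have hs : ∀ a b : D, (D.cons a b).size = a.size + b.size + 1 := fun _ _ => rfl
  have hn : D.nil.size = 1 := rfl
  have hf : (toD false).size = 1 := rfl
  have ht : (toD true).size = 3 := rfl
  generalize hz : sz ((k, i) : Tk) = z at hi ⊢
  unfold trStep arC
  simp only [sz_cons, udrop_eq]
  rcases k with _ | ⟨_, _ | ⟨_, _ | ⟨_, _ | ⟨_, _ | ⟨_, _ | ⟨_, _ | ⟨_, _ | ⟨_, k⟩⟩⟩⟩⟩⟩⟩⟩ <;>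
  rcases q with _ | ⟨a, _ | ⟨b, _ | ⟨c, q⟩⟩⟩ <;>
  simp only [List.length_nil, List.length_cons, List.getD_cons_zero, List.getD_cons_succ,
    List.getD_nil, List.drop_zero, List.drop_nil, List.drop_succ_cons, List.headD_nil,
    List.headD_cons, List.tail_nil, List.tail_cons, hd, hs, hn, hf, ht, size_tg, sz_nil, sz_cons,
    Nat.zero_add] <;>
  omega

theorem PTime_treeC {p : γ → List Tk} (hp : PTime O p) : PTime O (fun x => treeC (p x)) := by
  obtain ⟨P, hP⟩ := hp.size_le
  unfold treeC
  refine PTime.headD ?_ (PTime.const _)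
  refine PTime.foldr_add (l := p) (i := fun _ => ([] : List D)) (s := fun _ t q => trStep t q) hp
    (PTime.const _) (ccl_trStep PTime.id.snd.fst PTime.id.snd.snd) (P + Polynomial.C 40) ?_
  intro x q t ht
  have h1 := ccl_sz t q
  have h2 := (sz_le_of_mem ht).trans (hP x)
  rw [Polynomial.eval_add, Polynomial.eval_C]
  omega

theorem ccl_bool (c : Bool) : sz c ≤ 3 := (num_bool_sz c).2

theorem ccl_app (a b : List Unit) : sz (a ++ b) + 1 = sz a + sz b := by
  induction a with
  | nil => simp [Nat.add_comm]
  | cons u t ih =>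
    rw [List.cons_append, sz_cons, sz_cons]
    omega

theorem ccl_ar (t : Tk) : sz (arC t) ≤ 7 := by
  obtain ⟨k, i⟩ := t
  have h1 : sz () = 1 := rfl
  unfold arC
  rcases k with _ | ⟨_, _ | ⟨_, _ | ⟨_, _ | ⟨_, _ | ⟨_, _ | ⟨_, _ | ⟨_, _ | ⟨_, k⟩⟩⟩⟩⟩⟩⟩⟩ <;>
  simp only [List.length_nil, List.length_cons, List.getD_cons_zero, List.getD_cons_succ,
    List.getD_nil, sz_nil, sz_cons, h1] <;> omega

theorem PTime_validC {p : γ → List Tk} (hp : PTime O p) : PTime O (fun x => validC (p x)) := by
  have hstep : PTime O (fun p : γ × (List Unit × Bool) × Tk => vcStep p.2.1 p.2.2) := by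
    have f1 : PTime O (fun p : γ × (List Unit × Bool) × Tk => p.2.1) := PTime.id.snd.fst
    have f2 : PTime O (fun p : γ × (List Unit × Bool) × Tk => p.2.2) := PTime.id.snd.snd
    unfold vcStep
    refine PTime.pair ((ccl_arC f2).append f1.fst.tail) (f1.snd.and ((f1.fst.isNil.not).and ?_))
    exact (f2.fst.length.nat_le (PTime.const 7)).and
      (f2.snd.isNil.or (((PTime_isK 0 f2).or (PTime_isK 4 f2)).not))
  have hfold : PTime O (fun x => (p x).foldl vcStep ([()], true)) := by
    refine PTime.foldl_add (l := p) (i := fun _ => (([()], true) : List Unit × Bool))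
      (s := fun _ q t => vcStep q t) hp (PTime.const _) hstep (Polynomial.C 10) ?_
    intro x q t _
    obtain ⟨u, c⟩ := q
    rw [Polynomial.eval_C]
    unfold vcStep
    rw [sz_pair, sz_pair]
    have h1 := ccl_app (arC t) u.tail
    have h2 := ccl_ar t
    have h3 := sz_tail_le u
    have h4 := ccl_bool (c && (!u.isEmpty && (decide (t.1.length ≤ 7) &&
      (t.2.isEmpty || !(isK 0 t || isK 4 t)))))
    have h5 := sz_pos c
    simp only
    omega
  exact (hfold.fst.isNil).and hfold.snd

end Pool.Agent.RO
example : type_of% @Pool.Agent.RO.PTime_encC := @Pool.Agent.RO.PTime_encC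
example : type_of% @Pool.Agent.RO.PTime_treeC := @Pool.Agent.RO.PTime_treeC
example : type_of% @Pool.Agent.RO.PTime_validC := @Pool.Agent.RO.PTime_validC
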