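import Pool.Agent.Lib_helper78.RF.F.FNA
import Pool.Agent.Lib_helper78.RF.F.FNB
import Pool.Agent.Lib_helper78.RO.DefsB

/-!
# Random oracles (MP_5c38ab_lc), part B: block CHN (helper37), the clock
-/

set_option autoImplicit false

namespace Pool.Agent.RO

open Pool.Agent.CK Pool.Agent.RF Pool.Agent.CKP

variable {O : Lang} {γ : Type} [ToD γ]

theorem chn_umul (b : List Unit) (M : List Unit) :
    (umul b (M ++ [(), ()])).length = b.length * (M.length + 2) := by
  unfold umul
  induction b with
  | nil => simp
  | cons a t ih =>
    rw [List.flatMap_cons, List.length_append, ih, List.length_append, List.length_cons]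
    simp only [List.length_cons, List.length_nil]
    ring

theorem chn_cons (M : List Unit) (a : List Unit) (t : List (List Unit)) :
    chainQ M (a :: t) = (lcase t (decide (a.length = 1))
      (fun b _ => decide (a.length = (umul b (M ++ [(), ()])).length + 1)) && chainQ M t) := rfl

theorem chainQ_len {M : List Unit} {l : List (List Unit)} {k : ℕ} (h : chainQ M l = true)
    (hk : l.length = k + 1) : (l.headD []).length = clkS k M.length := by
  induction k generalizing l with
  | zero =>
    match l, hk with
    | [a], _ =>
      rw [chn_cons] at h
      simp only [lcase_nil, Bool.and_eq_true, decide_eq_true_eq] at h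
      exact h.1
  | succ k ih =>
    match l, hk with
    | a :: b :: t, hk =>
      rw [chn_cons] at h
      simp only [lcase_cons, Bool.and_eq_true, decide_eq_true_eq] at h
      have h1 := ih h.2 (by simpa using hk)
      change b.length = clkS k M.length at h1
      show a.length = clkS k M.length * (M.length + 2) + 1
      rw [h.1, chn_umul, h1]

theorem chainQ_exists (M : List Unit) (k : ℕ) :
    ∃ l : List (List Unit), l.length = k + 1 ∧ chainQ M l = true := by
  induction k with
  | zero =>
    refine ⟨[[()]], rfl, ?_⟩
    rw [chn_cons]
    rfl
  | succ k ih =>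
    obtain ⟨l, hl, h⟩ := ih
    match l, hl with
    | b :: t, hl =>
      refine ⟨(umul b (M ++ [(), ()]) ++ [()]) :: b :: t, by simpa using hl, ?_⟩
      rw [chn_cons]
      simp only [lcase_cons, Bool.and_eq_true, decide_eq_true_eq]
      refine ⟨?_, h⟩
      rw [List.length_append]
      rfl

theorem PTime_chainQ {M : γ → List Unit} {l : γ → List (List Unit)} (hM : PTime O M)
    (hl : PTime O l) : PTime O (fun x => chainQ (M x) (l x)) := by
  unfold chainQ
  refine PTime.listRec_add (l := l) (n := fun _ => true)
    (c := fun x a t r => lcase t (decide (a.length = 1))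
      (fun b _ => decide (a.length = (umul b (M x ++ [(), ()])).length + 1)) && r) hl
    (PTime.const _) ?_ (Polynomial.C 3) ?_
  · have f1 : PTime O (fun p : γ × List Unit × List (List Unit) × Bool => p.1) := PTime.id.fst
    have f2 : PTime O (fun p : γ × List Unit × List (List Unit) × Bool => p.2.1) :=
      PTime.id.snd.fst
    have f3 : PTime O (fun p : γ × List Unit × List (List Unit) × Bool => p.2.2.1) :=
      PTime.id.snd.snd.fst
    have f4 : PTime O (fun p : γ × List Unit × List (List Unit) × Bool => p.2.2.2) :=
      PTime.id.snd.snd.snd
    refine PTime.and ?_ f4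
    refine PTime.lcase (l := fun p : γ × List Unit × List (List Unit) × Bool => p.2.2.1)
      (n := fun p => decide (p.2.1.length = 1))
      (c := fun p b _ => decide (p.2.1.length = (umul b (M p.1 ++ [(), ()])).length + 1)) f3
      (f2.length.nat_eq (PTime.const 1)) ?_
    have g1 : PTime O (fun q : (γ × List Unit × List (List Unit) × Bool) × List Unit ×
        List (List Unit) => q.1) := PTime.id.fst
    have g2 : PTime O (fun q : (γ × List Unit × List (List Unit) × Bool) × List Unit ×
        List (List Unit) => q.2.1) := PTime.id.snd.fst
    refine (f2.comp g1).length.nat_eq (PTime.nat_add (PTime.length (PTime.umul g2 ?_))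
      (PTime.const 1))
    exact ((hM.comp (f1.comp g1)).append (PTime.const [(), ()]))
  · intro x b a t _
    rw [Polynomial.eval_C]
    generalize (lcase t (decide (a.length = 1))
      (fun b _ => decide (a.length = (umul b (M x ++ [(), ()])).length + 1)) && b) = c
    cases c
    · rw [sz_false]; omega
    · rw [sz_true]; omega

end Pool.Agent.RO
example : type_of% @Pool.Agent.RO.chainQ_len := @Pool.Agent.RO.chainQ_len
example : type_of% @Pool.Agent.RO.chainQ_exists := @Pool.Agent.RO.chainQ_exists
example : type_of% @Pool.Agent.RO.PTime_chainQ := @Pool.Agent.RO.PTime_chainQ
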