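import Pool.Agent.Lib_helper78.RF.F.FNA
import Pool.Agent.Lib_helper78.RF.F.FNB
import Pool.Agent.Lib_helper78.RO.DefsB
import Pool.Agent.Lib_helper78.RO.F.EQT
import Pool.Agent.Lib_helper78.RO.F.RFP
import Pool.Agent.Lib_helper78.RO.F.TOK

set_option autoImplicit false

namespace Pool.Agent.RO

open Pool.Agent.CK Pool.Agent.RF Pool.Agent.CKP

variable {O : Lang} {γ : Type} [ToD γ]

theorem rdp_sz_udrop {α β : Type} [ToD α] [ToD β] (u : List α) (l : List β) :
    sz (udrop u l) ≤ sz l := by
  rw [udrop_eq]
  exact sz_le_of_suffix (List.drop_suffix _ _)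

theorem PTime_sv {s : γ → List Bool} (hs : PTime O s) : PTime O (fun x => sv (s x)) :=
  PTime.ofBits (hs.append (PTime.const [true]))

theorem PTime_isPre {p s : γ → List Tk} (hp : PTime O p) (hs : PTime O s) :
    PTime O (fun x => isPre (p x) (s x)) :=
  PTime_eqT ((PTime.udrop (PTime.udrop hp hs) hs.reverse).reverse) hp

theorem rdp_step {α : Type} [ToD α] {q : α → List Tk × List Bool} (hq : PTime O q) :
    PTime O (fun x => rdStep (q x)) := by
  unfold rdStep
  refine PTime.ite (PTime_isPre (PTime.const _) hq.fst) ?_ (PTime.ite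
    (PTime_isPre (PTime.const _) hq.fst) ?_ hq)
  · exact (PTime.udrop (PTime.const _) hq.fst).pair ((PTime.const true).cons hq.snd)
  · exact (PTime.udrop (PTime.const _) hq.fst).pair ((PTime.const false).cons hq.snd)

theorem rdp_step_sz (q : List Tk × List Bool) : sz (rdStep q) ≤ sz q + 4 := by
  obtain ⟨a, b⟩ := q
  unfold rdStep
  have h1 := rdp_sz_udrop (blkT true) a
  have h2 := rdp_sz_udrop (blkT false) a
  split_ifs
  · rw [sz_pair, sz_pair, sz_cons, sz_true]
    simp only
    omega
  · rw [sz_pair, sz_pair, sz_cons, sz_false]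
    simp only
    omega
  · omega

theorem PTime_rdN {p : γ → List Tk} (hp : PTime O p) : PTime O (fun x => rdN (p x)) := by
  have h : PTime O (fun x => (p x).foldl (fun q _ => rdStep q) (p x, ([] : List Bool))) := by
    refine PTime.foldl_add (l := p) (i := fun x => (p x, ([] : List Bool)))
      (s := fun _ q _ => rdStep q) hp (hp.pair (PTime.const _))
      (rdp_step (q := fun p : γ × (List Tk × List Bool) × Tk => p.2.1) PTime.id.snd.fst)
      (Polynomial.C 4) ?_
    intro x b a _
    rw [Polynomial.eval_C]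
    exact rdp_step_sz b
  exact h.fst.tail.pair h.snd.reverse

theorem PTime_leQ {p : γ → List Tk} (hp : PTime O p) : PTime O (fun x => leQ (p x)) := by
  have h1 := PTime_rdN hp.tail
  have h2 := PTime_rdN h1.fst
  exact (PTime_eqT hp (PTime_leK (PTime_numT h1.snd) (PTime_numT h2.snd))).and
    (PTime.nat_le (PTime_sv h1.snd) (PTime_sv h2.snd))

theorem PTime_orcQ {p : γ → List Tk} (hp : PTime O p) : PTime O (fun x => orcQ O (p x)) := by
  have h1 := (PTime_rdN hp.tail).snd
  have h2 := (PTime_rdN hp.tail.tail).snd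
  exact ((PTime_eqT hp ((PTime.const (tk 11 0)).cons (PTime_numT h1))).and (PTime.ask h1)).or
    ((PTime_eqT hp (PTime_negK ((PTime.const (tk 11 0)).cons (PTime_numT h2)))).and
      (PTime.ask h2).not)

example : type_of% @PTime_sv := @PTime_sv
example : type_of% @PTime_isPre := @PTime_isPre
example : type_of% @PTime_rdN := @PTime_rdN
example : type_of% @PTime_leQ := @PTime_leQ
example : type_of% @PTime_orcQ := @PTime_orcQ

end Pool.Agent.RO
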