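import Pool.Agent.Lib_helper78.RF.F.FNA
import Pool.Agent.Lib_helper78.RF.F.FNB
import Pool.Agent.Lib_helper78.RO.DefsB
import Pool.Agent.Lib_helper78.RO.F.CCL
import Pool.Agent.Lib_helper78.RO.F.DCP
import Pool.Agent.Lib_helper78.RO.F.EQT
import Pool.Agent.Lib_helper78.RO.F.RDP
import Pool.Agent.Lib_helper78.RO.F.STR

/-! Block FMP: refutation of the universal formula by exhaustive search, closure -/

set_option autoImplicit false

namespace Pool.Agent.RO

open Pool.Agent.CK Pool.Agent.RF Pool.Agent.CKP

variable {O : Lang} {γ : Type} [ToD γ]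

theorem PTime_sizeU {z : γ → List Bool} (hz : PTime O z) :
    PTime O (fun x => sizeU (z x)) := by
  unfold sizeU
  exact PTime.ite (PTime.any (f := fun _ b => b) hz PTime.id.snd)
    (PTime.cons (PTime.const ()) hz.ulen) hz.ulen

/-- polynomial bounds are monotone -/
theorem fmp_mono (P : Polynomial ℕ) {a b : ℕ} (h : a ≤ b) : P.eval a ≤ P.eval b := by
  simp only [Polynomial.eval_eq_sum, Polynomial.sum]
  exact Finset.sum_le_sum fun i _ => Nat.mul_le_mul_left _ (Nat.pow_le_pow_left h i)

theorem fmp_bound {δ : Type} [ToD δ] {M : γ → List Unit} (P : Polynomial ℕ)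
    (hP : ∀ a, 2 ^ (M a).length ≤ P.eval (sz a)) (p : γ × δ) :
    2 ^ (M p.1).length ≤ P.eval (sz p) :=
  (hP p.1).trans (fmp_mono P (by
    obtain ⟨a, b⟩ := p
    show sz a ≤ sz (a, b)
    rw [sz_pair]
    omega))

theorem PTime_falseMu {M : γ → List Unit} {e x z : γ → List Bool} (hM : PTime O M)
    (he : PTime O e) (hx : PTime O x) (hz : PTime O z) (P : Polynomial ℕ)
    (hP : ∀ a, 2 ^ (M a).length ≤ P.eval (sz a)) :
    PTime O (fun a => falseMu O (M a) (e a) (x a) (z a)) := by
  unfold falseMu
  -- first projections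
  have h1 : PTime O (fun p : γ × List Bool => p.1) := PTime.id.fst
  have h2 : PTime O (fun p : γ × List Bool => p.2) := PTime.id.snd
  have h11 : PTime O (fun q : (γ × List Bool) × List Bool => q.1.1) := PTime.id.fst.fst
  have h12 : PTime O (fun q : (γ × List Bool) × List Bool => q.1.2) := PTime.id.fst.snd
  have h22 : PTime O (fun q : (γ × List Bool) × List Bool => q.2) := PTime.id.snd
  have hE : PTime O (fun a => (8 * (e a).length + 8 : ℕ)) := by
    have hl : PTime O (fun a => (e a).length) := he.length
    have hd := hl.nat_add hl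
    have hd2 := hd.nat_add hd
    have hd3 := hd2.nat_add hd2
    exact (hd3.nat_add (PTime.const 8)).of_eq fun a => by omega
  have hin : PTime O (fun p : γ × List Bool =>
      (upTo (M p.1)).all (fun v => !decide (sv v ≤ sv (z p.1)) ||
        !accU O (treeC (toTks (dec p.2))) (x p.1) v (sizeU (z p.1)))) := by
    refine PTime.all (l := fun p : γ × List Bool => upTo (M p.1))
      (f := fun p v => !decide (sv v ≤ sv (z p.1)) ||
        !accU O (treeC (toTks (dec p.2))) (x p.1) v (sizeU (z p.1)))
      (PTime_upTo (hM.comp h1) P (fmp_bound P hP)) ?_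
    refine ((PTime_sv h22).nat_le (PTime_sv (hz.comp h11))).not.or ?_
    exact (PTime.accU (PTime_treeC (PTime_toTks h12.dec)) (hx.comp h11) h22
      (PTime_sizeU (hz.comp h11))).not
  have hout : PTime O (fun a => (allStr (M a)).all (fun w =>
      !(validC (toTks (dec w)) && eqT (encC (toTks (dec w))) (e a)) ||
        (upTo (M a)).all (fun v => !decide (sv v ≤ sv (z a)) ||
          !accU O (treeC (toTks (dec w))) (x a) v (sizeU (z a))))) := by
    refine PTime.all (l := fun a => allStr (M a))
      (f := fun a w => !(validC (toTks (dec w)) && eqT (encC (toTks (dec w))) (e a)) ||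
        (upTo (M a)).all (fun v => !decide (sv v ≤ sv (z a)) ||
          !accU O (treeC (toTks (dec w))) (x a) v (sizeU (z a))))
      (PTime_allStr hM P hP) ?_
    exact ((PTime_validC (PTime_toTks h2.dec)).and
      (PTime_eqT (PTime_encC (PTime_toTks h2.dec)) (he.comp h1))).not.or hin
  exact ((hE.nat_le hM.length).and (hz.length.nat_le hM.length)).and hout

example : type_of% @PTime_sizeU := @PTime_sizeU
example : type_of% @PTime_falseMu := @PTime_falseMu

end Pool.Agent.RO
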