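import Pool.Agent.Lib_helper78.RF.F.FNA
import Pool.Agent.Lib_helper78.RF.F.FNB
import Pool.Agent.Lib_helper78.RO.DefsB
import Pool.Agent.Lib_helper78.RO.F.CCL
import Pool.Agent.Lib_helper78.RO.F.CHN
import Pool.Agent.Lib_helper78.RO.F.CHP
import Pool.Agent.Lib_helper78.RO.F.DCP
import Pool.Agent.Lib_helper78.RO.F.ENB
import Pool.Agent.Lib_helper78.RO.F.EQT
import Pool.Agent.Lib_helper78.RO.F.FMP
import Pool.Agent.Lib_helper78.RO.F.RDP
import Pool.Agent.Lib_helper78.RO.F.RFP
import Pool.Agent.Lib_helper78.RO.F.STR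
import Pool.Agent.Lib_helper78.RO.F.TOK

/-! Block DCL: closure for the data of refutations -/

set_option autoImplicit false

namespace Pool.Agent.RO

open Pool.Agent.CK Pool.Agent.RF Pool.Agent.CKP

variable {O : Lang} {γ : Type} [ToD γ]

theorem PTime_pfBits {cert : γ → List Line} (hc : PTime O cert) :
    PTime O (fun x => pfBits (cert x)) := by
  unfold pfBits
  exact PTime.flatMap (f := fun _ t => encT t)
    (PTime.map (f := fun _ L => lineF L) hc (PTime_lineF PTime.id.snd)) (PTime_encT PTime.id.snd)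

theorem PTime_toRData {d : γ → D} (hd : PTime O d) :
    PTime O (fun x => toRData (d x)) := by
  unfold toRData
  have h1 : PTime O (fun x => toTks (d x).car.car) := PTime_toTks hd.car.car
  have h2 : PTime O (fun x => toU (d x).car.cdr) := PTime_toU hd.car.cdr
  have h3 : PTime O (fun x => toU (d x).cdr.car.car) := PTime_toU hd.cdr.car.car
  have h4 : PTime O (fun x => toBits (d x).cdr.car.cdr) := hd.cdr.car.cdr.toBits
  have h5 : PTime O (fun x => toBits (d x).cdr.cdr.car.car) := hd.cdr.cdr.car.car.toBits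
  have h6 : PTime O (fun x => toBits (d x).cdr.cdr.car.cdr.car) := hd.cdr.cdr.car.cdr.car.toBits
  have h7 : PTime O (fun x => toBits (d x).cdr.cdr.car.cdr.cdr) := hd.cdr.cdr.car.cdr.cdr.toBits
  have h8 : PTime O (fun x => toCert (d x).cdr.cdr.cdr.car) := PTime_toCert hd.cdr.cdr.cdr.car
  have h9 : PTime O (fun x => (toList (d x).cdr.cdr.cdr.cdr).map toU) :=
    PTime.map (f := fun _ e => toU e) hd.cdr.cdr.cdr.cdr.toList (PTime_toU PTime.id.snd)
  exact (h1.pair h2).pair ((h3.pair h4).pair ((h5.pair (h6.pair h7)).pair (h8.pair h9)))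

theorem PTime_dataP {a : γ → RData} {g : γ → List Tk} (ha : PTime O a) (hg : PTime O g) :
    PTime O (fun x => dataP O (a x) (g x)) := by
  unfold dataP
  have p1 : PTime O (fun x => (a x).1.1) := ha.fst.fst
  have p2 : PTime O (fun x => (a x).1.2) := ha.fst.snd
  have n1 : PTime O (fun x => (a x).2.1.1) := ha.snd.fst.fst
  have n2 : PTime O (fun x => (a x).2.1.2) := ha.snd.fst.snd
  have c1 : PTime O (fun x => (a x).2.2.2.1) := ha.snd.snd.snd.fst
  have c2 : PTime O (fun x => (a x).2.2.2.2) := ha.snd.snd.snd.snd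
  have h1 : PTime O (fun x => validC (a x).1.1) := PTime_validC p1
  have h2 : PTime O (fun x => decide (sv (a x).2.1.2 = (a x).2.1.1.length + 1)) :=
    (PTime_sv n2).nat_eq (n1.length.nat_add (PTime.const 1))
  have h3 : PTime O (fun x => decide (sv (pfBits (a x).2.2.2.1) ≤ ushl (a x).2.1.1 1)) :=
    (PTime_sv (PTime_pfBits c1)).nat_le (PTime.ushl n1 (PTime.const 1))
  have h4 : PTime O (fun x => chainQ (sizeU (pfBits (a x).2.2.2.1)) (a x).2.2.2.2) :=
    PTime_chainQ (PTime_sizeU (PTime_pfBits c1)) c2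
  have h5 : PTime O (fun x => decide ((a x).2.2.2.2.length = (a x).1.2.length + 1)) :=
    c2.length.nat_eq (p2.length.nat_add (PTime.const 1))
  have h6 : PTime O (fun x => chk O (treeC (a x).1.1) ((a x).2.2.2.2.headD []) (a x).2.2.2.1
      (g x)) :=
    PTime_chk (PTime_treeC p1) (PTime.headD c2 (PTime.const [])) c1 hg
  exact (h1.and h2).and (h3.and ((h4.and h5).and h6))

theorem PTime_dataR {M : γ → List Unit} {χ : γ → List Tk} {a : γ → RData} (hM : PTime O M)
    (hχ : PTime O χ) (ha : PTime O a) (P : Polynomial ℕ)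
    (hP : ∀ x, 2 ^ (M x).length ≤ P.eval (sz x)) :
    PTime O (fun x => dataR O (M x) (χ x) (a x)) := by
  unfold dataR
  have p1 : PTime O (fun x => (a x).1.1) := ha.fst.fst
  have p2 : PTime O (fun x => (a x).1.2) := ha.fst.snd
  have n1 : PTime O (fun x => (a x).2.1.1) := ha.snd.fst.fst
  have n2 : PTime O (fun x => (a x).2.1.2) := ha.snd.fst.snd
  have e1 : PTime O (fun x => (a x).2.2.1.1) := ha.snd.snd.fst.fst
  have e2 : PTime O (fun x => (a x).2.2.1.2.1) := ha.snd.snd.fst.snd.fst
  have e3 : PTime O (fun x => (a x).2.2.1.2.2) := ha.snd.snd.fst.snd.snd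
  have h1 : PTime O (fun x => eqT (χ x) (negK (rfnT (encC (a x).1.1) (a x).1.2 (a x).2.1.2))) :=
    PTime_eqT hχ (PTime_negK (PTime_rfnT (PTime_encC p1) p2 n2))
  have hn : PTime O (fun x => ushl (a x).2.1.1 1) := PTime.ushl n1 (PTime.const 1)
  have h2 : PTime O (fun x => decide (sv (a x).2.2.1.1 ≤ ushl (a x).2.1.1 1)) :=
    (PTime_sv e1).nat_le hn
  have h3 : PTime O (fun x => decide (sv (a x).2.2.1.2.1 ≤ ushl (a x).2.1.1 1)) :=
    (PTime_sv e2).nat_le hn
  have h4 : PTime O (fun x => decide (sv (a x).2.2.1.2.2 ≤ ushl (a x).2.1.1 1)) :=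
    (PTime_sv e3).nat_le hn
  have h5 : PTime O (fun x => dataP O (a x) (muT (numT (a x).2.2.1.1) (numT (a x).2.2.1.2.1)
      (numT (a x).2.2.1.2.2))) :=
    PTime_dataP ha (PTime_muT (PTime_numT e1) (PTime_numT e2) (PTime_numT e3))
  have h6 : PTime O (fun x => falseMu O (M x) (a x).2.2.1.1 (a x).2.2.1.2.1 (a x).2.2.1.2.2) :=
    PTime_falseMu hM e1 e2 e3 P hP
  exact h1.and ((h2.and (h3.and h4)).and (h5.and h6))

theorem PTime_dataC {χ : γ → List Tk} {a : γ → RData} (hχ : PTime O χ) (ha : PTime O a) :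
    PTime O (fun x => dataC O (χ x) (a x)) := by
  unfold dataC
  have p1 : PTime O (fun x => (a x).1.1) := ha.fst.fst
  have p2 : PTime O (fun x => (a x).1.2) := ha.fst.snd
  have n2 : PTime O (fun x => (a x).2.1.2) := ha.snd.fst.snd
  exact (PTime_eqT hχ (PTime_negK (PTime_conT (PTime_encC p1) p2 n2))).and
    (PTime_dataP ha (PTime.const _))

/-- polynomial bounds are monotone -/
theorem dcl_mono (P : Polynomial ℕ) {a b : ℕ} (h : a ≤ b) : P.eval a ≤ P.eval b := by
  simp only [Polynomial.eval_eq_sum, Polynomial.sum]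
  exact Finset.sum_le_sum fun i _ => Nat.mul_le_mul_left _ (Nat.pow_le_pow_left h i)

theorem PTime_refRfnQ {M : γ → List Unit} {χ : γ → List Tk} (hM : PTime O M)
    (hχ : PTime O χ) (P : Polynomial ℕ) (hP : ∀ a, 2 ^ (M a).length ≤ P.eval (sz a)) :
    PTime O (fun a => refRfnQ O (M a) (χ a)) := by
  unfold refRfnQ
  have h1 : PTime O (fun p : γ × List Bool => p.1) := PTime.id.fst
  have h2 : PTime O (fun p : γ × List Bool => p.2) := PTime.id.snd
  have hd : PTime O (fun p : γ × List Bool => toRData (dec p.2)) := PTime_toRData h2.dec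
  refine PTime.any (l := fun a => allStr (M a))
    (f := fun a w => dataR O (M a) (χ a) (toRData (dec w)) || dataC O (χ a) (toRData (dec w)))
    (PTime_allStr hM P hP) ?_
  refine PTime.or ?_ (PTime_dataC (hχ.comp h1) hd)
  refine PTime_dataR (hM.comp h1) (hχ.comp h1) hd P ?_
  rintro ⟨a, w⟩
  refine (hP a).trans (dcl_mono P ?_)
  rw [sz_pair]
  omega

example : type_of% @PTime_pfBits := @PTime_pfBits
example : type_of% @PTime_toRData := @PTime_toRData
example : type_of% @PTime_dataP := @PTime_dataP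
example : type_of% @PTime_dataR := @PTime_dataR
example : type_of% @PTime_dataC := @PTime_dataC
example : type_of% @PTime_refRfnQ := @PTime_refRfnQ

end Pool.Agent.RO
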