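import Pool.Agent.Lib_helper78.RF.F.FNA
import Pool.Agent.Lib_helper78.RF.F.FNB
import Pool.Agent.Lib_helper78.RO.DefsB

/-! Block CMC: programs as tokens -/

set_option autoImplicit false

namespace Pool.Agent.RO

open Pool.Agent.CK Pool.Agent.RF Pool.Agent.CKP

theorem cmc_tagU (r : ℕ) : tagU (List.replicate r ()) = tag r := by
  unfold tagU tag
  rw [List.map_replicate]

theorem cmc_cons (t : Tk) (p : List Tk) : encC (t :: p) = encCK t ++ encC p := by
  unfold encC
  rw [List.flatMap_cons]

theorem cmc_app (p q : List Tk) : encC (p ++ q) = encC p ++ encC q := by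
  unfold encC
  rw [List.flatMap_append]

theorem cmc_nil : encC [] = [] := rfl

theorem cmc_ck0 (r : ℕ) : encCK (tk 0 r) = tag 0 := rfl
theorem cmc_ck1 (r : ℕ) : encCK (tk 1 r) = tag 1 ++ (tag r ++ [false]) := by
  rw [← cmc_tagU r]; rfl
theorem cmc_ck2 (r : ℕ) : encCK (tk 2 r) = tag 1 ++ (tag r ++ [true]) := by
  rw [← cmc_tagU r]; rfl
theorem cmc_ck3 (r : ℕ) : encCK (tk 3 r) = tag 2 ++ tag r := by
  rw [← cmc_tagU r]; rfl
theorem cmc_ck4 (r : ℕ) : encCK (tk 4 r) = tag 3 := rfl
theorem cmc_ck5 (r : ℕ) : encCK (tk 5 r) = tag 4 ++ tag r := by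
  rw [← cmc_tagU r]; rfl
theorem cmc_ck6 (r : ℕ) : encCK (tk 6 r) = tag 5 ++ tag r := by
  rw [← cmc_tagU r]; rfl
theorem cmc_ck7 (r : ℕ) : encCK (tk 7 r) = tag 6 ++ tag r := by
  rw [← cmc_tagU r]; rfl

theorem encC_cm (c : Cmd) : encC (cmT c) = cEnc c := by
  induction c with
  | skip => rw [cmT, cmc_cons, cmc_nil, cmc_ck0, List.append_nil, cEnc]
  | push r b =>
    cases b
    · rw [cmT, cmc_cons, cmc_nil, cmc_ck1, List.append_nil, cEnc]
    · rw [cmT, cmc_cons, cmc_nil, cmc_ck2, List.append_nil, cEnc]
  | pop r => rw [cmT, cmc_cons, cmc_nil, cmc_ck3, List.append_nil, cEnc]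
  | seq c d hc hd => rw [cmT, cmc_cons, cmc_app, cmc_ck4, hc, hd, cEnc]
  | cond r b c d hb hc hd =>
    rw [cmT, cmc_cons, cmc_app, cmc_app, cmc_ck5, hb, hc, hd, cEnc, List.append_assoc]
  | loop r c hc => rw [cmT, cmc_cons, cmc_ck6, hc, cEnc, List.append_assoc]
  | ask r c d hc hd =>
    rw [cmT, cmc_cons, cmc_app, cmc_ck7, hc, hd, cEnc, List.append_assoc]

theorem cmc_tree (c : Cmd) : ∀ w : List Tk,
    (cmT c ++ w).foldr trStep [] = cmdD c :: w.foldr trStep [] := by
  induction c with
  | skip => intro w; rfl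
  | push r b => intro w; cases b <;> rfl
  | pop r => intro w; rfl
  | seq c d hc hd =>
    intro w
    rw [cmT, List.cons_append, List.foldr_cons, List.append_assoc, hc, hd]
    rfl
  | cond r b c d hb hc hd =>
    intro w
    rw [cmT, List.cons_append, List.foldr_cons, List.append_assoc, List.append_assoc, hb, hc, hd]
    rfl
  | loop r c hc =>
    intro w
    rw [cmT, List.cons_append, List.foldr_cons, hc]
    rfl
  | ask r c d hc hd =>
    intro w
    rw [cmT, List.cons_append, List.foldr_cons, List.append_assoc, hc, hd]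
    rfl

theorem treeC_cm (c : Cmd) : treeC (cmT c) = cmdD c := by
  have h := cmc_tree c []
  rw [List.append_nil] at h
  unfold treeC
  rw [h]
  rfl

theorem cmT_inj {c d : Cmd} (h : cmT c = cmT d) : c = d := by
  apply cEnc_inj
  rw [← encC_cm, ← encC_cm, h]

theorem cmc_sz_tk (k i : ℕ) (w : List Tk) : sz (tk k i :: w) = 2 * k + 2 * i + 4 + sz w := by
  rw [sz_cons]
  unfold tk
  rw [sz_pair]
  have h : ∀ n : ℕ, sz (List.replicate n ()) = 2 * n + 1 := fun n => size_units n
  rw [h, h]
  ring

theorem cmc_tag_len (k : ℕ) : (tag k).length = k + 1 := by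
  unfold tag
  rw [List.length_append, List.length_replicate, List.length_singleton]

theorem cmc_sz (c : Cmd) : ∀ w : List Tk, sz (cmT c ++ w) ≤ 8 * (cEnc c).length + sz w := by
  induction c with
  | skip =>
    intro w
    rw [cmT, List.cons_append, List.nil_append, cmc_sz_tk, cEnc, cmc_tag_len]
    omega
  | push r b =>
    intro w
    cases b <;>
    · rw [cmT, List.cons_append, List.nil_append, cmc_sz_tk, cEnc, List.length_append,
        List.length_append, cmc_tag_len, cmc_tag_len]
      omega
  | pop r =>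
    intro w
    rw [cmT, List.cons_append, List.nil_append, cmc_sz_tk, cEnc, List.length_append,
      cmc_tag_len, cmc_tag_len]
    omega
  | seq c d hc hd =>
    intro w
    have h1 := hc (cmT d ++ w)
    have h2 := hd w
    rw [cmT, List.cons_append, List.append_assoc, cmc_sz_tk, cEnc, List.length_append,
      List.length_append, cmc_tag_len]
    omega
  | cond r b c d hb hc hd =>
    intro w
    have h0 := hb (cmT c ++ (cmT d ++ w))
    have h1 := hc (cmT d ++ w)
    have h2 := hd w
    rw [cmT, List.cons_append, List.append_assoc, List.append_assoc, cmc_sz_tk, cEnc,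
      List.length_append, List.length_append, List.length_append, List.length_append,
      cmc_tag_len, cmc_tag_len]
    omega
  | loop r c hc =>
    intro w
    have h1 := hc w
    rw [cmT, List.cons_append, cmc_sz_tk, cEnc, List.length_append, List.length_append,
      cmc_tag_len, cmc_tag_len]
    omega
  | ask r c d hc hd =>
    intro w
    have h1 := hc (cmT d ++ w)
    have h2 := hd w
    rw [cmT, List.cons_append, List.append_assoc, cmc_sz_tk, cEnc, List.length_append,
      List.length_append, List.length_append, cmc_tag_len, cmc_tag_len]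
    omega

theorem cmT_sz (c : Cmd) : sz (cmT c) ≤ 8 * (cEnc c).length + 8 := by
  have h := cmc_sz c []
  rw [List.append_nil] at h
  have h2 : sz ([] : List Tk) = 1 := rfl
  omega

example : type_of% @encC_cm := @encC_cm
example : type_of% @treeC_cm := @treeC_cm
example : type_of% @cmT_inj := @cmT_inj
example : type_of% @cmT_sz := @cmT_sz

end Pool.Agent.RO
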