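import Pool.Agent.Lib_helper78.RF.F.FNA
import Pool.Agent.Lib_helper78.RF.F.FNB
import Pool.Agent.Lib_helper78.RO.DefsB
import Pool.Agent.Lib_helper78.RO.F.EQT
import Pool.Agent.Lib_helper78.RO.F.RFT

set_option autoImplicit false

namespace Pool.Agent.RO

open Pool.Agent.CK Pool.Agent.RF Pool.Agent.CKP

variable {O : Lang} {γ : Type} [ToD γ]

theorem sv_eq (s : List Bool) : sv s = val s + 1 := by
  unfold sv
  induction s with
  | nil => rfl
  | cons b l ih =>
    rw [List.cons_append, ofBits_cons, ih, Nat.bit_val]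
    cases b <;> simp [val] <;> omega

theorem isPre_iff (p s : List Tk) : isPre p s = true ↔ p <+: s := by
  unfold isPre
  rw [eqT_tks, udrop_eq, udrop_eq, List.length_drop, List.drop_reverse, List.reverse_reverse]
  constructor
  · intro h
    rw [← h]
    exact List.take_prefix _ _
  · rintro ⟨t, rfl⟩
    have : (p ++ t).length - ((p ++ t).length - p.length) = p.length := by
      simp
    rw [this, List.take_left]

theorem rdn_blk (b : Bool) (s : List Bool) : numT (b :: s) = blkT b ++ numT s := by
  unfold numT blkT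
  simp

theorem rdn_tk {a b : ℕ} (h : a ≠ b) : tk a 0 ≠ tk b 0 := by
  intro h1
  apply h
  have h2 := congrArg (fun t : Tk => t.1.length) h1
  simpa [tk] using h2

theorem rdn_stp1 (u : List Tk) (r : List Bool) : rdStep (blkT true ++ u, r) = (u, true :: r) := by
  unfold rdStep
  have h : isPre (blkT true) (blkT true ++ u) = true := by
    rw [isPre_iff]; exact List.prefix_append _ _
  simp only [h, if_true]
  rw [udrop_eq, List.drop_left]

theorem rdn_stp0 (u : List Tk) (r : List Bool) : rdStep (blkT false ++ u, r) = (u, false :: r) := by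
  unfold rdStep
  have h1 : ¬ isPre (blkT true) (blkT false ++ u) = true := by
    rw [isPre_iff]
    intro hp
    have h3 : blkT true = [tk 2 0, tk 2 0, tk 6 0, tk 2 0, tk 2 0, tk 1 0] := rfl
    have h4 : blkT false = [tk 2 0, tk 6 0, tk 2 0, tk 2 0, tk 1 0] := rfl
    rw [h3, h4, List.cons_append, List.cons_prefix_cons, List.cons_append,
      List.cons_prefix_cons] at hp
    exact rdn_tk (by norm_num) hp.2.1
  have h : isPre (blkT false) (blkT false ++ u) = true := by
    rw [isPre_iff]; exact List.prefix_append _ _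
  simp only [h1, h, if_true]
  rw [if_neg (by decide), udrop_eq, List.drop_left]

theorem rdn_stpe (u : List Tk) (r : List Bool) : rdStep (tk 1 0 :: u, r) = (tk 1 0 :: u, r) := by
  unfold rdStep
  have h1 : ¬ isPre (blkT true) (tk 1 0 :: u) = true := by
    rw [isPre_iff]
    intro hp
    have h3 : blkT true = [tk 2 0, tk 2 0, tk 6 0, tk 2 0, tk 2 0, tk 1 0] := rfl
    rw [h3, List.cons_prefix_cons] at hp
    exact rdn_tk (by norm_num) hp.1
  have h2 : ¬ isPre (blkT false) (tk 1 0 :: u) = true := by
    rw [isPre_iff]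
    intro hp
    have h3 : blkT false = [tk 2 0, tk 6 0, tk 2 0, tk 2 0, tk 1 0] := rfl
    rw [h3, List.cons_prefix_cons] at hp
    exact rdn_tk (by norm_num) hp.1
  simp only [h1, h2]
  rfl

theorem rdn_foldl {α β : Type} (f : β → β) (l : List α) (q : β) :
    l.foldl (fun q _ => f q) q = f^[l.length] q := by
  induction l generalizing q with
  | nil => rfl
  | cons a l ih => rw [List.foldl_cons, ih, List.length_cons, Function.iterate_succ_apply]

theorem rdn_end (n : ℕ) (w : List Tk) (r : List Bool) :
    rdStep^[n] (tk 1 0 :: w, r) = (tk 1 0 :: w, r) := by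
  induction n with
  | zero => rfl
  | succ n ih => rw [Function.iterate_succ_apply, rdn_stpe, ih]

theorem rdn_iter (s : List Bool) (w : List Tk) : ∀ (n : ℕ) (r : List Bool), s.length ≤ n →
    rdStep^[n] (numT s ++ w, r) = (tk 1 0 :: w, s.reverse ++ r) := by
  induction s with
  | nil =>
    intro n r _
    have : numT [] ++ w = tk 1 0 :: w := rfl
    rw [this, rdn_end]
    rfl
  | cons b s ih =>
    intro n r hn
    obtain ⟨m, rfl⟩ : ∃ m, n = m + 1 := ⟨n - 1, by simp at hn; omega⟩
    rw [Function.iterate_succ_apply, rdn_blk, List.append_assoc]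
    have hm : s.length ≤ m := by simp at hn; omega
    cases b
    · rw [rdn_stp0, ih m _ hm]; simp
    · rw [rdn_stp1, ih m _ hm]; simp

theorem rdn_len (s : List Bool) : s.length ≤ (numT s).length := by
  induction s with
  | nil => simp
  | cons b s ih =>
    rw [rdn_blk, List.length_append, List.length_cons]
    have : 1 ≤ (blkT b).length := by cases b <;> simp [blkT]
    omega

theorem rdN_num (s : List Bool) (w : List Tk) : rdN (numT s ++ w) = (w, s) := by
  unfold rdN
  rw [rdn_foldl, rdn_iter s w _ [] (by rw [List.length_append]; have := rdn_len s; omega)]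
  simp

theorem rdn_num (s : List Bool) : rdN (numT s) = ([], s) := by
  have := rdN_num s []
  rwa [List.append_nil] at this

theorem leQ_iff (p : List Tk) :
    leQ p = true ↔ ∃ a b : ℕ, p = fmT (.le (num a) (num b)) ∧ a ≤ b := by
  unfold leQ
  rw [Bool.and_eq_true, eqT_tks, decide_eq_true_iff, sv_eq, sv_eq]
  constructor
  · rintro ⟨h1, h2⟩
    refine ⟨_, _, ?_, Nat.le_of_succ_le_succ h2⟩
    rw [fmT, ← numT_eq, ← numT_eq]
    exact h1
  · rintro ⟨a, b, rfl, hab⟩
    obtain ⟨s, rfl⟩ := val_surj a
    obtain ⟨t, rfl⟩ := val_surj b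
    rw [fmT, ← numT_eq, ← numT_eq, List.tail_cons, rdN_num, rdn_num]
    exact ⟨rfl, Nat.succ_le_succ hab⟩

theorem orcQ_iff (p : List Tk) :
    orcQ O p = true ↔ (∃ x : List Bool, p = fmT (.orc (num (val x))) ∧ O x = true) ∨
      ∃ x : List Bool, p = fmT (.neg (.orc (num (val x)))) ∧ O x = false := by
  unfold orcQ
  rw [Bool.or_eq_true, Bool.and_eq_true, Bool.and_eq_true, eqT_tks, eqT_tks, Bool.not_eq_true']
  constructor
  · rintro (⟨h1, h2⟩ | ⟨h1, h2⟩)
    · refine Or.inl ⟨_, ?_, h2⟩
      rw [fmT, ← numT_eq]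
      exact h1
    · refine Or.inr ⟨_, ?_, h2⟩
      rw [fmT, fmT, ← numT_eq]
      exact h1
  · rintro (⟨x, rfl, h⟩ | ⟨x, rfl, h⟩)
    · left
      rw [fmT, ← numT_eq, List.tail_cons, rdn_num]
      exact ⟨rfl, h⟩
    · right
      rw [fmT, fmT, ← numT_eq, List.tail_cons, List.tail_cons, rdn_num]
      exact ⟨rfl, h⟩

example : type_of% @sv_eq := @sv_eq
example : type_of% @isPre_iff := @isPre_iff
example : type_of% @rdN_num := @rdN_num
example : type_of% @leQ_iff := @leQ_iff
example : type_of% @orcQ_iff := @orcQ_iff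

end Pool.Agent.RO
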