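import Pool.Agent.Lib_helper78.RF.F.FNA
import Pool.Agent.Lib_helper78.RF.F.FNB
import Pool.Agent.Lib_helper78.RO.DefsB

set_option autoImplicit false

namespace Pool.Agent.RO

open Pool.Agent.CK Pool.Agent.RF Pool.Agent.CKP

theorem vlc_unit {u v : List Unit} (h : u.length = v.length) : u = v :=
  List.ext_getElem h (fun _ _ _ => rfl)

theorem vlc_fwd (c : Cmd) : ∀ (r : List Unit) (ok : Bool) (w : List Tk),
    (cmT c ++ w).foldl vcStep (() :: r, ok) = w.foldl vcStep (r, ok) := by
  induction c with
  | skip =>
    intro r ok w
    cases ok <;> rfl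
  | push k b =>
    intro r ok w
    cases b <;> cases ok <;> simp [cmT, vcStep, arC, tk, isK]
  | pop k =>
    intro r ok w
    cases ok <;> simp [cmT, vcStep, arC, tk, isK]
  | seq c d hc hd =>
    intro r ok w
    have e : vcStep (() :: r, ok) (tk 4 0) = (() :: () :: r, ok) := by
      cases ok <;> rfl
    rw [cmT, List.cons_append, List.foldl_cons, e, List.append_assoc, hc, hd]
  | cond k b c d hb hc hd =>
    intro r ok w
    have e : vcStep (() :: r, ok) (tk 5 k) = (() :: () :: () :: r, ok) := by
      cases ok <;> simp [vcStep, arC, tk, isK]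
    rw [cmT, List.cons_append, List.foldl_cons, e, List.append_assoc, List.append_assoc, hb, hc, hd]
  | loop k c hc =>
    intro r ok w
    have e : vcStep (() :: r, ok) (tk 6 k) = (() :: r, ok) := by
      cases ok <;> simp [vcStep, arC, tk, isK]
    rw [cmT, List.cons_append, List.foldl_cons, e, hc]
  | ask k c d hc hd =>
    intro r ok w
    have e : vcStep (() :: r, ok) (tk 7 k) = (() :: () :: r, ok) := by
      cases ok <;> simp [vcStep, arC, tk, isK]
    rw [cmT, List.cons_append, List.foldl_cons, e, List.append_assoc, hc, hd]

theorem vlc_false (q : List Tk) : ∀ s : List Unit, (q.foldl vcStep (s, false)).2 = false := by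
  induction q with
  | nil => intro s; rfl
  | cons t q ih =>
    intro s
    rw [List.foldl_cons]
    have e : vcStep (s, false) t = (arC t ++ s.tail, false) := by simp [vcStep]
    rw [e, ih]

theorem vlc_tk {t : Tk} {k : ℕ} (h : t.1.length = k) : t = tk k t.2.length := by
  obtain ⟨a, b⟩ := t
  simp only at h
  unfold tk
  exact Prod.ext (vlc_unit (by simp [h])) (vlc_unit (by simp))

theorem vlc_bwd (n : ℕ) : ∀ (p : List Tk), p.length ≤ n → ∀ r : List Unit,
    p.foldl vcStep (() :: r, true) = ([], true) →
    ∃ (c : Cmd) (p' : List Tk), p = cmT c ++ p' ∧ p'.foldl vcStep (r, true) = ([], true) := by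
  induction n with
  | zero =>
    intro p hp r h
    have : p = [] := List.length_eq_zero_iff.mp (by omega)
    subst this
    simp at h
  | succ n ih =>
    intro p hp r h
    cases p with
    | nil => simp at h
    | cons t q =>
      have hq : q.length ≤ n := by simpa using hp
      rw [List.foldl_cons] at h
      have hst : vcStep (() :: r, true) t = (arC t ++ r,
          (decide (t.1.length ≤ 7) && (t.2.isEmpty || !(isK 0 t || isK 4 t)))) := by
        simp [vcStep]
      rw [hst] at h
      have hb : (decide (t.1.length ≤ 7) && (t.2.isEmpty || !(isK 0 t || isK 4 t))) = true := by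
        by_contra hne
        rw [Bool.not_eq_true] at hne
        rw [hne] at h
        have h2 := vlc_false q (arC t ++ r)
        rw [h] at h2
        simp at h2
      rw [hb] at h
      have h7 : t.1.length ≤ 7 := by
        have := (Bool.and_eq_true_iff.mp hb).1
        simpa using this
      have h04 : t.2.isEmpty = true ∨ (t.1.length ≠ 0 ∧ t.1.length ≠ 4) := by
        have := (Bool.and_eq_true_iff.mp hb).2
        simp only [isK, Bool.or_eq_true, Bool.not_eq_true', Bool.or_eq_false_iff,
          decide_eq_false_iff_not] at this
        exact this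
      have key : ∀ (k : ℕ) (a : List Unit), t.1.length = k → arC t = a →
          q.foldl vcStep (a ++ r, true) = ([], true) := by
        intro k a _ ha
        rw [← ha]
        exact h
      have hc : t.1.length = 0 ∨ t.1.length = 1 ∨ t.1.length = 2 ∨ t.1.length = 3 ∨
          t.1.length = 4 ∨ t.1.length = 5 ∨ t.1.length = 6 ∨ t.1.length = 7 := by omega
      rcases hc with hk | hk | hk | hk | hk | hk | hk | hk
      · have ha : arC t = [] := by simp [arC, hk]
        have h2 : t.2 = [] := by
          rcases h04 with h04 | h04
          · exact List.isEmpty_iff.mp h04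
          · exact absurd hk h04.1
        refine ⟨.skip, q, ?_, key 0 [] hk ha⟩
        have ht := vlc_tk hk
        rw [h2] at ht
        rw [ht]
        rfl
      · have ha : arC t = [] := by simp [arC, hk]
        refine ⟨.push t.2.length false, q, ?_, key 1 [] hk ha⟩
        rw [cmT, ← vlc_tk hk]
        rfl
      · have ha : arC t = [] := by simp [arC, hk]
        refine ⟨.push t.2.length true, q, ?_, key 2 [] hk ha⟩
        rw [cmT, ← vlc_tk hk]
        rfl
      · have ha : arC t = [] := by simp [arC, hk]
        refine ⟨.pop t.2.length, q, ?_, key 3 [] hk ha⟩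
        rw [cmT, ← vlc_tk hk]
        rfl
      · have ha : arC t = [(), ()] := by simp [arC, hk]
        have h2 : t.2 = [] := by
          rcases h04 with h04 | h04
          · exact List.isEmpty_iff.mp h04
          · exact absurd hk h04.2
        obtain ⟨c, q1, e1, f1⟩ := ih q hq (() :: r) (key 4 _ hk ha)
        have hl1 : q1.length ≤ n := by
          rw [e1, List.length_append] at hq
          omega
        obtain ⟨d, q2, e2, f2⟩ := ih q1 hl1 r f1
        refine ⟨.seq c d, q2, ?_, f2⟩
        have ht := vlc_tk hk
        rw [h2] at ht
        rw [cmT, ht, e1, e2]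
        simp
      · have ha : arC t = [(), (), ()] := by simp [arC, hk]
        obtain ⟨b, q0, e0, f0⟩ := ih q hq (() :: () :: r) (key 5 _ hk ha)
        have hl0 : q0.length ≤ n := by
          rw [e0, List.length_append] at hq
          omega
        obtain ⟨c, q1, e1, f1⟩ := ih q0 hl0 (() :: r) f0
        have hl1 : q1.length ≤ n := by
          rw [e1, List.length_append] at hl0
          omega
        obtain ⟨d, q2, e2, f2⟩ := ih q1 hl1 r f1
        refine ⟨.cond t.2.length b c d, q2, ?_, f2⟩
        rw [cmT, ← vlc_tk hk, e0, e1, e2]
        simp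
      · have ha : arC t = [()] := by simp [arC, hk]
        obtain ⟨c, q1, e1, f1⟩ := ih q hq r (key 6 _ hk ha)
        refine ⟨.loop t.2.length c, q1, ?_, f1⟩
        rw [cmT, ← vlc_tk hk, e1]
        simp
      · have ha : arC t = [(), ()] := by simp [arC, hk]
        obtain ⟨c, q1, e1, f1⟩ := ih q hq (() :: r) (key 7 _ hk ha)
        have hl1 : q1.length ≤ n := by
          rw [e1, List.length_append] at hq
          omega
        obtain ⟨d, q2, e2, f2⟩ := ih q1 hl1 r f1
        refine ⟨.ask t.2.length c d, q2, ?_, f2⟩
        rw [cmT, ← vlc_tk hk, e1, e2]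
        simp

theorem vlc_nil (p : List Tk) (hp : p.foldl vcStep ([], true) = ([], true)) : p = [] := by
  cases p with
  | nil => rfl
  | cons t q =>
    exfalso
    rw [List.foldl_cons] at hp
    have e : vcStep ([], true) t = (arC t ++ [], false) := by simp [vcStep]
    rw [e] at hp
    have h2 := vlc_false q (arC t ++ [])
    rw [hp] at h2
    simp at h2

theorem validC_iff (p : List Tk) : validC p = true ↔ ∃ c : Cmd, p = cmT c := by
  constructor
  · intro h
    unfold validC at h
    rw [Bool.and_eq_true, List.isEmpty_iff] at h
    have h1 : p.foldl vcStep ([()], true) = ([], true) := Prod.ext h.1 h.2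
    obtain ⟨c, p', e, f⟩ := vlc_bwd p.length p le_rfl [] h1
    have := vlc_nil p' f
    subst this
    exact ⟨c, by simpa using e⟩
  · rintro ⟨c, rfl⟩
    have h := vlc_fwd c [] true []
    rw [List.append_nil] at h
    unfold validC
    rw [h]
    rfl

example : type_of% @validC_iff := @validC_iff

end Pool.Agent.RO
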