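import Pool.Agent.Lib_helper78.RF.F.FNA
import Pool.Agent.Lib_helper78.RF.F.FNB
import Pool.Agent.Lib_helper78.RO.DefsB
import Pool.Agent.Lib_helper78.RO.F.CMC
import Pool.Agent.Lib_helper78.RO.F.DCP
import Pool.Agent.Lib_helper78.RO.F.EQT
import Pool.Agent.Lib_helper78.RO.F.RDN
import Pool.Agent.Lib_helper78.RO.F.STR
import Pool.Agent.Lib_helper78.RO.F.VLC

/-!
# Random oracles (MP_5c38ab_lc), block FMU: the universal formula
-/

set_option autoImplicit false
set_option linter.unusedVariables false

namespace Pool.Agent.RO

open Pool.Agent.CK Pool.Agent.RF Pool.Agent.CKP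

variable {O : Lang} {γ : Type} [ToD γ]

theorem fmu_any_false (z : List Bool) (h : z.any (fun b => b) = false) :
    val z + 1 = 2 ^ z.length := by
  induction z with
  | nil => simp [val]
  | cons a l ih =>
    rw [List.any_cons] at h
    cases a with
    | false =>
      rw [Bool.false_or] at h
      rw [VAL_false, List.length_cons, pow_succ, ← ih h]
      ring
    | true => simp at h

theorem fmu_any_true (z : List Bool) (h : z.any (fun b => b) = true) :
    2 ^ z.length ≤ val z := by
  induction z with
  | nil => simp at h
  | cons a l ih =>
    rw [List.any_cons] at h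
    cases a with
    | false =>
      rw [Bool.false_or] at h
      have := ih h
      rw [VAL_false, List.length_cons, pow_succ]
      omega
    | true =>
      have := (VAL_bounds l).1
      rw [VAL_true, List.length_cons, pow_succ]
      omega

theorem sizeU_len (z : List Bool) : (sizeU z).length = Nat.size (val z) := by
  unfold sizeU
  cases h : z.any (fun b => b) with
  | true =>
    simp only [if_true, List.length_cons, ulen_eq, List.length_replicate]
    have h1 := fmu_any_true z h
    have h2 := (VAL_bounds z).2
    apply le_antisymm
    · exact Nat.lt_size.mpr h1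
    · exact Nat.size_le.mpr (by omega)
  | false =>
    simp only [Bool.false_eq_true, if_false, ulen_eq, List.length_replicate]
    have h1 := fmu_any_false z h
    apply le_antisymm
    · exact (size_val z).1
    · exact Nat.size_le.mpr (by omega)

theorem fmu_len_le {b z : List Bool} (h : val b ≤ val z) : b.length ≤ z.length := by
  have h1 := (VAL_bounds b).1
  have h2 := (VAL_bounds z).2
  have h3 : 2 ^ b.length < 2 ^ (z.length + 1) := by omega
  have := (Nat.pow_lt_pow_iff_right (by norm_num : 1 < 2)).mp h3
  omega

theorem falseMu_iff {M : List Unit} {e x z : List Bool} : falseMu O M e x z = true ↔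
    8 * e.length + 8 ≤ M.length ∧ z.length ≤ M.length ∧
      ¬ MuT O (val e) (val x) (val z) := by
  unfold falseMu
  rw [Bool.and_eq_true, Bool.and_eq_true, decide_eq_true_iff, decide_eq_true_iff, and_assoc,
    List.all_eq_true]
  refine and_congr_right fun h1 => and_congr_right fun h2 => ⟨fun h hm => ?_, fun h w hw => ?_⟩
  · obtain ⟨w, hw, c, a, b, hc, ha, hb, hacc⟩ := hm
    have hce := val_inj hc
    have hax := val_inj ha
    subst hax
    have hsz : (toD (cmT c)).size ≤ M.length := by
      have := cmT_sz c
      rw [hce] at this
      exact this.trans h1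
    obtain ⟨w', hw', hd⟩ := dec_pad (toD (cmT c)) M.length hsz
    have h3 := h w' (mem_allStr.mpr hw')
    rw [hd, toTks_toD, encC_cm, hce, treeC_cm] at h3
    have h4 : validC (cmT c) = true := (validC_iff _).mpr ⟨c, rfl⟩
    have h5 : eqT e e = true := (eqT_bits e e).mpr rfl
    rw [h4, h5, Bool.and_self, Bool.not_true, Bool.false_or, List.all_eq_true] at h3
    have hbz : val b ≤ val z := by rw [hb]; exact hw
    have h6 := h3 b (mem_upTo.mpr ((fmu_len_le hbz).trans h2))
    have h7 : sv b ≤ sv z := by rw [sv_eq, sv_eq]; omega
    have h8 : accU O (cmdD c) a b (sizeU z) = true := by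
      rw [accU_iff, sizeU_len]; exact hacc
    rw [decide_eq_true h7, h8] at h6
    simp at h6
  · by_cases hv : validC (toTks (dec w)) = true
    · obtain ⟨c, hc⟩ := (validC_iff _).mp hv
      rw [hc, encC_cm, treeC_cm]
      by_cases he : eqT (cEnc c) e = true
      · have hce := (eqT_bits _ _).mp he
        have hall : (upTo M).all (fun v => !decide (sv v ≤ sv z) ||
            !accU O (cmdD c) x v (sizeU z)) = true := by
          rw [List.all_eq_true]
          intro v hv2
          by_cases hvz : sv v ≤ sv z
          · by_cases hac : accU O (cmdD c) x v (sizeU z) = true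
            · exfalso
              apply h
              rw [accU_iff, sizeU_len] at hac
              rw [sv_eq, sv_eq] at hvz
              exact ⟨val v, by omega, c, x, v, by rw [hce], rfl, rfl, hac⟩
            · rw [Bool.not_eq_true] at hac
              rw [hac]; simp
          · rw [decide_eq_false hvz]; simp
        rw [hall, Bool.or_true]
      · rw [Bool.not_eq_true] at he
        rw [he]; simp
    · rw [Bool.not_eq_true] at hv
      rw [hv]; simp

example : type_of% @sizeU_len := @sizeU_len
example : type_of% @falseMu_iff := @falseMu_iff

end Pool.Agent.RO
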