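import Pool.Agent.Lib_helper78.RF.F.FNA
import Pool.Agent.Lib_helper78.RF.F.FNB
import Pool.Agent.Lib_helper78.RO.DefsB
import Pool.Agent.Lib_helper78.RO.F.DCP
import Pool.Agent.Lib_helper78.RO.F.ENB
import Pool.Agent.Lib_helper78.RO.F.EQT
import Pool.Agent.Lib_helper78.RO.F.FMP
import Pool.Agent.Lib_helper78.RO.F.FMU
import Pool.Agent.Lib_helper78.RO.F.RFP
import Pool.Agent.Lib_helper78.RO.F.RFT
import Pool.Agent.Lib_helper78.RO.F.STR
import Pool.Agent.Lib_helper78.RO.F.TOK

/-!
# Random oracles (MP_5c38ab_lc), block RMU: refutations of false sentences of the universal formula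
-/

set_option autoImplicit false
set_option linter.unusedVariables false

namespace Pool.Agent.RO

open Pool.Agent.CK Pool.Agent.RF Pool.Agent.CKP

variable {O : Lang} {γ : Type} [ToD γ]

theorem rmu_fm (a b c : List Bool) : negK (muT (numT a) (numT b) (numT c)) =
    fmT (.neg (mu (num (val a)) (num (val b)) (num (val c)))) := by
  rw [numT_eq, numT_eq, numT_eq, muT_eq]
  rfl

theorem refMuQ_sound {M : List Unit} {χ : Fm} (h : refMuQ O M (fmT χ) = true) :
    ∃ e x z : ℕ, χ = .neg (mu (num e) (num x) (num z)) ∧ ¬ MuT O e x z := by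
  unfold refMuQ at h
  rw [List.any_eq_true] at h
  obtain ⟨w, -, hw⟩ := h
  rw [Bool.and_eq_true, eqT_tks, rmu_fm] at hw
  exact ⟨_, _, _, fmT_inj hw.1, (falseMu_iff.mp hw.2).2.2⟩

theorem refMuQ_complete {e x z : ℕ} (h : ¬ MuT O e x z) : ∃ M0 : ℕ, ∀ M : List Unit,
    M0 ≤ M.length → refMuQ O M (fmT (.neg (mu (num e) (num x) (num z)))) = true := by
  obtain ⟨e', rfl⟩ := val_surj e
  obtain ⟨x', rfl⟩ := val_surj x
  obtain ⟨z', rfl⟩ := val_surj z
  refine ⟨(toD (e', (x', z'))).size + (8 * e'.length + 8) + z'.length, fun M hM => ?_⟩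
  obtain ⟨w, hw, hd⟩ := dec_pad (toD (e', (x', z'))) M.length (by omega)
  unfold refMuQ
  rw [List.any_eq_true]
  refine ⟨w, mem_allStr.mpr hw, ?_⟩
  have h1 : toBits (dec w).car = e' := by rw [hd]; exact toBits_toD e'
  have h2 : toBits (dec w).cdr.car = x' := by rw [hd]; exact toBits_toD x'
  have h3 : toBits (dec w).cdr.cdr = z' := by rw [hd]; exact toBits_toD z'
  rw [h1, h2, h3, Bool.and_eq_true, eqT_tks, rmu_fm]
  exact ⟨rfl, falseMu_iff.mpr ⟨by omega, by omega, h⟩⟩

theorem PTime_refMuQ {M : γ → List Unit} {χ : γ → List Tk} (hM : PTime O M) (hχ : PTime O χ)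
    (P : Polynomial ℕ) (hP : ∀ a, 2 ^ (M a).length ≤ P.eval (sz a)) :
    PTime O (fun a => refMuQ O (M a) (χ a)) := by
  unfold refMuQ
  have h1 : PTime O (fun p : γ × List Bool => dec p.2) := PTime.dec PTime.id.snd
  have hM1 : PTime O (fun p : γ × List Bool => M p.1) := hM.comp PTime.id.fst
  have hχ1 : PTime O (fun p : γ × List Bool => χ p.1) := hχ.comp PTime.id.fst
  refine PTime.any (l := fun a => allStr (M a)) (PTime_allStr hM P hP) ?_
  refine PTime.and (PTime_eqT hχ1 (PTime_negK (PTime_muT (PTime_numT h1.car.toBits)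
    (PTime_numT h1.cdr.car.toBits) (PTime_numT h1.cdr.cdr.toBits))))
    (PTime_falseMu hM1 h1.car.toBits h1.cdr.car.toBits h1.cdr.cdr.toBits P fun p => ?_)
  exact (hP p.1).trans (poly_mono P (by rw [sz_pair]; omega))

example : type_of% @refMuQ_sound := @refMuQ_sound
example : type_of% @refMuQ_complete := @refMuQ_complete
example : type_of% @PTime_refMuQ := @PTime_refMuQ

end Pool.Agent.RO
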