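import Pool.Agent.Lib_helper78.RF.F.FNA
import Pool.Agent.Lib_helper78.RF.F.FNB
import Pool.Agent.Lib_helper78.RO.DefsB
import Pool.Agent.Lib_helper78.RO.F.DCL
import Pool.Agent.Lib_helper78.RO.F.EQT
import Pool.Agent.Lib_helper78.RO.F.RMU
import Pool.Agent.Lib_helper78.RO.F.TOK

set_option autoImplicit false

namespace Pool.Agent.RO

open Pool.Agent.CK Pool.Agent.RF Pool.Agent.CKP

variable {O : Lang} {γ : Type} [ToD γ]

theorem PTime_leadS {l : γ → List Tk} (hl : PTime O l) : PTime O (fun x => leadS (l x)) := by
  unfold leadS
  refine PTime.listRec_add (l := l) (n := fun _ => ([] : List Unit))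
    (c := fun _ a _ r => if isK 2 a = true then () :: r else []) hl (PTime.const _) ?_ 2 ?_
  · refine PTime.ite (PTime_isK 2 (PTime.id.snd.fst)) ?_ (PTime.const _)
    exact PTime.cons (PTime.const ()) (PTime.id.snd.snd.snd)
  · intro x b a t _
    have h2 : Polynomial.eval (sz x) (2 : Polynomial ℕ) = 2 := by
      simp
    rw [h2]
    by_cases h : isK 2 a = true
    · rw [if_pos h, sz_cons]
      have h1 : sz () = 1 := rfl
      omega
    · rw [if_neg h, sz_nil]
      have := sz_pos b
      omega

theorem PTime_padK {m : γ → List Unit} {p : γ → List Tk} (hm : PTime O m) (hp : PTime O p) :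
    PTime O (fun x => padK (m x) (p x)) := by
  unfold padK
  have h1 : PTime O (fun x => (m x).map (fun _ => tk 2 0)) :=
    PTime.map (f := fun _ _ => tk 2 0) hm (PTime.const _)
  exact PTime.cons (PTime.const _) (PTime.cons (PTime.const _)
    (h1.append ((PTime.const _).append (h1.append ((PTime.const _).append hp)))))

theorem pdp_leadS_len (l : List Tk) : (leadS l).length ≤ l.length := by
  induction l with
  | nil => exact le_refl _
  | cons a t ih =>
    have h : leadS (a :: t) = if isK 2 a = true then () :: leadS t else [] := rfl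
    rw [h]
    by_cases h2 : isK 2 a = true
    · rw [if_pos h2, List.length_cons, List.length_cons]
      omega
    · rw [if_neg h2]
      simp

theorem pdp_pow (n : ℕ) : 2 ^ (ulen n.bits.tail).length ≤ n + 1 := by
  have h1 : (ulen n.bits.tail).length = Nat.size n - 1 := by
    simp [ulen, Nat.size_eq_bits_len]
  rw [h1]
  rcases Nat.eq_zero_or_pos n with h | h
  · subst h
    simp
  · have h2 : Nat.size n - 1 < Nat.size n := by
      have := Nat.size_pos.2 h
      omega
    have h3 := Nat.lt_size.1 h2
    omega

theorem PTime_padQ {p : γ → List Tk} (hp : PTime O p) : PTime O (fun x => padQ O (p x)) := by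
  obtain ⟨P, hP⟩ := hp.size_le
  have hL : PTime O (fun x => leadS (udrop [(), ()] (p x))) :=
    PTime_leadS (PTime.udrop (PTime.const _) hp)
  have hD : PTime O (fun x => udrop (leadS (udrop [(), ()] (p x)) ++
      (leadS (udrop [(), ()] (p x)) ++ [(), (), (), ()])) (p x)) :=
    PTime.udrop (hL.append (hL.append (PTime.const _))) hp
  have hM : PTime O (fun x => ulen (leadS (udrop [(), ()] (p x))).length.bits.tail) :=
    hL.length.bits.tail.ulen
  have hb : ∀ a, 2 ^ (ulen (leadS (udrop [(), ()] (p a))).length.bits.tail).length ≤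
      (P + 1).eval (sz a) := by
    intro a
    have h1 := pdp_pow (leadS (udrop [(), ()] (p a))).length
    have h2 := pdp_leadS_len (udrop [(), ()] (p a))
    have h3 : (udrop [(), ()] (p a)).length ≤ (p a).length := by
      rw [udrop_eq]
      simp
    have h4 := length_le_sz (p a)
    have h5 := hP a
    have h6 : (P + 1).eval (sz a) = P.eval (sz a) + 1 := by
      rw [Polynomial.eval_add, Polynomial.eval_one]
    rw [h6]
    omega
  unfold padQ
  exact (PTime_eqT hp (PTime_padK hL hD)).and
    ((PTime_refMuQ hM hD (P + 1) hb).or (PTime_refRfnQ hM hD (P + 1) hb))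

end Pool.Agent.RO

section
open Pool.Agent.RO
example : type_of% @PTime_leadS := @PTime_leadS
example : type_of% @PTime_padK := @PTime_padK
example : type_of% @PTime_padQ := @PTime_padQ
end
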