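import Pool.Agent.Lib_helper78.RF.F.FNA
import Pool.Agent.Lib_helper78.RF.F.FNB
import Pool.Agent.Lib_helper78.RO.DefsB
import Pool.Agent.Lib_helper78.RF.F.ENC
import Pool.Agent.Lib_helper78.RO.F.ENB
import Pool.Agent.Lib_helper78.RO.F.EQT

/-! Random oracles (MP_5c38ab_lc), part B: block PDQ (padding). -/

set_option autoImplicit false

namespace Pool.Agent.RO

open Pool.Agent.CK Pool.Agent.RF Pool.Agent.CKP

variable {O : Lang} {γ : Type} [ToD γ]

theorem fmT_app {φ ψ : Fm} {a b : List Tk} (h : fmT φ ++ a = fmT ψ ++ b) :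
    φ = ψ ∧ a = b := by
  have h1 := congrArg encT h
  have e : ∀ p q : List Tk, encT (p ++ q) = encT p ++ encT q := fun p q => by
    unfold encT; rw [List.flatMap_append]
  rw [e, e, encT_fm, encT_fm] at h1
  have h2 := (enc_inj h1).1
  subst h2
  exact ⟨rfl, List.append_cancel_left h⟩

theorem pdq_succs (m : ℕ) : tmT (succs m) = List.replicate m (tk 2 0) ++ [tk 1 0] := by
  induction m with
  | zero => rfl
  | succ m ih =>
    show tk 2 0 :: tmT (succs m) = _
    rw [ih]
    rfl

theorem padK_fm (m : ℕ) (φ : Fm) :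
    padK (List.replicate m ()) (fmT φ) = fmT (pad m φ) := by
  show _ = tk 15 0 :: ((tk 9 0 :: (tmT (succs m) ++ tmT (succs m))) ++ fmT φ)
  unfold padK
  rw [pdq_succs, List.map_replicate]
  simp only [List.append_assoc, List.cons_append, List.nil_append]

theorem pdq_unit (l : List Unit) : l = List.replicate l.length () := by
  induction l with
  | nil => rfl
  | cons a t ih => rw [List.length_cons, List.replicate_succ, ← ih]

theorem pdq_lead (m : ℕ) (l : List Tk) :
    leadS (List.replicate m (tk 2 0) ++ (tk 1 0 :: l)) = List.replicate m () := by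
  induction m with
  | zero => rfl
  | succ m ih =>
    show (if isK 2 (tk 2 0) = true then () :: leadS (List.replicate m (tk 2 0) ++ (tk 1 0 :: l))
      else []) = _
    rw [ih, if_pos (by rfl)]
    rfl

theorem pdq_m (m : ℕ) (χ : Fm) : leadS (udrop [(), ()] (fmT (pad m χ))) = List.replicate m () := by
  rw [← padK_fm, udrop_eq]
  unfold padK
  show leadS (List.map (fun _ => tk 2 0) (List.replicate m ()) ++ _) = _
  rw [List.map_replicate]
  exact pdq_lead m _

theorem pdq_chi (m : ℕ) (χ : Fm) : udrop (List.replicate m () ++ (List.replicate m () ++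
    [(), (), (), ()])) (fmT (pad m χ)) = fmT χ := by
  rw [← padK_fm, udrop_eq]
  unfold padK
  rw [List.map_replicate]
  have e : tk 15 0 :: tk 9 0 :: (List.replicate m (tk 2 0) ++ ([tk 1 0] ++
      (List.replicate m (tk 2 0) ++ ([tk 1 0] ++ fmT χ)))) =
      (tk 15 0 :: tk 9 0 :: (List.replicate m (tk 2 0) ++ ([tk 1 0] ++
      (List.replicate m (tk 2 0) ++ [tk 1 0])))) ++ fmT χ := by
    simp only [List.append_assoc, List.cons_append, List.nil_append]
  rw [e]
  refine List.drop_left' ?_
  simp only [List.length_cons, List.length_append, List.length_replicate, List.length_nil]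
  omega

theorem pdq_size (m : ℕ) : ulen m.bits.tail = List.replicate (Nat.size m - 1) () := by
  rw [ulen_eq, List.length_tail, Nat.size_eq_bits_len]

theorem padQ_fm (σ : Fm) : padQ O (fmT σ) = true ↔ ∃ (m : ℕ) (χ : Fm), σ = pad m χ ∧
    (refMuQ O (List.replicate (Nat.size m - 1) ()) (fmT χ) = true ∨
      refRfnQ O (List.replicate (Nat.size m - 1) ()) (fmT χ) = true) := by
  constructor
  · intro h
    unfold padQ at h
    rw [Bool.and_eq_true, eqT_tks, Bool.or_eq_true, pdq_size] at h
    obtain ⟨h1, h2⟩ := h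
    set m' := leadS (udrop [(), ()] (fmT σ)) with hm'
    set p' := udrop (m' ++ (m' ++ [(), (), (), ()])) (fmT σ) with hp'
    have h3 : m' = List.replicate m'.length () := pdq_unit m'
    have h4 : fmT σ = tk 15 0 :: (fmT (.eq (succs m'.length) (succs m'.length)) ++ p') := by
      rw [h1]
      unfold padK
      show _ = tk 15 0 :: ((tk 9 0 :: (tmT (succs m'.length) ++ tmT (succs m'.length))) ++ p')
      rw [pdq_succs, h3, List.map_replicate]
      simp only [List.append_assoc, List.cons_append, List.nil_append, List.length_replicate]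
    have h5 : ∃ α χ : Fm, σ = .imp α χ := by
      cases σ with
      | imp α χ => exact ⟨α, χ, rfl⟩
      | _ => exact absurd (congrArg (fun l => (l.headD (tk 0 0)).1.length) h4) (by
          simp [fmT, tk])
    obtain ⟨α, χ, rfl⟩ := h5
    have h6 : fmT α ++ fmT χ = fmT (.eq (succs m'.length) (succs m'.length)) ++ p' := by
      have := h4
      simp only [fmT] at this ⊢
      exact List.cons_injective this
    obtain ⟨h7, h8⟩ := fmT_app h6
    refine ⟨m'.length, χ, by rw [h7]; rfl, ?_⟩
    rw [h8]
    exact h2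
  · rintro ⟨m, χ, rfl, h⟩
    unfold padQ
    rw [pdq_m, pdq_chi, pdq_size, List.length_replicate, Bool.and_eq_true, eqT_tks,
      Bool.or_eq_true]
    exact ⟨(padK_fm m χ).symm, h⟩

end Pool.Agent.RO

example : type_of% @Pool.Agent.RO.fmT_app := @Pool.Agent.RO.fmT_app
example : type_of% @Pool.Agent.RO.padK_fm := @Pool.Agent.RO.padK_fm
example : type_of% @Pool.Agent.RO.padQ_fm := @Pool.Agent.RO.padQ_fm
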