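import Pool.Agent.Lib_helper78.RF.F.FNA
import Pool.Agent.Lib_helper78.RF.F.FNB
import Pool.Agent.Lib_helper78.RO.DefsB
import Pool.Agent.Lib_helper78.RO.F.TOK

set_option autoImplicit false

namespace Pool.Agent.RO

open Pool.Agent.CK Pool.Agent.RF Pool.Agent.CKP

variable {O : Lang} {γ : Type} [ToD γ]

theorem prp_sz_append {β : Type} [ToD β] (a b : List β) : sz (a ++ b) + 1 = sz a + sz b := by
  induction a with
  | nil => rw [List.nil_append, sz_nil]; omega
  | cons x t ih => rw [List.cons_append, sz_cons, sz_cons]; omega

theorem prp_expK {α : Type} [ToD α] {t : α → Tk} (ht : PTime O t) :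
    PTime O (fun x => expK (t x)) := by
  unfold expK
  refine PTime.ite (PTime_isK 0 ht) (PTime.const _) (PTime.ite (PTime_isK 16 ht) (PTime.const _)
    (PTime.ite (PTime.nat_le (PTime.const 14) ht.fst.length) ?_ ?_))
  · exact PTime.map (f := fun _ _ => ([] : List Unit)) (PTime_arU ht) (PTime.const _)
  · exact PTime.map (f := fun _ _ => [()]) (PTime_arU ht) (PTime.const _)

theorem prp_sz_map (c : List Unit) (h : sz c ≤ 5) (l : List Unit) :
    sz (l.map (fun _ => c)) ≤ 6 * l.length + 1 := by
  induction l with
  | nil => simp
  | cons a t ih => rw [List.map_cons, sz_cons, List.length_cons]; omega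

theorem prp_sz_expK (t : Tk) : sz (expK t) ≤ 25 := by
  have hu : sz () = 1 := rfl
  have h4 := arU_le t
  unfold expK
  split_ifs
  · simp only [sz_cons, sz_nil, hu]; omega
  · simp only [sz_cons, sz_nil, hu]; omega
  · have := prp_sz_map [] (by rw [sz_nil]; omega) (arU t)
    omega
  · have := prp_sz_map [()] (by simp only [sz_cons, sz_nil, hu]; omega) (arU t)
    omega

theorem prp_pTag {α : Type} [ToD α] {q : α → List (List Unit) × List Unit × List Tk}
    (hq : PTime O q) : PTime O (fun x => pTag (q x)) := by
  have h1 := hq.fst
  have h2 := hq.snd.fst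
  have h3 := hq.snd.snd
  have hl := (PTime.headD (d := fun _ => ([] : List Unit)) h1 (PTime.const _)).length
  unfold pTag
  refine PTime.ite (PTime.nat_eq hl (PTime.const 2)) ?_
    (PTime.ite (PTime.nat_eq hl (PTime.const 1)) ?_ ?_)
  · exact h1.tail.pair ((PTime.const []).pair
      ((((PTime.headD (d := fun _ => (([], []) : Tk)) h3 (PTime.const _)).fst).pair h2).cons
        h3.tail))
  · exact ((prp_expK (h2.pair (PTime.const []))).append h1.tail).pair
      ((PTime.const []).pair ((h2.pair (PTime.const [])).cons h3))
  · have h5 : PTime O (fun x => List.replicate 9 () ++ (q x).2.1) := (PTime.const _).append h2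
    exact ((prp_expK (h5.pair (PTime.const []))).append h1.tail).pair
      ((PTime.const []).pair ((h5.pair (PTime.const [])).cons h3))

theorem prp_pStep {α : Type} [ToD α] {q : α → List (List Unit) × List Unit × List Tk}
    {b : α → Bool} (hq : PTime O q) (hb : PTime O b) : PTime O (fun x => pStep (q x) (b x)) := by
  unfold pStep
  exact PTime.ite hb (hq.fst.pair (((PTime.const ()).cons hq.snd.fst).pair hq.snd.snd))
    (prp_pTag hq)

theorem prp_sz_pTag (q : List (List Unit) × List Unit × List Tk) : sz (pTag q) ≤ sz q + 60 := by
  obtain ⟨a, b, c⟩ := q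
  have hu : sz () = 1 := rfl
  have ht := sz_tail_le a
  have hn : sz ([] : List Unit) = 1 := rfl
  unfold pTag
  split_ifs
  · simp only [sz_pair, sz_cons, hn]
    cases c with
    | nil => simp only [List.headD_nil, List.tail_nil, hn, sz_nil]; omega
    | cons x t => simp only [List.headD_cons, List.tail_cons, sz_cons]
                  obtain ⟨x1, x2⟩ := x
                  simp only [sz_pair]
                  omega
  · have h1 := prp_sz_append (expK (b, [])) a.tail
    have h2 := prp_sz_expK (b, [])
    simp only [sz_pair, sz_cons, hn]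
    omega
  · have h1 := prp_sz_append (expK (List.replicate 9 () ++ b, [])) a.tail
    have h2 := prp_sz_expK (List.replicate 9 () ++ b, [])
    have h3 := prp_sz_append (List.replicate 9 ()) b
    have h4 : sz (List.replicate 9 ()) = 19 := rfl
    simp only [sz_pair, sz_cons, hn]
    omega

theorem prp_sz_pStep (q : List (List Unit) × List Unit × List Tk) (b : Bool) :
    sz (pStep q b) ≤ sz q + 60 := by
  unfold pStep
  split_ifs
  · obtain ⟨a, b, c⟩ := q
    have hu : sz () = 1 := rfl
    simp only [sz_pair, sz_cons, hu]
    omega
  · exact prp_sz_pTag q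

theorem PTime_parse {s : γ → List Bool} (hs : PTime O s) :
    PTime O (fun x => parse (s x)) := by
  have h : PTime O (fun x => (s x).foldl pStep
      (([[]], [], []) : List (List Unit) × List Unit × List Tk)) := by
    refine PTime.foldl_add (l := s)
      (i := fun _ => (([[]], [], []) : List (List Unit) × List Unit × List Tk))
      (s := fun _ q b => pStep q b) hs (PTime.const _)
      (prp_pStep (q := fun p : γ × (List (List Unit) × List Unit × List Tk) × Bool => p.2.1)
        (b := fun p : γ × (List (List Unit) × List Unit × List Tk) × Bool => p.2.2)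
        PTime.id.snd.fst PTime.id.snd.snd)
      (Polynomial.C 60) ?_
    intro x b a _
    rw [Polynomial.eval_C]
    exact prp_sz_pStep b a
  exact h.snd.snd.reverse

example : type_of% @PTime_parse := @PTime_parse

end Pool.Agent.RO
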