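import Pool.Agent.Lib_helper78.RF.F.FNA
import Pool.Agent.Lib_helper78.RF.F.FNB
import Pool.Agent.Lib_helper78.RO.DefsB

set_option autoImplicit false

namespace Pool.Agent.RO

open Pool.Agent.CK Pool.Agent.RF Pool.Agent.CKP

theorem prs_unit {u v : List Unit} (h : u.length = v.length) : u = v :=
  List.ext_getElem h (fun _ _ _ => rfl)

theorem prs_ones (k : ℕ) : ∀ (e : List (List Unit)) (u : List Unit) (o : List Tk) (w : List Bool),
    (List.replicate k true ++ w).foldl pStep (e, u, o) =
      w.foldl pStep (e, List.replicate k () ++ u, o) := by
  induction k with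
  | zero => intro e u o w; rfl
  | succ k ih =>
    intro e u o w
    rw [List.replicate_succ, List.cons_append, List.foldl_cons]
    have h : pStep (e, u, o) true = (e, () :: u, o) := rfl
    rw [h, ih]
    have h2 : List.replicate k () ++ () :: u = List.replicate (k + 1) () ++ u :=
      prs_unit (by simp; omega)
    rw [h2]

theorem prs_tag (k : ℕ) (e : List (List Unit)) (o : List Tk) (w : List Bool) :
    (tag k ++ w).foldl pStep (e, [], o) =
      w.foldl pStep (pTag (e, List.replicate k (), o)) := by
  unfold tag
  rw [List.append_assoc, prs_ones, List.append_nil]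
  rfl

/-- a tag where a term is expected -/
theorem prs_tag1 (k : ℕ) (r : List (List Unit)) (o : List Tk) (w : List Bool) :
    (tag k ++ w).foldl pStep ([()] :: r, [], o) =
      w.foldl pStep (expK (tk k 0) ++ r, [], tk k 0 :: o) := by
  rw [prs_tag]
  rfl

/-- a tag where a formula is expected -/
theorem prs_tag0 (k : ℕ) (r : List (List Unit)) (o : List Tk) (w : List Bool) :
    (tag k ++ w).foldl pStep ([] :: r, [], o) =
      w.foldl pStep (expK (tk (9 + k) 0) ++ r, [], tk (9 + k) 0 :: o) := by
  have h : List.replicate 9 () ++ List.replicate k () = List.replicate (9 + k) () :=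
    prs_unit (by simp; omega)
  rw [prs_tag]
  unfold tk
  rw [← h]
  rfl

/-- a tag where a number is expected -/
theorem prs_tag2 (i : ℕ) (k : ℕ) (r : List (List Unit)) (o : List Tk) (w : List Bool) :
    (tag i ++ w).foldl pStep ([(), ()] :: r, [], tk k 0 :: o) =
      w.foldl pStep (r, [], tk k i :: o) := by
  rw [prs_tag]
  rfl

theorem prs_tm (t : Tm) : ∀ (r : List (List Unit)) (o : List Tk) (w : List Bool),
    (t.enc ++ w).foldl pStep ([()] :: r, [], o) =
      w.foldl pStep (r, [], (tmT t).reverse ++ o) := by
  induction t with
  | var i =>
    intro r o w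
    rw [Tm.enc, List.append_assoc, prs_tag1]
    have e : expK (tk 0 0) = [[(), ()]] := rfl
    rw [e, List.singleton_append, prs_tag2]
    rfl
  | zero =>
    intro r o w
    rw [Tm.enc, prs_tag1]
    rfl
  | succ t ih =>
    intro r o w
    rw [Tm.enc, List.append_assoc, prs_tag1]
    have e : expK (tk 2 0) = [[()]] := rfl
    rw [e, List.singleton_append, ih, tmT, List.reverse_cons, List.append_assoc,
      List.singleton_append]
  | half t ih =>
    intro r o w
    rw [Tm.enc, List.append_assoc, prs_tag1]
    have e : expK (tk 3 0) = [[()]] := rfl
    rw [e, List.singleton_append, ih, tmT, List.reverse_cons, List.append_assoc,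
      List.singleton_append]
  | len t ih =>
    intro r o w
    rw [Tm.enc, List.append_assoc, prs_tag1]
    have e : expK (tk 4 0) = [[()]] := rfl
    rw [e, List.singleton_append, ih, tmT, List.reverse_cons, List.append_assoc,
      List.singleton_append]
  | add s t ihs iht =>
    intro r o w
    rw [Tm.enc, List.append_assoc, List.append_assoc, prs_tag1]
    have e : expK (tk 5 0) ++ r = [()] :: [()] :: r := rfl
    rw [e, ihs, iht, tmT, List.reverse_cons, List.reverse_append, List.append_assoc,
      List.append_assoc, List.singleton_append]
  | mul s t ihs iht =>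
    intro r o w
    rw [Tm.enc, List.append_assoc, List.append_assoc, prs_tag1]
    have e : expK (tk 6 0) ++ r = [()] :: [()] :: r := rfl
    rw [e, ihs, iht, tmT, List.reverse_cons, List.reverse_append, List.append_assoc,
      List.append_assoc, List.singleton_append]
  | smash s t ihs iht =>
    intro r o w
    rw [Tm.enc, List.append_assoc, List.append_assoc, prs_tag1]
    have e : expK (tk 7 0) ++ r = [()] :: [()] :: r := rfl
    rw [e, ihs, iht, tmT, List.reverse_cons, List.reverse_append, List.append_assoc,
      List.append_assoc, List.singleton_append]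
  | sbn q s t ihq ihs iht =>
    intro r o w
    rw [Tm.enc, List.append_assoc, List.append_assoc, List.append_assoc, prs_tag1]
    have e : expK (tk 8 0) ++ r = [()] :: [()] :: [()] :: r := rfl
    rw [e, ihq, ihs, iht, tmT, List.reverse_cons, List.reverse_append, List.reverse_append]
    simp only [List.append_assoc, List.singleton_append]

theorem prs_fm (φ : Fm) : ∀ (r : List (List Unit)) (o : List Tk) (w : List Bool),
    (φ.enc ++ w).foldl pStep ([] :: r, [], o) =
      w.foldl pStep (r, [], (fmT φ).reverse ++ o) := by
  induction φ with
  | eq s t =>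
    intro r o w
    rw [Fm.enc, List.append_assoc, List.append_assoc, prs_tag0]
    have e : expK (tk (9 + 0) 0) ++ r = [()] :: [()] :: r := rfl
    rw [e, prs_tm, prs_tm, fmT, List.reverse_cons, List.reverse_append]
    simp only [List.append_assoc, List.singleton_append]
  | le s t =>
    intro r o w
    rw [Fm.enc, List.append_assoc, List.append_assoc, prs_tag0]
    have e : expK (tk (9 + 1) 0) ++ r = [()] :: [()] :: r := rfl
    rw [e, prs_tm, prs_tm, fmT, List.reverse_cons, List.reverse_append]
    simp only [List.append_assoc, List.singleton_append]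
  | orc t =>
    intro r o w
    rw [Fm.enc, List.append_assoc, prs_tag0]
    have e : expK (tk (9 + 2) 0) ++ r = [()] :: r := rfl
    rw [e, prs_tm, fmT, List.reverse_cons]
    simp only [List.append_assoc, List.singleton_append]
  | tr e x v z =>
    intro r o w
    rw [Fm.enc, List.append_assoc, List.append_assoc, List.append_assoc, List.append_assoc,
      prs_tag0]
    have e : expK (tk (9 + 3) 0) ++ r = [()] :: [()] :: [()] :: [()] :: r := rfl
    rw [e, prs_tm, prs_tm, prs_tm, prs_tm, fmT, List.reverse_cons, List.reverse_append,
      List.reverse_append, List.reverse_append]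
    simp only [List.append_assoc, List.singleton_append]
  | prf p z u v =>
    intro r o w
    rw [Fm.enc, List.append_assoc, List.append_assoc, List.append_assoc, List.append_assoc,
      prs_tag0]
    have e : expK (tk (9 + 4) 0) ++ r = [()] :: [()] :: [()] :: [()] :: r := rfl
    rw [e, prs_tm, prs_tm, prs_tm, prs_tm, fmT, List.reverse_cons, List.reverse_append,
      List.reverse_append, List.reverse_append]
    simp only [List.append_assoc, List.singleton_append]
  | neg φ ih =>
    intro r o w
    rw [Fm.enc, List.append_assoc, prs_tag0]
    have e : expK (tk (9 + 5) 0) ++ r = [] :: r := rfl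
    rw [e, ih, fmT, List.reverse_cons]
    simp only [List.append_assoc, List.singleton_append]
  | imp φ ψ ihφ ihψ =>
    intro r o w
    rw [Fm.enc, List.append_assoc, List.append_assoc, prs_tag0]
    have e : expK (tk (9 + 6) 0) ++ r = [] :: [] :: r := rfl
    rw [e, ihφ, ihψ, fmT, List.reverse_cons, List.reverse_append]
    simp only [List.append_assoc, List.singleton_append]
  | all i φ ih =>
    intro r o w
    rw [Fm.enc, List.append_assoc, List.append_assoc, prs_tag0]
    have e : expK (tk (9 + 7) 0) ++ r = [(), ()] :: [] :: r := rfl
    rw [e, prs_tag2, ih, fmT, List.reverse_cons]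
    simp only [List.append_assoc, List.singleton_append]

theorem parse_fm (φ : Fm) : parse φ.enc = fmT φ := by
  unfold parse
  have h := prs_fm φ [] [] []
  rw [List.append_nil, List.append_nil] at h
  rw [h]
  simp

example : type_of% @parse_fm := @parse_fm

end Pool.Agent.RO
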