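import Pool.Agent.Lib_helper78.RF.F.FNA
import Pool.Agent.Lib_helper78.RF.F.FNB
import Pool.Agent.Lib_helper78.RO.DefsB
import Pool.Agent.Lib_helper78.RO.F.CHN
import Pool.Agent.Lib_helper78.RO.F.CMC
import Pool.Agent.Lib_helper78.RO.F.CMP
import Pool.Agent.Lib_helper78.RO.F.ENB
import Pool.Agent.Lib_helper78.RO.F.FMU
import Pool.Agent.Lib_helper78.RO.F.RDN
import Pool.Agent.Lib_helper78.RO.F.SND
import Pool.Agent.Lib_helper78.RO.F.VLC

/-!
# Block DTP: proofs as data
-/

set_option autoImplicit false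

namespace Pool.Agent.RO

open Pool.Agent.CK Pool.Agent.RF Pool.Agent.CKP

variable {O : Lang} {γ : Type} [ToD γ]

theorem pfBits_eq {cert : List Line} {l : List Fm} (h : cert.map lineF = l.map fmT) :
    pfBits cert = pEnc l := by
  unfold pfBits pEnc
  rw [h]
  clear h
  induction l with
  | nil => rfl
  | cons a t ih =>
    rw [List.map_cons, List.flatMap_cons, ih, encT_fm, List.map_cons, List.flatten_cons]

theorem dtp_sv (s : List Bool) (u : List Unit) :
    sv s ≤ ushl u 1 ↔ Nat.size (val s) ≤ u.length := by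
  rw [sv_eq, ushl_eq, one_mul, Nat.size_le, Nat.lt_iff_add_one_le]

theorem dataP_sound {a : RData} {φ : Fm} (h : dataP O a (fmT φ) = true) :
    ∃ (c : Cmd) (l : List Fm), encC a.1.1 = cEnc c ∧ val a.2.1.2 = a.2.1.1.length ∧
      Nat.size (val (pEnc (l ++ [φ]))) ≤ a.2.1.1.length ∧
      TProof O (c, a.1.2.length) (l ++ [φ]) := by
  unfold dataP at h
  simp only [Bool.and_eq_true, decide_eq_true_eq] at h
  obtain ⟨⟨h1, h2⟩, h3, ⟨h4, h5⟩, h6⟩ := h
  obtain ⟨c, hc⟩ := (validC_iff _).mp h1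
  rw [hc, treeC_cm] at h6
  obtain ⟨l, hl, hp⟩ := chk_sound h6
  have hb := pfBits_eq hl
  refine ⟨c, l, ?_, ?_, ?_, ?_⟩
  · rw [hc, encC_cm]
  · rw [sv_eq] at h2
    omega
  · rw [dtp_sv, hb] at h3
    exact h3
  · unfold TProof
    have hlen := chainQ_len h4 h5
    rw [hlen, sizeU_len, hb] at hp
    exact hp

theorem dataP_complete {T : Th} {n : ℕ} {l : List Fm} {φ : Fm}
    (hn : Nat.size (val (pEnc (l ++ [φ]))) ≤ n) (h : TProof O T (l ++ [φ]))
    (s : List Bool × List Bool × List Bool) :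
    ∃ a : RData, a.1.1 = cmT T.1 ∧ a.1.2 = List.replicate T.2 () ∧
      a.2.1.1 = List.replicate n () ∧ val a.2.1.2 = n ∧ a.2.2.1 = s ∧
      dataP O a (fmT φ) = true := by
  obtain ⟨nn, hnn⟩ := val_surj n
  obtain ⟨clk, hk, hq⟩ := chainQ_exists (sizeU (pEnc (l ++ [φ]))) T.2
  have hlen := chainQ_len hq hk
  rw [sizeU_len] at hlen
  unfold TProof at h
  rw [← hlen] at h
  obtain ⟨cert, h1, h2, -⟩ := chk_complete h
  have hb := pfBits_eq h1
  refine ⟨((cmT T.1, List.replicate T.2 ()), (List.replicate n (), nn), s, (cert, clk)), rfl, rfl,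
    rfl, hnn, rfl, ?_⟩
  unfold dataP
  simp only [Bool.and_eq_true, decide_eq_true_eq]
  refine ⟨⟨(validC_iff _).mpr ⟨T.1, rfl⟩, ?_⟩, ?_, ⟨?_, ?_⟩, ?_⟩
  · rw [sv_eq, hnn, List.length_replicate]
  · rw [dtp_sv, hb, List.length_replicate]
    exact hn
  · rw [hb]
    exact hq
  · rw [hk, List.length_replicate]
  · rw [treeC_cm]
    exact h2

example : type_of% @pfBits_eq := @pfBits_eq
example : type_of% @dataP_sound := @dataP_sound
example : type_of% @dataP_complete := @dataP_complete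

end Pool.Agent.RO
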