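import Pool.Agent.Lib_helper78.RF.F.FNA
import Pool.Agent.Lib_helper78.RF.F.FNB
import Pool.Agent.Lib_helper78.RO.DefsB
import Pool.Agent.Lib_helper78.RO.F.CMC
import Pool.Agent.Lib_helper78.RO.F.DTP
import Pool.Agent.Lib_helper78.RO.F.ENB
import Pool.Agent.Lib_helper78.RO.F.EQT
import Pool.Agent.Lib_helper78.RO.F.FMU
import Pool.Agent.Lib_helper78.RO.F.RDN
import Pool.Agent.Lib_helper78.RO.F.RFT

set_option autoImplicit false

namespace Pool.Agent.RO

open Pool.Agent.CK Pool.Agent.RF Pool.Agent.CKP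

variable {O : Lang} {γ : Type} [ToD γ]

theorem dtr_unit (u : List Unit) : List.replicate u.length () = u := by
  induction u with
  | nil => rfl
  | cons a u ih => rw [List.length_cons, List.replicate_succ, ih]

theorem dtr_size (s : List Bool) (u : List Unit) :
    sv s ≤ ushl u 1 ↔ Nat.size (val s) ≤ u.length := by
  rw [sv_eq, ushl_eq, one_mul, Nat.size_le]
  exact Nat.succ_le_iff

theorem dtr_mu (e x z : List Bool) : muT (numT e) (numT x) (numT z) =
    fmT (mu (num (val e)) (num (val x)) (num (val z))) := by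
  rw [numT_eq, numT_eq, numT_eq, muT_eq]

theorem dataR_sound {M : List Unit} {χ : Fm} {a : RData} (h : dataR O M (fmT χ) a = true) :
    ∃ (T : Th) (n : ℕ), χ = .neg (RFN T n) ∧ ¬ RfnT O T n := by
  unfold dataR at h
  simp only [Bool.and_eq_true, decide_eq_true_iff, eqT_tks, dtr_size, dtr_mu] at h
  obtain ⟨h1, ⟨he, hx, hz⟩, h2, h3⟩ := h
  obtain ⟨c, l, hc, hv, hs, hp⟩ := dataP_sound h2
  refine ⟨(c, a.1.2.length), a.2.1.1.length, ?_, ?_⟩
  · apply fmT_inj
    rw [h1, hc]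
    have := rfnT_eq (c, a.1.2.length) a.2.1.2
    rw [hv, dtr_unit] at this
    rw [fmT, ← this]
    rfl
  · intro hR
    have := hR _ _ _ l he hx hz hs hp
    rw [falseMu_iff] at h3
    exact h3.2.2 this

theorem dataC_sound {χ : Fm} {a : RData} (h : dataC O (fmT χ) a = true) :
    ∃ (T : Th) (n : ℕ), χ = .neg (Con T n) ∧ ¬ ConT O T n := by
  unfold dataC at h
  simp only [Bool.and_eq_true, eqT_tks] at h
  obtain ⟨h1, h2⟩ := h
  obtain ⟨c, l, hc, hv, hs, hp⟩ := dataP_sound h2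
  refine ⟨(c, a.1.2.length), a.2.1.1.length, ?_, ?_⟩
  · apply fmT_inj
    rw [h1, hc]
    have := conT_eq (c, a.1.2.length) a.2.1.2
    rw [hv, dtr_unit] at this
    rw [fmT, ← this]
    rfl
  · intro hC
    exact hC l hs hp

theorem dataR_complete {T : Th} {n : ℕ} (h : ¬ RfnT O T n) : ∃ (a : RData) (M0 : ℕ),
    ∀ M : List Unit, M0 ≤ M.length → dataR O M (fmT (.neg (RFN T n))) a = true := by
  unfold RfnT at h
  push Not at h
  obtain ⟨e, x, z, l, he, hx, hz, hl, hp, hm⟩ := h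
  obtain ⟨e, rfl⟩ := val_surj e
  obtain ⟨x, rfl⟩ := val_surj x
  obtain ⟨z, rfl⟩ := val_surj z
  obtain ⟨a, ha1, ha2, ha3, ha4, ha5, ha6⟩ := dataP_complete hl hp (e, x, z)
  refine ⟨a, max (8 * e.length + 8) z.length, fun M hM => ?_⟩
  unfold dataR
  rw [ha5]
  simp only [Bool.and_eq_true, decide_eq_true_iff, eqT_tks, dtr_size, dtr_mu]
  rw [ha3, List.length_replicate]
  refine ⟨?_, ⟨he, hx, hz⟩, ha6, ?_⟩
  · rw [ha1, ha2, encC_cm, rfnT_eq, ha4]
    rfl
  · rw [falseMu_iff]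
    exact ⟨le_trans (le_max_left _ _) hM, le_trans (le_max_right _ _) hM, hm⟩

theorem dataC_complete {T : Th} {n : ℕ} (h : ¬ ConT O T n) :
    ∃ a : RData, dataC O (fmT (.neg (Con T n))) a = true := by
  unfold ConT at h
  push Not at h
  obtain ⟨l, hl, hp⟩ := h
  obtain ⟨a, ha1, ha2, ha3, ha4, ha5, ha6⟩ := dataP_complete hl hp ([], [], [])
  refine ⟨a, ?_⟩
  unfold dataC
  simp only [Bool.and_eq_true, eqT_tks]
  refine ⟨?_, ha6⟩
  rw [ha1, ha2, encC_cm, conT_eq, ha4]
  rfl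

example : type_of% @dataR_sound := @dataR_sound
example : type_of% @dataC_sound := @dataC_sound
example : type_of% @dataR_complete := @dataR_complete
example : type_of% @dataC_complete := @dataC_complete

end Pool.Agent.RO
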