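import Pool.Agent.Lib_helper78.RF.F.FNA
import Pool.Agent.Lib_helper78.RF.F.FNB
import Pool.Agent.Lib_helper78.RO.DefsB
import Pool.Agent.Lib_helper78.RO.F.DCP
import Pool.Agent.Lib_helper78.RO.F.DTR
import Pool.Agent.Lib_helper78.RO.F.STR

/-! Block RRF: refutations of the finite reflection sentences found by exhaustive search -/

set_option autoImplicit false

namespace Pool.Agent.RO

open Pool.Agent.CK Pool.Agent.RF Pool.Agent.CKP

variable {O : Lang} {γ : Type} [ToD γ]

theorem rrf_map {α : Type} [ToD α] (f : D → α) (h : ∀ a : α, f (toD a) = a) (l : List α) :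
    (toList (toD l)).map f = l := by
  rw [toList_toD, List.map_map]
  conv_rhs => rw [← List.map_id l]
  congr 1
  funext a
  exact h a

theorem rrf_toU (l : List Unit) : toU (toD l) = l :=
  rrf_map (fun _ => ()) (fun _ => rfl) l

theorem toRData_toD (a : RData) : toRData (toD a) = a := by
  obtain ⟨⟨p, k⟩, ⟨n, s⟩, ⟨e, x, z⟩, ⟨c, l⟩⟩ := a
  show ((toTks (toD p), toU (toD k)), (toU (toD n), toBits (toD s)),
    (toBits (toD e), toBits (toD x), toBits (toD z)),
    (toCert (toD c), (toList (toD l)).map toU)) = ((p, k), (n, s), (e, x, z), (c, l))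
  rw [toTks_toD, rrf_toU, rrf_toU, toBits_toD, toBits_toD, toBits_toD, toBits_toD, toCert_toD,
    rrf_map toU rrf_toU]

theorem refRfnQ_sound {M : List Unit} {χ : Fm} (h : refRfnQ O M (fmT χ) = true) :
    (∃ (T : Th) (n : ℕ), χ = .neg (RFN T n) ∧ ¬ RfnT O T n) ∨
      ∃ (T : Th) (n : ℕ), χ = .neg (Con T n) ∧ ¬ ConT O T n := by
  unfold refRfnQ at h
  rw [List.any_eq_true] at h
  obtain ⟨w, -, hw⟩ := h
  rw [Bool.or_eq_true] at hw
  rcases hw with hw | hw
  · exact Or.inl (dataR_sound hw)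
  · exact Or.inr (dataC_sound hw)

theorem rrf_find {M : List Unit} (a : RData) (h : sz a ≤ M.length) :
    ∃ w ∈ allStr M, toRData (dec w) = a := by
  obtain ⟨w, hw, hd⟩ := dec_pad (toD a) M.length h
  exact ⟨w, mem_allStr.2 hw, by rw [hd, toRData_toD]⟩

theorem refRfnQ_R {T : Th} {n : ℕ} (h : ¬ RfnT O T n) : ∃ M0 : ℕ, ∀ M : List Unit,
    M0 ≤ M.length → refRfnQ O M (fmT (.neg (RFN T n))) = true := by
  obtain ⟨a, M1, hM⟩ := dataR_complete h
  refine ⟨max M1 (sz a), fun M h1 => ?_⟩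
  obtain ⟨w, hw, he⟩ := rrf_find (M := M) a ((le_max_right _ _).trans h1)
  unfold refRfnQ
  rw [List.any_eq_true]
  refine ⟨w, hw, ?_⟩
  rw [Bool.or_eq_true, he]
  exact Or.inl (hM M ((le_max_left _ _).trans h1))

theorem refRfnQ_C {T : Th} {n : ℕ} (h : ¬ ConT O T n) : ∃ M0 : ℕ, ∀ M : List Unit,
    M0 ≤ M.length → refRfnQ O M (fmT (.neg (Con T n))) = true := by
  obtain ⟨a, ha⟩ := dataC_complete h
  refine ⟨sz a, fun M h1 => ?_⟩
  obtain ⟨w, hw, he⟩ := rrf_find (M := M) a h1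
  unfold refRfnQ
  rw [List.any_eq_true]
  refine ⟨w, hw, ?_⟩
  rw [Bool.or_eq_true, he]
  exact Or.inr ha

example : type_of% @toRData_toD := @toRData_toD
example : type_of% @refRfnQ_sound := @refRfnQ_sound
example : type_of% @refRfnQ_R := @refRfnQ_R
example : type_of% @refRfnQ_C := @refRfnQ_C

end Pool.Agent.RO
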