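import Pool.Agent.Lib_helper78.RF.F.FNA
import Pool.Agent.Lib_helper78.RF.F.FNB
import Pool.Agent.Lib_helper78.RO.DefsB
import Pool.Agent.Lib_helper78.RF.F.BEX
import Pool.Agent.Lib_helper78.RO.F.ENB
import Pool.Agent.Lib_helper78.RO.F.EQT
import Pool.Agent.Lib_helper78.RO.F.IND
import Pool.Agent.Lib_helper78.RO.F.INP
import Pool.Agent.Lib_helper78.RO.F.PDP
import Pool.Agent.Lib_helper78.RO.F.PDQ
import Pool.Agent.Lib_helper78.RO.F.PRP
import Pool.Agent.Lib_helper78.RO.F.PRS
import Pool.Agent.Lib_helper78.RO.F.RDN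
import Pool.Agent.Lib_helper78.RO.F.RDP
import Pool.Agent.Lib_helper78.RO.F.RMU
import Pool.Agent.Lib_helper78.RO.F.RRF
import Pool.Agent.Lib_helper78.RO.F.TDP
import Pool.Agent.Lib_helper78.RO.F.VLD

/-! Random oracles (MP_5c38ab_lc), part B: block BAL (assembly). -/

set_option autoImplicit false

namespace Pool.Agent.RO

open Pool.Agent.CK Pool.Agent.RF Pool.Agent.CKP

variable {O : Lang} {γ : Type} [ToD γ]

theorem b0B_fm (σ : Fm) : b0B O σ.enc = true ↔
    (∃ a b : ℕ, σ = .le (num a) (num b) ∧ a ≤ b) ∨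
    (∃ x : List Bool, σ = .orc (num (val x)) ∧ O x = true) ∨
    (∃ x : List Bool, σ = .neg (.orc (num (val x))) ∧ O x = false) ∨ Ind σ ∨
    ∃ (m : ℕ) (χ : Fm), σ = pad m χ ∧
      (refMuQ O (List.replicate (Nat.size m - 1) ()) (fmT χ) = true ∨
        refRfnQ O (List.replicate (Nat.size m - 1) ()) (fmT χ) = true) := by
  unfold b0B
  rw [parse_fm, encT_fm]
  have h1 : validT true (fmT σ) = true := (validT_fm _).2 ⟨σ, rfl⟩
  have h2 : eqT σ.enc σ.enc = true := (eqT_bits _ _).2 rfl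
  rw [h1, h2, Bool.true_and, Bool.true_and, Bool.or_eq_true, Bool.or_eq_true, Bool.or_eq_true,
    leQ_iff, orcQ_iff, indQ_fm, padQ_fm]
  constructor
  · rintro ((⟨a, b, h, hab⟩ | ⟨x, h, hx⟩ | ⟨x, h, hx⟩) | h | h)
    · exact Or.inl ⟨a, b, fmT_inj h, hab⟩
    · exact Or.inr (Or.inl ⟨x, fmT_inj h, hx⟩)
    · exact Or.inr (Or.inr (Or.inl ⟨x, fmT_inj h, hx⟩))
    · exact Or.inr (Or.inr (Or.inr (Or.inl h)))
    · exact Or.inr (Or.inr (Or.inr (Or.inr h)))
  · rintro (⟨a, b, h, hab⟩ | ⟨x, h, hx⟩ | ⟨x, h, hx⟩ | h | h)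
    · exact Or.inl (Or.inl ⟨a, b, by rw [h], hab⟩)
    · exact Or.inl (Or.inr (Or.inl ⟨x, by rw [h], hx⟩))
    · exact Or.inl (Or.inr (Or.inr ⟨x, by rw [h], hx⟩))
    · exact Or.inr (Or.inl h)
    · exact Or.inr (Or.inr h)

theorem PTime_b0B : PTime O (b0B O) := by
  have hp : PTime O (fun s : List Bool => parse s) := PTime_parse PTime.id
  have h : PTime O (fun s : List Bool => validT true (parse s) && (eqT (encT (parse s)) s &&
    ((leQ (parse s) || orcQ O (parse s)) || (indQ (parse s) || padQ O (parse s))))) :=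
    (PTime_validT true hp).and ((PTime_eqT (PTime_encT hp) PTime.id).and
      (((PTime_leQ hp).or (PTime_orcQ hp)).or ((PTime_indQ hp).or (PTime_padQ hp))))
  exact h.of_eq fun _ => rfl

/-- a sound padded sentence -/
theorem bal_sound {M : List Unit} {χ : Fm}
    (h : refMuQ O M (fmT χ) = true ∨ refRfnQ O M (fmT χ) = true) : χ.Closed ∧ χ.True O := by
  have hneg : ∀ ψ : Fm, ψ.Closed → (Fm.neg ψ).Closed := fun ψ h => h
  rcases h with h | h
  · obtain ⟨e, x, z, rfl, hm⟩ := refMuQ_sound h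
    exact ⟨hneg _ (closed_mu e x z), fun v h' => hm ((holds_mu O v e x z).1 h')⟩
  · rcases refRfnQ_sound h with ⟨T, n, rfl, hm⟩ | ⟨T, n, rfl, hm⟩
    · exact ⟨hneg _ (closed_RFN T n), fun v h' => hm ((holds_RFN O v T n).1 h')⟩
    · exact ⟨hneg _ (closed_Con T n), fun v h' => hm ((holds_Con O v T n).1 h')⟩

/-- base theories (which contain `S^1_2`) exist relative to every oracle -/
theorem base_all (O : Lang) : ∃ B : Fm → Prop, BaseD O B ∧ ∀ σ, S12 σ → B σ := by
  have hprov : ∀ (χ : Fm) (M0 : ℕ), (refMuQ O (List.replicate M0 ()) (fmT χ) = true ∨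
      refRfnQ O (List.replicate M0 ()) (fmT χ) = true) →
      Provable (fun φ => b0B O φ.enc = true) χ := by
    intro χ M0 h
    have h1 : b0B O (pad (2 ^ M0) χ).enc = true := by
      rw [b0B_fm]
      refine Or.inr (Or.inr (Or.inr (Or.inr ⟨2 ^ M0, χ, rfl, ?_⟩)))
      have h2 : Nat.size (2 ^ M0) - 1 = M0 := by
        rw [Nat.size_pow]; omega
      rw [h2]
      exact h
    obtain ⟨l, hl, -⟩ := pad_proof (A := fun φ => b0B O φ.enc = true) h1
    exact ⟨l, hl⟩
  refine ⟨fun φ => b0B O φ.enc = true, ?_, fun σ h => ?_⟩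
  · refine
      { closed := ?_
        isTrue := ?_
        dec := ?_
        refMu := ?_
        refRFN := ?_
        refCon := ?_
        leD := ?_
        orcD := ?_
        orcN := ?_ }
    · intro σ h
      rcases (b0B_fm σ).1 h with ⟨a, b, rfl, -⟩ | ⟨x, rfl, -⟩ | ⟨x, rfl, -⟩ | h | ⟨m, χ, rfl, h3⟩
      · intro i hi
        rcases hi with hi | hi
        · exact num_has _ _ hi
        · exact num_has _ _ hi
      · intro i hi
        exact num_has _ _ hi
      · intro i hi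
        exact num_has _ _ hi
      · exact h.1
      · exact (pad_closed m χ).2 (bal_sound h3).1
    · intro σ h
      rcases (b0B_fm σ).1 h with ⟨a, b, rfl, hab⟩ | ⟨x, rfl, hx⟩ | ⟨x, rfl, hx⟩ | h |
        ⟨m, χ, rfl, h3⟩
      · intro v
        show (num a).ev v ≤ (num b).ev v
        rw [ev_num, ev_num]
        exact hab
      · intro v
        exact ⟨x, by rw [ev_num], hx⟩
      · intro v h'
        obtain ⟨y, hy, hy'⟩ := h'
        rw [ev_num] at hy
        rw [val_inj hy, hx] at hy'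
        exact absurd hy' (by simp)
      · exact Ind_true h
      · exact (pad_true O m χ).2 (bal_sound h3).2
    · obtain ⟨c, k, hck⟩ := inP_of (A := b0B O) PTime_b0B
      exact ⟨(c, k), fun x => (hck x).1, fun σ => (hck σ.enc).2⟩
    · intro e x z h
      obtain ⟨M0, hM⟩ := refMuQ_complete (bex_neg_mu h)
      exact hprov _ M0 (Or.inl (hM _ (by rw [List.length_replicate])))
    · intro T n h
      obtain ⟨M0, hM⟩ := refRfnQ_R (bex_neg_rfn h)
      exact hprov _ M0 (Or.inr (hM _ (by rw [List.length_replicate])))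
    · intro T n h
      have h' : ¬ ConT O T n := fun h' => h fun v => (holds_Con O v T n).2 h'
      obtain ⟨M0, hM⟩ := refRfnQ_C h'
      exact hprov _ M0 (Or.inr (hM _ (by rw [List.length_replicate])))
    · intro a b hab
      exact (b0B_fm _).2 (Or.inl ⟨a, b, rfl, hab⟩)
    · intro x hx
      exact (b0B_fm _).2 (Or.inr (Or.inl ⟨x, rfl, hx⟩))
    · intro x hx
      exact (b0B_fm _).2 (Or.inr (Or.inr (Or.inl ⟨x, rfl, hx⟩)))
  · exact (b0B_fm σ).2 (Or.inr (Or.inr (Or.inr (Or.inl (S12_Ind h)))))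

example : type_of% @b0B_fm := @b0B_fm
example : type_of% @PTime_b0B := @PTime_b0B
example : type_of% @base_all := @base_all

end Pool.Agent.RO
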