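import Pool.Agent.Lib_helper78.RF.F.FNA
import Pool.Agent.Lib_helper78.RF.F.FNB
import Pool.Agent.Lib_helper78.RO.Defs
import Pool.Agent.Lib_helper78.RF.F.QRY

/-!
# Locality of the commitment predicate
-/

set_option autoImplicit false

namespace Pool.Agent.RO

open Pool.Agent.CK Pool.Agent.RF Pool.Agent.CKP

/-! ## Sizes -/

theorem loc_sz_foldr (w : List Bool) : sz (w.foldr dstep []) ≤ 4 * w.length + 1 := by
  induction w with
  | nil => simp
  | cons b w ih =>
    rw [List.foldr_cons, List.length_cons]
    have := sz_dstep b (w.foldr dstep [])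
    omega

theorem loc_size_dec (w : List Bool) : (dec w).size ≤ 4 * w.length + 1 := by
  have h := loc_sz_foldr w
  unfold dec
  cases hs : w.foldr dstep [] with
  | nil =>
    show D.nil.size ≤ _
    have : D.nil.size = 1 := rfl
    omega
  | cons a t =>
    rw [hs, sz_cons] at h
    show a.size ≤ _
    have : sz a = a.size := rfl
    omega

theorem loc_len_toList (d : D) : (toList d).length + 1 ≤ d.size := by
  induction d with
  | nil => exact le_refl _
  | cons a b _ ih =>
    show (toList b).length + 1 + 1 ≤ a.size + b.size + 1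
    have : 1 ≤ a.size := by
      cases a with
      | nil => exact le_refl _
      | cons x y => show 1 ≤ x.size + y.size + 1; omega
    omega

theorem loc_mem_size {d e : D} (h : e ∈ toList d) : e.size ≤ d.size := by
  induction d with
  | nil => exact absurd h List.not_mem_nil
  | cons a b _ ih =>
    show e.size ≤ a.size + b.size + 1
    rcases List.mem_cons.1 (show e ∈ a :: toList b from h) with h | h
    · subst h; omega
    · have := ih h
      omega

theorem loc_cdr_size (d : D) : d.cdr.size ≤ d.size := by
  cases d with
  | nil => exact le_refl _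
  | cons a b => show b.size ≤ a.size + b.size + 1; omega

theorem loc_tagU (u : List Unit) : (tagU u).length = u.length + 1 := by
  unfold tagU
  simp

theorem loc_encK (t : Tk) : (encK t).length ≤ t.1.length + t.2.length + 2 := by
  unfold encK
  rw [List.length_append]
  have h1 : (tagU (if decide (9 ≤ t.1.length) = true then
      udrop (List.replicate 9 ()) t.1 else t.1)).length ≤ t.1.length + 1 := by
    rw [loc_tagU]
    split
    · have : (udrop (List.replicate 9 ()) t.1).length ≤ t.1.length := by
        rw [udrop_eq]
        simp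
      omega
    · exact le_refl _
  have h2 : (if (isK 0 t || isK 16 t) = true then tagU t.2 else []).length ≤ t.2.length + 1 := by
    split
    · rw [loc_tagU]
    · simp
  omega

theorem loc_encT (d : D) : (encT (toTks d)).length ≤ d.size := by
  induction d with
  | nil => exact Nat.zero_le _
  | cons e r _ ih =>
    have h1 : encT (toTks (.cons e r)) = encK (toTk e) ++ encT (toTks r) := rfl
    rw [h1, List.length_append]
    have h2 := loc_encK (toTk e)
    have h3 : (toTk e).1.length = (toList e.car).length := by
      show (toU e.car).length = _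
      unfold toU
      simp
    have h4 : (toTk e).2.length = (toList e.cdr).length := by
      show (toU e.cdr).length = _
      unfold toU
      simp
    have h5 := loc_len_toList e.car
    have h6 := loc_len_toList e.cdr
    have h7 : e.car.size + e.cdr.size ≤ e.size + 1 := by
      cases e with
      | nil => exact le_refl _
      | cons a b => show a.size + b.size ≤ a.size + b.size + 1 + 1; omega
    show _ ≤ e.size + r.size + 1
    omega

theorem loc_pc {d : D} {L : Line} (h : L ∈ toCert d) : (encT (pc L 0)).length ≤ d.size := by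
  unfold toCert at h
  obtain ⟨d1, hd1, rfl⟩ := List.mem_map.1 h
  have h1 := loc_mem_size hd1
  have h2 : pc (toLine d1) 0 = ((toList d1.cdr.cdr.cdr).map toTks).getD 0 [] := rfl
  rw [h2]
  cases hl : toList d1.cdr.cdr.cdr with
  | nil => exact Nat.zero_le _
  | cons a t =>
    show (encT (toTks a)).length ≤ _
    have h3 := loc_encT a
    have h4 : a.size ≤ d1.cdr.cdr.cdr.size := loc_mem_size (by rw [hl]; exact List.mem_cons_self)
    have h5 := loc_cdr_size d1
    have h6 := loc_cdr_size d1.cdr
    have h7 := loc_cdr_size d1.cdr.cdr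
    omega

theorem loc_cert_len (d : D) : (toCert d).length ≤ d.size := by
  unfold toCert
  rw [List.length_map]
  have := loc_len_toList d
  omega

theorem loc_allStr {b : List Unit} {w : List Bool} (h : w ∈ allStr b) : w.length = b.length := by
  have key : ∀ (b : List Unit) (L : List (List Bool)) (m : ℕ), (∀ x ∈ L, x.length = m) →
      ∀ x ∈ b.foldl (fun L _ => L.map (fun w => false :: w) ++ L.map (fun w => true :: w)) L,
        x.length = m + b.length := by
    intro b
    induction b with
    | nil => intro L m hL x hx; exact hL x hx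
    | cons u b ih =>
      intro L m hL x hx
      rw [List.foldl_cons] at hx
      have := ih _ (m + 1) (by
        intro y hy
        rcases List.mem_append.1 hy with hy | hy
        · obtain ⟨z, hz, rfl⟩ := List.mem_map.1 hy
          rw [List.length_cons, hL z hz]
        · obtain ⟨z, hz, rfl⟩ := List.mem_map.1 hy
          rw [List.length_cons, hL z hz]) x hx
      rw [this, List.length_cons]
      omega
  have := key b [[]] 0 (by intro x hx; rw [List.mem_singleton.1 hx]; rfl) w h
  omega

/-! ## The check depends only on the answers about axioms -/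

theorem loc_lineOK {O O' : Lang} {c : D} {N : List Unit} {L : Line}
    (h : accU O c (encT (pc L 0)) [] N = accU O' c (encT (pc L 0)) [] N)
    (seen : List (List Tk)) : lineOK O c N seen L = lineOK O' c N seen L := by
  unfold lineOK
  rw [h]

theorem loc_chk {O O' : Lang} {c : D} {N : List Unit} {cert : List Line}
    (h : ∀ L ∈ cert, accU O c (encT (pc L 0)) [] N = accU O' c (encT (pc L 0)) [] N)
    (goal : List Tk) : chk O c N cert goal = chk O' c N cert goal := by
  have key : ∀ (cert : List Line),
      (∀ L ∈ cert, accU O c (encT (pc L 0)) [] N = accU O' c (encT (pc L 0)) [] N) →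
      ∀ q, cert.foldl (chkStep O c N) q = cert.foldl (chkStep O' c N) q := by
    intro cert
    induction cert with
    | nil => intro _ q; rfl
    | cons L cert ih =>
      intro h q
      rw [List.foldl_cons, List.foldl_cons]
      have h1 : chkStep O c N q L = chkStep O' c N q L := by
        unfold chkStep
        rw [loc_lineOK (h L List.mem_cons_self)]
      rw [h1]
      exact ih (fun L' hL' => h L' (List.mem_cons_of_mem _ hL')) _
  unfold chk
  rw [key cert h]

theorem loc_queries (O : Lang) (c : Cmd) (N : List Unit) (cert : List Line) (M : ℕ)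
    (hM : ∀ L ∈ cert, (encT (pc L 0)).length + N.length ≤ M) :
    ∃ Q : List (List Bool), Q.length ≤ cert.length * N.length ∧ (∀ q ∈ Q, q.length < M) ∧
      ∀ O' : Lang, (∀ q ∈ Q, O' q = O q) → ∀ L ∈ cert,
        accU O (cmdD c) (encT (pc L 0)) [] N = accU O' (cmdD c) (encT (pc L 0)) [] N := by
  have h0 : ∀ L : Line, ∃ Q : List (List Bool), L ∈ cert → Q.length ≤ N.length ∧
      (∀ q ∈ Q, q.length < M) ∧ ∀ O' : Lang, (∀ q ∈ Q, O' q = O q) →
        run O' c (encT (pc L 0)) [] N.length = run O c (encT (pc L 0)) [] N.length := by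
    intro L
    by_cases hL : L ∈ cert
    · obtain ⟨Q, hQ⟩ := run_queries O c (encT (pc L 0)) [] N.length M (hM L hL)
        (by have := hM L hL; simp only [List.length_nil]; omega)
      exact ⟨Q, fun _ => hQ⟩
    · exact ⟨[], fun h => absurd h hL⟩
  choose g hg using h0
  refine ⟨cert.flatMap g, QRY_flatMap cert g N.length fun L hL => (hg L hL).1, ?_, ?_⟩
  · intro q hq
    obtain ⟨L, hL, hq⟩ := List.mem_flatMap.1 hq
    exact (hg L hL).2.1 q hq
  · intro O' hO' L hL
    have h1 := (hg L hL).2.2 O' fun q hq => hO' q (List.mem_flatMap.2 ⟨L, hL, hq⟩)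
    rw [Bool.eq_iff_iff, accU_iff, accU_iff]
    unfold Accepts
    rw [h1]

/-- the questions of a commitment -/
theorem loc_main (S T : Th) (s : ℕ) (O : Lang) (h : AccS O S T s) :
    ∃ Q : List (List Bool), Q.length ≤ tb (st (s + 1)) ^ (S.2 + 1) ∧
      (∀ q ∈ Q, q.length < tb (st (s + 1)) + tb (st (s + 1)) ^ S.2 + 4) ∧
      ∀ O' : Lang, (∀ q ∈ Q, O' q = O q) → AccS O' S T s := by
  unfold AccS acc at h
  rw [List.any_eq_true] at h
  obtain ⟨w, hw, h⟩ := h
  set b : List Unit := List.replicate (st (s + 1)) () with hb
  have hbl : b.length = st (s + 1) := by rw [hb, List.length_replicate]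
  have hwl : w.length = st (s + 1) := by rw [loc_allStr hw, hbl]
  have hd := loc_size_dec w
  rw [hwl] at hd
  have htb : 4 * st (s + 1) + 1 ≤ tb (st (s + 1)) := by unfold tb; omega
  have htick : (tick S.2 b).length = tb (st (s + 1)) ^ S.2 := by
    unfold tick
    rw [List.length_replicate, hbl]
  obtain ⟨Q, h1, h2, h3⟩ := loc_queries O S.1 (tick S.2 b) (toCert (dec w))
    (tb (st (s + 1)) + tb (st (s + 1)) ^ S.2 + 4) (by
      intro L hL
      have := loc_pc hL
      rw [htick]
      omega)
  refine ⟨Q, h1.trans ?_, h2, fun O' hO' => ?_⟩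
  · rw [htick, pow_succ, mul_comm (tb (st (s + 1)) ^ S.2)]
    refine Nat.mul_le_mul_right _ ?_
    have := loc_cert_len (dec w)
    omega
  · unfold AccS acc
    rw [List.any_eq_true]
    refine ⟨w, hw, ?_⟩
    have h4 := h3 O' hO'
    rw [← loc_chk h4, ← loc_chk h4]
    exact h

variable {O : Lang} {γ : Type} [ToD γ]

theorem acc_local {O' : Lang} {S T : Th} {s : ℕ}
    (h : Agree (tb (st (s + 1)) + tb (st (s + 1)) ^ S.2 + 4) O O') :
    AccS O S T s ↔ AccS O' S T s := by
  constructor
  · intro hA
    obtain ⟨Q, -, h2, h3⟩ := loc_main S T s O hA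
    exact h3 O' fun q hq => (h q (h2 q hq)).symm
  · intro hA
    obtain ⟨Q, -, h2, h3⟩ := loc_main S T s O' hA
    exact h3 O fun q hq => h q (h2 q hq)

theorem acc_touch {S T : Th} {s : ℕ} (h : AccS O S T s) :
    ∃ Q : Finset (List Bool), Q.card ≤ tb (st (s + 1)) ^ (S.2 + 1) ∧
      ∀ O' : Lang, (∀ x ∈ Q, O' x = O x) → AccS O' S T s := by
  obtain ⟨Q, h1, -, h3⟩ := loc_main S T s O h
  refine ⟨Q.toFinset, (List.toFinset_card_le Q).trans h1, fun O' hO' => h3 O' fun q hq => ?_⟩
  exact hO' q (List.mem_toFinset.2 hq)

end Pool.Agent.RO
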